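import Pool.Agent.Helper684.Ergo.Lap
set_option autoImplicit false

open Metric Set Filter Topology

namespace Pool.Agent.Helper684.Ergo


/-- real derivative of a holomorphic curve -/
theorem lapK2_hasFDerivAt {E : Type*} [NormedAddCommGroup E] [NormedSpace ℂ E]
    {h : ℂ → E} {z : ℂ} (hh : DifferentiableAt ℂ h z) :
    ∃ L : ℂ →L[ℝ] E, HasFDerivAt h L z ∧ ∀ v, L v = v • deriv h z := by
  refine ⟨_, hh.hasDerivAt.hasFDerivAt.restrictScalars ℝ, fun v => ?_⟩
  simp

/-- extension of functionals to a completion -/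
theorem lapK2_ext {E F : Type*} [NormedAddCommGroup E] [NormedSpace ℂ E] [NormedAddCommGroup F]
    [NormedSpace ℂ F] (i : E →ₗᵢ[ℂ] F) (hi : DenseRange i) :
    ∃ X : (E →L[ℝ] ℝ) →L[ℝ] (F →L[ℝ] ℝ), ∀ f e, X f (i e) = f e := by
  set e : E →L[ℝ] F := i.toContinuousLinearMap.restrictScalars ℝ with he
  have hd : DenseRange e := hi
  have hb : ∀ x, ‖x‖ ≤ ((1 : NNReal) : ℝ) * ‖e x‖ := by
    intro x
    rw [NNReal.coe_one, one_mul]
    exact (i.norm_map x).ge
  have hu : IsUniformInducing e := i.isometry.isUniformInducing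
  let X0 : (E →L[ℝ] ℝ) →ₗ[ℝ] (F →L[ℝ] ℝ) :=
    { toFun := fun f => f.extend e
      map_add' := fun f g => by
        apply ContinuousLinearMap.extend_unique _ hd hu
        ext x
        simp [ContinuousLinearMap.extend_eq _ hd hu]
      map_smul' := fun c f => by
        apply ContinuousLinearMap.extend_unique _ hd hu
        ext x
        simp [ContinuousLinearMap.extend_eq _ hd hu] }
  refine ⟨X0.mkContinuous 1 (fun f => ?_), fun f x => ?_⟩
  · exact f.opNorm_extend_le hd hb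
  · exact f.extend_eq hd hu x

/-- derivative of a composition in a direction -/
theorem lapK2_fderiv_comp' {E F : Type*} [NormedAddCommGroup E] [NormedSpace ℂ E]
    [NormedAddCommGroup F] [NormedSpace ℂ F] (i : E →ₗᵢ[ℂ] F)
    (X : (E →L[ℝ] ℝ) →L[ℝ] (F →L[ℝ] ℝ)) (hX : ∀ f e, X f (i e) = f e) {g : E → ℝ}
    {h : ℂ → E} {z : ℂ} (hg : DifferentiableAt ℝ g (h z))
    (hh : DifferentiableAt ℂ (fun z => i (h z)) z) (v : ℂ) :
    fderiv ℝ (fun z => g (h z)) z v =
      X (fderiv ℝ g (h z)) (v • deriv (fun z => i (h z)) z) := by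
  obtain ⟨L, hL, hLv⟩ := lapK2_hasFDerivAt hh
  have hn : ∀ z', ‖h z' - h z‖ = ‖i (h z') - i (h z)‖ := by
    intro z'
    rw [← map_sub, i.norm_map]
  have hcont : Tendsto h (𝓝 z) (𝓝 (h z)) := by
    have h1 : ContinuousAt (fun z => i (h z)) z := hh.continuousAt
    exact i.isometry.isEmbedding.isInducing.continuousAt_iff.mpr h1
  have hO : (fun z' => h z' - h z) =O[𝓝 z] fun z' => z' - z := by
    have h1 := hL.isBigO_sub
    exact (h1.norm_left.congr_left fun z' => (hn z').symm).of_norm_left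
  have h1 : (fun z' => g (h z') - g (h z) - fderiv ℝ g (h z) (h z' - h z)) =o[𝓝 z]
      fun z' => z' - z :=
    (hg.hasFDerivAt.isLittleO.comp_tendsto hcont).trans_isBigO hO
  have h2 : (fun z' => (X (fderiv ℝ g (h z))) (i (h z') - i (h z) - L (z' - z))) =o[𝓝 z]
      fun z' => z' - z :=
    ((X (fderiv ℝ g (h z))).isBigO_comp _ _).trans_isLittleO hL.isLittleO
  have h3 : HasFDerivAt (fun z => g (h z)) ((X (fderiv ℝ g (h z))).comp L) z := by
    refine HasFDerivAt.of_isLittleO ((h1.add h2).congr_left fun z' => ?_)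
    have h4 : (X (fderiv ℝ g (h z))) (i (h z') - i (h z)) = fderiv ℝ g (h z) (h z' - h z) := by
      rw [← map_sub i, hX]
    rw [map_sub (X (fderiv ℝ g (h z))) (i (h z') - i (h z)), h4, ContinuousLinearMap.comp_apply]
    ring
  rw [h3.fderiv, ContinuousLinearMap.comp_apply, hLv]

/-- derivative of a composition in a direction -/
theorem lapK2_fderiv_comp {E : Type*} [NormedAddCommGroup E] [NormedSpace ℂ E] {g : E → ℝ}
    {h : ℂ → E} {z : ℂ} (hg : DifferentiableAt ℝ g (h z)) (hh : DifferentiableAt ℂ h z) (v : ℂ) :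
    fderiv ℝ (fun z => g (h z)) z v = fderiv ℝ g (h z) (v • deriv h z) := by
  obtain ⟨L, hL, hLv⟩ := lapK2_hasFDerivAt hh
  have h1 : HasFDerivAt (fun z => g (h z)) ((fderiv ℝ g (h z)).comp L) z :=
    hg.hasFDerivAt.comp z hL
  rw [h1.fderiv, ContinuousLinearMap.comp_apply, hLv]

/-- second derivative of a composition in one direction -/
theorem lapK2_second {E F : Type*} [NormedAddCommGroup E] [NormedSpace ℂ E]
    [NormedAddCommGroup F] [NormedSpace ℂ F] [CompleteSpace F] (i : E →ₗᵢ[ℂ] F)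
    (X : (E →L[ℝ] ℝ) →L[ℝ] (F →L[ℝ] ℝ)) (hX : ∀ f e, X f (i e) = f e) {g : E → ℝ}
    {h : ℂ → E} {w : ℂ} (hg : ContDiffAt ℝ 2 g (h w)) (hh : AnalyticAt ℂ h w) (v : ℂ) :
    fderiv ℝ (fun z => fderiv ℝ (fun z => g (h z)) z v) w v =
      X (fderiv ℝ g (h w)) ((v * v) • deriv (deriv (fun z => i (h z))) w) +
        fderiv ℝ (fderiv ℝ g) (h w) (v • deriv h w) (v • deriv h w) := by
  have hha : AnalyticAt ℂ (fun z => i (h z)) w :=
    (i.toContinuousLinearMap.analyticAt (h w)).comp hh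
  have hev1 : ∀ᶠ z in 𝓝 w, DifferentiableAt ℝ g (h z) := by
    have h1 : ∀ᶠ y in 𝓝 (h w), ContDiffAt ℝ 2 g y := hg.eventually (by decide)
    have h2 := hh.continuousAt.eventually h1
    exact h2.mono fun z hz => hz.differentiableAt (by norm_num)
  have hev2 : ∀ᶠ z in 𝓝 w, DifferentiableAt ℂ (fun z => i (h z)) z :=
    hha.eventually_analyticAt.mono fun z hz => hz.differentiableAt
  have heq : (fun z => fderiv ℝ (fun z => g (h z)) z v) =ᶠ[𝓝 w]
      fun z => X (fderiv ℝ g (h z)) (v • deriv (fun z => i (h z)) z) := by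
    filter_upwards [hev1, hev2] with z h1 h2
    exact lapK2_fderiv_comp' i X hX h1 h2 v
  rw [heq.fderiv_eq]
  obtain ⟨L, hL, hLv⟩ := lapK2_hasFDerivAt hh.differentiableAt
  obtain ⟨M, hM, hMv⟩ := lapK2_hasFDerivAt hha.deriv.differentiableAt
  have hD : DifferentiableAt ℝ (fderiv ℝ g) (h w) :=
    (hg.fderiv_right (m := 1) (by norm_num)).differentiableAt (by norm_num)
  have hc0 : HasFDerivAt (fun z => fderiv ℝ g (h z)) ((fderiv ℝ (fderiv ℝ g) (h w)).comp L) w :=
    hD.hasFDerivAt.comp w hL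
  have hc : HasFDerivAt (fun z => X (fderiv ℝ g (h z)))
      (X.comp ((fderiv ℝ (fderiv ℝ g) (h w)).comp L)) w := X.hasFDerivAt.comp w hc0
  have hu : HasFDerivAt (fun z => v • deriv (fun z => i (h z)) z) (v • M) w := hM.const_smul v
  have hcu := hc.clm_apply hu
  have hdw : deriv (fun z => i (h z)) w = i (deriv h w) :=
    (i.toContinuousLinearMap.hasFDerivAt.comp_hasDerivAt w hh.differentiableAt.hasDerivAt).deriv
  rw [hcu.fderiv]
  rw [add_apply, ContinuousLinearMap.comp_apply, ContinuousLinearMap.flip_apply, smul_apply,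
    ContinuousLinearMap.comp_apply, ContinuousLinearMap.comp_apply, hLv, hMv, smul_smul, hdw,
    ← i.map_smul, hX]

/-- the Laplacian of a composition -/
theorem lapK2_main {E : Type*} [NormedAddCommGroup E] [NormedSpace ℂ E] {g : E → ℝ}
    {h : ℂ → E} {w : ℂ} (hg : ContDiffAt ℝ 2 g (h w)) (hh : AnalyticAt ℂ h w) :
    lap (fun z => g (h z)) w =
      fderiv ℝ (fderiv ℝ g) (h w) (deriv h w) (deriv h w) +
        fderiv ℝ (fderiv ℝ g) (h w) (Complex.I • deriv h w) (Complex.I • deriv h w) := by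
  unfold lap
  have hd : DenseRange (UniformSpace.Completion.toComplₗᵢ (𝕜 := ℂ) (E := E)) :=
    UniformSpace.Completion.denseRange_coe
  obtain ⟨X, hX⟩ := lapK2_ext _ hd
  rw [lapK2_second _ X hX hg hh 1, lapK2_second _ X hX hg hh Complex.I]
  set y := deriv (deriv fun z => UniformSpace.Completion.toComplₗᵢ (𝕜 := ℂ) (E := E) (h z)) w
  have h1 : ((1 : ℂ) * 1) • y = - ((Complex.I * Complex.I) • y) := by
    rw [Complex.I_mul_I, neg_smul, neg_neg, one_mul]
  rw [h1, map_neg, one_smul]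
  ring

/-- the quadratic form on complex multiples -/
theorem lapK2_quad {E : Type*} [NormedAddCommGroup E] [NormedSpace ℂ E]
    (B : E →L[ℝ] E →L[ℝ] ℝ) (c : ℂ) (v : E) :
    B (c • v) (c • v) + B (Complex.I • (c • v)) (Complex.I • (c • v)) =
      ‖c‖ ^ 2 * (B v v + B (Complex.I • v) (Complex.I • v)) := by
  have h1 : c • v = c.re • v + c.im • (Complex.I • v) := by
    conv_lhs => rw [← Complex.re_add_im c]
    rw [add_smul, mul_smul]
    rfl
  have h2 : Complex.I • (c • v) = c.re • (Complex.I • v) + (-c.im) • v := by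
    rw [h1, smul_add, smul_comm Complex.I c.re v, smul_comm Complex.I c.im, smul_smul,
      Complex.I_mul_I, neg_smul, one_smul, smul_neg, neg_smul]
  rw [h2, h1]
  simp only [map_add, map_smul, ContinuousLinearMap.add_apply, ContinuousLinearMap.smul_apply,
    smul_eq_mul]
  rw [← Complex.normSq_eq_norm_sq, Complex.normSq_apply]
  ring

theorem lap_comp_holo {U : ℂ → ℝ} {j : ℂ → ℂ} {w : ℂ} (hU : ContDiffAt ℝ 2 U (j w))
    (hj : AnalyticAt ℂ j w) :
    lap (fun z => U (j z)) w = ‖deriv j w‖ ^ 2 * lap U (j w) := by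
  rw [lapK2_main hU hj]
  have h2 := lapK2_main (g := U) (h := fun z : ℂ => z) (w := j w) hU analyticAt_id
  have h3 : lap (fun z => U z) (j w) = lap U (j w) := rfl
  rw [h3] at h2
  rw [h2, deriv_id'']
  have h4 := lapK2_quad (fderiv ℝ (fderiv ℝ U) (j w)) (deriv j w) (1 : ℂ)
  simp only [smul_eq_mul, mul_one] at h4 ⊢
  exact h4

theorem norm_fderiv_comp_holo {U : ℂ → ℝ} {j : ℂ → ℂ} {w : ℂ}
    (hU : DifferentiableAt ℝ U (j w)) (hj : DifferentiableAt ℂ j w) :
    ‖fderiv ℝ (fun z => U (j z)) w‖ = ‖deriv j w‖ * ‖fderiv ℝ U (j w)‖ := by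
  have hv : ∀ v, fderiv ℝ (fun z => U (j z)) w v = fderiv ℝ U (j w) (v * deriv j w) := by
    intro v
    rw [lapK2_fderiv_comp hU hj v, smul_eq_mul]
  apply le_antisymm
  · apply ContinuousLinearMap.opNorm_le_bound _ (by positivity)
    intro v
    rw [hv]
    refine ((fderiv ℝ U (j w)).le_opNorm _).trans ?_
    rw [norm_mul]
    apply le_of_eq
    ring
  · by_cases hc : deriv j w = 0
    · rw [hc, norm_zero, zero_mul]
      exact norm_nonneg _
    · have hc' : 0 < ‖deriv j w‖ := norm_pos_iff.mpr hc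
      rw [mul_comm, ← le_div_iff₀ hc']
      apply ContinuousLinearMap.opNorm_le_bound _ (by positivity)
      intro u
      have h1 : fderiv ℝ U (j w) u = fderiv ℝ (fun z => U (j z)) w (u / deriv j w) := by
        rw [hv, div_mul_cancel₀ _ hc]
      rw [h1]
      refine ((fderiv ℝ (fun z => U (j z)) w).le_opNorm _).trans ?_
      rw [norm_div]
      apply le_of_eq
      ring

theorem lap_comp_curve {E : Type*} [NormedAddCommGroup E] [NormedSpace ℂ E] {g : E → ℝ}
    {h : ℂ → E} {w : ℂ} (hg : ContDiffAt ℝ 2 g (h w)) (hh : AnalyticAt ℂ h w) :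
    lap (fun z => g (h z)) w = lap (fun ζ : ℂ => g (h w + ζ • deriv h w)) 0 := by
  rw [lapK2_main hg hh]
  have hd : HasDerivAt (fun ζ : ℂ => h w + ζ • deriv h w) (deriv h w) 0 := by
    have := ((hasDerivAt_id (0 : ℂ)).smul_const (deriv h w)).const_add (h w)
    simpa using this
  have ha : AnalyticAt ℂ (fun ζ : ℂ => h w + ζ • deriv h w) 0 :=
    analyticAt_const.add (analyticAt_id.smul analyticAt_const)
  have h0 : h w + (0 : ℂ) • deriv h w = h w := by rw [zero_smul, add_zero]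
  have h2 := lapK2_main (g := g) (h := fun ζ : ℂ => h w + ζ • deriv h w) (w := 0)
    (by simpa [h0] using hg) ha
  rw [h2, hd.deriv, h0]

/-- the Laplacian along a complex line -/
theorem lapK2_line {E : Type*} [NormedAddCommGroup E] [NormedSpace ℂ E] {g : E → ℝ}
    {y v : E} (hg : ContDiffAt ℝ 2 g y) :
    lap (fun ζ : ℂ => g (y + ζ • v)) 0 =
      fderiv ℝ (fderiv ℝ g) y v v +
        fderiv ℝ (fderiv ℝ g) y (Complex.I • v) (Complex.I • v) := by
  have hd : HasDerivAt (fun ζ : ℂ => y + ζ • v) v 0 := by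
    have := ((hasDerivAt_id (0 : ℂ)).smul_const v).const_add y
    simpa using this
  have ha : AnalyticAt ℂ (fun ζ : ℂ => y + ζ • v) 0 :=
    analyticAt_const.add (analyticAt_id.smul analyticAt_const)
  have h0 : y + (0 : ℂ) • v = y := by rw [zero_smul, add_zero]
  have h2 := lapK2_main (g := g) (h := fun ζ : ℂ => y + ζ • v) (w := 0)
    (by simpa [h0] using hg) ha
  rw [h2, hd.deriv, h0]

theorem lap_line_smul {E : Type*} [NormedAddCommGroup E] [NormedSpace ℂ E] {g : E → ℝ}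
    {y v : E} (hg : ContDiffAt ℝ 2 g y) (c : ℂ) :
    lap (fun ζ : ℂ => g (y + ζ • (c • v))) 0 = ‖c‖ ^ 2 * lap (fun ζ : ℂ => g (y + ζ • v)) 0 := by
  rw [lapK2_line hg, lapK2_line hg, lapK2_quad]

/-- bounds in terms of the real derivatives of `g` -/
theorem abs_lap_line_le {E : Type*} [NormedAddCommGroup E] [NormedSpace ℂ E] {g : E → ℝ}
    {y v : E} (hg : ContDiffAt ℝ 2 g y) :
    |lap (fun ζ : ℂ => g (y + ζ • v)) 0| ≤ 2 * ‖fderiv ℝ (fderiv ℝ g) y‖ * ‖v‖ ^ 2 := by
  rw [lapK2_line hg]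
  have h1 : ∀ u : E, |fderiv ℝ (fderiv ℝ g) y u u| ≤ ‖fderiv ℝ (fderiv ℝ g) y‖ * ‖u‖ ^ 2 := by
    intro u
    rw [← Real.norm_eq_abs]
    refine ((fderiv ℝ (fderiv ℝ g) y).le_opNorm₂ u u).trans ?_
    apply le_of_eq
    ring
  have h2 := h1 v
  have h3 := h1 (Complex.I • v)
  rw [norm_smul, Complex.norm_I, one_mul] at h3
  calc |fderiv ℝ (fderiv ℝ g) y v v +
        fderiv ℝ (fderiv ℝ g) y (Complex.I • v) (Complex.I • v)|
      ≤ |fderiv ℝ (fderiv ℝ g) y v v| +
        |fderiv ℝ (fderiv ℝ g) y (Complex.I • v) (Complex.I • v)| := abs_add_le _ _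
    _ ≤ ‖fderiv ℝ (fderiv ℝ g) y‖ * ‖v‖ ^ 2 + ‖fderiv ℝ (fderiv ℝ g) y‖ * ‖v‖ ^ 2 :=
        add_le_add h2 h3
    _ = _ := by ring

end Pool.Agent.Helper684.Ergo
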