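import Pool.Agent.Helper684.Ergo.Hyp
set_option autoImplicit false

open MeasureTheory Metric Set Filter Topology
open scoped ComplexConjugate ENNReal

namespace Pool.Agent.Helper684.Ergo




theorem hh_zero (w : ℂ) : hh 0 w = 1 - ‖w‖ ^ 2 := by
  simp [hh]

theorem approx_id_J (n : ℕ) :
    ∫ w in ball (0:ℂ) 1, (1 - ‖w‖ ^ 2) ^ n = Real.pi / ((n:ℝ) + 1) := by
  have h1 : ∫ w in ball (0:ℂ) 1, (1 - ‖w‖ ^ 2) ^ n
      = ∫ w : ℂ, (Set.indicator (Iio (1:ℝ)) (fun y => (1 - y ^ 2) ^ n)) ‖w‖ := by
    rw [← integral_indicator measurableSet_ball]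
    congr 1
    ext w
    by_cases hw : ‖w‖ < 1
    · rw [indicator_of_mem (by simpa using hw), indicator_of_mem (by simpa using hw)]
    · rw [indicator_of_notMem (by simpa using hw), indicator_of_notMem (by simpa using hw)]
  rw [h1, integral_fun_norm_addHaar (μ := (volume : Measure ℂ))]
  have hv : (volume : Measure ℂ).real (ball 0 1) = Real.pi := by
    rw [Measure.real, Complex.volume_ball]
    simp
  rw [hv]
  have h2 : ∫ y in Ioi (0:ℝ), y ^ (Module.finrank ℝ ℂ - 1) • (Iio (1:ℝ)).indicator (fun y => (1 - y ^ 2) ^ n) y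
      = ∫ y in (0:ℝ)..1, y * (1 - y ^ 2) ^ n := by
    rw [intervalIntegral.integral_of_le zero_le_one, ← integral_indicator measurableSet_Ioi,
      integral_Ioc_eq_integral_Ioo, ← integral_indicator measurableSet_Ioo]
    congr 1
    ext y
    by_cases h0 : 0 < y
    · by_cases h1 : y < 1
      · simp [indicator, h0, h1, Complex.finrank_real_complex]
      · simp [indicator, h0, h1, Complex.finrank_real_complex]
    · simp [indicator, h0]
  have h3 : ∫ y in (0:ℝ)..1, y * (1 - y ^ 2) ^ n = 1 / (2 * ((n:ℝ) + 1)) := by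
    have hn : ((n:ℝ) + 1) ≠ 0 := by positivity
    have hd : ∀ y ∈ uIcc (0:ℝ) 1, HasDerivAt (fun y => -(1 - y ^ 2) ^ (n + 1) / (2 * ((n:ℝ) + 1)))
        (y * (1 - y ^ 2) ^ n) y := by
      intro y _
      have hb : HasDerivAt (fun y : ℝ => 1 - y ^ 2) (-(2 * y)) y := by
        have := (hasDerivAt_pow 2 y).const_sub 1
        simpa using this
      have := ((hb.pow (n + 1)).neg).div_const (2 * ((n:ℝ) + 1))
      have e : -(((n + 1 : ℕ) : ℝ) * (1 - y ^ 2) ^ (n + 1 - 1) * -(2 * y)) / (2 * ((n:ℝ) + 1))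
          = y * (1 - y ^ 2) ^ n := by
        rw [Nat.add_sub_cancel]
        push_cast
        field_simp
      rw [← e]
      exact this
    rw [intervalIntegral.integral_eq_sub_of_hasDerivAt hd]
    · simp
      field_simp
    · apply Continuous.intervalIntegrable
      fun_prop
  rw [h2, h3, Complex.finrank_real_complex]
  have hn : ((n:ℝ) + 1) ≠ 0 := by positivity
  simp only [smul_eq_mul, nsmul_eq_mul]
  field_simp
  push_cast
  ring

theorem approx_id_int (s : ℕ) (hs : 2 ≤ s) (F : ℂ → ℝ) :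
    ∫ w, hh 0 w ^ s * F w ∂hypVol = ∫ w in ball (0:ℂ) 1, (1 - ‖w‖ ^ 2) ^ (s - 2) * F w := by
  unfold hypVol
  rw [integral_withDensity_eq_integral_toReal_smul]
  · apply setIntegral_congr_fun measurableSet_ball
    intro w hw
    have hw' : ‖w‖ < 1 := by simpa using hw
    have hpos : 0 < 1 - ‖w‖ ^ 2 := by nlinarith [norm_nonneg w]
    simp only [hh_zero, smul_eq_mul]
    rw [ENNReal.toReal_ofReal (by positivity)]
    obtain ⟨k, rfl⟩ : ∃ k, s = k + 2 := ⟨s - 2, by omega⟩
    rw [Nat.add_sub_cancel, pow_add]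
    field_simp
  · apply Measurable.ennreal_ofReal
    fun_prop
  · exact ae_of_all _ (fun w => ENNReal.ofReal_lt_top)

/-- approximate identity: `((s-1)/π) (1-|w|²)^s dvol → δ₀` as `s → ∞` -/
theorem approx_id (F : ℂ → ℝ) (hF : Measurable F) (B : ℝ) (hB : ∀ w, |F w| ≤ B)
    (hc : ContinuousAt F 0) :
    Tendsto (fun s : ℕ => ((s : ℝ) - 1) / Real.pi * ∫ w, hh 0 w ^ s * F w ∂hypVol) atTop
      (𝓝 (F 0)) := by
  have key : Tendsto (fun s : ℕ => ∫ w in ball (0:ℂ) 1,
      (((s : ℝ) - 1) / Real.pi * (1 - ‖w‖ ^ 2) ^ (s - 2)) • F w) atTop (𝓝 (F 0)) := by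
    apply tendsto_setIntegral_peak_smul_of_integrableOn_of_tendsto (x₀ := (0:ℂ)) (t := ball (0:ℂ) 1)
      (s := ball (0:ℂ) 1) measurableSet_ball measurableSet_ball subset_rfl self_mem_nhdsWithin
    · exact measure_ball_lt_top.ne
    · filter_upwards [eventually_ge_atTop 1] with s hs w hw
      have hw' : ‖w‖ < 1 := by simpa using hw
      have hpos : 0 < 1 - ‖w‖ ^ 2 := by nlinarith [norm_nonneg w]
      have : (1:ℝ) ≤ s := by exact_mod_cast hs
      have h2 : 0 ≤ ((s : ℝ) - 1) / Real.pi := div_nonneg (by linarith) Real.pi_pos.le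
      positivity
    · intro u hu h0
      obtain ⟨δ, hδ, hδu⟩ := Metric.isOpen_iff.1 hu 0 h0
      -- bound by (s-1)/π (1-δ'^2)^(s-2)
      set d : ℝ := min δ 1 with hd
      have hd0 : 0 < d := lt_min hδ one_pos
      have hd1 : d ≤ 1 := min_le_right _ _
      have hq0 : 0 ≤ 1 - d ^ 2 := by nlinarith
      have hq1 : 1 - d ^ 2 < 1 := by nlinarith
      have ht : Tendsto (fun k : ℕ => ((k : ℝ) + 1) / Real.pi * (1 - d ^ 2) ^ k) atTop (𝓝 0) := by
        have h1 := tendsto_self_mul_const_pow_of_lt_one hq0 hq1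
        have h2 := tendsto_pow_atTop_nhds_zero_of_lt_one hq0 hq1
        have h3 := ((h1.add h2).div_const Real.pi)
        simp only [add_zero, zero_div] at h3
        refine h3.congr (fun k => ?_)
        ring
      have ht2 : Tendsto (fun s : ℕ => ((s : ℝ) - 1) / Real.pi * (1 - d ^ 2) ^ (s - 2)) atTop (𝓝 0) := by
        have h := ht.comp (tendsto_sub_atTop_nat 2)
        refine h.congr' ?_
        filter_upwards [eventually_ge_atTop 2] with s hs
        simp only [Function.comp]
        rw [Nat.cast_sub hs]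
        push_cast
        ring
      rw [Metric.tendstoUniformlyOn_iff]
      intro ε hε
      filter_upwards [ht2.eventually (gt_mem_nhds hε), eventually_ge_atTop 1] with s hs hs1 w hw
      have hw' : ‖w‖ < 1 := by simpa using hw.1
      have hpos : 0 < 1 - ‖w‖ ^ 2 := by nlinarith [norm_nonneg w]
      have hwd : d ≤ ‖w‖ := by
        by_contra hcon
        push Not at hcon
        apply hw.2
        apply hδu
        have : ‖w‖ < δ := lt_of_lt_of_le hcon (min_le_left _ _)
        simpa using this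
      have h1s : (1:ℝ) ≤ s := by exact_mod_cast hs1
      have h2 : 0 ≤ ((s : ℝ) - 1) / Real.pi := div_nonneg (by linarith) Real.pi_pos.le
      simp only [Pi.zero_apply, dist_zero_left, Real.norm_eq_abs]
      rw [abs_of_nonneg (by positivity)]
      refine lt_of_le_of_lt ?_ hs
      apply mul_le_mul_of_nonneg_left _ h2
      apply pow_le_pow_left₀ hpos.le
      nlinarith
    · -- integral tends to 1
      refine tendsto_const_nhds.congr' ?_
      filter_upwards [eventually_ge_atTop 2] with s hs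
      rw [integral_const_mul, approx_id_J, Nat.cast_sub hs]
      have h2s : (2:ℝ) ≤ s := by exact_mod_cast hs
      have h3 : (s:ℝ) - 1 ≠ 0 := by linarith
      have h4 : (s:ℝ) - (2:ℕ) + 1 = s - 1 := by push_cast; ring
      rw [h4]
      field_simp
    · refine Filter.Eventually.of_forall (fun s => ?_)
      apply Continuous.aestronglyMeasurable
      fun_prop
    · refine Measure.integrableOn_of_bounded (M := B) measure_ball_lt_top.ne hF.aestronglyMeasurable ?_
      exact ae_of_all _ (fun w => by simpa using hB w)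
    · exact hc.tendsto.mono_left nhdsWithin_le_nhds
  refine key.congr' ?_
  filter_upwards [eventually_ge_atTop 2] with s hs
  rw [approx_id_int s hs F, ← integral_const_mul]
  congr 1
  ext w
  simp only [smul_eq_mul]
  ring

end Pool.Agent.Helper684.Ergo
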