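import Mathlib

/-!
The Laplacian of a real function on the plane.
-/

set_option autoImplicit false

namespace Pool.Agent.Helper684.Ergo

/-- The Laplacian `∂²U/∂x² + ∂²U/∂y²` of a real function on `ℂ`. -/
noncomputable def lap (U : ℂ → ℝ) (w : ℂ) : ℝ :=
  fderiv ℝ (fun z => fderiv ℝ U z 1) w 1 +
    fderiv ℝ (fun z => fderiv ℝ U z Complex.I) w Complex.I

end Pool.Agent.Helper684.Ergo
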