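import Pool.Agent.Helper684.Ergo.Hyp
import Pool.Agent.Helper684.Ergo.Lap
set_option autoImplicit false

open MeasureTheory Metric Set Filter Topology
open scoped ComplexConjugate ENNReal

namespace Pool.Agent.Helper684.Ergo





namespace PS

abbrev K : Type := closedBall (0:ℂ) 1

instance : CompactSpace K := isCompact_iff_compactSpace.mp (isCompact_closedBall 0 1)

noncomputable def uu : C(K, ℝ) := ⟨fun w => (w:ℂ).re, by fun_prop⟩
noncomputable def vv : C(K, ℝ) := ⟨fun w => (w:ℂ).im, by fun_prop⟩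
noncomputable def NN (z : ℂ) : C(K, ℝ) :=
  1 - (2*z.re) • uu - (2*z.im) • vv + (z.re^2+z.im^2) • (uu^2+vv^2)

noncomputable def μK : Measure K := Measure.comap Subtype.val (volume.restrict (ball (0:ℂ) 1))

lemma NN_apply (z : ℂ) (w : K) : NN z w = ‖1 - conj z * (w:ℂ)‖ ^ 2 := by
  rw [← Complex.normSq_eq_norm_sq, Complex.normSq_apply]
  simp [NN, uu, vv]
  ring

lemma NN_ne (z : ℂ) (hz : ‖z‖ < 1) (w : K) : NN z w ≠ 0 := by
  rw [NN_apply]
  have hw : ‖(w:ℂ)‖ ≤ 1 := mem_closedBall_zero_iff.1 w.2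
  have h1 : ‖conj z * (w:ℂ)‖ < 1 := by
    rw [norm_mul, Complex.norm_conj]
    nlinarith [norm_nonneg z, norm_nonneg (w:ℂ)]
  have h2 : (1 - conj z * (w:ℂ)) ≠ 0 := by
    intro h
    rw [sub_eq_zero] at h
    rw [← h] at h1
    simp at h1
  positivity

lemma NN_unit (z : ℂ) (hz : ‖z‖ < 1) : IsUnit (NN z) := by
  rw [ContinuousMap.isUnit_iff_forall_ne_zero]
  exact NN_ne z hz

lemma inv_apply (z : ℂ) (hz : ‖z‖ < 1) (w : K) : (Ring.inverse (NN z)) w = (NN z w)⁻¹ := by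
  have h := Ring.mul_inverse_cancel _ (NN_unit z hz)
  have h2 := congrArg (fun f : C(K,ℝ) => f w) h
  simp only [ContinuousMap.mul_apply, ContinuousMap.one_apply] at h2
  exact eq_inv_of_mul_eq_one_right h2

lemma NN_contDiff : ContDiff ℝ 2 NN := by
  have h1 : ContDiff ℝ 2 (fun z : ℂ => z.re) := Complex.reCLM.contDiff
  have h2 : ContDiff ℝ 2 (fun z : ℂ => z.im) := Complex.imCLM.contDiff
  unfold NN
  fun_prop

noncomputable def QQ (z : ℂ) : C(K, ℝ) := (1 - (z.re^2+z.im^2)) • Ring.inverse (NN z)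

lemma QQ_contDiffAt (z : ℂ) (hz : ‖z‖ < 1) : ContDiffAt ℝ 2 QQ z := by
  have h1 : ContDiff ℝ 2 (fun z : ℂ => z.re) := Complex.reCLM.contDiff
  have h2 : ContDiff ℝ 2 (fun z : ℂ => z.im) := Complex.imCLM.contDiff
  have h3 : ContDiffAt ℝ 2 (fun z => Ring.inverse (NN z)) z := by
    obtain ⟨u, hu⟩ := NN_unit z hz
    have h4 : ContDiffAt ℝ 2 (Ring.inverse : C(K,ℝ) → C(K,ℝ)) (NN z) := by
      rw [← hu]
      exact contDiffAt_ringInverse ℝ u
    exact h4.comp z NN_contDiff.contDiffAt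
  unfold QQ
  have h5 : ContDiffAt ℝ 2 (fun z : ℂ => (1 - (z.re^2+z.im^2) : ℝ)) z := by
    apply ContDiff.contDiffAt
    fun_prop
  exact h5.smul h3

lemma QQ_apply (z : ℂ) (hz : ‖z‖ < 1) (w : K) :
    QQ z w = (1 - ‖z‖ ^ 2) / ‖1 - conj z * (w:ℂ)‖ ^ 2 := by
  simp only [QQ, ContinuousMap.smul_apply, smul_eq_mul, inv_apply z hz w, NN_apply]
  rw [← Complex.normSq_eq_norm_sq z, Complex.normSq_apply]
  rw [div_eq_mul_inv]
  ring

instance : IsFiniteMeasure μK := by
  constructor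
  unfold μK
  have he : MeasurableEmbedding (Subtype.val : K → ℂ) :=
    MeasurableEmbedding.subtype_coe (measurableSet_closedBall)
  rw [he.comap_apply]
  refine lt_of_le_of_lt (Measure.restrict_apply_le _ _) ?_
  refine lt_of_le_of_lt (measure_mono (t := closedBall (0:ℂ) 1) ?_) measure_closedBall_lt_top
  rintro _ ⟨x, _, rfl⟩
  exact x.2

lemma integral_hyp (f : ℂ → ℝ) (g : K → ℝ)
    (h : ∀ (w : ℂ) (hw : w ∈ ball (0:ℂ) 1), 1 / (1 - ‖w‖ ^ 2) ^ 2 * f w =
      g ⟨w, ball_subset_closedBall hw⟩) :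
    ∫ w, f w ∂hypVol = ∫ x, g x ∂μK := by
  unfold hypVol
  rw [integral_withDensity_eq_integral_toReal_smul]
  rotate_left
  · exact (by fun_prop : Measurable (fun w : ℂ => (1 / (1 - ‖w‖ ^ 2) ^ 2 : ℝ))).ennreal_ofReal
  · exact Filter.Eventually.of_forall (fun x => ENNReal.ofReal_lt_top)
  have h1 : ∀ w : ℂ, (ENNReal.ofReal (1 / (1 - ‖w‖ ^ 2) ^ 2)).toReal = 1 / (1 - ‖w‖ ^ 2) ^ 2 := by
    intro w
    rw [ENNReal.toReal_ofReal]
    positivity
  simp only [h1, smul_eq_mul]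
  -- write g as restriction of a function
  have h2 : ∫ x, g x ∂μK = ∫ x : K, (1 / (1 - ‖(x:ℂ)‖ ^ 2) ^ 2 * f x) ∂μK := by
    apply integral_congr_ae
    unfold μK
    have he : MeasurableEmbedding (Subtype.val : K → ℂ) :=
      MeasurableEmbedding.subtype_coe (measurableSet_closedBall)
    rw [Filter.EventuallyEq, ae_iff, he.comap_apply]
    rw [Measure.restrict_apply']
    · apply measure_mono_null (t := ∅) _ measure_empty
      rintro w ⟨⟨x, hx, rfl⟩, hw⟩
      apply hx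
      rw [h x hw]
    · exact measurableSet_ball
  rw [h2]
  unfold μK
  have h3 := integral_subtype_comap (μ := volume.restrict (ball (0:ℂ) 1))
    (measurableSet_closedBall : MeasurableSet (closedBall (0:ℂ) 1))
    (fun x : ℂ => (1 / (1 - ‖(x:ℂ)‖ ^ 2) ^ 2 * f x))
  rw [h3, Measure.restrict_restrict measurableSet_closedBall]
  congr 2
  rw [inter_eq_right.2 ball_subset_closedBall]

section LL
variable (m : ℂ → ℝ) (hm : Measurable m) (B : ℝ) (hB : ∀ w : K, |m w| ≤ B)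

include hm hB in
lemma integrable_mg (g : C(K,ℝ)) : Integrable (fun x : K => m x * g x) μK := by
  have h1 : AEStronglyMeasurable (fun x : K => m x * g x) μK := by
    apply Measurable.aestronglyMeasurable
    exact (hm.comp measurable_subtype_coe).mul g.continuous.measurable
  refine Integrable.of_bound h1 (B * ‖g‖) (Filter.Eventually.of_forall fun x => ?_)
  rw [norm_mul]
  exact mul_le_mul (hB x) (g.norm_coe_le_norm x) (norm_nonneg _) ((abs_nonneg _).trans (hB x))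

noncomputable def LL : C(K,ℝ) →L[ℝ] ℝ :=
  LinearMap.mkContinuous
    { toFun := fun g => ∫ x, m x * g x ∂μK
      map_add' := by
        intro g1 g2
        simp only [ContinuousMap.add_apply, mul_add]
        exact integral_add (integrable_mg m hm B hB g1) (integrable_mg m hm B hB g2)
      map_smul' := by
        intro c g
        simp only [ContinuousMap.smul_apply, smul_eq_mul, RingHom.id_apply]
        rw [← integral_const_mul]
        congr 1
        ext x
        ring }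
    (B * μK.real univ)
    (by
      intro g
      simp only [LinearMap.coe_mk, AddHom.coe_mk]
      have := norm_integral_le_of_norm_le_const (μ := μK) (f := fun x : K => m x * g x)
        (C := B * ‖g‖) (Filter.Eventually.of_forall fun x => by
          rw [norm_mul]
          exact mul_le_mul (hB x) (g.norm_coe_le_norm x) (norm_nonneg _)
            ((abs_nonneg _).trans (hB x)))
      refine this.trans (le_of_eq (by ring)))

lemma LL_apply (g : C(K,ℝ)) : LL m hm B hB g = ∫ x, m x * g x ∂μK := rfl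

lemma LL_bound (g : C(K,ℝ)) : |LL m hm B hB g| ≤ (B * μK.real univ) * ‖g‖ := by
  rw [LL_apply, ← Real.norm_eq_abs]
  have := norm_integral_le_of_norm_le_const (μ := μK) (f := fun x : K => m x * g x)
        (C := B * ‖g‖) (Filter.Eventually.of_forall fun x => by
          rw [norm_mul]
          exact mul_le_mul (hB x) (g.norm_coe_le_norm x) (norm_nonneg _)
            ((abs_nonneg _).trans (hB x)))
  refine this.trans (le_of_eq (by ring))

end LL

/-- direction derivative data -/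
noncomputable def cc (v : ℂ) : C(K,ℝ) := v.re • uu + v.im • vv
noncomputable def qq (v : ℂ) : C(K,ℝ) := (v.re^2+v.im^2) • (uu^2+vv^2)

lemma NN_line (v : ℂ) (t : ℝ) : NN (t • v) = 1 - (2*t) • cc v + (t^2) • qq v := by
  ext w
  simp [NN, cc, qq, uu, vv]
  ring

lemma hasDerivAt_NN (v : ℂ) (t : ℝ) :
    HasDerivAt (fun t : ℝ => NN (t • v)) (-(2:ℝ) • cc v + (2*t) • qq v) t := by
  have : (fun t : ℝ => NN (t • v)) = fun t => 1 - (2*t) • cc v + (t^2) • qq v := by
    ext1 t; exact NN_line v t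
  rw [this]
  have h1 : HasDerivAt (fun t : ℝ => 2 * t) 2 t := by simpa using (hasDerivAt_id t).const_mul 2
  have h2 : HasDerivAt (fun t : ℝ => t^2) (2*t) t := by simpa using (hasDerivAt_pow 2 t)
  have h3 := ((h1.smul_const (cc v)).const_sub 1).add (h2.smul_const (qq v))
  exact h3.congr_deriv (by rw [neg_smul])

lemma hasDerivAt_inv (v : ℂ) (t : ℝ) (ht : ‖t • v‖ < 1) :
    HasDerivAt (fun t : ℝ => Ring.inverse (NN (t • v)))
      (-(Ring.inverse (NN (t • v)) * (-(2:ℝ) • cc v + (2*t) • qq v) *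
        Ring.inverse (NN (t • v)))) t := by
  obtain ⟨u, hu⟩ := NN_unit _ ht
  have h1 := hasFDerivAt_ringInverse (𝕜 := ℝ) u
  rw [hu] at h1
  have h2 := h1.comp_hasDerivAt t (hasDerivAt_NN v t)
  refine h2.congr_deriv ?_
  rw [← hu, Ring.inverse_unit]
  rfl

/-- `Q(t v)` -/
lemma hasDerivAt_QQ (v : ℂ) (t : ℝ) (ht : ‖t • v‖ < 1) :
    HasDerivAt (fun t : ℝ => QQ (t • v))
      ((-(2 * t * (v.re^2+v.im^2))) • Ring.inverse (NN (t • v)) +
      (1 - t^2 * (v.re^2+v.im^2)) • (-(Ring.inverse (NN (t • v)) *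
        (-(2:ℝ) • cc v + (2*t) • qq v) * Ring.inverse (NN (t • v))))) t := by
  have h0 : (fun t : ℝ => QQ (t • v)) = fun t : ℝ =>
      (1 - t^2 * (v.re^2+v.im^2)) • Ring.inverse (NN (t • v)) := by
    ext1 t
    unfold QQ
    congr 1
    simp
    ring
  rw [h0]
  have h1 : HasDerivAt (fun t : ℝ => 1 - t^2 * (v.re^2+v.im^2)) (-(2 * t * (v.re^2+v.im^2))) t := by
    have := ((hasDerivAt_pow 2 t).mul_const (v.re^2+v.im^2)).const_sub 1
    simpa using this
  have h2 := h1.smul (hasDerivAt_inv v t ht)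
  exact h2.congr_deriv (add_comm _ _)

/-- first derivative of `Q^s` along line -/
noncomputable def dQ (v : ℂ) (t : ℝ) : C(K,ℝ) :=
  (-(2 * t * (v.re^2+v.im^2))) • Ring.inverse (NN (t • v)) +
      (1 - t^2 * (v.re^2+v.im^2)) • (-(Ring.inverse (NN (t • v)) *
        (-(2:ℝ) • cc v + (2*t) • qq v) * Ring.inverse (NN (t • v))))

lemma hasDerivAt_W (v : ℂ) (t : ℝ) (ht : ‖t • v‖ < 1) (s : ℕ) :
    HasDerivAt (fun t : ℝ => QQ (t • v) ^ s) ((s : ℝ) • (QQ (t • v) ^ (s-1) * dQ v t)) t := by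
  have h := (hasDerivAt_QQ v t ht).pow s
  refine h.congr_deriv ?_
  ext w
  simp [dQ]
  ring

lemma QQ_zero : QQ 0 = 1 := by
  simp [QQ, NN]

lemma NN_zero : NN 0 = 1 := by
  simp [NN]

lemma dQ_zero (v : ℂ) : dQ v 0 = (2:ℝ) • cc v := by
  simp [dQ, NN_zero]

lemma hasDerivAt_dQ (v : ℂ) : HasDerivAt (dQ v)
    (-(2 * (v.re^2+v.im^2)) • (1 : C(K,ℝ)) + (8:ℝ) • (cc v)^2 - (2:ℝ) • qq v) 0 := by
  have hI := hasDerivAt_inv v 0 (by simp)
  have h1 : HasDerivAt (fun t : ℝ => 1 - t^2 * (v.re^2+v.im^2)) 0 0 := by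
    have := ((hasDerivAt_pow 2 (0:ℝ)).mul_const (v.re^2+v.im^2)).const_sub 1
    simpa using this
  have h2 : HasDerivAt (fun t : ℝ => -(2 * t * (v.re^2+v.im^2))) (-(2 * (v.re^2+v.im^2))) 0 := by
    have := (((hasDerivAt_id (0:ℝ)).const_mul 2).mul_const (v.re^2+v.im^2)).neg
    exact this.congr_deriv (by ring)
  have h3 : HasDerivAt (fun t : ℝ => -(2:ℝ) • cc v + (2*t) • qq v) ((2:ℝ) • qq v) 0 := by
    have h4 : HasDerivAt (fun t : ℝ => 2 * t) 2 0 := by simpa using (hasDerivAt_id (0:ℝ)).const_mul 2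
    exact (h4.smul_const (qq v)).const_add _
  have h5 := (h2.smul hI).add (h1.smul (((hI.mul h3).mul hI).neg))
  refine h5.congr_deriv ?_
  ext w
  simp [NN_zero]
  ring

lemma hasDerivAt_dW (v : ℂ) (s : ℕ) (hs : 2 ≤ s) :
    HasDerivAt (fun t : ℝ => (s : ℝ) • (QQ (t • v) ^ (s-1) * dQ v t))
      ((s:ℝ) • (((s:ℝ) - 1) • ((4:ℝ) • (cc v)^2) +
        (-(2 * (v.re^2+v.im^2)) • (1 : C(K,ℝ)) + (8:ℝ) • (cc v)^2 - (2:ℝ) • qq v))) 0 := by
  have h1 := hasDerivAt_W v 0 (by simp) (s-1)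
  have h2 := (h1.mul (hasDerivAt_dQ v)).const_smul (s:ℝ)
  refine h2.congr_deriv ?_
  have hc : ((s - 1 : ℕ) : ℝ) = (s:ℝ) - 1 := by
    have : 1 ≤ s := by omega
    push_cast [Nat.cast_sub this]
    ring
  rw [hc]
  ext w
  simp [QQ_zero, dQ_zero]
  left
  ring

end PS

open PS in
theorem potential_smooth (s : ℕ) (hs : 2 ≤ s) : ∃ C : ℝ, ∀ F : ℂ → ℝ, Measurable F →
    ∀ B : ℝ, (∀ w, |F w| ≤ B) →
      ContDiffOn ℝ 2 (fun z => ∫ w, hh z w ^ s * F w ∂hypVol) (ball 0 1) ∧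
      lap (fun z => ∫ w, hh z w ^ s * F w ∂hypVol) 0 =
        4 * ((s : ℝ) * (s - 1) * ∫ w, hh 0 w ^ s * F w ∂hypVol -
          (s : ℝ) ^ 2 * ∫ w, hh 0 w ^ (s + 1) * F w ∂hypVol) ∧
      ‖fderiv ℝ (fun z => ∫ w, hh z w ^ s * F w ∂hypVol) 0‖ ≤ C * B := by
  refine ⟨2 * s * μK.real univ, fun F hF B hFB => ?_⟩
  set m : ℂ → ℝ := fun w => (1 - ‖w‖ ^ 2) ^ (s - 2) * F w with hmdef
  have hm : Measurable m := by
    simp only [hmdef]
    exact (by fun_prop : Measurable (fun w : ℂ => ((1 - ‖w‖ ^ 2) ^ (s - 2) : ℝ))).mul hF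
  have hB : ∀ w : K, |m w| ≤ B := by
    intro w
    have hw : ‖(w:ℂ)‖ ≤ 1 := mem_closedBall_zero_iff.1 w.2
    simp only [hmdef, abs_mul]
    have h1 : |(1 - ‖(w:ℂ)‖ ^ 2) ^ (s - 2)| ≤ 1 := by
      rw [abs_pow]
      apply pow_le_one₀ (abs_nonneg _)
      rw [abs_le]
      constructor <;> nlinarith [norm_nonneg (w:ℂ)]
    calc _ ≤ 1 * B := mul_le_mul h1 (hFB _) (abs_nonneg _) zero_le_one
      _ = B := one_mul B
  set L := LL m hm B hB with hL
  set U : ℂ → ℝ := fun z => ∫ w, hh z w ^ s * F w ∂hypVol with hU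
  have hUL : ∀ z ∈ ball (0:ℂ) 1, U z = L (QQ z ^ s) := by
    intro z hz
    have hz' : ‖z‖ < 1 := by simpa using hz
    simp only [hU, hL, LL_apply]
    apply integral_hyp
    intro w hw
    have hw' : ‖w‖ < 1 := by simpa using hw
    simp only [hmdef, ContinuousMap.pow_apply, QQ_apply z hz', hh]
    have hpos : (0:ℝ) < 1 - ‖w‖ ^ 2 := by nlinarith [norm_nonneg w]
    have hN : ‖1 - conj z * w‖ ^ 2 ≠ 0 := by
      have := NN_ne z hz' ⟨w, ball_subset_closedBall hw⟩
      rwa [NN_apply] at this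
    obtain ⟨k, rfl⟩ : ∃ k, s = k + 2 := ⟨s - 2, by omega⟩
    simp only [Nat.add_sub_cancel]
    rw [div_pow, div_pow, mul_pow]
    field_simp
    ring
  have hU2 : ∀ f : C(K,ℝ), L f = ∫ x, m x * f x ∂μK := fun f => rfl
  have hUsm : ContDiffOn ℝ 2 U (ball 0 1) := by
    have h1 : ContDiffOn ℝ 2 (fun z => L (QQ z ^ s)) (ball 0 1) := by
      intro z hz
      have hz' : ‖z‖ < 1 := by simpa using hz
      apply ContDiffAt.contDiffWithinAt
      exact L.contDiff.contDiffAt.comp z ((QQ_contDiffAt z hz').pow s)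
    exact h1.congr hUL
  -- derivatives along lines
  have hball : ball (0:ℂ) 1 ∈ 𝓝 (0:ℂ) := ball_mem_nhds 0 one_pos
  have hder : ∀ v : ℂ, ∀ t : ℝ, ‖t • v‖ < 1 →
      fderiv ℝ U (t • v) v = L ((s : ℝ) • (QQ (t • v) ^ (s-1) * dQ v t)) := by
    intro v t ht
    have h1 : DifferentiableAt ℝ U (t • v) := by
      have := hUsm.contDiffAt (x := t • v) (isOpen_ball.mem_nhds (by simpa using ht))
      exact this.differentiableAt (by norm_num)
    have h2 : HasDerivAt (fun t : ℝ => t • v) v t := by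
      simpa using (hasDerivAt_id t).smul_const v
    have h3 : HasDerivAt (fun t : ℝ => U (t • v)) (fderiv ℝ U (t • v) v) t :=
      HasFDerivAt.comp_hasDerivAt (f := fun t : ℝ => t • v) t h1.hasFDerivAt h2
    have h4 : HasDerivAt (fun t : ℝ => L (QQ (t • v) ^ s))
        (L ((s : ℝ) • (QQ (t • v) ^ (s-1) * dQ v t))) t :=
      L.hasFDerivAt.comp_hasDerivAt t (hasDerivAt_W v t ht s)
    have h5 : (fun t : ℝ => U (t • v)) =ᶠ[𝓝 t] fun t : ℝ => L (QQ (t • v) ^ s) := by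
      have hc : Continuous (fun t : ℝ => t • v) := by fun_prop
      have : ∀ᶠ t' : ℝ in 𝓝 t, t' • v ∈ ball (0:ℂ) 1 :=
        hc.continuousAt.eventually (isOpen_ball.mem_nhds (by simpa using ht))
      filter_upwards [this] with t' ht'
      exact hUL _ ht'
    exact h3.unique (h4.congr_of_eventuallyEq h5)
  have hder2 : ∀ v : ℂ, fderiv ℝ (fun z => fderiv ℝ U z v) 0 v =
      L ((s:ℝ) • (((s:ℝ) - 1) • ((4:ℝ) • (cc v)^2) +
        (-(2 * (v.re^2+v.im^2)) • (1 : C(K,ℝ)) + (8:ℝ) • (cc v)^2 - (2:ℝ) • qq v))) := by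
    intro v
    have h0 : ContDiffAt ℝ 2 U 0 := hUsm.contDiffAt hball
    have h1 : DifferentiableAt ℝ (fun z => fderiv ℝ U z v) 0 := by
      have h2 : ContDiffAt ℝ 1 (fderiv ℝ U) 0 := h0.fderiv_right (by norm_num)
      have h3 : DifferentiableAt ℝ (fderiv ℝ U) 0 := h2.differentiableAt (by norm_num)
      exact h3.clm_apply (differentiableAt_const v)
    have h2 : HasDerivAt (fun t : ℝ => t • v) v 0 := by
      simpa using (hasDerivAt_id (0:ℝ)).smul_const v
    have h1' : HasFDerivAt (fun z => fderiv ℝ U z v) (fderiv ℝ (fun z => fderiv ℝ U z v) 0)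
        ((0:ℝ) • v) := by
      rw [zero_smul]; exact h1.hasFDerivAt
    have h3 : HasDerivAt (fun t : ℝ => fderiv ℝ U (t • v) v)
        (fderiv ℝ (fun z => fderiv ℝ U z v) 0 v) 0 :=
      HasFDerivAt.comp_hasDerivAt (f := fun t : ℝ => t • v) (0:ℝ) h1' h2
    have h4 := L.hasFDerivAt.comp_hasDerivAt (0:ℝ) (hasDerivAt_dW v s hs)
    have h5 : (fun t : ℝ => fderiv ℝ U (t • v) v) =ᶠ[𝓝 0]
        fun t : ℝ => L ((s : ℝ) • (QQ (t • v) ^ (s-1) * dQ v t)) := by
      have hc : Continuous (fun t : ℝ => t • v) := by fun_prop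
      have : ∀ᶠ t' : ℝ in 𝓝 0, t' • v ∈ ball (0:ℂ) 1 :=
        hc.continuousAt.eventually (isOpen_ball.mem_nhds (by simp))
      filter_upwards [this] with t' ht'
      exact hder v t' (by simpa using ht')
    exact h3.unique (h4.congr_of_eventuallyEq h5)
  refine ⟨hUsm, ?_, ?_⟩
  · have e0 : U 0 = L 1 := by
      rw [hUL 0 (by simp), QQ_zero, one_pow]
    have e1 : ∫ w, hh 0 w ^ (s + 1) * F w ∂hypVol = L (1 - uu^2 - vv^2) := by
      rw [hU2]
      apply integral_hyp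
      intro w hw
      have hw' : ‖w‖ < 1 := by simpa using hw
      have hpos : (0:ℝ) < 1 - ‖w‖ ^ 2 := by nlinarith [norm_nonneg w]
      have e2 : ((1 - uu^2 - vv^2 : C(K,ℝ)) ⟨w, ball_subset_closedBall hw⟩ : ℝ) = 1 - ‖w‖^2 := by
        rw [← Complex.normSq_eq_norm_sq w, Complex.normSq_apply]
        simp [uu, vv]
        ring
      rw [e2]
      simp only [hmdef, hh]
      obtain ⟨k, rfl⟩ : ∃ k, s = k + 2 := ⟨s - 2, by omega⟩
      simp only [Nat.add_sub_cancel]
      simp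
      field_simp
      ring
    change lap U 0 = 4 * ((s : ℝ) * (s - 1) * U 0 - _)
    rw [e0, e1]
    unfold lap
    rw [hder2 1, hder2 Complex.I, ← map_add]
    have e3 : (4 * ((s : ℝ) * (s - 1) * L 1 - (s : ℝ) ^ 2 * L (1 - uu^2 - vv^2))) =
        L ((4 * ((s : ℝ) * (s - 1))) • (1 : C(K,ℝ)) - (4 * (s:ℝ)^2) • (1 - uu^2 - vv^2)) := by
      rw [map_sub L (_ • _) (_ • _), map_smul, map_smul]
      simp only [smul_eq_mul]
      ring
    rw [e3]
    congr 1
    ext w
    simp [cc, qq]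
    ring
  · have hB0 : 0 ≤ B := (abs_nonneg _).trans (hFB 0)
    apply ContinuousLinearMap.opNorm_le_bound
    · positivity
    · intro v
      have h1 := hder v 0 (by simp)
      rw [zero_smul, QQ_zero, one_pow, one_mul, dQ_zero] at h1
      rw [h1, Real.norm_eq_abs]
      refine (LL_bound m hm B hB _).trans ?_
      have h2 : ‖(s:ℝ) • (2:ℝ) • cc v‖ ≤ s * 2 * ‖v‖ := by
        rw [ContinuousMap.norm_le _ (by positivity)]
        intro w
        have hw : ‖(w:ℂ)‖ ≤ 1 := mem_closedBall_zero_iff.1 w.2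
        have h3 : (cc v) w = (conj v * (w:ℂ)).re := by
          simp [cc, uu, vv]
        have h4 : |(cc v) w| ≤ ‖v‖ := by
          rw [h3]
          refine (Complex.abs_re_le_norm _).trans ?_
          rw [norm_mul, Complex.norm_conj]
          nlinarith [norm_nonneg v]
        simp only [ContinuousMap.smul_apply, smul_eq_mul, norm_mul, Real.norm_eq_abs]
        rw [abs_of_nonneg (by positivity : (0:ℝ) ≤ s), abs_of_nonneg (by norm_num : (0:ℝ) ≤ 2)]
        nlinarith [h4, (by positivity : (0:ℝ) ≤ (s:ℝ))]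
      have h5 : 0 ≤ B * μK.real univ := mul_nonneg hB0 measureReal_nonneg
      calc _ ≤ B * μK.real univ * (s * 2 * ‖v‖) := mul_le_mul_of_nonneg_left h2 h5
        _ = _ := by ring

end Pool.Agent.Helper684.Ergo

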