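import Pool.Agent.Helper684.Ergo.Defs
import Pool.Agent.Helper240.NevMetric

/-!
Leafwise Laplacians.
-/

set_option autoImplicit false

open scoped Manifold
open Metric MeasureTheory
open Pool.Agent.Helper240.Nev

namespace Pool.Agent.Helper684.Ergo

variable {E M : Type*} [NormedAddCommGroup E] [NormedSpace ℂ E] [TopologicalSpace M]
  [ChartedSpace E M]

/-- The leafwise Laplacian of `w` with respect to `ω` at a hyperbolic point `x`:
`lap (w ∘ φ) 0 / (φ^* ω) 0` for a universal covering `φ` with `φ 0 = x`. -/
noncomputable def leafLap [IsManifold 𝓘(ℂ, E) 1 M] (ω : PosForm E M) (F : Foliation E M)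
    (w : M → ℝ) (x : M) : ℝ :=
  open Classical in
  if h : ∃ φ : ℂ → M, F.IsUniversalCovering φ ∧ φ 0 = x then
    lap (fun z => w (h.choose z)) 0 / pullback ω h.choose 0
  else 0

end Pool.Agent.Helper684.Ergo
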