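import Pool.Agent.Helper684.Ergo.Leaf

set_option autoImplicit false


open scoped Manifold
open Metric MeasureTheory Set Filter Topology
open Pool.Agent.Helper240.Nev

namespace Pool.Agent.Helper684.Ergo

variable {E M : Type*} [NormedAddCommGroup E] [NormedSpace ℂ E] [TopologicalSpace M]
  [ChartedSpace E M] [IsManifold 𝓘(ℂ, E) 1 M]

/-- `f ∘ e.symm` is real smooth for a real smooth function `f` and a holomorphic chart `e` -/
theorem contDiffAt_comp_symm_aux [FiniteDimensional ℂ E]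
    (hreal : ∀ e ∈ IsManifold.maximalAtlas 𝓘(ℂ, E) 1 M,
      ∀ e' ∈ IsManifold.maximalAtlas 𝓘(ℂ, E) 1 M,
      ContDiffOn ℝ ((⊤ : ℕ∞) : WithTop ℕ∞) (e.symm.trans e') (e.symm.trans e').source)
    {e : OpenPartialHomeomorph M E}
    (he : e ∈ IsManifold.maximalAtlas 𝓘(ℂ, E) 1 M) {f : M → ℝ}
    (hf : ContMDiff 𝓘(ℝ, E) 𝓘(ℝ, ℝ) ((⊤ : ℕ∞) : WithTop ℕ∞) f) {y : E} (hy : y ∈ e.target) :
    ContDiffAt ℝ ((⊤ : ℕ∞) : WithTop ℕ∞) (fun y => f (e.symm y)) y := by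
  set x : M := e.symm y with hx
  set c := chartAt E x with hc
  have hcm : c ∈ IsManifold.maximalAtlas 𝓘(ℂ, E) 1 M := IsManifold.chart_mem_maximalAtlas _
  have hxc : x ∈ c.source := mem_chart_source E x
  have h1 : ContDiffAt ℝ ((⊤ : ℕ∞) : WithTop ℕ∞) (fun z => f (c.symm z)) (c x) := by
    have h2 := (contMDiffAt_iff.1 (hf x)).2
    simp only [extChartAt_model_space_eq_id, PartialEquiv.refl_coe, Function.id_comp,
      modelWithCornersSelf_coe, range_id] at h2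
    rw [contDiffWithinAt_univ] at h2
    exact h2
  have h3 : ContDiffAt ℝ ((⊤ : ℕ∞) : WithTop ℕ∞) (e.symm.trans c) y := by
    have h4 := hreal e he c hcm
    have h5 : y ∈ (e.symm.trans c).source := by
      rw [OpenPartialHomeomorph.trans_source]
      exact ⟨hy, hxc⟩
    exact h4.contDiffAt ((e.symm.trans c).open_source.mem_nhds h5)
  have h6 : (e.symm.trans c) y = c x := rfl
  have h7 : ContDiffAt ℝ ((⊤ : ℕ∞) : WithTop ℕ∞)
      ((fun z => f (c.symm z)) ∘ (e.symm.trans c)) y := by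
    refine ContDiffAt.comp y ?_ h3
    rw [h6]
    exact h1
  refine h7.congr_of_eventuallyEq ?_
  have h8 : ∀ᶠ z in 𝓝 y, z ∈ (e.symm.trans c).source := by
    refine (e.symm.trans c).open_source.mem_nhds ?_
    rw [OpenPartialHomeomorph.trans_source]
    exact ⟨hy, hxc⟩
  filter_upwards [h8] with z hz
  rw [OpenPartialHomeomorph.trans_source] at hz
  show f (e.symm z) = f (c.symm (c (e.symm z)))
  rw [c.left_inv hz.2]

theorem lap_congr_of_eventuallyEq {U V : ℂ → ℝ} {w : ℂ} (h : U =ᶠ[𝓝 w] V) :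
    lap U w = lap V w := by
  unfold lap
  have h1 : (fderiv ℝ U) =ᶠ[𝓝 w] (fderiv ℝ V) := h.fderiv
  have h2 : (fun z => fderiv ℝ U z 1) =ᶠ[𝓝 w] (fun z => fderiv ℝ V z 1) := by
    filter_upwards [h1] with z hz
    rw [hz]
  have h3 : (fun z => fderiv ℝ U z Complex.I) =ᶠ[𝓝 w] (fun z => fderiv ℝ V z Complex.I) := by
    filter_upwards [h1] with z hz
    rw [hz]
  rw [h2.fderiv_eq, h3.fderiv_eq]

theorem chartDeriv_chartAt (x : M) (v : TangentSpace 𝓘(ℂ, E) x) :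
    chartDeriv (chartAt E x) x v = v := by
  unfold chartDeriv
  have h := mfderiv_chartAt_eq_tangentCoordChange (I := 𝓘(ℂ, E)) (H := E) (x := x) (y := x)
    (mem_chart_source E x)
  rw [h]
  exact tangentCoordChange_self (I := 𝓘(ℂ, E)) (by simp)

/-- along a holomorphic disc, the Laplacian of a smooth function is given by `dd^c f`.
The hypothesis `hcurve` (Laplacian of a composition with a holomorphic curve) is proved
elsewhere. -/
theorem lap_comp_disc [FiniteDimensional ℂ E]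
    (hreal : ∀ e ∈ IsManifold.maximalAtlas 𝓘(ℂ, E) 1 M,
      ∀ e' ∈ IsManifold.maximalAtlas 𝓘(ℂ, E) 1 M,
      ContDiffOn ℝ ((⊤ : ℕ∞) : WithTop ℕ∞) (e.symm.trans e') (e.symm.trans e').source)
    (hcurve : ∀ (g : E → ℝ) (h : ℂ → E) (w : ℂ), ContDiffAt ℝ 2 g (h w) → AnalyticAt ℂ h w →
      lap (fun z => g (h z)) w = lap (fun ζ : ℂ => g (h w + ζ • deriv h w)) 0)
    {f : M → ℝ} (hf : ContMDiff 𝓘(ℝ, E) 𝓘(ℝ, ℝ) ((⊤ : ℕ∞) : WithTop ℕ∞) f) {ψ : ℂ → M}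
    (hψ : MDifferentiableOn 𝓘(ℂ, ℂ) 𝓘(ℂ, E) ψ (ball 0 1)) {ξ : ℂ} (hξ : ξ ∈ ball (0 : ℂ) 1) :
    ContDiffAt ℝ 2 (fun z => f (ψ z)) ξ ∧
      lap (fun z => f (ψ z)) ξ = 2 * Real.pi * ddcForm (E := E) f (ψ ξ) (discDeriv ψ ξ 1) := by
  have : CompleteSpace E := FiniteDimensional.complete ℂ E
  set x : M := ψ ξ with hx
  set c := chartAt E x with hc
  have hcm : c ∈ IsManifold.maximalAtlas 𝓘(ℂ, E) 1 M := IsManifold.chart_mem_maximalAtlas _
  have hxc : x ∈ c.source := mem_chart_source E x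
  have hψ' : ∀ z ∈ ball (0 : ℂ) 1, MDifferentiableAt 𝓘(ℂ, ℂ) 𝓘(ℂ, E) ψ z := fun z hz =>
    (hψ z hz).mdifferentiableAt (isOpen_ball.mem_nhds hz)
  have hana : AnalyticAt ℂ (fun z => c (ψ z)) ξ := analyticAt_chart hψ' hξ ⟨hcm, hxc⟩
  have hg : ContDiffAt ℝ ((⊤ : ℕ∞) : WithTop ℕ∞) (fun y => f (c.symm y)) (c (ψ ξ)) :=
    contDiffAt_comp_symm_aux hreal hcm hf (c.map_source hxc)
  have hg2 : ContDiffAt ℝ 2 (fun y => f (c.symm y)) (c (ψ ξ)) :=
    hg.of_le (WithTop.coe_le_coe.2 (le_top : (2 : ℕ∞) ≤ ⊤))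
  have heq : (fun z => f (ψ z)) =ᶠ[𝓝 ξ] fun z => f (c.symm (c (ψ z))) := by
    filter_upwards [(hψ' ξ hξ).continuousAt.preimage_mem_nhds (c.open_source.mem_nhds hxc)]
      with z hz
    rw [c.left_inv hz]
  have hh : ContDiffAt ℝ 2 (fun z => c (ψ z)) ξ := hana.contDiffAt.restrict_scalars ℝ
  constructor
  · have h1 : ContDiffAt ℝ 2 ((fun y => f (c.symm y)) ∘ fun z => c (ψ z)) ξ :=
      ContDiffAt.comp ξ hg2 hh
    exact h1.congr_of_eventuallyEq heq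
  · rw [lap_congr_of_eventuallyEq heq, hcurve (fun y => f (c.symm y)) _ ξ hg2 hana,
      (hasDerivAt_chart (hψ' ξ hξ) ⟨hcm, hxc⟩).deriv]
    have h2 : chartDeriv c (ψ ξ) (discDeriv ψ ξ 1) = discDeriv ψ ξ 1 := chartDeriv_chartAt _ _
    rw [h2]
    unfold ddcForm
    have hpi := Real.pi_ne_zero
    field_simp
    rfl

/-- `ddcForm f x` is quadratic: `dd^c f (cv, J cv) = |c|² dd^c f (v, J v)` -/
theorem ddcForm_smul [FiniteDimensional ℂ E]
    (hreal : ∀ e ∈ IsManifold.maximalAtlas 𝓘(ℂ, E) 1 M,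
      ∀ e' ∈ IsManifold.maximalAtlas 𝓘(ℂ, E) 1 M,
      ContDiffOn ℝ ((⊤ : ℕ∞) : WithTop ℕ∞) (e.symm.trans e') (e.symm.trans e').source)
    (hsmul : ∀ (g : E → ℝ) (y v : E) (c : ℂ), ContDiffAt ℝ 2 g y →
      lap (fun ζ : ℂ => g (y + ζ • (c • v))) 0 = ‖c‖ ^ 2 * lap (fun ζ : ℂ => g (y + ζ • v)) 0)
    {f : M → ℝ} (hf : ContMDiff 𝓘(ℝ, E) 𝓘(ℝ, ℝ) ((⊤ : ℕ∞) : WithTop ℕ∞) f) (x : M) (c : ℂ)
    (v : TangentSpace 𝓘(ℂ, E) x) :
    ddcForm f x (c • v) = ‖c‖ ^ 2 * ddcForm f x v := by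
  have hxc : x ∈ (chartAt E x).source := mem_chart_source E x
  have hg : ContDiffAt ℝ ((⊤ : ℕ∞) : WithTop ℕ∞) (fun y => f ((chartAt E x).symm y))
      (chartAt E x x) :=
    contDiffAt_comp_symm_aux hreal (IsManifold.chart_mem_maximalAtlas _) hf
      ((chartAt E x).map_source hxc)
  have hg2 : ContDiffAt ℝ 2 (fun y => f ((chartAt E x).symm y)) (chartAt E x x) :=
    hg.of_le (WithTop.coe_le_coe.2 (le_top : (2 : ℕ∞) ≤ ⊤))
  have h := hsmul (fun y => f ((chartAt E x).symm y)) (chartAt E x x) (show E from v) c hg2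
  unfold ddcForm
  have h' : lap (fun ζ : ℂ => f ((chartAt E x).symm (chartAt E x x + ζ • (show E from c • v)))) 0 =
      ‖c‖ ^ 2 * lap (fun ζ : ℂ => f ((chartAt E x).symm (chartAt E x x + ζ • (show E from v)))) 0 :=
    h
  rw [h']
  ring

end Pool.Agent.Helper684.Ergo
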