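import Pool.Agent.Helper684.Ergo.DefsCore

/-!
Directed harmonic currents without mass on the singular set, given by their trace measures.
-/

set_option autoImplicit false

open scoped Manifold
open Metric MeasureTheory
open Pool.Agent.Helper240.Nev

namespace Pool.Agent.Helper684.Ergo

variable {E M : Type*} [NormedAddCommGroup E] [NormedSpace ℂ E] [TopologicalSpace M]
  [ChartedSpace E M]

/-- Given a function `q` on the tangent vectors, with `q (c v) = |c|² q v`, the quotient
`q v / ω (v, J v)` where `v ≠ 0` is tangent to the foliation at `x` (it does not depend on `v`);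
the value is `0` if there is no such `v` (on the singular set). -/
noncomputable def leafQuot [IsManifold 𝓘(ℂ, E) 1 M] (ω : PosForm E M) (F : Foliation E M)
    (q : ∀ x : M, TangentSpace 𝓘(ℂ, E) x → ℝ) (x : M) : ℝ :=
  open Classical in
  if h : x ∉ F.sing ∧ ∃ v, v ∈ F.dir x ∧ v ≠ 0 then
    q x h.2.choose / ω.form x h.2.choose (J x h.2.choose)
  else 0

section currents

variable [IsManifold 𝓘(ℂ, E) 1 M] [MeasurableSpace M]

/-- The value `⟨T, θ⟩` on the `(1,1)`-form `θ` of the positive current `T` of bidimension `(1,1)`,
directed by `F` and without mass on the singular set, whose trace measure `T ∧ ω` is `μ`. -/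
noncomputable def pairing (ω : PosForm E M) (F : Foliation E M) (μ : Measure M)
    (θ : Form11 E M) : ℝ :=
  ∫ x, leafQuot ω F (fun x v => θ.form x v (J x v)) x ∂μ

/-- The directed positive current with trace measure `μ` is `dd^c`-closed:
`⟨T, dd^c f⟩ = 0` for all smooth functions `f` on `M`. -/
def IsDdcClosed (ω : PosForm E M) (F : Foliation E M) (μ : Measure M) : Prop :=
  ∀ f : M → ℝ, ContMDiff 𝓘(ℝ, E) 𝓘(ℝ, ℝ) ((⊤ : ℕ∞) : WithTop ℕ∞) f →
    ∫ x, leafQuot ω F (fun x v => ddcForm f x v) x ∂μ = 0

/-- A positive `dd^c`-closed current directed by the foliation, without mass on the singular set,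
given by its trace measure `μ` with respect to `ω`. -/
structure IsDirectedHarmonic (ω : PosForm E M) (F : Foliation E M) (μ : Measure M) : Prop where
  finite : μ Set.univ < ⊤
  sing : μ F.sing = 0
  closed : IsDdcClosed ω F μ

/-- The directed positive `dd^c`-closed current with trace measure `μ` is extremal. (Every
positive current `≤ T` is without mass on the singular set if `T` is.) -/
def IsExtremal (ω : PosForm E M) (F : Foliation E M) (μ : Measure M) : Prop :=
  ∀ μ₁ μ₂ : Measure M, IsDirectedHarmonic ω F μ₁ → IsDirectedHarmonic ω F μ₂ → μ = μ₁ + μ₂ →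
    ∃ c : ENNReal, μ₁ = c • μ

end currents

end Pool.Agent.Helper684.Ergo
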