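import Pool.Agent.Helper684.Ergo.Leaf

/-!
Flow boxes with product coordinates.
-/

set_option autoImplicit false

open scoped Manifold
open Metric MeasureTheory Set
open Pool.Agent.Helper240.Nev

namespace Pool.Agent.Helper684.Ergo

variable {E M : Type*} [NormedAddCommGroup E] [NormedSpace ℂ E] [TopologicalSpace M]
  [ChartedSpace E M]

/-- A flow box of the foliation, with coordinates `(z, t)` in a product box of radius `R`; the
plaques are the sets `t = const`. -/
structure Box (F : Foliation E M) where
  e : OpenPartialHomeomorph M E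
  mem : e ∈ IsManifold.maximalAtlas 𝓘(ℂ, E) 1 M
  v : E
  v_ne : v ≠ 0
  gen : GeneratedOn F.sing F.dir e (fun _ => v)
  T : Submodule ℂ E
  L : (ℂ × T) ≃L[ℂ] E
  L_apply : ∀ p : ℂ × T, L p = p.1 • v + (p.2 : E)
  c : E
  R : ℝ
  R_pos : 0 < R
  box : ∀ p ∈ closedBall (0 : ℂ) R ×ˢ closedBall (0 : T) R, c + L p ∈ e.target

namespace Box

variable {F : Foliation E M} (b : Box F)

/-- the open product box -/
def O : Set (ℂ × b.T) := ball (0 : ℂ) b.R ×ˢ ball (0 : b.T) b.R

/-- the point of `M` with coordinates `p` -/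
noncomputable def pt (p : ℂ × b.T) : M := b.e.symm (b.c + b.L p)

/-- the coordinates of a point of `M` -/
noncomputable def coord (x : M) : ℂ × b.T := b.L.symm (b.e x - b.c)

/-- the open set of `M` covered by the box -/
def U : Set M := b.e.source ∩ b.coord ⁻¹' b.O

/-- the metric on the plaques: `ω(v, Jv)` at the point with coordinates `p` -/
noncomputable def Q [IsManifold 𝓘(ℂ, E) 1 M] (ω : PosForm E M) (p : ℂ × b.T) : ℝ :=
  Qe ω b.e (b.c + b.L p) b.v

end Box

end Pool.Agent.Helper684.Ergo
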