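import Pool.Agent.Helper684.Ergo.M1
import Pool.Agent.Helper684.Ergo.M2
import Pool.Agent.Helper684.Ergo.Calc2

/-!
Versions of the lemmas of `M2` without hypotheses.
-/

set_option autoImplicit false

open scoped Manifold
open Metric MeasureTheory Set Filter Topology
open Pool.Agent.Helper240.Nev

namespace Pool.Agent.Helper684.Ergo

variable {E M : Type*} [NormedAddCommGroup E] [NormedSpace ℂ E] [TopologicalSpace M]
  [ChartedSpace E M] [IsManifold 𝓘(ℂ, E) 1 M]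

theorem contDiffAt_comp_symm [FiniteDimensional ℂ E] {e : OpenPartialHomeomorph M E}
    (he : e ∈ IsManifold.maximalAtlas 𝓘(ℂ, E) 1 M) {f : M → ℝ}
    (hf : ContMDiff 𝓘(ℝ, E) 𝓘(ℝ, ℝ) ((⊤ : ℕ∞) : WithTop ℕ∞) f) {y : E} (hy : y ∈ e.target) :
    ContDiffAt ℝ ((⊤ : ℕ∞) : WithTop ℕ∞) (fun y => f (e.symm y)) y :=
  haveI : CompleteSpace E := FiniteDimensional.complete ℂ E
  contDiffAt_comp_symm_aux (fun _ h _ h' => contDiffOn_real_of_charts h h') he hf hy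

theorem lap_comp_disc' [FiniteDimensional ℂ E]
    {f : M → ℝ} (hf : ContMDiff 𝓘(ℝ, E) 𝓘(ℝ, ℝ) ((⊤ : ℕ∞) : WithTop ℕ∞) f) {ψ : ℂ → M}
    (hψ : MDifferentiableOn 𝓘(ℂ, ℂ) 𝓘(ℂ, E) ψ (ball 0 1)) {ξ : ℂ} (hξ : ξ ∈ ball (0 : ℂ) 1) :
    ContDiffAt ℝ 2 (fun z => f (ψ z)) ξ ∧
      lap (fun z => f (ψ z)) ξ = 2 * Real.pi * ddcForm (E := E) f (ψ ξ) (discDeriv ψ ξ 1) :=
  haveI : CompleteSpace E := FiniteDimensional.complete ℂ E
  lap_comp_disc (fun _ h _ h' => contDiffOn_real_of_charts h h')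
    (fun _ _ _ hg hh => lap_comp_curve hg hh) hf hψ hξ

theorem ddcForm_smul' [FiniteDimensional ℂ E]
    {f : M → ℝ} (hf : ContMDiff 𝓘(ℝ, E) 𝓘(ℝ, ℝ) ((⊤ : ℕ∞) : WithTop ℕ∞) f) (x : M) (c : ℂ)
    (v : TangentSpace 𝓘(ℂ, E) x) :
    ddcForm f x (c • v) = ‖c‖ ^ 2 * ddcForm f x v :=
  haveI : CompleteSpace E := FiniteDimensional.complete ℂ E
  ddcForm_smul (fun _ h _ h' => contDiffOn_real_of_charts h h')
    (fun _ _ _ _ hg => lap_line_smul hg _) hf x c v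

end Pool.Agent.Helper684.Ergo
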