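import Pool.Agent.Helper684.Ergo.BoxFacts
import Pool.Agent.Helper684.Ergo.M1
import Pool.Agent.Helper684.Ergo.M2p
import Pool.Agent.Helper684.Ergo.M3
import Pool.Agent.Helper684.Ergo.Calc1
import Pool.Agent.Helper684.Ergo.Calc2

set_option autoImplicit false


open scoped Manifold
open Metric MeasureTheory Set Filter Topology
open Pool.Agent.Helper240.Nev

namespace Pool.Agent.Helper684.Ergo

variable {E M : Type*} [NormedAddCommGroup E] [NormedSpace ℂ E] [TopologicalSpace M]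
  [ChartedSpace E M] [IsManifold 𝓘(ℂ, E) 1 M]

theorem ddcForm_zero_of_eventually {f : M → ℝ} {x : M} (h : ∀ᶠ y in 𝓝 x, f y = 0)
    (v : TangentSpace 𝓘(ℂ, E) x) : ddcForm f x v = 0 := by
  unfold ddcForm
  have h1 : (fun ζ : ℂ => f ((chartAt E x).symm (chartAt E x x + ζ • (show E from v))))
      =ᶠ[𝓝 0] fun _ => (0 : ℝ) := by
    have h2 : ContinuousAt (fun ζ : ℂ => (chartAt E x).symm
        (chartAt E x x + ζ • (show E from v))) 0 := by
      have h3 : ContinuousAt (chartAt E x).symm (chartAt E x x + (0 : ℂ) • (show E from v)) := by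
        rw [zero_smul, add_zero]
        exact (chartAt E x).continuousAt_symm (mem_chart_target E x)
      have h4 : ContinuousAt (fun ζ : ℂ => chartAt E x x + ζ • (show E from v)) 0 := by
        apply Continuous.continuousAt
        exact continuous_const.add (continuous_id.smul continuous_const)
      exact ContinuousAt.comp (f := fun ζ : ℂ => chartAt E x x + ζ • (show E from v)) h3 h4
    have h5 : (chartAt E x).symm (chartAt E x x + (0 : ℂ) • (show E from v)) = x := by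
      rw [zero_smul, add_zero]
      exact (chartAt E x).left_inv (mem_chart_source E x)
    have h6 : Tendsto (fun ζ : ℂ => (chartAt E x).symm
        (chartAt E x x + ζ • (show E from v))) (𝓝 0) (𝓝 x) := by
      have := h2.tendsto
      rw [h5] at this
      exact this
    exact h6.eventually h
  rw [lap_congr h1]
  have h7 : lap (fun _ : ℂ => (0 : ℝ)) 0 = 0 := by
    unfold lap
    simp
  rw [h7, mul_zero]

theorem leafQuot_zero (ω : PosForm E M) (F : Foliation E M)
    {q : ∀ x : M, TangentSpace 𝓘(ℂ, E) x → ℝ} {x : M} (h : ∀ v, q x v = 0) :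
    leafQuot ω F q x = 0 := by
  classical
  unfold leafQuot
  split_ifs with h1
  · rw [h, zero_div]
  · rfl

theorem box_leafQuot [FiniteDimensional ℂ E] [T2Space M]
    (ω : PosForm E M) {F : Foliation E M} (b : Box F)
    {f : ℂ × b.T → ℝ} (hf : ContDiff ℝ ((⊤ : ℕ∞) : WithTop ℕ∞) f)
    {fh : M → ℝ} (hfh : ContMDiff 𝓘(ℝ, E) 𝓘(ℝ, ℝ) ((⊤ : ℕ∞) : WithTop ℕ∞) fh)
    (hval : ∀ x ∈ b.e.source, fh x = f (b.coord x)) {p : ℂ × b.T} (hp : p ∈ b.O) :
    leafQuot ω F (fun x v => ddcForm fh x v) (b.pt p) =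
      1 / (2 * Real.pi) * (lap (fun z => f (z, p.2)) p.1 / b.Q ω p) := by
  obtain ⟨z₀, t⟩ := p
  have hz₀ : z₀ ∈ ball (0 : ℂ) b.R := hp.1
  have ht : t ∈ ball (0 : b.T) b.R := hp.2
  set r : ℝ := b.R - ‖z₀‖ with hr
  have hr0 : 0 < r := by
    rw [mem_ball_zero_iff] at hz₀
    linarith
  have hsub : ball z₀ r ⊆ ball (0 : ℂ) b.R := by
    intro w hw
    rw [mem_ball, dist_eq_norm] at hw
    rw [mem_ball_zero_iff]
    have : ‖w‖ ≤ ‖w - z₀‖ + ‖z₀‖ := by
      have := norm_add_le (w - z₀) z₀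
      simpa using this
    linarith
  set ψ : ℂ → M := fun ζ : ℂ => b.pt (z₀ + r * ζ, t) with hψ
  have htan : F.IsTangentDisc ψ := b.plaque ht hr0 hsub
  have h00 : (0 : ℂ) ∈ ball (0 : ℂ) 1 := mem_ball_self one_pos
  have hψ0 : ψ 0 = b.pt (z₀, t) := by
    simp only [hψ, mul_zero, add_zero]
  have hQ : pullback ω ψ 0 = r ^ 2 * b.Q ω (z₀, t) := by
    have := b.pullback_plaque ω ht hr0 hsub h00
    rw [mul_zero, add_zero] at this
    exact this
  obtain ⟨a, A, ha, hQb⟩ := b.Q_bounds ω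
  have hQpos : 0 < b.Q ω (z₀, t) := ha.trans_le (hQb _ (b.O_subset hp)).1
  have hpb : 0 < pullback ω ψ 0 := by rw [hQ]; positivity
  have hv0 : (discDeriv ψ 0 1 : TangentSpace 𝓘(ℂ, E) (ψ 0)) ≠ 0 := by
    intro h0
    rw [pullback_eq] at hpb
    have h1 : qf ω (ψ 0) (discDeriv (E := E) ψ 0 1) = qf ω (ψ 0) (0 : E) := congrArg _ h0
    have h2 := qf_smul ω (ψ 0) 0 0
    rw [zero_smul] at h2
    rw [h1, h2] at hpb
    simp at hpb
  rw [← hψ0]
  have hmain := leafQuot_eq ω (F := F) (q := fun x v => ddcForm fh x v) (x := ψ 0)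
    (fun c v => ddcForm_smul' hfh (ψ 0) c v) (htan.2 0 h00).1 (htan.2 0 h00).2 hv0
  rw [hmain]
  have hform : ω.form (ψ 0) (discDeriv ψ 0 1) (J (ψ 0) (discDeriv ψ 0 1)) =
      r ^ 2 * b.Q ω (z₀, t) := by
    rw [← hQ, pullback_eq]
    rfl
  rw [hform]
  have hlap := (lap_comp_disc' hfh htan.1 h00).2
  have hc1 : (fun z => fh (ψ z)) =ᶠ[𝓝 0] fun ζ : ℂ => (fun z : ℂ => f (z, t)) (z₀ + r * ζ) := by
    filter_upwards [isOpen_ball.mem_nhds h00] with ζ hζ
    have hin : (z₀ + r * ζ, t) ∈ b.O := by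
      refine ⟨hsub ?_, ht⟩
      rw [mem_ball, dist_eq_norm]
      rw [mem_ball_zero_iff] at hζ
      have : z₀ + r * ζ - z₀ = r * ζ := by ring
      rw [this, norm_mul, Complex.norm_real, Real.norm_eq_abs, abs_of_pos hr0]
      nlinarith
    have h1 : ψ ζ ∈ b.e.source := (b.pt_mem hin).1
    rw [hval _ h1]
    have h2 : b.coord (ψ ζ) = (z₀ + r * ζ, t) := b.coord_pt (b.O_subset hin)
    rw [h2]
  rw [lap_congr hc1] at hlap
  have hU : ContDiffAt ℝ 2 (fun z : ℂ => f (z, t)) ((fun ζ : ℂ => z₀ + r * ζ) 0) := by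
    have h1 : ContDiff ℝ 2 f := hf.of_le (by
      have : ((2 : ℕ∞) : WithTop ℕ∞) ≤ ((⊤ : ℕ∞) : WithTop ℕ∞) := by exact_mod_cast le_top
      exact this)
    have h2 : ContDiff ℝ 2 (fun z : ℂ => ((z, t) : ℂ × b.T)) := contDiff_id.prodMk contDiff_const
    exact (h1.comp h2).contDiffAt
  have hj : AnalyticAt ℂ (fun ζ : ℂ => z₀ + r * ζ) 0 := by fun_prop
  have hl2 := lap_comp_holo (U := fun z : ℂ => f (z, t)) (j := fun ζ : ℂ => z₀ + r * ζ) (w := 0) hU hj
  have hderiv : deriv (fun ζ : ℂ => z₀ + r * ζ) 0 = r := by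
    have h1 : HasDerivAt (fun ζ : ℂ => z₀ + r * ζ) ((r : ℂ) * 1) 0 :=
      ((hasDerivAt_id (0 : ℂ)).const_mul (r : ℂ)).const_add z₀
    rw [h1.deriv, mul_one]
  rw [hderiv, Complex.norm_real, Real.norm_eq_abs, abs_of_pos hr0] at hl2
  simp only [mul_zero, add_zero] at hl2
  rw [hl2] at hlap
  show ddcForm (E := E) fh (ψ 0) (discDeriv ψ 0 1) / (r ^ 2 * b.Q ω (z₀, t)) =
      1 / (2 * Real.pi) * (lap (fun z => f (z, t)) z₀ / b.Q ω (z₀, t))
  have hpi := Real.pi_pos
  have h3 : ddcForm (E := E) fh (ψ 0) (discDeriv ψ 0 1) =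
      r ^ 2 * lap (fun z => f (z, t)) z₀ / (2 * Real.pi) := by
    rw [eq_div_iff (by positivity), hlap]
    ring
  rw [h3]
  field_simp

/-- a `dd^c`-closed directed current annihilates the leafwise Laplacians of the smooth functions
with compact support in a box -/
theorem box_harmonic [FiniteDimensional ℂ E] [T2Space M] [MeasurableSpace M] [BorelSpace M]
    (ω : PosForm E M) {F : Foliation E M} {μ : Measure M} (hc : IsDdcClosed ω F μ) (b : Box F)
    {f : ℂ × b.T → ℝ} (hf : ContDiff ℝ ((⊤ : ℕ∞) : WithTop ℕ∞) f) (hfc : HasCompactSupport f)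
    (hfO : tsupport f ⊆ b.O) :
    ∫ x in b.U, lap (fun z => f (z, (b.coord x).2)) (b.coord x).1 / b.Q ω (b.coord x) ∂μ = 0 := by
  classical
  set φ : E ≃ₜ ℂ × b.T := (Homeomorph.subRight b.c).trans b.L.symm.toHomeomorph with hφ
  have hφv : ∀ y, φ y = b.L.symm (y - b.c) := fun y => rfl
  set g : E → ℝ := f ∘ φ with hg
  have hgd : ContDiff ℝ ((⊤ : ℕ∞) : WithTop ℕ∞) g := by
    apply hf.comp
    have h1 : ContDiff ℂ ((⊤ : ℕ∞) : WithTop ℕ∞) (fun y : E => b.L.symm (y - b.c)) :=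
      b.L.symm.contDiff.comp (contDiff_id.sub contDiff_const)
    exact h1.restrict_scalars ℝ
  have hgc : HasCompactSupport g := hfc.comp_homeomorph φ
  have hts : tsupport g = φ ⁻¹' tsupport f := tsupport_comp_eq_preimage f φ
  have hinv : ∀ y, b.c + b.L (φ y) = y := by
    intro y
    rw [hφv, ContinuousLinearEquiv.apply_symm_apply]
    abel
  have hgt : tsupport g ⊆ b.e.target := by
    intro y hy
    rw [hts] at hy
    have h1 := b.box (φ y) (b.O_subset (hfO hy))
    rwa [hinv] at h1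
  set fh : M → ℝ := fun x => if x ∈ b.e.source then g (b.e x) else 0 with hfh
  have hfhs : ContMDiff 𝓘(ℝ, E) 𝓘(ℝ, ℝ) ((⊤ : ℕ∞) : WithTop ℕ∞) fh :=
    contMDiff_extend b.mem hgd hgc hgt
  have hval : ∀ x ∈ b.e.source, fh x = f (b.coord x) := by
    intro x hx
    simp only [hfh, hx, if_true]
    rfl
  have hcl := hc fh hfhs
  -- outside of U
  have hout : ∀ x, x ∉ b.U → leafQuot ω F (fun x v => ddcForm fh x v) x = 0 := by
    intro x hx
    apply leafQuot_zero
    intro v
    apply ddcForm_zero_of_eventually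
    set K : Set M := b.e.symm '' tsupport g with hK
    have hKc : IsCompact K := hgc.isCompact.image_of_continuousOn (b.e.continuousOn_symm.mono hgt)
    have hKU : K ⊆ b.U := by
      rintro _ ⟨y, hy, rfl⟩
      refine ⟨b.e.map_target (hgt hy), ?_⟩
      show b.L.symm (b.e (b.e.symm y) - b.c) ∈ b.O
      rw [b.e.right_inv (hgt hy)]
      rw [hts] at hy
      exact hfO hy
    have hxK : x ∈ Kᶜ := fun h => hx (hKU h)
    filter_upwards [hKc.isClosed.isOpen_compl.mem_nhds hxK] with y hy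
    by_cases hys : y ∈ b.e.source
    · simp only [hfh, hys, if_true]
      by_contra hne
      apply hy
      refine ⟨b.e y, subset_tsupport g hne, b.e.left_inv hys⟩
    · simp only [hfh, hys, if_false]
  have hin : ∀ x ∈ b.U, lap (fun z => f (z, (b.coord x).2)) (b.coord x).1 / b.Q ω (b.coord x) =
      2 * Real.pi * leafQuot ω F (fun x v => ddcForm fh x v) x := by
    intro x hx
    have h1 := box_leafQuot ω b hf hfhs hval (p := b.coord x) hx.2
    rw [b.pt_coord hx.1] at h1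
    rw [h1]
    have hpi := Real.pi_pos
    field_simp
  rw [setIntegral_congr_fun b.isOpen_U.measurableSet hin, integral_const_mul,
    setIntegral_eq_integral_of_forall_compl_eq_zero hout, hcl, mul_zero]

end Pool.Agent.Helper684.Ergo
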