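import Pool.Agent.Helper684.Ergo.CurDefs
import Pool.Agent.Helper684.Ergo.Sep
import Pool.Agent.Helper684.Ergo.M3

/-!
Directed harmonic currents and their trace measures.
-/

set_option autoImplicit false

open scoped Manifold
open Metric MeasureTheory Set Filter Topology
open Pool.Agent.Helper240.Nev

namespace Pool.Agent.Helper684.Ergo

variable {E M : Type*} [NormedAddCommGroup E] [NormedSpace ℂ E] [TopologicalSpace M]
  [ChartedSpace E M] [IsManifold 𝓘(ℂ, E) 1 M]

/-- the quotient `θ / ω` along the leaves -/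
noncomputable def lq (ω : PosForm E M) (F : Foliation E M) (θ : Form11 E M) : M → ℝ :=
  leafQuot ω F (fun x v => θ.form x v (J x v))

theorem chartDeriv_surj {e : OpenPartialHomeomorph M E} {x : M} (he : IsHolChartAt e x) (v : E) :
    ∃ w : TangentSpace 𝓘(ℂ, E) x, chartDeriv (E := E) e x w = v := by
  have h : e.MDifferentiable 𝓘(ℂ, E) 𝓘(ℂ, E) :=
    ⟨(contMDiffOn_of_mem_maximalAtlas he.1).mdifferentiableOn one_ne_zero,
      (contMDiffOn_symm_of_mem_maximalAtlas he.1).mdifferentiableOn one_ne_zero⟩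
  exact h.mfderiv_surjective he.2 v

theorem exists_dir {F : Foliation E M} {x : M} (hx : x ∉ F.sing) :
    ∃ v, v ∈ F.dir x ∧ v ≠ 0 := by
  obtain ⟨e, he, v, hv0, hgen⟩ := F.flowBox x hx
  obtain ⟨w, hw⟩ := chartDeriv_surj he v
  refine ⟨w, ((hgen x he.2).2 hx w).2 ⟨1, by rw [hw, one_smul]⟩, ?_⟩
  rintro rfl
  apply hv0
  rw [← hw]
  exact map_zero (mfderiv 𝓘(ℂ, E) 𝓘(ℂ, E) e x)

theorem continuousOn_lq [FiniteDimensional ℂ E] [T2Space M] [CompactSpace M] (ω : PosForm E M)
    (F : Foliation E M) (θ : Form11 E M) :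
    ContinuousOn (lq ω F θ) F.singᶜ := by
  intro x₀ hx₀
  apply ContinuousAt.continuousWithinAt
  obtain ⟨e, he, v, hv0, hgen⟩ := F.flowBox x₀ hx₀
  have key : ∀ x ∈ e.source, lq ω F θ x = Qt θ e (e x) v / Qe ω e (e x) v := by
    intro x hx
    have hxs : x ∉ F.sing := fun h => hv0 ((hgen x hx).1.1 h)
    obtain ⟨w, hw⟩ := chartDeriv_surj ⟨he.1, hx⟩ v
    have hwd : w ∈ F.dir x := ((hgen x hx).2 hxs w).2 ⟨1, by rw [hw, one_smul]⟩
    have hw0 : w ≠ 0 := by
      rintro rfl
      apply hv0
      rw [← hw]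
      exact map_zero (mfderiv 𝓘(ℂ, E) 𝓘(ℂ, E) e x)
    unfold lq
    rw [leafQuot_eq ω (fun c v => form11_smul θ x c v) hxs hwd hw0,
      form_eq_Qt θ ⟨he.1, hx⟩ w, form_eq_Qe ω ⟨he.1, hx⟩ w, hw]
  have hev : lq ω F θ =ᶠ[𝓝 x₀] fun x => Qt θ e (e x) v / Qe ω e (e x) v := by
    filter_upwards [e.open_source.mem_nhds he.2] with x hx
    exact key x hx
  refine ContinuousAt.congr ?_ hev.symm
  have hmem : (e.target ×ˢ (univ : Set E)) ∈ 𝓝 (e x₀, v) :=
    (e.open_target.prod isOpen_univ).mem_nhds ⟨e.map_source he.2, mem_univ _⟩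
  have h1 : ContinuousAt (fun p : E × E => Qt θ e p.1 p.2) (e x₀, v) :=
    (continuousOn_Qt θ he.1).continuousAt hmem
  have h2 : ContinuousAt (fun p : E × E => Qe ω e p.1 p.2) (e x₀, v) :=
    (continuousOn_Qe ω he.1).continuousAt hmem
  have h3 : ContinuousAt (fun x => (e x, v)) x₀ :=
    (e.continuousAt he.2).prodMk continuousAt_const
  exact (ContinuousAt.comp (f := fun x => (e x, v)) (g := fun p : E × E => Qt θ e p.1 p.2)
    h1 h3).div (ContinuousAt.comp (f := fun x => (e x, v))
      (g := fun p : E × E => Qe ω e p.1 p.2) h2 h3)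
    (Qe_pos ω he.1 (e.map_source he.2) hv0).ne'

theorem lq_sing (ω : PosForm E M) (F : Foliation E M) (θ : Form11 E M) {x : M}
    (hx : x ∈ F.sing) : lq ω F θ x = 0 := by
  classical
  unfold lq leafQuot
  rw [dif_neg (fun h => h.1 hx)]

theorem measurable_lq [FiniteDimensional ℂ E] [T2Space M] [CompactSpace M] [MeasurableSpace M]
    [BorelSpace M] (ω : PosForm E M) (F : Foliation E M) (θ : Form11 E M) :
    Measurable (lq ω F θ) := by
  classical
  have h : lq ω F θ = (F.singᶜ).piecewise (lq ω F θ) (fun _ => 0) := by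
    funext x
    by_cases hx : x ∈ F.sing
    · rw [piecewise_eq_of_notMem _ _ _ (not_not.2 hx), lq_sing ω F θ hx]
    · rw [piecewise_eq_of_mem _ _ _ hx]
  rw [h]
  exact (continuousOn_lq ω F θ).measurable_piecewise continuousOn_const
    F.isClosed_sing.measurableSet.compl

theorem lq_bdd [FiniteDimensional ℂ E] [T2Space M] [CompactSpace M] (ω : PosForm E M)
    (F : Foliation E M) (θ : Form11 E M) : ∃ C : ℝ, 0 ≤ C ∧
      (∀ (x : M) (v : TangentSpace 𝓘(ℂ, E) x),
        |θ.form x v (J x v)| ≤ C * ω.form x v (J x v)) ∧ ∀ x, |lq ω F θ x| ≤ C := by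
  classical
  obtain ⟨C, hC0, hC⟩ := form_bdd ω θ
  refine ⟨C, hC0, hC, fun x => ?_⟩
  unfold lq leafQuot
  split_ifs with h
  · have h0 := h.2.choose_spec.2
    have h1 : 0 < ω.form x h.2.choose (J x h.2.choose) := (ω.isPositiveAt x).pos _ h0
    rw [abs_div, abs_of_pos h1, div_le_iff₀ h1]
    exact hC x _
  · rw [abs_zero]
    exact hC0

theorem lq_add (ω : PosForm E M) (F : Foliation E M) (θ θ' : Form11 E M) (x : M) :
    lq ω F (θ + θ') x = lq ω F θ x + lq ω F θ' x := by
  classical
  unfold lq leafQuot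
  split_ifs with h
  · beta_reduce
    rw [Form11.add_form, add_div]
  · rw [add_zero]

theorem lq_mulFun (ω : PosForm E M) (F : Foliation E M) (f : C(M, ℝ)) (θ : Form11 E M) (x : M) :
    lq ω F (Form11.mulFun f θ) x = f x * lq ω F θ x := by
  classical
  unfold lq leafQuot
  split_ifs with h
  · beta_reduce
    rw [Form11.mulFun_form, mul_div_assoc]
  · rw [mul_zero]

theorem lq_smul (ω : PosForm E M) (F : Foliation E M) (c : ℝ) (θ : Form11 E M) (x : M) :
    lq ω F (c • θ) x = c * lq ω F θ x := lq_mulFun ω F (ContinuousMap.const M c) θ x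

theorem lq_omega (ω : PosForm E M) (F : Foliation E M) {x : M} (hx : x ∉ F.sing) :
    lq ω F ω.toForm11 x = 1 := by
  classical
  unfold lq leafQuot
  rw [dif_pos ⟨hx, exists_dir hx⟩]
  have h0 := (exists_dir hx).choose_spec.2
  have h1 : 0 < ω.form x (exists_dir hx).choose (J x (exists_dir hx).choose) :=
    (ω.isPositiveAt x).pos _ h0
  exact div_self h1.ne'

/-- along the leaves, `θ = (θ / ω) ω` -/
theorem form_eq_lq (ω : PosForm E M) (F : Foliation E M) (θ : Form11 E M) {x : M}
    (hx : x ∉ F.sing) {v : TangentSpace 𝓘(ℂ, E) x} (hv : v ∈ F.dir x) :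
    θ.form x v (J x v) = lq ω F θ x * ω.form x v (J x v) := by
  by_cases h0 : v = 0
  · subst h0
    have h1 := form11_smul θ x 0 0
    have h2 := form11_smul ω.toForm11 x 0 0
    rw [zero_smul] at h1 h2
    have h3 : ω.form x 0 (J x 0) = ‖(0 : ℂ)‖ ^ 2 * ω.form x 0 (J x 0) := h2
    rw [h1, h3]
    simp
  · unfold lq
    rw [leafQuot_eq ω (fun c v => form11_smul θ x c v) hx hv h0,
      div_mul_cancel₀ _ ((ω.isPositiveAt x).pos v h0).ne']

section rep

variable [FiniteDimensional ℂ E] [T2Space M] [CompactSpace M] [MeasurableSpace M] [BorelSpace M]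

omit [IsManifold 𝓘(ℂ, E) 1 M] [MeasurableSpace M] [BorelSpace M] in
theorem metrizable_of_compact (E : Type*) {M : Type*} [NormedAddCommGroup E] [NormedSpace ℂ E]
    [TopologicalSpace M] [ChartedSpace E M] [FiniteDimensional ℂ E] [T2Space M]
    [CompactSpace M] : TopologicalSpace.MetrizableSpace M := by
  haveI : ProperSpace E := FiniteDimensional.proper ℂ E
  haveI : SecondCountableTopology M := ChartedSpace.secondCountable_of_sigmaCompact E M
  exact TopologicalSpace.metrizableSpace_of_t3_secondCountable M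

theorem exists_cutoff (F : Foliation E M) {μ : Measure M} [IsFiniteMeasure μ]
    (hs : μ F.sing = 0) {ε : ℝ} (hε : 0 < ε) : ∃ u : C(M, ℝ), (∀ x, 0 ≤ u x ∧ u x ≤ 1) ∧
      (∀ x ∈ F.sing, u x = 1) ∧ ∫ x, u x ∂μ ≤ ε := by
  haveI : TopologicalSpace.MetrizableSpace M := metrizable_of_compact E
  obtain ⟨U, hU, hUo, hUε⟩ := F.sing.exists_isOpen_lt_of_lt (μ := μ) (ENNReal.ofReal ε)
    (by rw [hs]; exact ENNReal.ofReal_pos.2 hε)
  obtain ⟨u, hu0, hu1, hu01⟩ := exists_continuous_zero_one_of_isClosed (hUo.isClosed_compl)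
    F.isClosed_sing (disjoint_compl_left_iff_subset.2 hU)
  refine ⟨u, fun x => hu01 x, fun x hx => hu1 hx, ?_⟩
  have h1 : ∫ x, u x ∂μ ≤ ∫ x, U.indicator (fun _ => (1 : ℝ)) x ∂μ := by
    refine integral_mono_of_nonneg (ae_of_all _ fun x => (hu01 x).1)
      ((integrable_const (1 : ℝ)).indicator hUo.measurableSet) (ae_of_all _ fun x => ?_)
    by_cases hx : x ∈ U
    · rw [indicator_of_mem hx]
      exact (hu01 x).2
    · rw [indicator_of_notMem hx]
      exact (hu0 hx).le
  refine h1.trans ?_
  rw [integral_indicator_const _ hUo.measurableSet, smul_eq_mul, mul_one, measureReal_def]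
  exact ENNReal.toReal_le_of_le_ofReal hε.le hUε.le

theorem integrable_lq (ω : PosForm E M) (F : Foliation E M) (θ : Form11 E M) (μ : Measure M)
    [IsFiniteMeasure μ] : Integrable (lq ω F θ) μ := by
  obtain ⟨C, -, -, hC⟩ := lq_bdd ω F θ
  exact Integrable.of_bound (measurable_lq ω F θ).aestronglyMeasurable C (ae_of_all _ fun x => by
    rw [Real.norm_eq_abs]; exact hC x)

/-- a directed current is given by its trace measure -/
theorem current_eq (ω : PosForm E M) {F : Foliation E M} {T : Form11 E M →ₗ[ℝ] ℝ}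
    (hT : IsHarmonicCurrent F T) {μ : Measure M} [IsFiniteMeasure μ]
    (hμ : IsTraceL ω T μ) (hs : μ F.sing = 0) (θ : Form11 E M) :
    T θ = ∫ x, lq ω F θ x ∂μ := by
  obtain ⟨C, hC0, hC, hCq⟩ := lq_bdd ω F θ
  have hqi := integrable_lq ω F θ μ
  have key : ∀ ε : ℝ, 0 < ε → |T θ - ∫ x, lq ω F θ x ∂μ| ≤ 2 * C * ε := by
    intro ε hε
    obtain ⟨u, hu01, hu1, huε⟩ := exists_cutoff F hs hε
    have hui : Integrable u μ := Integrable.of_bound u.continuous.aestronglyMeasurable 1
      (ae_of_all _ fun x => by rw [Real.norm_eq_abs, abs_of_nonneg (hu01 x).1]; exact (hu01 x).2)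
    -- the continuous function `(1 - u) q`
    have hcont : Continuous fun x => (1 - u x) * lq ω F θ x := by
      rw [continuous_iff_continuousAt]
      intro x
      by_cases hx : x ∈ F.sing
      · have hlim : Tendsto (fun y => (1 - u y)) (𝓝 x) (𝓝 0) := by
          have h1 : ContinuousAt (fun y => 1 - u y) x :=
            (continuous_const.sub u.continuous).continuousAt
          have h2 := h1.tendsto
          rwa [hu1 x hx, sub_self] at h2
        have h3 : (1 - u x) * lq ω F θ x = 0 := by rw [hu1 x hx, sub_self, zero_mul]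
        show Tendsto _ _ (𝓝 ((1 - u x) * lq ω F θ x))
        rw [h3]
        refine squeeze_zero_norm (a := fun y => |1 - u y| * C) (fun y => ?_) ?_
        · rw [norm_mul, Real.norm_eq_abs, Real.norm_eq_abs]
          exact mul_le_mul_of_nonneg_left (hCq y) (abs_nonneg _)
        · have := (hlim.abs).mul_const C
          rwa [abs_zero, zero_mul] at this
      · have h1 := (continuousOn_lq ω F θ).continuousAt (F.isClosed_sing.isOpen_compl.mem_nhds hx)
        exact ((continuous_const.sub u.continuous).continuousAt).mul h1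
    set g : C(M, ℝ) := ⟨fun x => (1 - u x) * lq ω F θ x, hcont⟩ with hg
    set w : C(M, ℝ) := ContinuousMap.const M 1 - u with hw
    have hwx : ∀ x, w x = 1 - u x := fun x => rfl
    have hgx : ∀ x, g x = (1 - u x) * lq ω F θ x := fun x => rfl
    have hdec : θ = Form11.mulFun u θ + Form11.mulFun w θ := by
      apply Form11.form_injective
      funext x a b
      simp only [Form11.add_form, Form11.mulFun_form, hwx]
      ring
    have h1 : T (Form11.mulFun w θ) = ∫ x, g x ∂μ := by
      have h2 : T (Form11.mulFun w θ - Form11.mulFun g ω.toForm11) = 0 := by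
        refine hT.directed _ fun x hx v hv => ?_
        rw [Form11.sub_form, Form11.mulFun_form, Form11.mulFun_form, form_eq_lq ω F θ hx hv, hwx,
          hgx]
        show _ - (1 - u x) * lq ω F θ x * ω.form x v (J x v) = 0
        ring
      rw [map_sub, sub_eq_zero] at h2
      rw [h2, hμ g]
    have h3 : |T (Form11.mulFun u θ)| ≤ C * ∫ x, u x ∂μ := by
      rw [← hμ u, abs_le]
      have hpos1 : 0 ≤ T (C • Form11.mulFun u ω.toForm11 + Form11.mulFun u θ) := by
        refine hT.pos _ fun x v => ?_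
        rw [Form11.add_form, Form11.smul_form, Form11.mulFun_form, Form11.mulFun_form]
        have h4 := (abs_le.1 (hC x v)).1
        have h5 : 0 ≤ u x * (C * ω.form x v (J x v) + θ.form x v (J x v)) :=
          mul_nonneg (hu01 x).1 (by linarith)
        have h6 : C * (u x * ω.toForm11.form x v (J x v)) + u x * θ.form x v (J x v) =
          u x * (C * ω.form x v (J x v) + θ.form x v (J x v)) := by
          show C * (u x * ω.form x v (J x v)) + u x * θ.form x v (J x v) = _
          ring
        rw [h6]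
        exact h5
      have hpos2 : 0 ≤ T (C • Form11.mulFun u ω.toForm11 - Form11.mulFun u θ) := by
        refine hT.pos _ fun x v => ?_
        rw [Form11.sub_form, Form11.smul_form, Form11.mulFun_form, Form11.mulFun_form]
        have h4 := (abs_le.1 (hC x v)).2
        have h5 : 0 ≤ u x * (C * ω.form x v (J x v) - θ.form x v (J x v)) :=
          mul_nonneg (hu01 x).1 (by linarith)
        have h6 : C * (u x * ω.toForm11.form x v (J x v)) - u x * θ.form x v (J x v) =
          u x * (C * ω.form x v (J x v) - θ.form x v (J x v)) := by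
          show C * (u x * ω.form x v (J x v)) - u x * θ.form x v (J x v) = _
          ring
        rw [h6]
        exact h5
      rw [map_add, map_smul, smul_eq_mul] at hpos1
      rw [map_sub, map_smul, smul_eq_mul] at hpos2
      constructor <;> linarith
    have h7 : ∫ x, g x ∂μ = ∫ x, lq ω F θ x ∂μ - ∫ x, u x * lq ω F θ x ∂μ := by
      have hi2 : Integrable (fun x => u x * lq ω F θ x) μ := by
        refine Integrable.of_bound (u.continuous.measurable.mul
          (measurable_lq ω F θ)).aestronglyMeasurable C (ae_of_all _ fun x => ?_)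
        rw [norm_mul, Real.norm_eq_abs, Real.norm_eq_abs, abs_of_nonneg (hu01 x).1]
        calc u x * |lq ω F θ x| ≤ 1 * C :=
              mul_le_mul (hu01 x).2 (hCq x) (abs_nonneg _) zero_le_one
          _ = C := one_mul C
      rw [← integral_sub hqi hi2]
      refine integral_congr_ae (ae_of_all _ fun x => ?_)
      simp only [hgx]
      ring
    have h8 : |∫ x, u x * lq ω F θ x ∂μ| ≤ C * ∫ x, u x ∂μ := by
      rw [← Real.norm_eq_abs, ← integral_const_mul]
      refine norm_integral_le_of_norm_le (hui.const_mul C) (ae_of_all _ fun x => ?_)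
      rw [norm_mul, Real.norm_eq_abs, Real.norm_eq_abs, abs_of_nonneg (hu01 x).1, mul_comm C]
      exact mul_le_mul_of_nonneg_left (hCq x) (hu01 x).1
    have h9 : T θ = T (Form11.mulFun u θ) + T (Form11.mulFun w θ) := by
      rw [← map_add, ← hdec]
    have h10 : C * ∫ x, u x ∂μ ≤ C * ε := mul_le_mul_of_nonneg_left huε hC0
    rw [h9, h1, h7]
    have h11 := abs_le.1 h3
    have h12 := abs_le.1 h8
    rw [abs_le]
    constructor <;> linarith [h11.1, h11.2, h12.1, h12.2]
  have h0 : |T θ - ∫ x, lq ω F θ x ∂μ| ≤ 0 := by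
    refine le_of_forall_pos_le_add fun δ hδ => ?_
    have h1 := key (δ / (2 * C + 1)) (by positivity)
    have h2 : 2 * C * (δ / (2 * C + 1)) ≤ δ := by
      rw [mul_div_assoc', div_le_iff₀ (by positivity)]
      nlinarith
    linarith
  have h1 := abs_nonpos_iff.1 h0
  linarith

/-- the directed current with a given trace measure -/
noncomputable def ofMeasure (ω : PosForm E M) (F : Foliation E M) (μ : Measure M)
    [IsFiniteMeasure μ] : Form11 E M →ₗ[ℝ] ℝ where
  toFun θ := ∫ x, lq ω F θ x ∂μ
  map_add' θ θ' := by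
    rw [← integral_add (integrable_lq ω F θ μ) (integrable_lq ω F θ' μ)]
    exact integral_congr_ae (ae_of_all _ fun x => lq_add ω F θ θ' x)
  map_smul' c θ := by
    rw [RingHom.id_apply, smul_eq_mul, ← integral_const_mul]
    exact integral_congr_ae (ae_of_all _ fun x => lq_smul ω F c θ x)

theorem ofMeasure_harmonic (ω : PosForm E M) (F : Foliation E M) (μ : Measure M)
    [IsFiniteMeasure μ] (hμ : IsDirectedHarmonic ω F μ) :
    IsHarmonicCurrent F (ofMeasure ω F μ) where
  pos θ hθ := by
    classical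
    show 0 ≤ ∫ x, lq ω F θ x ∂μ
    refine integral_nonneg fun x => ?_
    unfold lq leafQuot
    simp only [Pi.zero_apply]
    split_ifs with h
    · exact div_nonneg (hθ x _) ((ω.isPositiveAt x).pos _ h.2.choose_spec.2).le
    · exact le_rfl
  directed θ hθ := by
    classical
    show ∫ x, lq ω F θ x ∂μ = 0
    have h : ∀ x, lq ω F θ x = 0 := by
      intro x
      unfold lq leafQuot
      split_ifs with h
      · beta_reduce
        rw [hθ x h.1 _ h.2.choose_spec.1, zero_div]
      · rfl
    simp only [h, integral_zero]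
  closed f θ hf hθ := by
    show ∫ x, lq ω F θ x ∂μ = 0
    rw [← hμ.closed f hf]
    have h : (fun (x : M) (v : TangentSpace 𝓘(ℂ, E) x) => θ.form x v (J x v)) =
        fun x v => ddcForm f x v := by
      funext x v
      exact hθ x v
    unfold lq
    rw [h]

/-- extremality of the current implies extremality of the trace measure -/
theorem extremal_measure (ω : PosForm E M) {F : Foliation E M} {T : Form11 E M →ₗ[ℝ] ℝ}
    (hT : IsHarmonicCurrent F T) (hext : IsExtremalCurrent F T) {μ : Measure M}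
    [IsProbabilityMeasure μ] (hμ : IsTraceL ω T μ) (hs : μ F.sing = 0) :
    IsExtremal ω F μ := by
  intro μ₁ μ₂ h₁ h₂ hsum
  haveI : TopologicalSpace.MetrizableSpace M := metrizable_of_compact E
  haveI : IsFiniteMeasure μ₁ := ⟨h₁.finite⟩
  haveI : IsFiniteMeasure μ₂ := ⟨h₂.finite⟩
  obtain ⟨c, hc⟩ := hext (ofMeasure ω F μ₁) (ofMeasure ω F μ₂) (ofMeasure_harmonic ω F μ₁ h₁)
    (ofMeasure_harmonic ω F μ₂ h₂) (by
      ext θ
      rw [current_eq ω hT hμ hs θ]
      show ∫ x, lq ω F θ x ∂μ = ∫ x, lq ω F θ x ∂μ₁ + ∫ x, lq ω F θ x ∂μ₂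
      rw [hsum, integral_add_measure (integrable_lq ω F θ μ₁) (integrable_lq ω F θ μ₂)])
  have hf : ∀ f : C(M, ℝ), ∫ x, f x ∂μ₁ = c * ∫ x, f x ∂μ := by
    intro f
    have h3 := congrArg (fun S : Form11 E M →ₗ[ℝ] ℝ => S (Form11.mulFun f ω.toForm11)) hc
    have h4 : ∫ x, lq ω F (Form11.mulFun f ω.toForm11) x ∂μ₁ =
        c * T (Form11.mulFun f ω.toForm11) := h3
    rw [hμ f] at h4
    rw [← h4]
    refine integral_congr_ae ?_
    have h5 : ∀ᵐ x ∂μ₁, x ∉ F.sing := measure_eq_zero_iff_ae_notMem.1 h₁.sing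
    filter_upwards [h5] with x hx
    rw [lq_mulFun, lq_omega ω F hx, mul_one]
  have hc0 : 0 ≤ c := by
    have h6 := hf (ContinuousMap.const M 1)
    simp only [ContinuousMap.const_apply, integral_const, smul_eq_mul, mul_one] at h6
    have h7 : μ.real univ = 1 := by simp
    rw [h7, mul_one] at h6
    rw [← h6]
    exact measureReal_nonneg
  refine ⟨ENNReal.ofReal c, ?_⟩
  haveI : IsFiniteMeasure (ENNReal.ofReal c • μ) :=
    ⟨by
      rw [Measure.smul_apply, smul_eq_mul]
      exact ENNReal.mul_lt_top ENNReal.ofReal_lt_top (measure_lt_top _ _)⟩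
  refine ext_of_forall_integral_eq_of_IsFiniteMeasure fun f => ?_
  rw [integral_smul_measure, ENNReal.toReal_ofReal hc0, smul_eq_mul]
  exact hf f.toContinuousMap

end rep

end Pool.Agent.Helper684.Ergo
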