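import Pool.Agent.Helper684.Ergo.Hopf

set_option autoImplicit false


open MeasureTheory ProbabilityTheory Set Filter Topology
open scoped ENNReal

namespace Pool.Agent.Helper684.Ergo

variable {Ω : Type*} [MeasurableSpace Ω]



/-- finiteness of the Abel sums, almost everywhere -/
theorem abel_finite (κ : Kernel Ω Ω) [IsMarkovKernel κ] (m : Measure Ω) [IsFiniteMeasure m]
    (hinv : m.bind κ = m) (C : ℝ) (n : ℕ) (hn : 1 ≤ n) (f : Ω → ℝ≥0∞) (hf : Measurable f)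
    (hfin : ∫⁻ x, f x ∂m < ⊤) :
    ∀ᵐ x ∂m, ENNReal.ofReal C * ∑' j : ℕ,
        ENNReal.ofReal (((1 + 1 / (4 * (n : ℝ)))⁻¹) ^ j) *
          ((Pop κ)^[j] (fun y => Pop κ (Pop κ f) y + Pop κ f y)) x < ⊤ := by
  obtain ⟨ρ, hρ⟩ : ∃ ρ : ℝ, ρ = (1 + 1 / (4 * (n : ℝ)))⁻¹ := ⟨_, rfl⟩
  obtain ⟨h, hh⟩ : ∃ h : Ω → ℝ≥0∞, h = fun y => Pop κ (Pop κ f) y + Pop κ f y := ⟨_, rfl⟩
  rw [← hρ, ← hh]
  have hn' : (0 : ℝ) < n := by exact_mod_cast hn
  have hρ0 : 0 ≤ ρ := by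
    rw [hρ]
    positivity
  have hρ1 : ρ < 1 := by
    rw [hρ]
    apply inv_lt_one_of_one_lt₀
    have : 0 < 1 / (4 * (n : ℝ)) := by positivity
    linarith
  have hm1 : Measurable (Pop κ f) := measurable_Pop κ hf
  have hm2 : Measurable (Pop κ (Pop κ f)) := measurable_Pop κ hm1
  have hmh : Measurable h := by
    rw [hh]
    exact hm2.add hm1
  have hint : ∫⁻ x, h x ∂m < ⊤ := by
    rw [hh, lintegral_add_left hm2, lintegral_Pop κ m hinv hm1, lintegral_Pop κ m hinv hf]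
    exact ENNReal.add_lt_top.2 ⟨hfin, hfin⟩
  have hmj : ∀ j, Measurable (fun x => ENNReal.ofReal (ρ ^ j) * ((Pop κ)^[j] h) x) := fun j =>
    (measurable_Pop_iter κ hmh j).const_mul _
  have hsum : ∫⁻ x, ∑' j : ℕ, ENNReal.ofReal (ρ ^ j) * ((Pop κ)^[j] h) x ∂m ≠ ⊤ := by
    rw [lintegral_tsum (fun j => (hmj j).aemeasurable)]
    have e : ∀ j : ℕ, ∫⁻ x, ENNReal.ofReal (ρ ^ j) * ((Pop κ)^[j] h) x ∂m =
        (ENNReal.ofReal ρ) ^ j * ∫⁻ x, h x ∂m := by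
      intro j
      rw [lintegral_const_mul _ (measurable_Pop_iter κ hmh j), lintegral_Pop_iter κ m hinv hmh j,
        ENNReal.ofReal_pow hρ0]
    rw [tsum_congr e, ENNReal.tsum_mul_right, ENNReal.tsum_geometric]
    apply ENNReal.mul_ne_top _ hint.ne
    rw [ENNReal.inv_ne_top]
    apply ne_of_gt
    rw [tsub_pos_iff_lt]
    rw [ENNReal.ofReal_lt_one]
    exact hρ1
  have hae := ae_lt_top (Measurable.ennreal_tsum hmj) hsum
  filter_upwards [hae] with x hx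
  exact ENNReal.mul_lt_top ENNReal.ofReal_lt_top hx

end Pool.Agent.Helper684.Ergo
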