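import Pool.Agent.Helper684.Ergo.HypAll

set_option autoImplicit false


open MeasureTheory Metric Set Filter Topology
open scoped ComplexConjugate ENNReal

namespace Pool.Agent.Helper684.Ergo

/-- Fubini for the Nevanlinna averages. -/
theorem nev_fubini {g : ℂ → ℝ} (hg : ContinuousOn g (ball 0 1)) {r : ℝ} (hr : 0 < r)
    (hr1 : r < 1) :
    Integrable (fun ξ => gK (r ^ 2) (hh 0 ξ) * (g ξ * (1 - ‖ξ‖ ^ 2) ^ 2)) hypVol ∧
    ∫ t in (0 : ℝ)..r, (∫ ξ in ball (0 : ℂ) t, g ξ) / t =
      1 / 2 * ∫ ξ, gK (r ^ 2) (hh 0 ξ) * (g ξ * (1 - ‖ξ‖ ^ 2) ^ 2) ∂hypVol := by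
  classical
  obtain ⟨C, hC⟩ : ∃ C, ∀ ξ ∈ closedBall (0 : ℂ) r, ‖g ξ‖ ≤ C :=
    (isCompact_closedBall 0 r).exists_bound_of_continuousOn (hg.mono (closedBall_subset_ball hr1))
  have hC0 : 0 ≤ C := (norm_nonneg _).trans (hC 0 (by simp [hr.le]))
  obtain ⟨μ, hμ⟩ : ∃ μ : Measure ℝ, μ = volume.restrict (Ioo 0 r) := ⟨_, rfl⟩
  obtain ⟨ν, hν⟩ : ∃ ν : Measure ℂ, ν = volume.restrict (ball 0 r) := ⟨_, rfl⟩
  have hμf : IsFiniteMeasure μ := by
    rw [hμ]
    exact ⟨by rw [Measure.restrict_apply_univ]; exact measure_Ioo_lt_top⟩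
  have hνf : IsFiniteMeasure ν := by
    rw [hν]
    exact ⟨by rw [Measure.restrict_apply_univ]; exact measure_ball_lt_top⟩
  have hgm : AEStronglyMeasurable g ν := by
    rw [hν]
    exact (hg.mono (ball_subset_ball hr1.le)).aestronglyMeasurable measurableSet_ball
  let Φ : ℝ → ℂ → ℝ := fun t ξ => if ‖ξ‖ < t then g ξ / t else 0
  have hΦm : AEStronglyMeasurable (Function.uncurry Φ) (μ.prod ν) := by
    have h1 : AEMeasurable (fun p : ℝ × ℂ => g p.2 / p.1) (μ.prod ν) :=
      (hgm.aemeasurable.comp_quasiMeasurePreserving Measure.quasiMeasurePreserving_snd).div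
        measurable_fst.aemeasurable
    have h2 : MeasurableSet {q : ℝ × ℂ | ‖q.2‖ < q.1} :=
      measurableSet_lt measurable_snd.norm measurable_fst
    have h3 := (h1.indicator h2).aestronglyMeasurable
    refine h3.congr (Eventually.of_forall fun p => ?_)
    simp only [Set.indicator_apply, Function.uncurry, Φ, Set.mem_ofPred_eq]
  have hball : ∀ t, t < r → ball (0 : ℂ) t ⊆ ball 0 r := fun t ht => ball_subset_ball ht.le
  have hnb : ∀ t, 0 < t → t < r → ∀ ξ, ‖Φ t ξ‖ ≤ (ball (0 : ℂ) t).indicator (fun _ => C / t) ξ := by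
    intro t ht htr ξ
    simp only [Φ, Set.indicator_apply, mem_ball_zero_iff]
    split_ifs with h
    · rw [norm_div, Real.norm_of_nonneg ht.le]
      exact div_le_div_of_nonneg_right (hC ξ (by simpa using (h.trans htr).le)) ht.le
    · simp
  have hvol : ∀ t : ℝ, 0 < t → (volume (ball (0 : ℂ) t)).toReal = Real.pi * t ^ 2 := by
    intro t ht
    rw [Complex.volume_ball]
    simp [ht.le, mul_comm]
  have hsec : ∀ t, 0 < t → t < r → Integrable (Φ t) ν := by
    intro t ht htr
    have h1 : AEMeasurable (fun ξ => g ξ / t) ν := hgm.aemeasurable.div_const t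
    have h2 := (h1.indicator (measurableSet_ball (x := (0 : ℂ)) (ε := t))).aestronglyMeasurable
    have h3 : AEStronglyMeasurable (Φ t) ν := by
      refine h2.congr (Eventually.of_forall fun ξ => ?_)
      simp only [Set.indicator_apply, Φ, mem_ball_zero_iff]
    refine (integrable_const (C / t)).mono' h3 (Eventually.of_forall fun ξ => ?_)
    refine (hnb t ht htr ξ).trans ?_
    simp only [Set.indicator_apply]
    split_ifs
    · exact le_rfl
    · positivity
  have hΦi : Integrable (Function.uncurry Φ) (μ.prod ν) := by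
    rw [integrable_prod_iff hΦm]
    refine ⟨?_, ?_⟩
    · rw [hμ]
      filter_upwards [ae_restrict_mem measurableSet_Ioo] with t ht
      exact hsec t ht.1 ht.2
    · have hm := hΦm.norm.integral_prod_right'
      refine (integrable_const (C * Real.pi * r)).mono' hm ?_
      rw [hμ]
      filter_upwards [ae_restrict_mem measurableSet_Ioo] with t ht
      have h1 : ∫ ξ, ‖Function.uncurry Φ (t, ξ)‖ ∂ν ≤
          ∫ ξ, (ball (0 : ℂ) t).indicator (fun _ => C / t) ξ ∂ν := by
        refine integral_mono (hsec t ht.1 ht.2).norm ?_ (hnb t ht.1 ht.2)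
        exact (integrable_const _).indicator measurableSet_ball
      have h2 : ∫ ξ, (ball (0 : ℂ) t).indicator (fun _ => C / t) ξ ∂ν = C * Real.pi * t := by
        rw [integral_indicator_const _ measurableSet_ball, hν]
        have : (volume.restrict (ball (0 : ℂ) r)).real (ball 0 t) = Real.pi * t ^ 2 := by
          rw [measureReal_def, Measure.restrict_apply measurableSet_ball,
            Set.inter_eq_left.2 (hball t ht.2), hvol t ht.1]
        rw [this, smul_eq_mul]
        have := ht.1.ne'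
        field_simp
      have h0 : 0 ≤ ∫ ξ, ‖Function.uncurry Φ (t, ξ)‖ ∂ν := integral_nonneg fun _ => norm_nonneg _
      rw [Real.norm_of_nonneg h0]
      refine h1.trans ?_
      rw [h2]
      exact mul_le_mul_of_nonneg_left ht.2.le (by positivity)
  have hswap := integral_integral_swap hΦi
  have hri := hΦi.integral_prod_right
  -- left side
  have hL : ∫ t, ∫ ξ, Φ t ξ ∂ν ∂μ = ∫ t in (0 : ℝ)..r, (∫ ξ in ball (0 : ℂ) t, g ξ) / t := by
    rw [intervalIntegral.integral_of_le hr.le, integral_Ioc_eq_integral_Ioo, hμ]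
    refine setIntegral_congr_fun measurableSet_Ioo fun t ht => ?_
    have h1 : ∀ ξ, Φ t ξ = (ball (0 : ℂ) t).indicator (fun ξ => g ξ / t) ξ := by
      intro ξ
      simp only [Set.indicator_apply, Φ, mem_ball_zero_iff]
    simp only [h1]
    rw [integral_indicator measurableSet_ball, hν, Measure.restrict_restrict measurableSet_ball,
      Set.inter_eq_left.2 (hball t ht.2), integral_div]
  -- right side
  have hR : ∀ ξ ∈ ball (0 : ℂ) r, ξ ≠ 0 → ∫ t, Φ t ξ ∂μ = g ξ * (Real.log r - Real.log ‖ξ‖) := by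
    intro ξ hξ hξ0
    have hξr : ‖ξ‖ < r := by simpa using hξ
    have hξp : 0 < ‖ξ‖ := norm_pos_iff.2 hξ0
    have h1 : ∀ t, Φ t ξ = (Ioi ‖ξ‖).indicator (fun t => g ξ / t) t := by
      intro t
      simp only [Set.indicator_apply, Φ, mem_Ioi]
    simp only [h1]
    rw [integral_indicator measurableSet_Ioi, hμ, Measure.restrict_restrict measurableSet_Ioi]
    have h2 : Ioi ‖ξ‖ ∩ Ioo 0 r = Ioo ‖ξ‖ r := by
      ext t
      simp only [mem_inter_iff, mem_Ioi, mem_Ioo]
      constructor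
      · rintro ⟨h, _, h'⟩; exact ⟨h, h'⟩
      · rintro ⟨h, h'⟩; exact ⟨h, hξp.trans h, h'⟩
    rw [h2, ← integral_Ioc_eq_integral_Ioo, ← intervalIntegral.integral_of_le hξr.le]
    have h3 : ∀ t : ℝ, g ξ / t = g ξ * (1 / t) := fun t => by ring
    simp only [h3]
    rw [intervalIntegral.integral_const_mul, integral_one_div_of_pos hξp hr,
      Real.log_div hr.ne' hξp.ne']
  have hne : ∀ᵐ ξ ∂ν, ξ ≠ 0 := by
    rw [hν]
    exact Measure.ae_ne _ 0
  have hRae : (fun ξ => ∫ t, Φ t ξ ∂μ) =ᵐ[ν] fun ξ => g ξ * (Real.log r - Real.log ‖ξ‖) := by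
    have h1 : ∀ᵐ ξ ∂ν, ξ ∈ ball (0 : ℂ) r := by
      rw [hν]; exact ae_restrict_mem measurableSet_ball
    filter_upwards [h1, hne] with ξ h2 h3
    exact hR ξ h2 h3
  have hHi : Integrable (fun ξ => g ξ * (Real.log r - Real.log ‖ξ‖)) ν :=
    (integrable_congr hRae).1 hri
  have hmain : ∫ t in (0 : ℝ)..r, (∫ ξ in ball (0 : ℂ) t, g ξ) / t =
      ∫ ξ, g ξ * (Real.log r - Real.log ‖ξ‖) ∂ν := by
    rw [← hL, hswap]
    exact integral_congr_ae hRae
  -- hyperbolic side
  obtain ⟨E, hE⟩ : ∃ E : ℂ → ℝ, E = (ball (0 : ℂ) r).indicator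
      (fun ξ => 2 * (g ξ * (Real.log r - Real.log ‖ξ‖))) := ⟨_, rfl⟩
  have hsub : ball (0 : ℂ) r ⊆ ball 0 1 := ball_subset_ball hr1.le
  have hEi : Integrable E (volume.restrict (ball 0 1)) := by
    rw [hE, integrable_indicator_iff measurableSet_ball, IntegrableOn,
      Measure.restrict_restrict measurableSet_ball, Set.inter_eq_left.2 hsub, ← hν]
    exact hHi.const_mul 2
  have hEint : ∫ ξ in ball (0 : ℂ) 1, E ξ = 2 * ∫ ξ, g ξ * (Real.log r - Real.log ‖ξ‖) ∂ν := by
    rw [hE, integral_indicator measurableSet_ball, Measure.restrict_restrict measurableSet_ball,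
      Set.inter_eq_left.2 hsub, ← hν, integral_const_mul]
  have hdm : Measurable fun w : ℂ => ENNReal.ofReal (1 / (1 - ‖w‖ ^ 2) ^ 2) := by fun_prop
  have hdlt : ∀ᵐ w ∂(volume.restrict (ball (0 : ℂ) 1)),
      ENNReal.ofReal (1 / (1 - ‖w‖ ^ 2) ^ 2) < ⊤ := Eventually.of_forall fun _ => ENNReal.ofReal_lt_top
  have hcongr : (fun ξ => (ENNReal.ofReal (1 / (1 - ‖ξ‖ ^ 2) ^ 2)).toReal •
      (gK (r ^ 2) (hh 0 ξ) * (g ξ * (1 - ‖ξ‖ ^ 2) ^ 2))) =ᵐ[volume.restrict (ball (0 : ℂ) 1)] E := by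
    have h1 : ∀ᵐ ξ ∂(volume.restrict (ball (0 : ℂ) 1)), ξ ≠ 0 := Measure.ae_ne _ 0
    filter_upwards [ae_restrict_mem measurableSet_ball, h1] with ξ h2 h3
    have hξ1 : ‖ξ‖ < 1 := by simpa using h2
    have hξp : 0 < ‖ξ‖ := norm_pos_iff.2 h3
    have h4 : 0 < 1 - ‖ξ‖ ^ 2 := by nlinarith
    rw [ENNReal.toReal_ofReal (by positivity), smul_eq_mul, hh_zero_left, hE]
    unfold gK
    have h5 : (1 : ℝ) - (1 - ‖ξ‖ ^ 2) = ‖ξ‖ ^ 2 := by ring
    rw [h5, Real.log_pow, Real.log_pow]
    simp only [Set.indicator_apply, mem_ball_zero_iff]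
    split_ifs with h
    · have h6 : Real.log ‖ξ‖ < Real.log r := Real.log_lt_log hξp h
      rw [max_eq_right (by push_cast; linarith)]
      push_cast
      field_simp
    · have h6 : Real.log r ≤ Real.log ‖ξ‖ := Real.log_le_log hr (not_lt.1 h)
      rw [max_eq_left (by push_cast; linarith)]
      simp
  constructor
  · unfold hypVol
    rw [integrable_withDensity_iff_integrable_smul' hdm hdlt]
    exact (integrable_congr hcongr).2 hEi
  · unfold hypVol
    rw [integral_withDensity_eq_integral_toReal_smul hdm hdlt, integral_congr_ae hcongr, hEint,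
      hmain]
    ring

end Pool.Agent.Helper684.Ergo
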