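import Mathlib

set_option autoImplicit false

open MeasureTheory Metric Set Filter Topology
open scoped ComplexConjugate ENNReal

namespace Pool.Agent.Helper684.Ergo

/-- From the sequence `1 - e^{-n}` to the continuous parameter. -/
theorem tendsto_continuous_param (G : ℝ → ℝ≥0∞) (hmono : MonotoneOn G (Ioo 0 1)) (L : ℝ)
    (hfin : ∀ n : ℕ, 1 ≤ n → G (1 - Real.exp (-n)) < ⊤)
    (hlim : Tendsto (fun n : ℕ => (G (1 - Real.exp (-n))).toReal / n) atTop (𝓝 L)) :
    Tendsto (fun r : ℝ => (G (r ^ 2)).toReal / (- Real.log (1 - r ^ 2))) (𝓝[<] 1) (𝓝 L) := by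
  have h1 : Tendsto (fun r : ℝ => 1 - r ^ 2) (𝓝[<] 1) (𝓝[>] 0) := by
    rw [tendsto_nhdsWithin_iff]
    constructor
    · have : Tendsto (fun r : ℝ => 1 - r ^ 2) (𝓝 1) (𝓝 (1 - 1 ^ 2)) :=
        (continuous_const.sub (continuous_pow 2)).tendsto 1
      have h2 : (1 : ℝ) - 1 ^ 2 = 0 := by norm_num
      rw [h2] at this
      exact this.mono_left nhdsWithin_le_nhds
    · have hio : Ioo (0:ℝ) 1 ∈ 𝓝[<] (1:ℝ) := Ioo_mem_nhdsLT (by norm_num)
      filter_upwards [hio] with r hr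
      have : r ^ 2 < 1 := by nlinarith [hr.1, hr.2]
      simp only [mem_Ioi]
      linarith
  have hl : Tendsto (fun r : ℝ => - Real.log (1 - r ^ 2)) (𝓝[<] 1) atTop :=
    tendsto_neg_atBot_atTop.comp (Real.tendsto_log_nhdsGT_zero.comp h1)
  have hn : Tendsto (fun r : ℝ => ⌊- Real.log (1 - r ^ 2)⌋₊) (𝓝[<] 1) atTop :=
    tendsto_nat_floor_atTop.comp hl
  have hq : Tendsto (fun n : ℕ => (n : ℝ) / (n + 1)) atTop (𝓝 1) :=
    tendsto_natCast_div_add_atTop (1 : ℝ)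
  have hlow : Tendsto (fun n : ℕ => (G (1 - Real.exp (-n))).toReal / ((n : ℝ) + 1)) atTop (𝓝 L) := by
    have := hlim.mul hq
    rw [mul_one] at this
    refine this.congr' ?_
    filter_upwards [eventually_ge_atTop 1] with n hn1
    have h0 : (n : ℝ) ≠ 0 := by positivity
    field_simp
  have hup : Tendsto (fun n : ℕ => (G (1 - Real.exp (-((n + 1 : ℕ) : ℝ)))).toReal / (n : ℝ)) atTop
      (𝓝 L) := by
    have h2 : Tendsto (fun n : ℕ => (G (1 - Real.exp (-((n + 1 : ℕ) : ℝ)))).toReal /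
        ((n + 1 : ℕ) : ℝ)) atTop (𝓝 L) := hlim.comp (tendsto_add_atTop_nat 1)
    have h3 : Tendsto (fun n : ℕ => ((n : ℝ) / (n + 1))⁻¹) atTop (𝓝 1) := by
      have := hq.inv₀ one_ne_zero
      rwa [inv_one] at this
    have := h2.mul h3
    rw [mul_one] at this
    refine this.congr' ?_
    filter_upwards [eventually_ge_atTop 1] with n hn1
    have h0 : (n : ℝ) ≠ 0 := by positivity
    push_cast
    field_simp
  refine tendsto_of_tendsto_of_tendsto_of_le_of_le' (hlow.comp hn) (hup.comp hn) ?_ ?_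
  all_goals
    have hio : Ioo (0:ℝ) 1 ∈ 𝓝[<] (1:ℝ) := Ioo_mem_nhdsLT (by norm_num)
    filter_upwards [hio, hl.eventually_ge_atTop 1] with r hr hr1
    simp only [Function.comp_apply]
    set l : ℝ := - Real.log (1 - r ^ 2) with hldef
    set n : ℕ := ⌊l⌋₊ with hndef
    have hx : r ^ 2 < 1 := by nlinarith [hr.1, hr.2]
    have hx0 : 0 < r ^ 2 := by have := hr.1; positivity
    have hl0 : 0 ≤ l := by linarith
    have hnl : (n : ℝ) ≤ l := Nat.floor_le hl0
    have hln : l < (n : ℝ) + 1 := Nat.lt_floor_add_one l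
    have hn1 : 1 ≤ n := by
      rw [hndef]
      exact Nat.le_floor (by simpa using hr1)
    have hn1' : (1:ℝ) ≤ n := by exact_mod_cast hn1
    have hexp : Real.exp (-l) = 1 - r ^ 2 := by
      rw [hldef, neg_neg, Real.exp_log (by linarith)]
    have hmem : ∀ k : ℕ, 1 ≤ k → 1 - Real.exp (-(k : ℝ)) ∈ Ioo (0:ℝ) 1 := by
      intro k hk
      have hk' : (1:ℝ) ≤ k := by exact_mod_cast hk
      have e1 : Real.exp (-(k : ℝ)) < 1 := by
        rw [Real.exp_lt_one_iff]; linarith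
      have e2 := Real.exp_pos (-(k : ℝ))
      constructor <;> linarith
    have hle1 : 1 - Real.exp (-(n : ℝ)) ≤ r ^ 2 := by
      have : Real.exp (-l) ≤ Real.exp (-(n : ℝ)) := Real.exp_le_exp.2 (by linarith)
      linarith
    have hle2 : r ^ 2 ≤ 1 - Real.exp (-((n + 1 : ℕ) : ℝ)) := by
      have : Real.exp (-((n + 1 : ℕ) : ℝ)) ≤ Real.exp (-l) := Real.exp_le_exp.2 (by
        push_cast; linarith)
      linarith
    have hG1 : G (1 - Real.exp (-(n : ℝ))) ≤ G (r ^ 2) := hmono (hmem n hn1) ⟨hx0, hx⟩ hle1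
    have hG2 : G (r ^ 2) ≤ G (1 - Real.exp (-((n + 1 : ℕ) : ℝ))) :=
      hmono ⟨hx0, hx⟩ (hmem (n + 1) (by omega)) hle2
    have hfin2 : G (1 - Real.exp (-((n + 1 : ℕ) : ℝ))) ≠ ⊤ := (hfin (n + 1) (by omega)).ne
    have hfinx : G (r ^ 2) ≠ ⊤ := ne_top_of_le_ne_top hfin2 hG2
    have hR1 : (G (1 - Real.exp (-(n : ℝ)))).toReal ≤ (G (r ^ 2)).toReal :=
      ENNReal.toReal_mono hfinx hG1
    have hR2 : (G (r ^ 2)).toReal ≤ (G (1 - Real.exp (-((n + 1 : ℕ) : ℝ)))).toReal :=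
      ENNReal.toReal_mono hfin2 hG2
    have hlpos : 0 < l := by linarith
  · calc (G (1 - Real.exp (-(n : ℝ)))).toReal / ((n : ℝ) + 1)
        ≤ (G (r ^ 2)).toReal / ((n : ℝ) + 1) := by gcongr
      _ ≤ (G (r ^ 2)).toReal / l := by
          exact div_le_div_of_nonneg_left ENNReal.toReal_nonneg hlpos hln.le
  · calc (G (r ^ 2)).toReal / l
        ≤ (G (r ^ 2)).toReal / (n : ℝ) := by
          exact div_le_div_of_nonneg_left ENNReal.toReal_nonneg (by linarith) hnl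
      _ ≤ (G (1 - Real.exp (-((n + 1 : ℕ) : ℝ)))).toReal / (n : ℝ) := by gcongr

end Pool.Agent.Helper684.Ergo
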