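import Pool.Agent.Helper684.Ergo.KDefs

set_option autoImplicit false


open MeasureTheory ProbabilityTheory Metric Set Filter Topology
open scoped ComplexConjugate ENNReal

namespace Pool.Agent.Helper684.Ergo

variable {M : Type*} [MeasurableSpace M]


theorem measurable_gK (x : ℝ) : Measurable (gK x) := by
  unfold gK
  exact measurable_const.max
    (measurable_const.sub (Real.measurable_log.comp (measurable_const.sub measurable_id)))

theorem measurable_gT (x : ℝ) : Measurable (gT x) := by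
  unfold gT
  fun_prop

theorem measurable_kK (x : ℝ) : Measurable fun u : ℝ => ENNReal.ofReal (gK x u) :=
  ENNReal.measurable_ofReal.comp (measurable_gK x)

theorem measurable_kT (x : ℝ) : Measurable fun u : ℝ => ENNReal.ofReal (gT x u) :=
  ENNReal.measurable_ofReal.comp (measurable_gT x)

theorem measurable_mm : Measurable fun u : ℝ => ENNReal.ofReal (u ^ 2 / Real.pi) := by
  fun_prop

theorem avg_lintegral (Φ : M → ℂ → M) (hΦ : Measurable fun p : M × ℂ => Φ p.1 p.2)
    {f : M → ℝ≥0∞} (hf : Measurable f) (y : M) :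
    ∫⁻ z, f z ∂(avg Φ hΦ y) =
      ∫⁻ w, ENNReal.ofReal (hh 0 w ^ 2 / Real.pi) * f (Φ y w) ∂hypVol :=
  lintegral_kerOf hΦ measurable_mm hf y

theorem green_lintegral (Φ : M → ℂ → M) (hΦ : Measurable fun p : M × ℂ => Φ p.1 p.2) (n : ℕ)
    {f : M → ℝ≥0∞} (hf : Measurable f) (y : M) :
    ∫⁻ z, f z ∂(green Φ hΦ n y) =
      ∫⁻ w, ENNReal.ofReal (gT (1 - Real.exp (-n)) (hh 0 w)) * f (Φ y w) ∂hypVol :=
  lintegral_kerOf hΦ (measurable_kT _) hf y

theorem mass_avg (Φ : M → ℂ → M) (hΦ : Measurable fun p : M × ℂ => Φ p.1 p.2) (y : M) :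
    avg Φ hΦ y Set.univ = 1 := by
  have h1 := avg_lintegral Φ hΦ (f := fun _ => 1) measurable_const y
  rw [lintegral_one] at h1
  rw [h1]
  simp only [mul_one]
  rw [lintegral_radial (fun u => ENNReal.ofReal (u ^ 2 / Real.pi)) measurable_mm]
  have h2 : ∫⁻ u in Ioo (0 : ℝ) 1, ENNReal.ofReal (u ^ 2 / Real.pi) * ENNReal.ofReal (1 / u ^ 2) =
      ∫⁻ u in Ioo (0 : ℝ) 1, ENNReal.ofReal (1 / Real.pi) := by
    apply setLIntegral_congr_fun measurableSet_Ioo
    intro u hu
    have hu0 : (0 : ℝ) < u := hu.1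
    have hpi := Real.pi_pos
    simp only
    rw [← ENNReal.ofReal_mul (by positivity)]
    congr 1
    field_simp
  rw [h2, setLIntegral_const, Real.volume_Ioo, sub_zero, ENNReal.ofReal_one, mul_one,
    ← ENNReal.ofReal_mul Real.pi_pos.le]
  rw [mul_one_div_cancel Real.pi_pos.ne', ENNReal.ofReal_one]

instance isProb_avg (Φ : M → ℂ → M) (hΦ : Measurable fun p : M × ℂ => Φ p.1 p.2) (y : M) :
    IsProbabilityMeasure (avg Φ hΦ y) := ⟨mass_avg Φ hΦ y⟩

theorem star (Φ : M → ℂ → M) (hΦ : Measurable fun p : M × ℂ => Φ p.1 p.2)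
    (X : Set M)
    (hX : ∀ x ∈ X, ∀ z ∈ ball (0 : ℂ) 1, ∀ k : ℝ → ℝ≥0∞, Measurable k → ∀ f : M → ℝ≥0∞,
      Measurable f → ∫⁻ w, k (hh 0 w) * f (Φ (Φ x z) w) ∂hypVol =
        ∫⁻ w, k (hh z w) * f (Φ x w) ∂hypVol)
    {t : ℝ} (ht : 0 < t) (ht1 : t < 1) {x : M} (hx : x ∈ X) {f : M → ℝ≥0∞} (hf : Measurable f) :
    ∫⁻ w, ENNReal.ofReal (gT t (hh 0 w)) * f (Φ x w) ∂hypVol =
      ∫⁻ z, ENNReal.ofReal (gK t (hh 0 z)) * (∫⁻ y, f y ∂(avg Φ hΦ (Φ x z))) ∂hypVol := by
  have hΦx : Measurable (Φ x) := hΦ.comp measurable_prodMk_left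
  have hfx : Measurable fun w => f (Φ x w) := hf.comp hΦx
  have hzw : Measurable fun p : ℂ × ℂ => hh p.2 p.1 := measurable_hh.comp measurable_swap
  calc ∫⁻ w, ENNReal.ofReal (gT t (hh 0 w)) * f (Φ x w) ∂hypVol
      = ∫⁻ w, (∫⁻ z, ENNReal.ofReal (gK t (hh 0 z)) * ENNReal.ofReal (hh z w ^ 2 / Real.pi)
          ∂hypVol) * f (Φ x w) ∂hypVol := by
        apply lintegral_congr_ae
        filter_upwards [cc5] with w hw
        rw [conv_gK ht ht1 hw]
    _ = ∫⁻ w, ∫⁻ z, (ENNReal.ofReal (gK t (hh 0 z)) * ENNReal.ofReal (hh z w ^ 2 / Real.pi)) *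
          f (Φ x w) ∂hypVol ∂hypVol := by
        apply lintegral_congr
        intro w
        rw [lintegral_mul_const]
        exact ((measurable_kK t).comp cc1).mul (measurable_mm.comp (cc2 w))
    _ = ∫⁻ z, ∫⁻ w, (ENNReal.ofReal (gK t (hh 0 z)) * ENNReal.ofReal (hh z w ^ 2 / Real.pi)) *
          f (Φ x w) ∂hypVol ∂hypVol := by
        apply lintegral_lintegral_swap
        apply Measurable.aemeasurable
        exact ((((measurable_kK t).comp cc1).comp measurable_snd).mul
          (measurable_mm.comp hzw)).mul (hfx.comp measurable_fst)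
    _ = ∫⁻ z, ENNReal.ofReal (gK t (hh 0 z)) * (∫⁻ y, f y ∂(avg Φ hΦ (Φ x z))) ∂hypVol := by
        apply lintegral_congr_ae
        filter_upwards [cc5] with z hz
        rw [avg_lintegral Φ hΦ hf, hX x hx z hz (fun u => ENNReal.ofReal (u ^ 2 / Real.pi))
          measurable_mm f hf, ← lintegral_const_mul]
        · apply lintegral_congr
          intro w
          rw [mul_assoc]
        · have : Measurable fun w => hh z w := measurable_hh.comp measurable_prodMk_left
          exact (measurable_mm.comp this).mul hfx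

/-- the Green averages of coboundaries are bounded -/
theorem green_coboundary (Φ : M → ℂ → M) (hΦ : Measurable fun p : M × ℂ => Φ p.1 p.2)
    (X : Set M)
    (hX : ∀ x ∈ X, ∀ z ∈ ball (0 : ℂ) 1, ∀ k : ℝ → ℝ≥0∞, Measurable k → ∀ f : M → ℝ≥0∞,
      Measurable f → ∫⁻ w, k (hh 0 w) * f (Φ (Φ x z) w) ∂hypVol =
        ∫⁻ w, k (hh z w) * f (Φ x w) ∂hypVol) :
    ∃ C : ℝ, ∀ n : ℕ, 1 ≤ n → ∀ g : M → ℝ, Measurable g → ∀ B : ℝ, (∀ x, |g x| ≤ B) →
      ∀ x ∈ X, |∫ y, ((∫ z, g z ∂(avg Φ hΦ y)) - g y) ∂(green Φ hΦ n x)| ≤ C * B := by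
  obtain ⟨C0, hC0⟩ := mass_gK_sub_gT
  refine ⟨2 * max C0 0, ?_⟩
  intro n hn g hg B hB x hx
  have hB0 : 0 ≤ B := (abs_nonneg _).trans (hB x)
  obtain ⟨t, ht⟩ : ∃ t : ℝ, t = 1 - Real.exp (-n) := ⟨_, rfl⟩
  have hn' : (0 : ℝ) < n := by exact_mod_cast hn
  have he1 : Real.exp (-n : ℝ) < 1 := by
    rw [Real.exp_lt_one_iff]; linarith
  have ht0 : 0 < t := by rw [ht]; linarith
  have ht1 : t < 1 := by rw [ht]; linarith [Real.exp_pos (-n : ℝ)]
  -- the averaged function
  obtain ⟨P, hP⟩ : ∃ P : M → ℝ, P = fun y => ∫ z, g z ∂(avg Φ hΦ y) := ⟨_, rfl⟩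
  have hint : ∀ (μ : Measure M) [IsFiniteMeasure μ] (h : M → ℝ), Measurable h →
      (∀ y, |h y| ≤ B) → Integrable h μ := by
    intro μ _ h hh1 hh2
    exact Integrable.of_bound hh1.aestronglyMeasurable B (Filter.Eventually.of_forall fun y => by
      rw [Real.norm_eq_abs]; exact hh2 y)
  have hintB : ∀ (μ : Measure M) [IsFiniteMeasure μ] (h : M → ℝ), Measurable h →
      (∀ y, |h y| ≤ B) → Integrable (fun y => h y + B) μ := by
    intro μ _ h hh1 hh2
    exact (hint μ h hh1 hh2).add (integrable_const B)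
  have hPB : ∀ y, |P y| ≤ B := by
    intro y
    rw [hP]
    simp only
    have h1 := norm_integral_le_of_norm_le_const (μ := avg Φ hΦ y) (f := g) (C := B)
      (Filter.Eventually.of_forall fun z => by rw [Real.norm_eq_abs]; exact hB z)
    rw [Real.norm_eq_abs] at h1
    simpa using h1
  have hPf : ∀ y, ∫⁻ z, ENNReal.ofReal (g z + B) ∂(avg Φ hΦ y) = ENNReal.ofReal (P y + B) := by
    intro y
    have hi := hint (avg Φ hΦ y) g hg hB
    rw [← ofReal_integral_eq_lintegral_ofReal (hintB (avg Φ hΦ y) g hg hB)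
      (Filter.Eventually.of_forall fun z => by
        have := neg_abs_le (g z)
        have := hB z
        show (0 : ℝ) ≤ g z + B
        linarith)]
    rw [integral_add hi (integrable_const B), hP]
    simp
  have hfm : Measurable fun z => ENNReal.ofReal (g z + B) :=
    ENNReal.measurable_ofReal.comp (hg.add_const B)
  have hPm : Measurable P := by
    have h1 : P = fun y => (∫⁻ z, ENNReal.ofReal (g z + B) ∂(avg Φ hΦ y)).toReal - B := by
      funext y
      rw [hPf y, ENNReal.toReal_ofReal (by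
        have := neg_abs_le (P y)
        have := hPB y
        linarith)]
      ring
    rw [h1]
    exact (hfm.lintegral_kernel.ennreal_toReal).sub_const B
  -- mass of the Green measure
  have hmass : green Φ hΦ n x Set.univ < ⊤ := by
    have h1 := green_lintegral Φ hΦ n (f := fun _ => 1) measurable_const x
    rw [lintegral_one] at h1
    rw [h1]
    simp only [mul_one]
    rw [← ht, mass_gT ht0 ht1]
    exact ENNReal.ofReal_lt_top
  haveI : IsFiniteMeasure (green Φ hΦ n x) := ⟨hmass⟩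
  have hPfm : Measurable fun z => ENNReal.ofReal (P z + B) :=
    ENNReal.measurable_ofReal.comp (hPm.add_const B)
  -- the two quantities
  obtain ⟨HH, hHH⟩ : ∃ HH : ℂ → ℝ≥0∞, HH = fun z => ENNReal.ofReal (P (Φ x z) + B) := ⟨_, rfl⟩
  have hΦx : Measurable (Φ x) := hΦ.comp measurable_prodMk_left
  have hHm : Measurable HH := by rw [hHH]; exact hPfm.comp hΦx
  have hHb : ∀ z, HH z ≤ ENNReal.ofReal (2 * B) := by
    intro z
    rw [hHH]
    apply ENNReal.ofReal_le_ofReal
    have := le_abs_self (P (Φ x z))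
    have := hPB (Φ x z)
    linarith
  have e1 : ENNReal.ofReal (∫ y, (P y + B) ∂(green Φ hΦ n x)) =
      ∫⁻ z, ENNReal.ofReal (gT t (hh 0 z)) * HH z ∂hypVol := by
    rw [ofReal_integral_eq_lintegral_ofReal
      (hintB (green Φ hΦ n x) P hPm hPB)
      (Filter.Eventually.of_forall fun z => by
        have := neg_abs_le (P z)
        have := hPB z
        show (0 : ℝ) ≤ P z + B
        linarith), green_lintegral Φ hΦ n hPfm, ← ht, hHH]
  have e2 : ENNReal.ofReal (∫ y, (g y + B) ∂(green Φ hΦ n x)) =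
      ∫⁻ z, ENNReal.ofReal (gK t (hh 0 z)) * HH z ∂hypVol := by
    rw [ofReal_integral_eq_lintegral_ofReal
      (hintB (green Φ hΦ n x) g hg hB)
      (Filter.Eventually.of_forall fun z => by
        have := neg_abs_le (g z)
        have := hB z
        show (0 : ℝ) ≤ g z + B
        linarith), green_lintegral Φ hΦ n hfm, ← ht, star Φ hΦ X hX ht0 ht1 hx hfm, hHH]
    apply lintegral_congr
    intro z
    rw [hPf]
  -- the difference
  obtain ⟨Dk, hDk⟩ : ∃ Dk : ℂ → ℝ≥0∞,
      Dk = fun w => ENNReal.ofReal |gK t (hh 0 w) - gT t (hh 0 w)| := ⟨_, rfl⟩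
  have hDm : Measurable Dk := by
    rw [hDk]
    exact ENNReal.measurable_ofReal.comp
      ((((measurable_gK t).comp cc1).sub ((measurable_gT t).comp cc1)).abs)
  have hD : ∫⁻ w, Dk w * HH w ∂hypVol ≤ ENNReal.ofReal (2 * max C0 0 * B) := by
    calc ∫⁻ w, Dk w * HH w ∂hypVol ≤ ∫⁻ w, Dk w * ENNReal.ofReal (2 * B) ∂hypVol :=
          lintegral_mono fun w => mul_le_mul_right (hHb w) _
      _ = (∫⁻ w, Dk w ∂hypVol) * ENNReal.ofReal (2 * B) := lintegral_mul_const _ hDm
      _ ≤ ENNReal.ofReal (max C0 0) * ENNReal.ofReal (2 * B) := by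
          have h1 := hC0 t ht0 ht1
          rw [hDk]
          exact mul_le_mul_left (h1.trans (ENNReal.ofReal_le_ofReal (le_max_left _ _))) _
      _ = ENNReal.ofReal (2 * max C0 0 * B) := by
          rw [← ENNReal.ofReal_mul (le_max_right _ _)]
          congr 1; ring
  have i1 : ∫⁻ z, ENNReal.ofReal (gT t (hh 0 z)) * HH z ∂hypVol ≤
      ∫⁻ z, ENNReal.ofReal (gK t (hh 0 z)) * HH z ∂hypVol + ∫⁻ w, Dk w * HH w ∂hypVol := by
    have hmm : Measurable fun z => ENNReal.ofReal (gK t (hh 0 z)) * HH z :=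
      ((measurable_kK t).comp cc1).mul hHm
    rw [← lintegral_add_left hmm]
    apply lintegral_mono
    intro z
    simp only
    rw [← add_mul]
    apply mul_le_mul_left
    rw [hDk]
    simp only
    rw [← ENNReal.ofReal_add (by unfold gK; exact le_max_left _ _) (abs_nonneg _)]
    apply ENNReal.ofReal_le_ofReal
    have := neg_abs_le (gK t (hh 0 z) - gT t (hh 0 z))
    linarith
  have i2 : ∫⁻ z, ENNReal.ofReal (gK t (hh 0 z)) * HH z ∂hypVol ≤
      ∫⁻ z, ENNReal.ofReal (gT t (hh 0 z)) * HH z ∂hypVol + ∫⁻ w, Dk w * HH w ∂hypVol := by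
    have hmm : Measurable fun z => ENNReal.ofReal (gT t (hh 0 z)) * HH z :=
      ((measurable_kT t).comp cc1).mul hHm
    rw [← lintegral_add_left hmm]
    apply lintegral_mono
    intro z
    simp only
    rw [← add_mul]
    apply mul_le_mul_left
    rw [hDk]
    simp only
    calc ENNReal.ofReal (gK t (hh 0 z)) ≤
        ENNReal.ofReal (gT t (hh 0 z) + |gK t (hh 0 z) - gT t (hh 0 z)|) := by
          apply ENNReal.ofReal_le_ofReal
          have := le_abs_self (gK t (hh 0 z) - gT t (hh 0 z))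
          linarith
      _ ≤ _ := ENNReal.ofReal_add_le
  rw [← e1, ← e2] at i1 i2
  have hPpos : 0 ≤ ∫ y, (P y + B) ∂(green Φ hΦ n x) := integral_nonneg fun y => by
    have := neg_abs_le (P y)
    have := hPB y
    show (0 : ℝ) ≤ P y + B
    linarith
  have hgpos : 0 ≤ ∫ y, (g y + B) ∂(green Φ hΦ n x) := integral_nonneg fun y => by
    have := neg_abs_le (g y)
    have := hB y
    show (0 : ℝ) ≤ g y + B
    linarith
  have hCB : 0 ≤ 2 * max C0 0 * B := by positivity
  have j1 : ∫ y, (P y + B) ∂(green Φ hΦ n x) ≤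
      ∫ y, (g y + B) ∂(green Φ hΦ n x) + 2 * max C0 0 * B := by
    have h1 := i1.trans (add_le_add_right hD _)
    rw [← ENNReal.ofReal_add hgpos hCB] at h1
    exact (ENNReal.ofReal_le_ofReal_iff (by linarith)).1 h1
  have j2 : ∫ y, (g y + B) ∂(green Φ hΦ n x) ≤
      ∫ y, (P y + B) ∂(green Φ hΦ n x) + 2 * max C0 0 * B := by
    have h1 := i2.trans (add_le_add_right hD _)
    rw [← ENNReal.ofReal_add hPpos hCB] at h1
    exact (ENNReal.ofReal_le_ofReal_iff (by linarith)).1 h1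
  have e3 : ∫ y, ((∫ z, g z ∂(avg Φ hΦ y)) - g y) ∂(green Φ hΦ n x) =
      ∫ y, (P y + B) ∂(green Φ hΦ n x) - ∫ y, (g y + B) ∂(green Φ hΦ n x) := by
    rw [← integral_sub (hintB (green Φ hΦ n x) P hPm hPB)
      (hintB (green Φ hΦ n x) g hg hB)]
    apply integral_congr_ae
    exact Filter.Eventually.of_forall fun y => by
      show (∫ z, g z ∂(avg Φ hΦ y)) - g y = P y + B - (g y + B)
      rw [hP]
      ring
  rw [e3, abs_le]
  constructor <;> linarith

end Pool.Agent.Helper684.Ergo
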