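import Pool.Agent.Helper684.Ergo.KDefs

set_option autoImplicit false


open MeasureTheory ProbabilityTheory Metric Set Filter Topology
open scoped ComplexConjugate ENNReal

namespace Pool.Agent.Helper684.Ergo

variable {M : Type*} [MeasurableSpace M]

theorem measurable_gTc (x : ℝ) : Measurable (gT x) := by
  unfold gT
  fun_prop

theorem measurable_gKc (x : ℝ) : Measurable (gK x) := by
  unfold gK
  fun_prop

theorem avg_isMarkov (Φ : M → ℂ → M) (hΦ : Measurable fun p : M × ℂ => Φ p.1 p.2) :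
    IsMarkovKernel (avg Φ hΦ) := by
  refine ⟨fun x => ⟨?_⟩⟩
  have hm : Measurable (fun u : ℝ => ENNReal.ofReal (u ^ 2 / Real.pi)) := by fun_prop
  have h1 : avg Φ hΦ x univ = ∫⁻ _, 1 ∂(avg Φ hΦ x) := by simp
  rw [h1]
  unfold avg
  rw [lintegral_kerOf hΦ hm measurable_const x]
  simp only [mul_one]
  rw [lintegral_radial (fun u => ENNReal.ofReal (u ^ 2 / Real.pi)) hm]
  have h2 : ∫⁻ u in Ioo (0 : ℝ) 1, ENNReal.ofReal (u ^ 2 / Real.pi) * ENNReal.ofReal (1 / u ^ 2)
      = ∫⁻ _ in Ioo (0 : ℝ) 1, ENNReal.ofReal (1 / Real.pi) := by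
    refine setLIntegral_congr_fun measurableSet_Ioo fun u hu => ?_
    have hu0 : u ≠ 0 := hu.1.ne'
    have hpi := Real.pi_pos
    show ENNReal.ofReal (u ^ 2 / Real.pi) * ENNReal.ofReal (1 / u ^ 2) = ENNReal.ofReal (1 / Real.pi)
    rw [← ENNReal.ofReal_mul (by positivity)]
    congr 1
    field_simp
  rw [h2, lintegral_const, Measure.restrict_apply_univ, Real.volume_Ioo, sub_zero,
    ENNReal.ofReal_one, mul_one, ← ENNReal.ofReal_mul Real.pi_pos.le, mul_one_div,
    div_self Real.pi_ne_zero, ENNReal.ofReal_one]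

theorem green_univ (Φ : M → ℂ → M) (hΦ : Measurable fun p : M × ℂ => Φ p.1 p.2) (n : ℕ)
    (hn : 1 ≤ n) (x : M) : green Φ hΦ n x univ = ENNReal.ofReal (Real.pi * n) := by
  have hn' : (1 : ℝ) ≤ n := by exact_mod_cast hn
  have hm : Measurable (fun u : ℝ => ENNReal.ofReal (gT (1 - Real.exp (-(n:ℝ))) u)) :=
    (measurable_gTc _).ennreal_ofReal
  have h1 : green Φ hΦ n x univ = ∫⁻ _, 1 ∂(green Φ hΦ n x) := by simp
  rw [h1]
  unfold green
  rw [lintegral_kerOf hΦ hm measurable_const x]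
  simp only [mul_one]
  have he : Real.exp (-(n:ℝ)) < 1 := by
    rw [Real.exp_lt_one_iff]
    linarith
  rw [mass_gT (by linarith) (by linarith [Real.exp_pos (-(n:ℝ))]), sub_sub_cancel, Real.log_exp,
    neg_neg]

theorem measurable_thK2 : Measurable fun p : ℝ × ℝ =>
    ENNReal.ofReal (gK (1 - p.2) p.1) := by
  unfold gK
  fun_prop

theorem measurable_thT2 : Measurable fun p : ℝ × ℝ =>
    ENNReal.ofReal (gT (1 - p.2) p.1) := by
  unfold gT
  fun_prop

theorem measurable_wt (η : ℝ) : Measurable fun v : ℝ => ENNReal.ofReal (η * v ^ (η - 1)) := by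
  fun_prop

theorem mass_thT (n : ℕ) (hn : 1 ≤ n) : ∫⁻ w, thT (1 / n) (hh 0 w) ∂hypVol < ⊤ := by
  have hn' : (1 : ℝ) ≤ n := by exact_mod_cast hn
  obtain ⟨η, hη⟩ : ∃ η : ℝ, η = 1 / n := ⟨_, rfl⟩
  rw [← hη]
  have hη0 : 0 < η := by rw [hη]; positivity
  unfold thT
  rw [lintegral_lintegral_swap]
  · have h1 : ∫⁻ v in Ioo (0 : ℝ) 1, ∫⁻ w, ENNReal.ofReal (gT (1 - v) (hh 0 w))
        * ENNReal.ofReal (η * v ^ (η - 1)) ∂hypVol
        ≤ ∫⁻ v in Ioo (0 : ℝ) 1, ENNReal.ofReal (2 * Real.pi * v ^ (η / 2 - 1)) := by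
      refine setLIntegral_mono (by fun_prop) fun v hv => ?_
      have hv0 : 0 < v := hv.1
      have hmm : Measurable fun w : ℂ => ENNReal.ofReal (gT (1 - v) (hh 0 w)) :=
        ((measurable_gTc _).comp cc1).ennreal_ofReal
      rw [lintegral_mul_const _ hmm,
        mass_gT (by linarith [hv.2]) (by linarith), sub_sub_cancel, ← ENNReal.ofReal_mul (by
          have := Real.log_nonpos hv0.le hv.2.le
          have hpi := Real.pi_pos
          nlinarith)]
      apply ENNReal.ofReal_le_ofReal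
      have hlog : - Real.log v ≤ v ^ (-(η / 2)) / (η / 2) := by
        have := Real.log_le_rpow_div (x := v⁻¹) (ε := η / 2) (by positivity) (by positivity)
        rw [Real.log_inv, Real.inv_rpow hv0.le, ← Real.rpow_neg hv0.le] at this
        exact this
      have hpow : v ^ (-(η / 2)) * v ^ (η - 1) = v ^ (η / 2 - 1) := by
        rw [← Real.rpow_add hv0]
        congr 1
        ring
      have hpi := Real.pi_pos
      have hvp : 0 < v ^ (η - 1) := Real.rpow_pos_of_pos hv0 _
      calc Real.pi * -Real.log v * (η * v ^ (η - 1))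
          ≤ Real.pi * (v ^ (-(η / 2)) / (η / 2)) * (η * v ^ (η - 1)) := by gcongr
        _ = 2 * Real.pi * (v ^ (-(η / 2)) * v ^ (η - 1)) := by
          field_simp
        _ = 2 * Real.pi * v ^ (η / 2 - 1) := by rw [hpow]
    refine lt_of_le_of_lt h1 ?_
    have hi : IntegrableOn (fun v : ℝ => v ^ (η / 2 - 1)) (Ioo 0 1) := by
      rw [intervalIntegral.integrableOn_Ioo_rpow_iff one_pos]
      linarith
    exact (hi.const_mul (2 * Real.pi)).lintegral_lt_top
  · apply Measurable.aemeasurable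
    have h1 : Measurable fun p : ℂ × ℝ => ENNReal.ofReal (gT (1 - p.2) (hh 0 p.1)) := by
      have : Measurable fun p : ℂ × ℝ => ((hh 0 p.1, p.2) : ℝ × ℝ) :=
        (cc1.comp measurable_fst).prodMk measurable_snd
      exact measurable_thT2.comp this
    have h2 : Measurable fun p : ℂ × ℝ => ENNReal.ofReal (η * p.2 ^ (η - 1)) :=
      (measurable_wt η).comp measurable_snd
    exact h1.mul h2

theorem measurable_thK (η : ℝ) : Measurable (thK η) := by
  unfold thK
  have h : Measurable fun p : ℝ × ℝ => ENNReal.ofReal (gK (1 - p.2) p.1)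
      * ENNReal.ofReal (η * p.2 ^ (η - 1)) :=
    measurable_thK2.mul ((measurable_wt η).comp measurable_snd)
  exact h.lintegral_prod_right'

theorem measurable_thT (η : ℝ) : Measurable (thT η) := by
  unfold thT
  have h : Measurable fun p : ℝ × ℝ => ENNReal.ofReal (gT (1 - p.2) p.1)
      * ENNReal.ofReal (η * p.2 ^ (η - 1)) :=
    measurable_thT2.mul ((measurable_wt η).comp measurable_snd)
  exact h.lintegral_prod_right'

/-- `k * θ = θ̃` -/
theorem conv_thK (n : ℕ) (hn : 1 ≤ n) {w : ℂ} (hw : w ∈ ball (0 : ℂ) 1) :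
    ∫⁻ z, ENNReal.ofReal (hh 0 z ^ 2 / Real.pi) * thK (1 / n) (hh z w) ∂hypVol =
      thT (1 / n) (hh 0 w) := by
  obtain ⟨η, hη⟩ : ∃ η : ℝ, η = 1 / n := ⟨_, rfl⟩
  rw [← hη]
  unfold thK thT
  have hmk : Measurable (fun u : ℝ => ENNReal.ofReal (u ^ 2 / Real.pi)) := by fun_prop
  have h0 : ∀ z : ℂ, ENNReal.ofReal (hh 0 z ^ 2 / Real.pi) *
      ∫⁻ v in Ioo (0 : ℝ) 1, ENNReal.ofReal (gK (1 - v) (hh z w)) * ENNReal.ofReal (η * v ^ (η - 1))
      = ∫⁻ v in Ioo (0 : ℝ) 1, ENNReal.ofReal (hh 0 z ^ 2 / Real.pi)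
        * (ENNReal.ofReal (gK (1 - v) (hh z w)) * ENNReal.ofReal (η * v ^ (η - 1))) := by
    intro z
    rw [lintegral_const_mul]
    have h1 : Measurable fun v : ℝ => ENNReal.ofReal (gK (1 - v) (hh z w)) :=
      measurable_thK2.comp (measurable_const.prodMk measurable_id)
    exact h1.mul (measurable_wt η)
  rw [lintegral_congr h0, lintegral_lintegral_swap]
  · refine setLIntegral_congr_fun measurableSet_Ioo fun v hv => ?_
    have hv0 : 0 < v := hv.1
    have hk : Measurable (fun u => ENNReal.ofReal (gK (1 - v) u)) := (measurable_gKc _).ennreal_ofReal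
    have h1 : ∀ z : ℂ, ENNReal.ofReal (hh 0 z ^ 2 / Real.pi)
        * (ENNReal.ofReal (gK (1 - v) (hh z w)) * ENNReal.ofReal (η * v ^ (η - 1)))
        = (ENNReal.ofReal (hh 0 z ^ 2 / Real.pi) * ENNReal.ofReal (gK (1 - v) (hh z w)))
          * ENNReal.ofReal (η * v ^ (η - 1)) := fun z => (mul_assoc _ _ _).symm
    rw [lintegral_congr h1, lintegral_mul_const]
    · congr 1
      have h2 := conv_comm (fun u => ENNReal.ofReal (u ^ 2 / Real.pi))
        (fun u => ENNReal.ofReal (gK (1 - v) u)) hmk hk hw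
      rw [h2]
      exact conv_gK (by linarith [hv.2]) (by linarith) hw
    · exact (hmk.comp cc1).mul (hk.comp (cc2 w))
  · apply Measurable.aemeasurable
    have h1 : Measurable fun p : ℂ × ℝ => ENNReal.ofReal (gK (1 - p.2) (hh p.1 w)) := by
      have : Measurable fun p : ℂ × ℝ => ((hh p.1 w, p.2) : ℝ × ℝ) :=
        ((cc2 w).comp measurable_fst).prodMk measurable_snd
      exact measurable_thK2.comp this
    have h2 : Measurable fun p : ℂ × ℝ => ENNReal.ofReal (η * p.2 ^ (η - 1)) :=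
      (measurable_wt η).comp measurable_snd
    have h3 : Measurable fun p : ℂ × ℝ => ENNReal.ofReal (hh 0 p.1 ^ 2 / Real.pi) :=
      (hmk.comp cc1).comp measurable_fst
    exact h3.mul (h1.mul h2)

end Pool.Agent.Helper684.Ergo
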