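import Mathlib
set_option autoImplicit false

open MeasureTheory ProbabilityTheory Set Filter Topology
open scoped ENNReal

namespace Pool.Agent.Helper684.Ergo

variable {Ω : Type*} [MeasurableSpace Ω]

/-- bounded measurable functions -/
def BM (Ω : Type*) [MeasurableSpace Ω] : Submodule ℝ (Ω → ℝ) where
  carrier := {g | Measurable g ∧ ∃ B : ℝ, ∀ x, |g x| ≤ B}
  add_mem' := by
    rintro g h ⟨hg, B, hB⟩ ⟨hh, C, hC⟩
    exact ⟨hg.add hh, B + C, fun x => (abs_add_le _ _).trans (add_le_add (hB x) (hC x))⟩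
  zero_mem' := ⟨measurable_const, 0, fun x => by simp⟩
  smul_mem' := by
    rintro c g ⟨hg, B, hB⟩
    refine ⟨hg.const_smul c, |c| * B, fun x => ?_⟩
    rw [Pi.smul_apply, smul_eq_mul, abs_mul]
    exact mul_le_mul_of_nonneg_left (hB x) (abs_nonneg c)

theorem bm_int (κ : Kernel Ω Ω) [IsMarkovKernel κ] (g : BM Ω) (x : Ω) :
    Integrable (g : Ω → ℝ) (κ x) := by
  obtain ⟨hg, B, hB⟩ := g.2
  exact Integrable.of_bound hg.aestronglyMeasurable B (ae_of_all _ hB)

/-- the coboundary -/
noncomputable def cob (κ : Kernel Ω Ω) (g : Ω → ℝ) (x : Ω) : ℝ := (∫ y, g y ∂(κ x)) - g x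

theorem cob_meas (κ : Kernel Ω Ω) [IsMarkovKernel κ] (g : BM Ω) :
    Measurable (cob κ (g : Ω → ℝ)) := by
  obtain ⟨hg, B, hB⟩ := g.2
  have h1 : StronglyMeasurable fun x => ∫ y, (g : Ω → ℝ) y ∂(κ x) :=
    hg.stronglyMeasurable.integral_kernel
  exact h1.measurable.sub hg

theorem cob_bdd (κ : Kernel Ω Ω) [IsMarkovKernel κ] (g : BM Ω) :
    ∃ C : ℝ, ∀ x, |cob κ (g : Ω → ℝ) x| ≤ C := by
  obtain ⟨hg, B, hB⟩ := g.2
  refine ⟨B + B, fun x => ?_⟩
  unfold cob
  have h1 : |∫ y, (g : Ω → ℝ) y ∂(κ x)| ≤ B := by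
    have := norm_integral_le_of_norm_le_const (μ := κ x) (f := (g : Ω → ℝ)) (C := B)
      (ae_of_all _ hB)
    simpa using this
  exact (abs_sub _ _).trans (add_le_add h1 (hB x))

theorem cob_mem (κ : Kernel Ω Ω) [IsMarkovKernel κ] (m : Measure Ω) [IsFiniteMeasure m]
    (g : BM Ω) : MemLp (cob κ (g : Ω → ℝ)) 2 m := by
  obtain ⟨C, hC⟩ := cob_bdd κ g
  exact MemLp.of_bound (cob_meas κ g).aestronglyMeasurable C (ae_of_all _ hC)

/-- the coboundary operator into `L²` -/
noncomputable def LL (κ : Kernel Ω Ω) [IsMarkovKernel κ] (m : Measure Ω) [IsFiniteMeasure m] :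
    BM Ω →ₗ[ℝ] Lp ℝ 2 m where
  toFun g := (cob_mem κ m g).toLp
  map_add' g h := by
    rw [← MemLp.toLp_add]
    congr 1
    funext x
    show (∫ y, (g : Ω → ℝ) y + (h : Ω → ℝ) y ∂(κ x)) - ((g : Ω → ℝ) x + (h : Ω → ℝ) x)
      = ((∫ y, (g : Ω → ℝ) y ∂(κ x)) - (g : Ω → ℝ) x)
        + ((∫ y, (h : Ω → ℝ) y ∂(κ x)) - (h : Ω → ℝ) x)
    rw [integral_add (bm_int κ g x) (bm_int κ h x)]
    ring
  map_smul' c g := by
    rw [RingHom.id_apply, ← MemLp.toLp_const_smul]
    congr 1
    funext x
    show (∫ y, c * (g : Ω → ℝ) y ∂(κ x)) - c * (g : Ω → ℝ) x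
      = c * ((∫ y, (g : Ω → ℝ) y ∂(κ x)) - (g : Ω → ℝ) x)
    rw [integral_const_mul]
    ring

theorem const_of_inv (κ : Kernel Ω Ω) [IsMarkovKernel κ] (m : Measure Ω) [IsFiniteMeasure m]
    (hinv : m.bind κ = m)
    (herg : ∀ A : Set Ω, MeasurableSet A →
      (∀ᵐ x ∂m, κ x A = A.indicator (fun _ => (1 : ℝ≥0∞)) x) → m A = 0 ∨ m Aᶜ = 0)
    (k : Ω → ℝ) (hk : Measurable k) (hki : Integrable k m)
    (h : ∀ A, MeasurableSet A → ∫ x, k x * (κ x).real A ∂m = ∫ x in A, k x ∂m) :
    ∃ a : ℝ, k =ᵐ[m] fun _ => a := by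
  apply exists_eventuallyEq_const_of_forall_separating (· ∈ range (Ioi : ℝ → Set ℝ))
  rintro _ ⟨a, rfl⟩
  obtain ⟨A, hA⟩ : ∃ A, A = {x | a < k x} := ⟨_, rfl⟩
  have hAm : MeasurableSet A := by
    rw [hA]
    exact measurableSet_lt measurable_const hk
  have hqm : Measurable fun x => (κ x).real A := (κ.measurable_coe hAm).ennreal_toReal
  have hq0 : ∀ x, 0 ≤ (κ x).real A := fun x => measureReal_nonneg
  have hq1 : ∀ x, (κ x).real A ≤ 1 := fun x => measureReal_le_one
  have hqi : Integrable (fun x => (κ x).real A) m :=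
    Integrable.of_bound hqm.aestronglyMeasurable 1 (ae_of_all _ fun x => by
      rw [Real.norm_eq_abs, abs_of_nonneg (hq0 x)]
      exact hq1 x)
  have hkq : Integrable (fun x => k x * (κ x).real A) m := by
    refine hki.mono (hk.mul hqm).aestronglyMeasurable (ae_of_all _ fun x => ?_)
    rw [norm_mul, Real.norm_eq_abs ((κ x).real A), abs_of_nonneg (hq0 x)]
    exact mul_le_of_le_one_right (norm_nonneg _) (hq1 x)
  -- total mass identity
  have hmass : ∫ x, (κ x).real A ∂m = m.real A := by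
    have h1 : m A = ∫⁻ x, κ x A ∂m := by
      conv_lhs => rw [← hinv]
      rw [Measure.bind_apply hAm κ.aemeasurable]
    rw [measureReal_def, h1, ← integral_toReal]
    · rfl
    · exact (κ.measurable_coe hAm).aemeasurable
    · exact ae_of_all _ fun x => measure_lt_top _ _
  have hind : Integrable (A.indicator fun _ => (1 : ℝ)) m :=
    (integrable_const 1).indicator hAm
  have hindv : ∫ x, A.indicator (fun _ => (1 : ℝ)) x ∂m = m.real A := by
    rw [integral_indicator hAm]
    simp
  have hF : ∫ x, (k x - a) * (A.indicator (fun _ => (1 : ℝ)) x - (κ x).real A) ∂m = 0 := by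
    have e : ∀ x, (k x - a) * (A.indicator (fun _ => (1 : ℝ)) x - (κ x).real A)
        = (A.indicator k x - k x * (κ x).real A)
          - a * (A.indicator (fun _ => (1 : ℝ)) x - (κ x).real A) := by
      intro x
      by_cases hx : x ∈ A
      · simp only [indicator_of_mem hx]
        ring
      · simp only [indicator_of_notMem hx]
        ring
    rw [integral_congr_ae (ae_of_all _ e), integral_sub, integral_sub, integral_const_mul,
      integral_sub, hindv, hmass, integral_indicator hAm, h A hAm]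
    · ring
    · exact hind
    · exact hqi
    · exact hki.indicator hAm
    · exact hkq
    · exact (hki.indicator hAm).sub hkq
    · exact (hind.sub hqi).const_mul a
  have hFn : ∀ x, 0 ≤ (k x - a) * (A.indicator (fun _ => (1 : ℝ)) x - (κ x).real A) := by
    intro x
    by_cases hx : x ∈ A
    · simp only [indicator_of_mem hx]
      have : a < k x := by
        rw [hA] at hx
        exact hx
      exact mul_nonneg (by linarith) (by linarith [hq1 x])
    · simp only [indicator_of_notMem hx]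
      have : k x ≤ a := by
        rw [hA] at hx
        exact not_lt.1 hx
      exact mul_nonneg_of_nonpos_of_nonpos (by linarith) (by linarith [hq0 x])
  have hFi : Integrable (fun x => (k x - a) * (A.indicator (fun _ => (1 : ℝ)) x
      - (κ x).real A)) m := by
    refine (hki.sub (integrable_const a)).mono
      ((hk.sub measurable_const).mul ((measurable_const.indicator hAm).sub
        hqm)).aestronglyMeasurable (ae_of_all _ fun x => ?_)
    rw [norm_mul]
    apply mul_le_of_le_one_right (norm_nonneg _)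
    rw [Real.norm_eq_abs, abs_le]
    by_cases hx : x ∈ A
    · simp only [indicator_of_mem hx]
      constructor <;> linarith [hq0 x, hq1 x]
    · simp only [indicator_of_notMem hx]
      constructor <;> linarith [hq0 x, hq1 x]
  have hF0 := (integral_eq_zero_iff_of_nonneg hFn hFi).1 hF
  -- on `A` the kernel stays in `A`
  have hge : ∀ᵐ x ∂m, 0 ≤ (κ x).real A - A.indicator (fun _ => (1 : ℝ)) x := by
    filter_upwards [hF0] with x hx
    by_cases hxA : x ∈ A
    · simp only [indicator_of_mem hxA, Pi.zero_apply] at hx ⊢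
      have h1 : a < k x := by
        rw [hA] at hxA
        exact hxA
      rcases mul_eq_zero.1 hx with h2 | h2
      · linarith
      · linarith
    · simp only [indicator_of_notMem hxA]
      linarith [hq0 x]
  have hz : ∫ x, ((κ x).real A - A.indicator (fun _ => (1 : ℝ)) x) ∂m = 0 := by
    rw [integral_sub hqi hind, hmass, hindv, sub_self]
  have hz0 := (integral_eq_zero_iff_of_nonneg_ae hge (hqi.sub hind)).1 hz
  have hfin : ∀ᵐ x ∂m, κ x A = A.indicator (fun _ => (1 : ℝ≥0∞)) x := by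
    filter_upwards [hz0] with x hx
    have h1 : (κ x).real A = A.indicator (fun _ => (1 : ℝ)) x := by
      have : (κ x).real A - A.indicator (fun _ => (1 : ℝ)) x = 0 := hx
      linarith
    rw [measureReal_def] at h1
    by_cases hxA : x ∈ A
    · simp only [indicator_of_mem hxA] at h1 ⊢
      rw [← ENNReal.toReal_eq_one_iff]
      exact h1
    · simp only [indicator_of_notMem hxA] at h1 ⊢
      rcases (ENNReal.toReal_eq_zero_iff _).1 h1 with h2 | h2
      · exact h2
      · exact absurd h2 (measure_ne_top _ _)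
  rcases herg A hAm hfin with h1 | h1
  · right
    have : ∀ᵐ x ∂m, x ∉ A := measure_eq_zero_iff_ae_notMem.1 h1
    filter_upwards [this] with x hx
    rw [hA] at hx
    exact hx
  · left
    have : ∀ᵐ x ∂m, x ∉ Aᶜ := measure_eq_zero_iff_ae_notMem.1 h1
    filter_upwards [this] with x hx
    rw [hA] at hx
    simpa using hx

theorem dense_L2 (κ : Kernel Ω Ω) [IsMarkovKernel κ] (m : Measure Ω) [IsFiniteMeasure m]
    (hinv : m.bind κ = m)
    (herg : ∀ A : Set Ω, MeasurableSet A →
      (∀ᵐ x ∂m, κ x A = A.indicator (fun _ => (1 : ℝ≥0∞)) x) → m A = 0 ∨ m Aᶜ = 0)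
    (h : Ω → ℝ) (hm : Measurable h) (C : ℝ) (hC : ∀ x, |h x| ≤ C) (h0 : ∫ x, h x ∂m = 0)
    (δ : ℝ) (hδ : 0 < δ) :
    ∃ g : BM Ω, ∫ x, (h x - cob κ (g : Ω → ℝ) x) ^ 2 ∂m ≤ δ := by
  have hmem : MemLp h 2 m := MemLp.of_bound hm.aestronglyMeasurable C (ae_of_all _ hC)
  have hcl : hmem.toLp ∈ (LinearMap.range (LL κ m)).topologicalClosure := by
    rw [← Submodule.orthogonal_orthogonal_eq_closure, Submodule.mem_orthogonal]
    intro k hk
    rw [Submodule.mem_orthogonal] at hk
    -- a measurable representative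
    obtain ⟨k', hk'm, hk'⟩ : ∃ k' : Ω → ℝ, Measurable k' ∧ k =ᵐ[m] k' :=
      ⟨_, (Lp.stronglyMeasurable k).measurable, EventuallyEq.rfl⟩
    have hki : Integrable k m := (Lp.memLp k).integrable (by norm_num)
    have hk'i : Integrable k' m := hki.congr hk'
    have hinvk : ∀ A, MeasurableSet A → ∫ x, k' x * (κ x).real A ∂m = ∫ x in A, k' x ∂m := by
      intro A hA
      obtain ⟨g, hg⟩ : ∃ g : BM Ω, (g : Ω → ℝ) = A.indicator fun _ => (1 : ℝ) :=
        ⟨⟨A.indicator fun _ => (1 : ℝ), measurable_const.indicator hA, 1, fun x => by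
          by_cases hx : x ∈ A <;> simp [hx]⟩, rfl⟩
      have h1 := hk (LL κ m g) ⟨g, rfl⟩
      rw [L2.inner_def] at h1
      have h2 : ∀ x, cob κ (g : Ω → ℝ) x = (κ x).real A - A.indicator (fun _ => (1 : ℝ)) x := by
        intro x
        unfold cob
        rw [hg, integral_indicator hA]
        simp
      have h3 : (fun x => inner ℝ ((LL κ m g : Lp ℝ 2 m) x) (k x)) =ᵐ[m]
          fun x => k' x * (κ x).real A - A.indicator k' x := by
        have h4 : (LL κ m g : Lp ℝ 2 m) =ᵐ[m] cob κ (g : Ω → ℝ) := (cob_mem κ m g).coeFn_toLp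
        filter_upwards [h4, hk'] with x hx1 hx2
        rw [hx1, hx2, h2]
        simp only [RCLike.inner_apply, conj_trivial]
        by_cases hx : x ∈ A
        · simp only [indicator_of_mem hx]
          ring
        · simp only [indicator_of_notMem hx]
          ring
      rw [integral_congr_ae h3, integral_sub, integral_indicator hA] at h1
      · linarith
      · have hqm : Measurable fun x => (κ x).real A := (κ.measurable_coe hA).ennreal_toReal
        refine hk'i.mono (hk'm.mul hqm).aestronglyMeasurable (ae_of_all _ fun x => ?_)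
        rw [norm_mul, Real.norm_eq_abs ((κ x).real A), abs_of_nonneg measureReal_nonneg]
        exact mul_le_of_le_one_right (norm_nonneg _) measureReal_le_one
      · exact hk'i.indicator hA
    obtain ⟨a, ha⟩ := const_of_inv κ m hinv herg k' hk'm hk'i hinvk
    rw [L2.inner_def]
    have h5 : (fun x => inner ℝ (k x) ((hmem.toLp : Lp ℝ 2 m) x)) =ᵐ[m] fun x => a * h x := by
      filter_upwards [hk', ha, hmem.coeFn_toLp] with x hx1 hx2 hx3
      rw [hx1, hx2, hx3]
      simp only [RCLike.inner_apply, conj_trivial]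
      ring
    rw [integral_congr_ae h5, integral_const_mul, h0, mul_zero]
  have hcl' : hmem.toLp ∈ closure (LinearMap.range (LL κ m) : Set (Lp ℝ 2 m)) := hcl
  rw [Metric.mem_closure_iff] at hcl'
  obtain ⟨_, ⟨g, rfl⟩, hg⟩ := hcl' (√δ) (Real.sqrt_pos.2 hδ)
  refine ⟨g, ?_⟩
  rw [dist_eq_norm] at hg
  have h6 : ‖hmem.toLp - LL κ m g‖ ^ 2 ≤ δ := by
    calc ‖hmem.toLp - LL κ m g‖ ^ 2 ≤ (√δ) ^ 2 := pow_le_pow_left₀ (norm_nonneg _) hg.le 2
      _ = δ := Real.sq_sqrt hδ.le
  rw [← real_inner_self_eq_norm_sq, L2.inner_def] at h6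
  refine le_trans (le_of_eq ?_) h6
  apply integral_congr_ae
  have h4 : (LL κ m g : Lp ℝ 2 m) =ᵐ[m] cob κ (g : Ω → ℝ) := (cob_mem κ m g).coeFn_toLp
  filter_upwards [h4, hmem.coeFn_toLp, Lp.coeFn_sub hmem.toLp (LL κ m g)] with x hx1 hx2 hx3
  rw [hx3, Pi.sub_apply, hx1, hx2]
  simp only [RCLike.inner_apply, conj_trivial]
  ring

theorem trunc (m : Measure Ω) [IsFiniteMeasure m] (f : Ω → ℝ) (hf : Measurable f)
    (hfi : Integrable f m) (ε : ℝ) (hε : 0 < ε) :
    ∃ f1 : Ω → ℝ, Measurable f1 ∧ (∃ C : ℝ, ∀ x, |f1 x| ≤ C) ∧ ∫ x, |f x - f1 x| ∂m ≤ ε := by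
  have hlim : Tendsto (fun n : ℕ => ∫ x, |f x - max (min (f x) n) (-n)| ∂m) atTop
      (𝓝 (∫ _x, (0 : ℝ) ∂m)) := by
    apply tendsto_integral_of_dominated_convergence (fun x => |f x|)
    · intro n
      exact (by fun_prop : Measurable fun x => |f x - max (min (f x) n) (-n)|).aestronglyMeasurable
    · exact hfi.abs
    · intro n
      refine ae_of_all _ fun x => ?_
      rw [Real.norm_eq_abs, abs_abs]
      have hn : (0 : ℝ) ≤ n := Nat.cast_nonneg n
      rcases le_total 0 (f x) with h | h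
      · rw [abs_of_nonneg h]
        have h1 : 0 ≤ max (min (f x) n) (-n) := le_max_of_le_left (le_min h hn)
        have h2 : max (min (f x) n) (-n) ≤ f x := max_le (min_le_left _ _) (by linarith)
        rw [abs_of_nonneg (by linarith)]
        linarith
      · rw [abs_of_nonpos h]
        have h1 : max (min (f x) n) (-n) ≤ 0 :=
          max_le ((min_le_left _ _).trans h) (by linarith)
        have h2 : f x ≤ max (min (f x) n) (-n) := by
          apply le_max_of_le_left
          exact le_min le_rfl (by linarith)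
        rw [abs_of_nonpos (by linarith)]
        linarith
    · refine ae_of_all _ fun x => ?_
      obtain ⟨N, hN⟩ := exists_nat_ge |f x|
      refine tendsto_const_nhds.congr' ?_
      filter_upwards [eventually_ge_atTop N] with n hn
      have h1 : |f x| ≤ n := hN.trans (by exact_mod_cast hn)
      rw [abs_le] at h1
      rw [min_eq_left h1.2, max_eq_left h1.1, sub_self, abs_zero]
  rw [integral_zero] at hlim
  obtain ⟨n, hn⟩ := (hlim.eventually (ge_mem_nhds hε)).exists
  refine ⟨fun x => max (min (f x) n) (-n), by fun_prop, ⟨n, fun x => ?_⟩, hn⟩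
  have hn0 : (0 : ℝ) ≤ n := Nat.cast_nonneg n
  rw [abs_le]
  exact ⟨le_max_right _ _, max_le (min_le_right _ _) (by linarith)⟩

/-- Mean ergodic theorem: for an ergodic Markov kernel with finite invariant measure, every
integrable function is, up to a small error in `L¹`, a constant plus `P g - g` with `g` bounded. -/
theorem dense_coboundary (κ : Kernel Ω Ω) [IsMarkovKernel κ] (m : Measure Ω) [IsFiniteMeasure m]
    (hinv : m.bind κ = m)
    (herg : ∀ A : Set Ω, MeasurableSet A →
      (∀ᵐ x ∂m, κ x A = A.indicator (fun _ => (1 : ℝ≥0∞)) x) → m A = 0 ∨ m Aᶜ = 0)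
    (f : Ω → ℝ) (hf : Measurable f) (hfi : Integrable f m) (c : ℝ)
    (hc : ∫ x, f x ∂m = c * (m univ).toReal) (ε : ℝ) (hε : 0 < ε) :
    ∃ g : Ω → ℝ, Measurable g ∧ (∃ B : ℝ, ∀ x, |g x| ≤ B) ∧
      ∫⁻ x, ENNReal.ofReal |f x - c - ((∫ y, g y ∂(κ x)) - g x)| ∂m ≤ ENNReal.ofReal ε := by
  by_cases hm0 : m = 0
  · refine ⟨fun _ => 0, measurable_const, ⟨0, fun x => by simp⟩, ?_⟩
    rw [hm0]
    simp
  have hM : 0 < m.real univ := by
    rw [measureReal_def]
    apply ENNReal.toReal_pos _ (measure_ne_top _ _)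
    exact fun h => hm0 (Measure.measure_univ_eq_zero.1 h)
  obtain ⟨M, hMdef⟩ : ∃ M, M = m.real univ := ⟨_, rfl⟩
  rw [← hMdef] at hM
  have hc' : ∫ x, f x ∂m = c * M := by rw [hMdef]; exact hc
  obtain ⟨f1, hf1, ⟨C, hC⟩, hff1⟩ := trunc m f hf hfi (ε / 4) (by positivity)
  have hf1i : Integrable f1 m := Integrable.of_bound hf1.aestronglyMeasurable C (ae_of_all _ hC)
  obtain ⟨c1, hc1⟩ : ∃ c1, c1 = (∫ x, f1 x ∂m) / M := ⟨_, rfl⟩
  have hc1' : ∫ x, f1 x ∂m = c1 * M := by
    rw [hc1]
    field_simp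
  have h0 : ∫ x, (f1 x - c1) ∂m = 0 := by
    rw [integral_sub hf1i (integrable_const _), integral_const, hc1', smul_eq_mul, ← hMdef]
    ring
  obtain ⟨g, hg⟩ := dense_L2 κ m hinv herg (fun x => f1 x - c1) (hf1.sub measurable_const)
    (C + |c1|) (fun x => (abs_sub _ _).trans (add_le_add (hC x) le_rfl)) h0
    (ε ^ 2 / (4 * M)) (by positivity)
  obtain ⟨hgm, B, hB⟩ := g.2
  refine ⟨g, hgm, ⟨B, hB⟩, ?_⟩
  have hcm := cob_meas κ g
  obtain ⟨D, hD⟩ := cob_bdd κ g
  have hcobi : Integrable (cob κ (g : Ω → ℝ)) m :=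
    Integrable.of_bound hcm.aestronglyMeasurable D (ae_of_all _ hD)
  obtain ⟨u, hu⟩ : ∃ u : Ω → ℝ, u = fun x => (f1 x - c1) - cob κ (g : Ω → ℝ) x := ⟨_, rfl⟩
  have hum : Measurable u := by
    rw [hu]
    exact (hf1.sub measurable_const).sub hcm
  have hub : ∀ x, |u x| ≤ (C + |c1|) + D := by
    intro x
    rw [hu]
    exact (abs_sub _ _).trans (add_le_add ((abs_sub _ _).trans (add_le_add (hC x) le_rfl)) (hD x))
  have hui : Integrable u m := Integrable.of_bound hum.aestronglyMeasurable _ (ae_of_all _ hub)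
  have hu2i : Integrable (fun x => u x ^ 2) m := by
    refine Integrable.of_bound (hum.pow_const 2).aestronglyMeasurable (((C + |c1|) + D) ^ 2)
      (ae_of_all _ fun x => ?_)
    rw [Real.norm_eq_abs, abs_pow]
    exact pow_le_pow_left₀ (abs_nonneg _) (hub x) 2
  have hu2 : ∫ x, u x ^ 2 ∂m ≤ ε ^ 2 / (4 * M) := by
    rw [hu]
    exact hg
  have hu1 : ∫ x, |u x| ∂m ≤ ε / 2 := by
    have h1 : ∀ x, |u x| ≤ ε / (4 * M) + (M / ε) * u x ^ 2 := by
      intro x
      have h2 : 0 ≤ (ε / (2 * M) - |u x|) ^ 2 * (M / ε) := by positivity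
      have h3 : (ε / (2 * M) - |u x|) ^ 2 * (M / ε)
          = ε / (4 * M) - |u x| + (M / ε) * u x ^ 2 := by
        have h4 : u x ^ 2 = |u x| ^ 2 := (sq_abs _).symm
        rw [h4]
        field_simp
        ring
      linarith
    calc ∫ x, |u x| ∂m ≤ ∫ x, (ε / (4 * M) + (M / ε) * u x ^ 2) ∂m := by
          apply integral_mono hui.abs
          · exact (integrable_const _).add (hu2i.const_mul _)
          · exact h1
      _ = ε / (4 * M) * M + (M / ε) * ∫ x, u x ^ 2 ∂m := by
          rw [integral_add (integrable_const _) (hu2i.const_mul _), integral_const,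
            integral_const_mul, smul_eq_mul, ← hMdef]
          ring
      _ ≤ ε / (4 * M) * M + (M / ε) * (ε ^ 2 / (4 * M)) := by
          gcongr
      _ = ε / 2 := by
          field_simp
          ring
  have hcc : |c - c1| * M ≤ ε / 4 := by
    have h1 : (c - c1) * M = ∫ x, (f x - f1 x) ∂m := by
      rw [integral_sub hfi hf1i, hc', hc1']
      ring
    calc |c - c1| * M = |(c - c1) * M| := by rw [abs_mul, abs_of_pos hM]
      _ = |∫ x, (f x - f1 x) ∂m| := by rw [h1]
      _ ≤ ∫ x, |f x - f1 x| ∂m := abs_integral_le_integral_abs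
      _ ≤ ε / 4 := hff1
  have hvi : Integrable (fun x => f x - c - cob κ (g : Ω → ℝ) x) m :=
    (hfi.sub (integrable_const c)).sub hcobi
  have hfinal : ∫ x, |f x - c - cob κ (g : Ω → ℝ) x| ∂m ≤ ε := by
    calc ∫ x, |f x - c - cob κ (g : Ω → ℝ) x| ∂m
        ≤ ∫ x, (|f x - f1 x| + |c - c1| + |u x|) ∂m := by
          apply integral_mono hvi.abs
          · exact ((hfi.sub hf1i).abs.add (integrable_const _)).add hui.abs
          · intro x
            have e : f x - c - cob κ (g : Ω → ℝ) x = (f x - f1 x) - (c - c1) + u x := by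
              rw [hu]
              ring
            show |f x - c - cob κ (g : Ω → ℝ) x| ≤ |f x - f1 x| + |c - c1| + |u x|
            rw [e]
            exact (abs_add_le _ _).trans (add_le_add (abs_sub _ _) le_rfl)
      _ = ∫ x, |f x - f1 x| ∂m + |c - c1| * M + ∫ x, |u x| ∂m := by
          rw [integral_add, integral_add, integral_const, smul_eq_mul, ← hMdef]
          · ring
          · exact (hfi.sub hf1i).abs
          · exact integrable_const _
          · exact (hfi.sub hf1i).abs.add (integrable_const _)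
          · exact hui.abs
      _ ≤ ε / 4 + ε / 4 + ε / 2 := add_le_add (add_le_add hff1 hcc) hu1
      _ = ε := by ring
  show ∫⁻ x, ENNReal.ofReal |f x - c - cob κ (g : Ω → ℝ) x| ∂m ≤ ENNReal.ofReal ε
  rw [← ofReal_integral_eq_lintegral_ofReal hvi.abs (ae_of_all _ fun x => abs_nonneg _)]
  exact ENNReal.ofReal_le_ofReal hfinal

end Pool.Agent.Helper684.Ergo
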