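import Pool.Agent.Helper684.Ergo.Hopf
set_option autoImplicit false

open MeasureTheory ProbabilityTheory Set Filter Topology
open scoped ENNReal

namespace Pool.Agent.Helper684.Ergo

variable {Ω : Type*} [MeasurableSpace Ω]


theorem abel_real (u w : ℕ → ℝ) (a : ℝ) (hw : ∀ j, w (j + 1) ≤ w j) (hw0 : ∀ j, 0 ≤ w j)
    (h : ∀ N : ℕ, ∑ j ∈ Finset.range N, u j ≤ a * N) (N : ℕ) :
    ∑ j ∈ Finset.range N, w j * u j ≤ a * ∑ j ∈ Finset.range N, w j := by
  have hT : ∀ N : ℕ, ∑ j ∈ Finset.range N, (u j - a) ≤ 0 := by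
    intro N
    rw [Finset.sum_sub_distrib, Finset.sum_const, Finset.card_range, nsmul_eq_mul]
    have := h N
    linarith
  have hA : ∀ N : ℕ, ∑ j ∈ Finset.range N, w j * (u j - a) ≤
      w N * ∑ j ∈ Finset.range N, (u j - a) := by
    intro N
    induction N with
    | zero => simp
    | succ N ih =>
      have h1 := hT (N + 1)
      rw [Finset.sum_range_succ] at h1 ⊢
      rw [Finset.sum_range_succ]
      have h2 := hw N
      nlinarith
  have h1 := hA N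
  have h2 : w N * ∑ j ∈ Finset.range N, (u j - a) ≤ 0 :=
    mul_nonpos_of_nonneg_of_nonpos (hw0 N) (hT N)
  have h3 : ∑ j ∈ Finset.range N, w j * (u j - a) =
      ∑ j ∈ Finset.range N, w j * u j - a * ∑ j ∈ Finset.range N, w j := by
    rw [Finset.mul_sum, ← Finset.sum_sub_distrib]
    apply Finset.sum_congr rfl
    intro j _
    ring
  linarith

theorem abel_ennreal (u : ℕ → ℝ≥0∞) (γ : ℝ) (hγ0 : 0 ≤ γ) (hγ1 : γ < 1) (a : ℝ≥0∞)
    (ha : a ≠ ⊤) (h : ∀ N : ℕ, ∑ j ∈ Finset.range N, u j ≤ a * N) :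
    ∑' j : ℕ, ENNReal.ofReal (γ ^ j) * u j ≤ a * ENNReal.ofReal (1 / (1 - γ)) := by
  have hu : ∀ j, u j ≠ ⊤ := by
    intro j
    have h1 : u j ≤ ∑ i ∈ Finset.range (j + 1), u i :=
      Finset.single_le_sum (f := u) (fun _ _ => zero_le) (Finset.self_mem_range_succ j)
    have h2 := h1.trans (h (j + 1))
    refine ne_top_of_le_ne_top ?_ h2
    exact ENNReal.mul_ne_top ha (ENNReal.natCast_ne_top _)
  have hre : ∀ N : ℕ, ∑ j ∈ Finset.range N, (u j).toReal ≤ a.toReal * N := by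
    intro N
    rw [← ENNReal.toReal_sum (fun j _ => hu j)]
    have h1 := ENNReal.toReal_mono (ENNReal.mul_ne_top ha (ENNReal.natCast_ne_top _)) (h N)
    rwa [ENNReal.toReal_mul, ENNReal.toReal_natCast] at h1
  apply ENNReal.tsum_le_of_sum_range_le
  intro N
  have h1 := abel_real (fun j => (u j).toReal) (fun j => γ ^ j) a.toReal
    (fun j => pow_le_pow_of_le_one hγ0 hγ1.le (Nat.le_succ j)) (fun j => pow_nonneg hγ0 j) hre N
  have h2 : ∑ j ∈ Finset.range N, γ ^ j ≤ 1 / (1 - γ) := by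
    have h3 := (summable_geometric_of_lt_one hγ0 hγ1).sum_le_tsum (Finset.range N)
      (fun j _ => pow_nonneg hγ0 j)
    rw [tsum_geometric_of_lt_one hγ0 hγ1] at h3
    rwa [one_div]
  have h3 : ∑ j ∈ Finset.range N, ENNReal.ofReal (γ ^ j) * u j =
      ENNReal.ofReal (∑ j ∈ Finset.range N, γ ^ j * (u j).toReal) := by
    rw [ENNReal.ofReal_sum_of_nonneg]
    · apply Finset.sum_congr rfl
      intro j _
      rw [ENNReal.ofReal_mul (pow_nonneg hγ0 j), ENNReal.ofReal_toReal (hu j)]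
    · intro j _
      have := pow_nonneg hγ0 j
      positivity
  rw [h3]
  have h4 : a * ENNReal.ofReal (1 / (1 - γ)) = ENNReal.ofReal (a.toReal * (1 / (1 - γ))) := by
    rw [ENNReal.ofReal_mul ENNReal.toReal_nonneg, ENNReal.ofReal_toReal ha]
  rw [h4]
  apply ENNReal.ofReal_le_ofReal
  refine h1.trans ?_
  exact mul_le_mul_of_nonneg_left h2 ENNReal.toReal_nonneg

theorem Pop_add (κ : Kernel Ω Ω) (f g : Ω → ℝ≥0∞) (hf : Measurable f) :
    Pop κ (fun y => f y + g y) = fun x => Pop κ f x + Pop κ g x := by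
  funext x
  exact lintegral_add_left hf _

section main

variable (κ : Kernel Ω Ω) [IsMarkovKernel κ] (m : Measure Ω) [IsFiniteMeasure m]

/-- `R h = P P h + P h` -/
noncomputable def RR (h : Ω → ℝ≥0∞) : Ω → ℝ≥0∞ := fun y => Pop κ (Pop κ h) y + Pop κ h y

omit [IsMarkovKernel κ] [IsFiniteMeasure m] in
theorem RR_meas (hmeas : ∀ f : Ω → ℝ≥0∞, Measurable f → Measurable (Pop κ f) ∧
      ∫⁻ x, Pop κ f x ∂m = ∫⁻ x, f x ∂m) (h : Ω → ℝ≥0∞) (hh : Measurable h) :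
    Measurable (RR κ h) ∧ ∫⁻ x, RR κ h x ∂m = 2 * ∫⁻ x, h x ∂m := by
  obtain ⟨h1, h2⟩ := hmeas h hh
  obtain ⟨h3, h4⟩ := hmeas _ h1
  refine ⟨h3.add h1, ?_⟩
  unfold RR
  rw [lintegral_add_left h3, h4, h2, two_mul]

omit [IsMarkovKernel κ] [IsFiniteMeasure m] in
theorem iter_meas (hmeas : ∀ f : Ω → ℝ≥0∞, Measurable f → Measurable (Pop κ f) ∧
      ∫⁻ x, Pop κ f x ∂m = ∫⁻ x, f x ∂m) (h : Ω → ℝ≥0∞) (hh : Measurable h) (j : ℕ) :
    Measurable ((Pop κ)^[j] h) ∧ ∫⁻ x, ((Pop κ)^[j] h) x ∂m = ∫⁻ x, h x ∂m := by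
  induction j with
  | zero => exact ⟨hh, rfl⟩
  | succ j ih =>
    rw [Function.iterate_succ_apply']
    obtain ⟨h1, h2⟩ := hmeas _ ih.1
    exact ⟨h1, h2.trans ih.2⟩

/-- the bad set at level `a` -/
def Bad (h : Ω → ℝ≥0∞) (a : ℝ≥0∞) : Set Ω :=
  {x | ∃ N : ℕ, 0 < N ∧ a * N < ∑ j ∈ Finset.range N, ((Pop κ)^[j] (RR κ h)) x}

omit [IsMarkovKernel κ] in
theorem good_bound (h : Ω → ℝ≥0∞) (a : ℝ≥0∞) (ha : a ≠ ⊤) (x : Ω) (hx : x ∉ Bad κ h a) (n : ℕ)
    (hn : 1 ≤ n) :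
    ∑' j : ℕ, ENNReal.ofReal (((1 + 1 / (4 * (n : ℝ)))⁻¹) ^ j) *
          ((Pop κ)^[j] (RR κ h)) x ≤ a * ENNReal.ofReal (4 * n + 1) := by
  have hn0 : (0 : ℝ) < n := by exact_mod_cast hn
  have h1 := abel_ennreal (fun j => ((Pop κ)^[j] (RR κ h)) x) ((1 + 1 / (4 * (n : ℝ)))⁻¹)
    (by positivity) (by
      apply inv_lt_one_of_one_lt₀
      have : 0 < 1 / (4 * (n : ℝ)) := by positivity
      linarith) a ha (by
      intro N
      rcases Nat.eq_zero_or_pos N with h0 | h0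
      · simp [h0]
      · by_contra hcon
        exact hx ⟨N, h0, not_le.mp hcon⟩)
  have h2 : 1 / (1 - (1 + 1 / (4 * (n : ℝ)))⁻¹) = 4 * n + 1 := by
    field_simp
    ring
  rwa [h2] at h1

end main

/-- Pointwise ergodic theorem for averages `(1/n) K n` dominated by Abel sums. The three
hypotheses `hmeas`, `hopf`, `hdense` are proved elsewhere. -/
theorem pointwise_ergodic (κ : Kernel Ω Ω) [IsMarkovKernel κ] (m : Measure Ω) [IsFiniteMeasure m]
    (hm0 : m univ ≠ 0)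
    (hmeas : ∀ f : Ω → ℝ≥0∞, Measurable f → Measurable (Pop κ f) ∧
      ∫⁻ x, Pop κ f x ∂m = ∫⁻ x, f x ∂m)
    (hopf : ∀ f : Ω → ℝ≥0∞, Measurable f → ∫⁻ x, f x ∂m < ⊤ → ∀ a : ℝ≥0∞,
      a * m {x | ∃ N : ℕ, 0 < N ∧ a * N < ∑ j ∈ Finset.range N, ((Pop κ)^[j] f) x} ≤
        ∫⁻ x, f x ∂m)
    (hdense : ∀ f : Ω → ℝ, Measurable f → Integrable f m → ∀ c : ℝ,
      ∫ x, f x ∂m = c * (m univ).toReal → ∀ ε : ℝ, 0 < ε →
      ∃ g : Ω → ℝ, Measurable g ∧ (∃ B : ℝ, ∀ x, |g x| ≤ B) ∧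
        ∫⁻ x, ENNReal.ofReal |f x - c - ((∫ y, g y ∂(κ x)) - g x)| ∂m ≤ ENNReal.ofReal ε)
    (K : ℕ → Kernel Ω Ω)
    (hK1 : ∀ n : ℕ, 1 ≤ n → ∀ᵐ x ∂m, K n x univ = ENNReal.ofReal (Real.pi * n))
    (hKd : ∃ C : ℝ, ∀ n : ℕ, 1 ≤ n → ∀ g : Ω → ℝ, Measurable g → ∀ B : ℝ, (∀ x, |g x| ≤ B) →
      ∀ᵐ x ∂m, |∫ y, ((∫ z, g z ∂(κ y)) - g y) ∂(K n x)| ≤ C * B)
    (hKm : ∃ C : ℝ, ∀ n : ℕ, 1 ≤ n → ∀ f : Ω → ℝ≥0∞, Measurable f → ∀ᵐ x ∂m,
      ∫⁻ y, f y ∂(K n x) ≤ ENNReal.ofReal C * ∑' j : ℕ,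
        ENNReal.ofReal (((1 + 1 / (4 * (n : ℝ)))⁻¹) ^ j) *
          ((Pop κ)^[j] (fun y => Pop κ (Pop κ f) y + Pop κ f y)) x)
    (f : Ω → ℝ≥0∞) (hf : Measurable f) (hfin : ∫⁻ x, f x ∂m < ⊤) :
    ∀ᵐ x ∂m, Tendsto (fun n : ℕ => (∫⁻ y, f y ∂(K n x)).toReal / n) atTop
      (𝓝 (Real.pi * (∫⁻ x, f x ∂m).toReal / (m univ).toReal)) := by
  obtain ⟨C1, hC1⟩ := hKd
  obtain ⟨C2, hC2⟩ := hKm
  have hmu : 0 < (m univ).toReal := ENNReal.toReal_pos hm0 (measure_ne_top m univ)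
  set c : ℝ := (∫⁻ x, f x ∂m).toReal / (m univ).toReal with hc
  set fr : Ω → ℝ := fun x => (f x).toReal with hfr
  have hfrm : Measurable fr := hf.ennreal_toReal
  have hffin : ∀ᵐ x ∂m, f x < ⊤ := ae_lt_top hf hfin.ne
  have hfri : Integrable fr m := integrable_toReal_of_lintegral_ne_top hf.aemeasurable hfin.ne
  have hfrint : ∫ x, fr x ∂m = c * (m univ).toReal := by
    rw [hfr, integral_toReal hf.aemeasurable hffin, hc]
    field_simp
  -- the sequence of approximations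
  have hex : ∀ k : ℕ, ∃ g : Ω → ℝ, Measurable g ∧ (∃ B : ℝ, ∀ x, |g x| ≤ B) ∧
        ∫⁻ x, ENNReal.ofReal |fr x - c - ((∫ y, g y ∂(κ x)) - g x)| ∂m ≤
          ENNReal.ofReal ((1 / 2 : ℝ) ^ k * (1 / 2 : ℝ) ^ k) :=
    fun k => hdense fr hfrm hfri c hfrint _ (by positivity)
  choose g hgm hgB hgi using hex
  choose B hB using hgB
  set h : ℕ → Ω → ℝ := fun k x => fr x - c - ((∫ y, g k y ∂(κ x)) - g k x) with hh
  have hPg : ∀ k, Measurable (fun x => ∫ y, g k y ∂(κ x)) := fun k =>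
    ((hgm k).stronglyMeasurable.integral_kernel (κ := κ)).measurable
  have hhm : ∀ k, Measurable (h k) := fun k =>
    (hfrm.sub_const c).sub ((hPg k).sub (hgm k))
  set hE : ℕ → Ω → ℝ≥0∞ := fun k x => ENNReal.ofReal |h k x| with hhE
  have hhEm : ∀ k, Measurable (hE k) := fun k => by
    have h1 : Measurable (fun x => |h k x|) := by
      have := (hhm k).norm
      simpa [Real.norm_eq_abs] using this
    exact h1.ennreal_ofReal
  set al : ℕ → ℝ≥0∞ := fun k => ENNReal.ofReal ((1 / 2 : ℝ) ^ k) with hal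
  have hal0 : ∀ k, al k ≠ 0 := fun k => by
    simp only [hal, ne_eq, ENNReal.ofReal_eq_zero, not_le]
    positivity
  have halt : ∀ k, al k ≠ ⊤ := fun k => ENNReal.ofReal_ne_top
  have hhint : ∀ k, ∫⁻ x, hE k x ∂m ≤ al k * al k := by
    intro k
    have h1 := hgi k
    rw [ENNReal.ofReal_mul (by positivity)] at h1
    exact h1
  have hbad : ∀ k, m (Bad κ (hE k) (al k)) ≤ 2 * al k := by
    intro k
    obtain ⟨h1, h2⟩ := RR_meas κ m hmeas (hE k) (hhEm k)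
    have h3 : ∫⁻ x, RR κ (hE k) x ∂m ≤ 2 * (al k * al k) := by
      rw [h2]
      exact mul_le_mul_right (hhint k) 2
    have h4 := hopf (RR κ (hE k)) h1 (lt_of_le_of_lt h3
      (ENNReal.mul_lt_top (by simp) (ENNReal.mul_lt_top (halt k).lt_top (halt k).lt_top))) (al k)
    have h5 : al k * m (Bad κ (hE k) (al k)) ≤ al k * (2 * al k) := by
      refine (h4.trans h3).trans (le_of_eq ?_)
      ring
    exact (ENNReal.mul_le_mul_iff_right (hal0 k) (halt k)).mp h5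
  have hsum : ∑' k, m (Bad κ (hE k) (al k)) ≠ ⊤ := by
    have h1 : ∑' k, m (Bad κ (hE k) (al k)) ≤ ∑' k, 2 * al k := ENNReal.tsum_le_tsum hbad
    refine ne_top_of_le_ne_top ?_ h1
    rw [ENNReal.tsum_mul_left]
    apply ENNReal.mul_ne_top (by simp)
    have h2 : Summable (fun k : ℕ => (1 / 2 : ℝ) ^ k) :=
      summable_geometric_of_lt_one (by norm_num) (by norm_num)
    rw [hal]
    exact h2.tsum_ofReal_ne_top
  have hBC : ∀ᵐ x ∂m, ∀ᶠ k in atTop, x ∉ Bad κ (hE k) (al k) := ae_eventually_notMem hsum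
  -- the null set where f is infinite
  set Z : Set Ω := {x | f x = ⊤} with hZ
  have hZm : MeasurableSet Z := hf (measurableSet_singleton ⊤)
  have hZ0 : m Z = 0 := by
    have h1 : ∀ᵐ x ∂m, x ∉ Z := by
      filter_upwards [hffin] with x hx
      exact fun h => hx.ne h
    exact measure_eq_zero_iff_ae_notMem.mpr h1
  have hKZ : ∀ᵐ x ∂m, ∀ n : ℕ, 1 ≤ n → K n x Z = 0 := by
    rw [ae_all_iff]
    intro n
    by_cases hn : 1 ≤ n
    · have h1 := hC2 n hn (Z.indicator 1) (measurable_one.indicator hZm)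
      have h2 : ∀ᵐ x ∂m, ∀ j : ℕ, ((Pop κ)^[j] (RR κ (Z.indicator 1))) x = 0 := by
        rw [ae_all_iff]
        intro j
        obtain ⟨h3, h4⟩ := RR_meas κ m hmeas (Z.indicator 1) (measurable_one.indicator hZm)
        obtain ⟨h5, h6⟩ := iter_meas κ m hmeas _ h3 j
        rw [h4, lintegral_indicator_one hZm, hZ0, mul_zero] at h6
        exact (lintegral_eq_zero_iff h5).mp h6
      filter_upwards [h1, h2] with x hx1 hx2 _
      have h3 : ∫⁻ y, (Z.indicator 1 : Ω → ℝ≥0∞) y ∂(K n x) = K n x Z := lintegral_indicator_one hZm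
      rw [h3] at hx1
      have h4 : ∑' j : ℕ, ENNReal.ofReal (((1 + 1 / (4 * (n : ℝ)))⁻¹) ^ j) *
          ((Pop κ)^[j] (fun y => Pop κ (Pop κ (Z.indicator 1)) y + Pop κ (Z.indicator 1) y)) x = 0 := by
        rw [ENNReal.tsum_eq_zero]
        intro j
        have := hx2 j
        unfold RR at this
        rw [this, mul_zero]
      rw [h4, mul_zero] at hx1
      exact le_antisymm hx1 zero_le
    · filter_upwards with x h
      exact absurd h hn
  have hA1 : ∀ᵐ x ∂m, ∀ n : ℕ, 1 ≤ n → K n x univ = ENNReal.ofReal (Real.pi * n) := by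
    rw [ae_all_iff]
    intro n
    by_cases hn : 1 ≤ n
    · filter_upwards [hK1 n hn] with x hx _
      exact hx
    · filter_upwards with x h
      exact absurd h hn
  have hA2 : ∀ᵐ x ∂m, ∀ k n : ℕ, 1 ≤ n →
      |∫ y, ((∫ z, g k z ∂(κ y)) - g k y) ∂(K n x)| ≤ C1 * B k := by
    rw [ae_all_iff]
    intro k
    rw [ae_all_iff]
    intro n
    by_cases hn : 1 ≤ n
    · filter_upwards [hC1 n hn (g k) (hgm k) (B k) (hB k)] with x hx _
      exact hx
    · filter_upwards with x h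
      exact absurd h hn
  have hA3 : ∀ᵐ x ∂m, ∀ k n : ℕ, 1 ≤ n → ∫⁻ y, hE k y ∂(K n x) ≤ ENNReal.ofReal C2 * ∑' j : ℕ,
        ENNReal.ofReal (((1 + 1 / (4 * (n : ℝ)))⁻¹) ^ j) * ((Pop κ)^[j] (RR κ (hE k))) x := by
    rw [ae_all_iff]
    intro k
    rw [ae_all_iff]
    intro n
    by_cases hn : 1 ≤ n
    · filter_upwards [hC2 n hn (hE k) (hhEm k)] with x hx _
      exact hx
    · filter_upwards with x h
      exact absurd h hn
  filter_upwards [hBC, hKZ, hA1, hA2, hA3] with x hx0 hxZ hx1 hx2 hx3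
  have hlim : Real.pi * (∫⁻ x, f x ∂m).toReal / (m univ).toReal = Real.pi * c := by
    rw [hc, mul_div_assoc]
  rw [hlim]
  have hfK : ∀ n : ℕ, 1 ≤ n → (∫⁻ y, f y ∂(K n x)).toReal = ∫ y, fr y ∂(K n x) := by
    intro n hn
    rw [hfr, integral_toReal hf.aemeasurable]
    have h1 := measure_eq_zero_iff_ae_notMem.mp (hxZ n hn)
    filter_upwards [h1] with y hy
    exact lt_top_iff_ne_top.mpr hy
  have hfinK : ∀ n : ℕ, 1 ≤ n → IsFiniteMeasure (K n x) := by
    intro n hn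
    exact ⟨by rw [hx1 n hn]; exact ENNReal.ofReal_lt_top⟩
  set C3 : ℝ := (ENNReal.ofReal C2).toReal with hC3
  have hC30 : 0 ≤ C3 := ENNReal.toReal_nonneg
  have hmain : ∀ k : ℕ, x ∉ Bad κ (hE k) (al k) → ∀ n : ℕ, 1 ≤ n →
      |(∫ y, fr y ∂(K n x)) - c * (Real.pi * n)| ≤
        C1 * B k + C3 * ((1 / 2 : ℝ) ^ k * (4 * n + 1)) := by
    intro k hk n hn
    have := hfinK n hn
    have hb := (hx3 k n hn).trans
      (mul_le_mul_right (good_bound κ (hE k) (al k) (halt k) x hk n hn) (ENNReal.ofReal C2))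
    have hbt : ENNReal.ofReal C2 * (al k * ENNReal.ofReal (4 * n + 1)) ≠ ⊤ :=
      ENNReal.mul_ne_top ENNReal.ofReal_ne_top (ENNReal.mul_ne_top (halt k) ENNReal.ofReal_ne_top)
    have hhi : Integrable (h k) (K n x) := by
      refine ⟨(hhm k).aestronglyMeasurable, ?_⟩
      rw [hasFiniteIntegral_iff_norm]
      exact lt_of_le_of_lt hb hbt.lt_top
    have hgi' : Integrable (fun y => g k y) (K n x) := by
      refine Integrable.of_bound (hgm k).aestronglyMeasurable (B k) ?_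
      filter_upwards with y
      rw [Real.norm_eq_abs]
      exact hB k y
    have hPgi : Integrable (fun y => ∫ z, g k z ∂(κ y)) (K n x) := by
      refine Integrable.of_bound (hPg k).aestronglyMeasurable (B k) ?_
      filter_upwards with y
      have h1 := norm_integral_le_of_norm_le_const (μ := κ y) (f := g k) (C := B k)
        (by filter_upwards with z; rw [Real.norm_eq_abs]; exact hB k z)
      simpa using h1
    have hci : Integrable (fun _ : Ω => c) (K n x) := integrable_const c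
    have heq : ∀ y, fr y = h k y + (((∫ z, g k z ∂(κ y)) - g k y) + c) := by
      intro y
      simp only [hh]
      ring
    have hint : ∫ y, fr y ∂(K n x) = (∫ y, h k y ∂(K n x)) +
        ((∫ y, ((∫ z, g k z ∂(κ y)) - g k y) ∂(K n x)) + c * (Real.pi * n)) := by
      have h1 : ∫ y, fr y ∂(K n x) =
          ∫ y, (h k y + (((∫ z, g k z ∂(κ y)) - g k y) + c)) ∂(K n x) :=
        integral_congr_ae (Eventually.of_forall heq)
      have hsub : Integrable (fun y => (∫ z, g k z ∂(κ y)) - g k y) (K n x) := hPgi.sub hgi'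
      have hsum2 : Integrable (fun y => ((∫ z, g k z ∂(κ y)) - g k y) + c) (K n x) :=
        hsub.add hci
      rw [h1, integral_add hhi hsum2, integral_add hsub hci, integral_const]
      congr 2
      rw [Measure.real, hx1 n hn, ENNReal.toReal_ofReal (by positivity), smul_eq_mul]
      ring
    have hhb : |∫ y, h k y ∂(K n x)| ≤ C3 * ((1 / 2 : ℝ) ^ k * (4 * n + 1)) := by
      have h1 : ‖∫ y, h k y ∂(K n x)‖ ≤ (∫⁻ y, ENNReal.ofReal ‖h k y‖ ∂(K n x)).toReal :=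
        norm_integral_le_lintegral_norm _
      have h2 := ENNReal.toReal_mono hbt hb
      have e1 : (al k).toReal = (1 / 2 : ℝ) ^ k := ENNReal.toReal_ofReal (by positivity)
      have e2 : (ENNReal.ofReal (4 * (n : ℝ) + 1)).toReal = 4 * n + 1 :=
        ENNReal.toReal_ofReal (by positivity)
      rw [ENNReal.toReal_mul, ENNReal.toReal_mul, e1, e2] at h2
      exact h1.trans h2
    rw [hint]
    have h3 := hx2 k n hn
    calc |(∫ y, h k y ∂(K n x)) + ((∫ y, ((∫ z, g k z ∂(κ y)) - g k y) ∂(K n x)) +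
          c * (Real.pi * n)) - c * (Real.pi * n)|
        = |(∫ y, h k y ∂(K n x)) + (∫ y, ((∫ z, g k z ∂(κ y)) - g k y) ∂(K n x))| := by
          congr 1
          ring
      _ ≤ |∫ y, h k y ∂(K n x)| + |∫ y, ((∫ z, g k z ∂(κ y)) - g k y) ∂(K n x)| :=
          abs_add_le _ _
      _ ≤ _ := by linarith
  rw [Metric.tendsto_atTop]
  intro ε hε
  obtain ⟨k0, hk0⟩ := eventually_atTop.mp hx0
  have hpow : Tendsto (fun k : ℕ => C3 * ((1 / 2 : ℝ) ^ k * 5)) atTop (𝓝 (C3 * (0 * 5))) :=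
    ((tendsto_pow_atTop_nhds_zero_of_lt_one (by norm_num) (by norm_num)).mul_const 5).const_mul C3
  rw [zero_mul, mul_zero] at hpow
  obtain ⟨k1, hk1⟩ := eventually_atTop.mp (hpow.eventually (gt_mem_nhds (half_pos hε)))
  set k := max k0 k1 with hk
  have hkb := hk1 k (le_max_right _ _)
  have hkg := hmain k (hk0 k (le_max_left _ _))
  obtain ⟨n0, hn0⟩ := exists_nat_gt (2 * |C1 * B k| / ε)
  refine ⟨max n0 1, fun n hn => ?_⟩
  have hn1 : 1 ≤ n := le_trans (le_max_right _ _) hn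
  have hnn0 : (n0 : ℝ) ≤ n := by exact_mod_cast le_trans (le_max_left _ _) hn
  have hnp : (0 : ℝ) < n := by exact_mod_cast hn1
  have hn1' : (1 : ℝ) ≤ n := by exact_mod_cast hn1
  have h1 := hkg n hn1
  rw [hfK n hn1, Real.dist_eq]
  have h2 : (∫ y, fr y ∂(K n x)) / n - Real.pi * c =
      ((∫ y, fr y ∂(K n x)) - c * (Real.pi * n)) / n := by
    field_simp
  rw [h2, abs_div, abs_of_pos hnp, div_lt_iff₀ hnp]
  refine lt_of_le_of_lt h1 ?_
  have h3 : C3 * ((1 / 2 : ℝ) ^ k * (4 * n + 1)) ≤ C3 * ((1 / 2 : ℝ) ^ k * 5) * n := by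
    have h4 : (1 / 2 : ℝ) ^ k * (4 * n + 1) ≤ (1 / 2 : ℝ) ^ k * 5 * n := by
      have : 0 < (1 / 2 : ℝ) ^ k := by positivity
      nlinarith
    calc _ ≤ C3 * ((1 / 2 : ℝ) ^ k * 5 * n) := mul_le_mul_of_nonneg_left h4 hC30
      _ = _ := by ring
  have h5 : C3 * ((1 / 2 : ℝ) ^ k * 5) * n < ε / 2 * n := mul_lt_mul_of_pos_right hkb hnp
  have h6 : C1 * B k ≤ ε / 2 * n := by
    have h7 : 2 * |C1 * B k| / ε < n := hn0.trans_le hnn0
    rw [div_lt_iff₀ hε] at h7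
    have := le_abs_self (C1 * B k)
    linarith
  linarith

end Pool.Agent.Helper684.Ergo
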