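import Pool.Agent.Helper684.Ergo.BoxFacts
import Pool.Agent.Helper684.Ergo.Cover
import Pool.Agent.Helper684.Ergo.M3
import Pool.Agent.Helper684.Ergo.Calc1
import Pool.Agent.Helper684.Ergo.Calc2

set_option autoImplicit false


open scoped Manifold
open Metric MeasureTheory Set Filter Topology
open Pool.Agent.Helper240.Nev

namespace Pool.Agent.Helper684.Ergo

variable {E M : Type*} [NormedAddCommGroup E] [NormedSpace ℂ E] [TopologicalSpace M]
  [ChartedSpace E M] [IsManifold 𝓘(ℂ, E) 1 M]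

theorem pl_tangentDisc_comp {F : Foliation E M} {ψ : ℂ → M} (hψ : F.IsTangentDisc ψ) {f : ℂ → ℂ}
    (hf : DifferentiableOn ℂ f (ball 0 1)) (hm : MapsTo f (ball 0 1) (ball 0 1)) :
    F.IsTangentDisc (fun z => ψ (f z)) := by
  have hfd : ∀ ξ ∈ ball (0 : ℂ) 1, DifferentiableAt ℂ f ξ := fun ξ hξ =>
    hf.differentiableAt (isOpen_ball.mem_nhds hξ)
  have hmd : ∀ ξ ∈ ball (0 : ℂ) 1, MDifferentiableAt 𝓘(ℂ, ℂ) 𝓘(ℂ, E) (ψ ∘ f) ξ := fun ξ hξ =>
    (hψ.mdiffAt (hm hξ)).comp ξ (mdifferentiableAt_iff_differentiableAt.2 (hfd ξ hξ))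
  refine ⟨fun ξ hξ => (hmd ξ hξ).mdifferentiableWithinAt, fun ξ hξ => ?_⟩
  have h0 := hψ.2 (f ξ) (hm hξ)
  refine ⟨h0.1, ?_⟩
  have h1 : mfderiv 𝓘(ℂ, ℂ) 𝓘(ℂ, E) (ψ ∘ f) ξ =
      (mfderiv 𝓘(ℂ, ℂ) 𝓘(ℂ, E) ψ (f ξ)).comp (mfderiv 𝓘(ℂ, ℂ) 𝓘(ℂ, ℂ) f ξ) :=
    mfderiv_comp ξ (hψ.mdiffAt (hm hξ)) (mdifferentiableAt_iff_differentiableAt.2 (hfd ξ hξ))
  rw [mfderiv_eq_fderiv] at h1
  have h3 : (discDeriv (E := E) (ψ ∘ f) ξ 1 : E) =
      (deriv f ξ • (discDeriv (E := E) ψ (f ξ) 1 : E) : E) := by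
    have h4 := congrArg (fun L : ℂ →L[ℂ] E => L 1) h1
    have h5 : (discDeriv (E := E) (ψ ∘ f) ξ 1 : E) = discDeriv (E := E) ψ (f ξ) (deriv f ξ) := by
      have h6 : fderiv ℂ f ξ 1 = deriv f ξ := fderiv_apply_one_eq_deriv
      rw [← h6]
      exact h4
    rw [h5]
    have h7 := discDeriv_smul (E := E) ψ (f ξ) (deriv f ξ) 1
    rw [mul_one] at h7
    exact h7
  have h8 := smul_mem_dir h0.1 h0.2 (deriv f ξ)
  exact h3 ▸ h8

theorem pl_pullback_comp (ω : PosForm E M) {φ ψ : ℂ → M} {f : ℂ → ℂ} {z : ℂ}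
    (hφ : MDifferentiableAt 𝓘(ℂ, ℂ) 𝓘(ℂ, E) φ (f z)) (hf : DifferentiableAt ℂ f z)
    (heq : ψ =ᶠ[𝓝 z] fun y => φ (f y)) :
    pullback ω ψ z = ‖deriv f z‖ ^ 2 * pullback ω φ (f z) := by
  have hz : ψ z = φ (f z) := heq.eq_of_nhds
  set e := chartAt E (φ (f z)) with he
  have heC : e ∈ IsManifold.maximalAtlas 𝓘(ℂ, E) 1 M := IsManifold.chart_mem_maximalAtlas _
  have hsrc : φ (f z) ∈ e.source := mem_chart_source E (φ (f z))
  have hcomp : MDifferentiableAt 𝓘(ℂ, ℂ) 𝓘(ℂ, E) (φ ∘ f) z :=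
    hφ.comp z (mdifferentiableAt_iff_differentiableAt.2 hf)
  have hψ : MDifferentiableAt 𝓘(ℂ, ℂ) 𝓘(ℂ, E) ψ z := hcomp.congr_of_eventuallyEq heq
  have hsrc' : ψ z ∈ e.source := by rw [hz]; exact hsrc
  rw [pullback_chart ω hψ ⟨heC, hsrc'⟩, pullback_chart ω hφ ⟨heC, hsrc⟩, ← Qe_smul, hz]
  congr 1
  have h1 : HasDerivAt (fun y => e (φ y)) (deriv (fun y => e (φ y)) (f z)) (f z) :=
    (hasDerivAt_chart hφ ⟨heC, hsrc⟩).differentiableAt.hasDerivAt
  have h2 := h1.scomp z hf.hasDerivAt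
  have h3 : (fun y => e (ψ y)) =ᶠ[𝓝 z] (fun y => e (φ y)) ∘ f := by
    filter_upwards [heq] with y hy
    rw [hy]
    rfl
  exact (h2.congr_of_eventuallyEq h3).deriv

theorem pl_mob_den_ne {a z : ℂ} (ha : a ∈ ball (0 : ℂ) 1) (hz : z ∈ ball (0 : ℂ) 1) :
    1 + (starRingEnd ℂ) a * z ≠ 0 := by
  rw [mem_ball_zero_iff] at ha hz
  intro h
  have h1 : ‖(starRingEnd ℂ) a * z‖ = 1 := by
    have : (starRingEnd ℂ) a * z = -1 := by linear_combination h
    rw [this]; simp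
  rw [norm_mul, Complex.norm_conj] at h1
  nlinarith [norm_nonneg a, norm_nonneg z]

theorem pl_mob_mem {a z : ℂ} (ha : a ∈ ball (0 : ℂ) 1) (hz : z ∈ ball (0 : ℂ) 1) :
    mob a z ∈ ball (0 : ℂ) 1 := by
  have hd := pl_mob_den_ne ha hz
  rw [mem_ball_zero_iff] at *
  have h1 : 0 < ‖1 + (starRingEnd ℂ) a * z‖ := norm_pos_iff.2 hd
  unfold mob
  rw [norm_div, div_lt_one h1]
  have h2 : Complex.normSq (1 + (starRingEnd ℂ) a * z) - Complex.normSq (z + a) =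
      (1 - Complex.normSq a) * (1 - Complex.normSq z) := by
    simp only [Complex.normSq_apply, Complex.add_re, Complex.add_im, Complex.mul_re,
      Complex.mul_im, Complex.conj_re, Complex.conj_im, Complex.one_re, Complex.one_im]
    ring
  rw [Complex.normSq_eq_norm_sq, Complex.normSq_eq_norm_sq, Complex.normSq_eq_norm_sq,
    Complex.normSq_eq_norm_sq] at h2
  have h3 : 0 < (1 - ‖a‖ ^ 2) * (1 - ‖z‖ ^ 2) := by
    apply mul_pos
    · nlinarith [norm_nonneg a]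
    · nlinarith [norm_nonneg z]
  have h4 : ‖z + a‖ ^ 2 < ‖1 + (starRingEnd ℂ) a * z‖ ^ 2 := by linarith
  exact lt_of_pow_lt_pow_left₀ 2 h1.le h4

theorem pl_neg_mem_ball {a : ℂ} (ha : a ∈ ball (0 : ℂ) 1) : -a ∈ ball (0 : ℂ) 1 := by
  rw [mem_ball_zero_iff] at *
  rwa [norm_neg]

theorem pl_mob_mob {a z : ℂ} (ha : a ∈ ball (0 : ℂ) 1) (hz : z ∈ ball (0 : ℂ) 1) :
    mob a (mob (-a) z) = z := by
  have h1 := pl_mob_den_ne (pl_neg_mem_ball ha) hz
  have hu : mob (-a) z ∈ ball (0 : ℂ) 1 := pl_mob_mem (pl_neg_mem_ball ha) hz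
  have h2 := pl_mob_den_ne ha hu
  have h3 : mob (-a) z * (1 + (starRingEnd ℂ) (-a) * z) = z + -a := by
    unfold mob
    exact div_mul_cancel₀ _ h1
  generalize mob (-a) z = u at h2 h3
  unfold mob
  rw [div_eq_iff h2]
  rw [map_neg] at h3
  linear_combination h3

theorem pl_mob_zero (a : ℂ) : mob a 0 = a := by simp [mob]

theorem pl_mob_neg_self (a : ℂ) : mob (-a) a = 0 := by simp [mob]

theorem pl_mob_diff {a : ℂ} (ha : a ∈ ball (0 : ℂ) 1) : DifferentiableOn ℂ (mob a) (ball 0 1) := by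
  intro z hz
  unfold mob
  apply DifferentiableAt.differentiableWithinAt
  exact (by fun_prop : DifferentiableAt ℂ (fun z => z + a) z).div (by fun_prop) (pl_mob_den_ne ha hz)

/-- The leafwise Laplacian may be computed with any universal covering. -/
theorem leafLap_eq (ω : PosForm E M) {F : Foliation E M} {w : M → ℝ} {φ : ℂ → M}
    (hφ : F.IsUniversalCovering φ) (hw : ContDiffAt ℝ 2 (fun z => w (φ z)) 0) :
    leafLap ω F w (φ 0) = lap (fun z => w (φ z)) 0 / pullback ω φ 0 := by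
  have h : ∃ ψ : ℂ → M, F.IsUniversalCovering ψ ∧ ψ 0 = φ 0 := ⟨φ, hφ, rfl⟩
  unfold leafLap
  rw [dif_pos h]
  obtain ⟨hψ, hψ0⟩ := h.choose_spec
  set ψ := h.choose with hψdef
  obtain ⟨c, hc, hcz⟩ := universalCovering_unique hφ hψ hψ0.symm
  have hz0 : (0 : ℂ) ∈ ball (0 : ℂ) 1 := mem_ball_self one_pos
  have hev : ∀ᶠ z in 𝓝 (0 : ℂ), ψ z = φ (c * z) := by
    filter_upwards [isOpen_ball.mem_nhds hz0] with z hz
    exact hcz z hz
  have hd : deriv (fun z : ℂ => c * z) 0 = c := by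
    simpa using ((hasDerivAt_id (0 : ℂ)).const_mul c).deriv
  have h1 : lap (fun z => w (ψ z)) 0 = lap (fun z => w (φ z)) 0 := by
    have e1 : (fun z => w (ψ z)) =ᶠ[𝓝 0] fun z => w (φ (c * z)) := by
      filter_upwards [hev] with z hz
      rw [hz]
    rw [lap_congr e1]
    have hw' : ContDiffAt ℝ 2 (fun z => w (φ z)) ((fun z : ℂ => c * z) 0) := by
      simpa using hw
    have e2 := lap_comp_holo (U := fun z => w (φ z)) (j := fun z : ℂ => c * z) (w := 0) hw'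
      (analyticAt_const.mul analyticAt_id)
    rw [hd, hc] at e2
    simpa using e2
  have h2 : pullback ω ψ 0 = pullback ω φ 0 := by
    have hφ0 : MDifferentiableAt 𝓘(ℂ, ℂ) 𝓘(ℂ, E) φ ((fun z : ℂ => c * z) 0) := by
      have : (fun z : ℂ => c * z) 0 = 0 := by simp
      rw [this]
      exact hφ.tangent.mdiffAt hz0
    have := pl_pullback_comp ω (f := fun z : ℂ => c * z) (z := 0) hφ0 (by fun_prop) hev
    rw [hd, hc] at this
    simpa using this
  rw [h1, h2]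

/-- On the plaque of a hyperbolic point, a function which is `C²` along the universal coverings
is `C²`, and its Laplacian is given by the leafwise Laplacian. -/
theorem plaque_smooth (ω : PosForm E M) {F : Foliation E M} (b : Box F) {w : M → ℝ}
    (hw : ∀ φ : ℂ → M, F.IsUniversalCovering φ → ContDiffOn ℝ 2 (fun z => w (φ z)) (ball 0 1))
    {t : b.T} (ht : t ∈ ball (0 : b.T) b.R) {z₁ : ℂ} (hz₁ : z₁ ∈ ball (0 : ℂ) b.R)
    (hh : ∃ φ : ℂ → M, F.IsUniversalCovering φ ∧ φ 0 = b.pt (z₁, t)) :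
    ContDiffOn ℝ 2 (fun z => w (b.pt (z, t))) (ball 0 b.R) ∧
      ∀ z ∈ ball (0 : ℂ) b.R, (∃ φ : ℂ → M, F.IsUniversalCovering φ ∧ φ 0 = b.pt (z, t)) ∧
        lap (fun z => w (b.pt (z, t))) z = leafLap ω F w (b.pt (z, t)) * b.Q ω (z, t) := by
  obtain ⟨φ, hφ, hφ0⟩ := hh
  have hz0 : (0 : ℂ) ∈ ball (0 : ℂ) 1 := mem_ball_self one_pos
  have hR := b.R_pos
  have hRC : (b.R : ℂ) ≠ 0 := by exact_mod_cast hR.ne'
  set P : ℂ → M := fun ζ => b.pt (0 + b.R * ζ, t) with hP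
  have hPt : F.IsTangentDisc P := b.plaque ht hR (subset_refl _)
  -- scaling
  have hsc : ∀ z ∈ ball (0 : ℂ) b.R, z / b.R ∈ ball (0 : ℂ) 1 := by
    intro z hz
    rw [mem_ball_zero_iff] at *
    rw [norm_div, Complex.norm_real, Real.norm_eq_abs, abs_of_pos hR, div_lt_one hR]
    exact hz
  have hPz : ∀ z : ℂ, P (z / b.R) = b.pt (z, t) := by
    intro z
    simp only [hP, zero_add]
    rw [mul_div_cancel₀ _ hRC]
  set ζ₁ : ℂ := z₁ / b.R with hζ₁
  have hζ₁m : ζ₁ ∈ ball (0 : ℂ) 1 := hsc z₁ hz₁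
  -- the lift
  have hcomp : F.IsTangentDisc (fun z => P (mob ζ₁ z)) :=
    pl_tangentDisc_comp hPt (pl_mob_diff hζ₁m) (fun z hz => pl_mob_mem hζ₁m hz)
  have hstart : (fun z => P (mob ζ₁ z)) 0 = φ 0 := by
    simp only [pl_mob_zero]
    rw [hφ0, hζ₁, hPz]
  obtain ⟨f, hfc, hfm, hf0, hlift⟩ := exists_lift hφ hcomp hz0 hstart
  have hfd := lift_differentiable hφ hcomp hfc hfm hlift
  set j : ℂ → ℂ := fun ζ => f (mob (-ζ₁) ζ) with hj
  have hjm : MapsTo j (ball 0 1) (ball 0 1) := fun z hz => hfm (pl_mob_mem (pl_neg_mem_ball hζ₁m) hz)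
  have hjd : DifferentiableOn ℂ j (ball 0 1) :=
    hfd.comp (pl_mob_diff (pl_neg_mem_ball hζ₁m)) (fun z hz => pl_mob_mem (pl_neg_mem_ball hζ₁m) hz)
  have hPj : ∀ ζ ∈ ball (0 : ℂ) 1, φ (j ζ) = P ζ := by
    intro ζ hζ
    simp only [hj]
    rw [hlift _ (pl_mob_mem (pl_neg_mem_ball hζ₁m) hζ), pl_mob_mob hζ₁m hζ]
  constructor
  · -- smoothness
    have h1 : ContDiffOn ℝ 2 (fun z : ℂ => j (z / b.R)) (ball 0 b.R) := by
      have h2 : DifferentiableOn ℂ (fun z : ℂ => j (z / b.R)) (ball 0 b.R) :=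
        hjd.comp (by fun_prop) (fun z hz => hsc z hz)
      exact (h2.contDiffOn isOpen_ball).restrict_scalars ℝ
    have h3 : ContDiffOn ℝ 2 (fun z : ℂ => w (φ (j (z / b.R)))) (ball 0 b.R) :=
      (hw φ hφ).comp h1 (fun z hz => hjm (hsc z hz))
    refine h3.congr fun z hz => ?_
    rw [hPj _ (hsc z hz), hPz]
  · intro z hz
    set ζ : ℂ := z / b.R with hζ
    have hζm : ζ ∈ ball (0 : ℂ) 1 := hsc z hz
    set a : ℂ := j ζ with ha
    have ham : a ∈ ball (0 : ℂ) 1 := hjm hζm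
    set φ' : ℂ → M := fun y => φ (mob a y) with hφ'def
    have hφ' : F.IsUniversalCovering φ' := universalCovering_mob hφ ham
    have hφ'0 : φ' 0 = b.pt (z, t) := by
      simp only [hφ'def, pl_mob_zero]
      rw [ha, hPj ζ hζm, hζ, hPz]
    refine ⟨⟨φ', hφ', hφ'0⟩, ?_⟩
    set j' : ℂ → ℂ := fun y => mob (-a) (j y) with hj'
    have hj'd : DifferentiableOn ℂ j' (ball 0 1) :=
      (pl_mob_diff (pl_neg_mem_ball ham)).comp hjd hjm
    have hj'P : ∀ y ∈ ball (0 : ℂ) 1, P y = φ' (j' y) := by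
      intro y hy
      simp only [hφ'def, hj']
      rw [pl_mob_mob ham (hjm hy), hPj y hy]
    have hj'ζ : j' ζ = 0 := by
      simp only [hj']
      rw [← ha, pl_mob_neg_self]
    have hj'dat : DifferentiableAt ℂ j' ζ := hj'd.differentiableAt (isOpen_ball.mem_nhds hζm)
    have hw0 : ContDiffAt ℝ 2 (fun z => w (φ' z)) 0 :=
      (hw φ' hφ').contDiffAt (isOpen_ball.mem_nhds hz0)
    -- the Laplacian
    set g : ℂ → ℂ := fun y => j' (y / b.R) with hg
    have hgz : g z = 0 := hj'ζ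
    have hgd : DifferentiableOn ℂ g (ball 0 b.R) :=
      hj'd.comp (by fun_prop) (fun z hz => hsc z hz)
    have hgan : AnalyticAt ℂ g z := hgd.analyticAt (isOpen_ball.mem_nhds hz)
    have hderiv : deriv g z = deriv j' ζ / b.R := by
      have h1 : HasDerivAt (fun y : ℂ => y / b.R) (1 / (b.R : ℂ)) z :=
        (hasDerivAt_id z).div_const _
      have h2 : HasDerivAt j' (deriv j' ζ) ((fun y : ℂ => y / b.R) z) := hj'dat.hasDerivAt
      have h3 := (h2.comp z h1).deriv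
      have h4 : deriv g z = deriv j' ζ * (1 / (b.R : ℂ)) := h3
      rw [h4]; ring
    have hlap : lap (fun z => w (b.pt (z, t))) z = ‖deriv g z‖ ^ 2 * lap (fun z => w (φ' z)) 0 := by
      have e1 : (fun z => w (b.pt (z, t))) =ᶠ[𝓝 z] fun y => w (φ' (g y)) := by
        filter_upwards [isOpen_ball.mem_nhds hz] with y hy
        rw [← hPz y, hj'P _ (hsc y hy)]
      rw [lap_congr e1]
      have e2 := lap_comp_holo (U := fun z => w (φ' z)) (j := g) (w := z) (by rw [hgz]; exact hw0) hgan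
      rw [hgz] at e2
      exact e2
    have hpull : pullback ω P ζ = ‖deriv j' ζ‖ ^ 2 * pullback ω φ' 0 := by
      have hm : MDifferentiableAt 𝓘(ℂ, ℂ) 𝓘(ℂ, E) φ' (j' ζ) := by
        rw [hj'ζ]; exact hφ'.tangent.mdiffAt hz0
      have := pl_pullback_comp ω (f := j') (z := ζ) hm hj'dat (by
        filter_upwards [isOpen_ball.mem_nhds hζm] with y hy
        exact hj'P y hy)
      rw [hj'ζ] at this
      exact this
    have hQ : pullback ω P ζ = b.R ^ 2 * b.Q ω (z, t) := by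
      have := b.pullback_plaque ω ht hR (subset_refl _) hζm
      have e : (0 : ℂ) + b.R * ζ = z := by rw [hζ, zero_add, mul_div_cancel₀ _ hRC]
      rw [e] at this
      exact this
    have hpos : 0 < pullback ω φ' 0 := pullback_pos ω (hφ'.immersion 0 hz0)
    have hL : leafLap ω F w (b.pt (z, t)) = lap (fun z => w (φ' z)) 0 / pullback ω φ' 0 := by
      rw [← hφ'0]
      exact leafLap_eq ω hφ' hw0
    rw [hL, hlap, hderiv]
    have hQ2 : b.Q ω (z, t) = ‖deriv j' ζ‖ ^ 2 * pullback ω φ' 0 / b.R ^ 2 := by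
      rw [eq_div_iff (by positivity), mul_comm, ← hQ, hpull]
    rw [hQ2, norm_div, Complex.norm_real, Real.norm_eq_abs, abs_of_pos hR]
    field_simp

end Pool.Agent.Helper684.Ergo
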