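import Pool.Agent.Helper684.Ergo.Fin1
import Pool.Agent.Helper684.Ergo.FFub
import Pool.Agent.Helper684.Ergo.Sep
import Pool.Agent.Helper684.Ergo.Plaque
import Pool.Agent.Helper529.Har.Main

/-!
The Nevanlinna currents of the leaves as quotients of Green integrals.
-/

set_option autoImplicit false

open scoped Manifold ENNReal ComplexConjugate
open Metric MeasureTheory ProbabilityTheory Set Filter Topology
open Pool.Agent.Helper240.Nev

namespace Pool.Agent.Helper684.Ergo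

variable {E M : Type*} [NormedAddCommGroup E] [NormedSpace ℂ E] [TopologicalSpace M]
  [ChartedSpace E M] [IsManifold 𝓘(ℂ, E) 1 M]

/-- the density of the form `ω` along a covering, compared to the Poincare metric -/
theorem den_cov (ω : PosForm E M) {F : Foliation E M} {den : M → ℝ}
    (hden : ∀ φ : ℂ → M, F.IsUniversalCovering φ → den (φ 0) = pullback ω φ 0)
    {φ : ℂ → M} (hφ : F.IsUniversalCovering φ) {ξ : ℂ} (hξ : ξ ∈ ball (0 : ℂ) 1) :
    den (φ ξ) = pullback ω φ ξ * (1 - ‖ξ‖ ^ 2) ^ 2 := by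
  have hz0 : (0 : ℂ) ∈ ball (0 : ℂ) 1 := mem_ball_self one_pos
  have hm : mob ξ 0 = ξ := by simp [mob]
  have h1 := hden _ (universalCovering_mob hφ hξ)
  simp only [hm] at h1
  have hd := hasDerivAt_mob hξ hz0
  have h2 := pl_pullback_comp ω (φ := φ) (ψ := fun z => φ (mob ξ z)) (f := mob ξ) (z := 0)
    (by rw [hm]; exact hφ.tangent.mdiffAt hξ) hd.differentiableAt (Eventually.of_forall fun y => rfl)
  rw [h1, h2, hm, hd.deriv]
  have h3 : (1 - conj ξ * ξ) / (1 + conj ξ * 0) ^ 2 = (((1 - ‖ξ‖ ^ 2 : ℝ)) : ℂ) := by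
    rw [mul_zero, add_zero, one_pow, div_one, mul_comm, Complex.mul_conj,
      Complex.normSq_eq_norm_sq]
    push_cast
    ring
  rw [h3, Complex.norm_real, Real.norm_eq_abs, sq_abs]
  ring

/-- the positive form `θ + C ω` -/
noncomputable def addPos (ω : PosForm E M) (θ : Form11 E M) (C : ℝ)
    (hC : ∀ (x : M) (v : TangentSpace 𝓘(ℂ, E) x), v ≠ 0 →
      0 < θ.form x v (J x v) + C * ω.form x v (J x v)) : PosForm E M where
  form x u v := θ.form x u v + C * ω.form x u v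
  isPositiveAt x :=
    { add_left := fun u v w => by
        rw [(θ.isForm11At x).add_left, (ω.isPositiveAt x).add_left]; ring
      smul_left := fun a v w => by
        rw [(θ.isForm11At x).smul_left, (ω.isPositiveAt x).smul_left]; ring
      antisymm := fun v w => by
        rw [(θ.isForm11At x).antisymm, (ω.isPositiveAt x).antisymm]; ring
      inv := fun v w => by
        rw [(θ.isForm11At x).inv, (ω.isPositiveAt x).inv]
      pos := fun v hv => hC x v hv }
  cont := θ.cont.add (continuous_const.mul ω.cont)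

theorem pullback_addPos (ω : PosForm E M) (θ : Form11 E M) (C : ℝ)
    (hC : ∀ (x : M) (v : TangentSpace 𝓘(ℂ, E) x), v ≠ 0 →
      0 < θ.form x v (J x v) + C * ω.form x v (J x v)) (φ : ℂ → M) (ξ : ℂ) :
    pullback (addPos ω θ C hC) φ ξ = pull11 θ φ ξ + C * pullback ω φ ξ := rfl

section
variable [FiniteDimensional ℂ E] [T2Space M] [CompactSpace M]

theorem exists_addPos (ω : PosForm E M) (θ : Form11 E M) : ∃ (C : ℝ) (ω' : PosForm E M),
    ∀ (φ : ℂ → M) (ξ : ℂ), pull11 θ φ ξ = pullback ω' φ ξ - C * pullback ω φ ξ := by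
  obtain ⟨C, hC0, hC⟩ := form_bdd ω θ
  refine ⟨C + 1, addPos ω θ (C + 1) (fun x v hv => ?_), fun φ ξ => ?_⟩
  · have h1 := (abs_le.1 (hC x v)).1
    have h2 : 0 < ω.form x v (J x v) := (ω.isPositiveAt x).pos v hv
    nlinarith
  · rw [pullback_addPos]
    ring

theorem continuousOn_pull11 (ω : PosForm E M) (θ : Form11 E M) {ψ : ℂ → M}
    (hψ : ∀ z ∈ ball (0 : ℂ) 1, MDifferentiableAt 𝓘(ℂ, ℂ) 𝓘(ℂ, E) ψ z) :
    ContinuousOn (pull11 θ ψ) (ball 0 1) := by
  have : CompleteSpace E := FiniteDimensional.complete ℂ E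
  obtain ⟨C, ω', h⟩ := exists_addPos ω θ
  refine ((continuousOn_pullback ω' hψ).sub
    (continuousOn_const.mul (continuousOn_pullback ω hψ))).congr fun ξ _ => h ψ ξ

/-- the density of a `(1,1)`-form along the leaves -/
theorem exists_hfun [MeasurableSpace M] [BorelSpace M] (ω : PosForm E M) {F : Foliation E M}
    {Φ : M → ℂ → M} (hΦ : Pool.Agent.Helper529.Har.Fam F Φ) (θ : Form11 E M) :
    ∃ h : M → ℝ, Measurable h ∧ ∀ φ : ℂ → M, F.IsUniversalCovering φ → ∀ ξ ∈ ball (0 : ℂ) 1,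
      h (φ ξ) = pull11 θ φ ξ * (1 - ‖ξ‖ ^ 2) ^ 2 := by
  obtain ⟨C, ω', hω'⟩ := exists_addPos ω θ
  obtain ⟨d, hd, hdd⟩ := Pool.Agent.Helper529.Har.exists_den ω hΦ
  obtain ⟨d', hd', hdd'⟩ := Pool.Agent.Helper529.Har.exists_den ω' hΦ
  refine ⟨fun x => d' x - C * d x, hd'.sub (hd.const_mul C), fun φ hφ ξ hξ => ?_⟩
  simp only
  rw [den_cov ω hdd hφ hξ, den_cov ω' hdd' hφ hξ, hω']
  ring

end

theorem gK_nonneg (x u : ℝ) : 0 ≤ gK x u := le_max_left _ _

theorem measurable_gK0 (x : ℝ) : Measurable fun ξ : ℂ => gK x (hh 0 ξ) := by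
  have h1 : Measurable (gK x) := by
    unfold gK
    exact measurable_const.max
      (measurable_const.sub (Real.measurable_log.comp (measurable_const.sub measurable_id)))
  exact h1.comp cc1

/-- integrals of real functions as differences of integrals of nonnegative functions -/
theorem integral_gK_eq {g : ℂ → ℝ} {x : ℝ}
    (hi : Integrable (fun ξ => gK x (hh 0 ξ) * g ξ) hypVol) :
    ∫ ξ, gK x (hh 0 ξ) * g ξ ∂hypVol =
      (∫⁻ ξ, ENNReal.ofReal (gK x (hh 0 ξ)) * ENNReal.ofReal (g ξ) ∂hypVol).toReal -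
      (∫⁻ ξ, ENNReal.ofReal (gK x (hh 0 ξ)) * ENNReal.ofReal (- g ξ) ∂hypVol).toReal := by
  rw [integral_eq_lintegral_pos_part_sub_lintegral_neg_part hi]
  congr 3
  · funext ξ
    rw [ENNReal.ofReal_mul (gK_nonneg _ _)]
  · funext ξ
    rw [← mul_neg, ENNReal.ofReal_mul (gK_nonneg _ _)]

/-- rotation of the covering in the Green integrals -/
theorem lintegral_gK_rot {φ ψ : ℂ → M} {c : ℂ} (hc : ‖c‖ = 1)
    (h : ∀ z ∈ ball (0 : ℂ) 1, ψ z = φ (c * z)) (x : ℝ) [MeasurableSpace M] (f : M → ℝ≥0∞)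
    (hf : Measurable f) (hφ : Measurable φ) :
    ∫⁻ ξ, ENNReal.ofReal (gK x (hh 0 ξ)) * f (ψ ξ) ∂hypVol =
      ∫⁻ ξ, ENNReal.ofReal (gK x (hh 0 ξ)) * f (φ ξ) ∂hypVol := by
  have hg : Measurable fun ξ : ℂ => ENNReal.ofReal (gK x (hh 0 ξ)) * f (φ ξ) :=
    (measurable_gK0 x).ennreal_ofReal.mul (hf.comp hφ)
  rw [← (measurePreserving_rot hc).lintegral_comp hg]
  refine lintegral_congr_ae ?_
  filter_upwards [cc5] with w hw
  rw [h w hw]
  congr 3
  rw [hh_zero_left, hh_zero_left, norm_mul, hc, one_mul]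

/-- local finiteness -/
theorem lintegral_lK_lt_top {g : ℂ → ℝ} (hg : ContinuousOn g (ball 0 1)) :
    ∫⁻ w, ENNReal.ofReal (lK (hh 0 w)) * ENNReal.ofReal (g w) ∂hypVol < ⊤ := by
  have hsub : closedBall (0 : ℂ) (3 / 4) ⊆ ball 0 1 := closedBall_subset_ball (by norm_num)
  obtain ⟨B, hB⟩ := (isCompact_closedBall (0 : ℂ) (3 / 4)).exists_bound_of_continuousOn
    (hg.mono hsub)
  have hle : ∀ w : ℂ, ENNReal.ofReal (lK (hh 0 w)) * ENNReal.ofReal (g w) ≤
      ENNReal.ofReal (lK (hh 0 w)) * ENNReal.ofReal B := by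
    intro w
    by_cases hw : 1 / 2 < hh 0 w
    · refine mul_le_mul_right (ENNReal.ofReal_le_ofReal ?_) _
      have hw' : w ∈ closedBall (0 : ℂ) (3 / 4) := by
        rw [hh_zero_left] at hw
        rw [mem_closedBall_zero_iff]
        nlinarith [norm_nonneg w]
      exact (le_abs_self _).trans (hB w hw')
    · have : lK (hh 0 w) = 0 := by simp only [lK, if_neg hw]
      rw [this, ENNReal.ofReal_zero, zero_mul, zero_mul]
  refine (lintegral_mono hle).trans_lt ?_
  rw [lintegral_mul_const' _ _ ENNReal.ofReal_ne_top]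
  exact ENNReal.mul_lt_top mass_lK ENNReal.ofReal_lt_top

end Pool.Agent.Helper684.Ergo
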