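import Pool.Agent.Helper684.Ergo.FlowBox
import Pool.Agent.Helper684.Ergo.Global

/-!
The test property of directed harmonic currents.
-/

set_option autoImplicit false

open scoped Manifold
open Metric MeasureTheory Set Filter Topology
open Pool.Agent.Helper240.Nev

namespace Pool.Agent.Helper684.Ergo

variable {E M : Type*} [NormedAddCommGroup E] [NormedSpace ℂ E] [TopologicalSpace M]
  [ChartedSpace E M] [IsManifold 𝓘(ℂ, E) 1 M]

/-- A `dd^c`-closed directed current annihilates the leafwise Laplacians of the Borel functions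
with compact support outside the singular set, which are of class `C²` along the leaves. -/
theorem test_of_closed [FiniteDimensional ℂ E] [T2Space M] [CompactSpace M] [MeasurableSpace M]
    [BorelSpace M] (ω : PosForm E M) {F : Foliation E M} {μ : Measure M} [IsFiniteMeasure μ]
    (hc : IsDdcClosed ω F μ) (hhyp : ∀ᵐ x ∂μ, IsHyperbolic F x)
    {Φ : M → ℂ → M} (hΦ : ∀ x, IsHyperbolic F x → F.IsUniversalCovering (Φ x) ∧ Φ x 0 = x)
    (u : M → ℝ) (hu : Measurable u) (hb : ∃ B, ∀ x, |u x| ≤ B)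
    (hK : ∃ K, IsCompact K ∧ Disjoint K F.sing ∧ ∀ x, x ∉ K → u x = 0)
    (hC : ∃ C : ℝ, ∀ φ : ℂ → M, F.IsUniversalCovering φ →
      ContDiffOn ℝ 2 (fun z => u (φ z)) (ball 0 1) ∧
        |lap (fun z => u (φ z)) 0| ≤ C * pullback ω φ 0 ∧
        ‖fderiv ℝ (fun z => u (φ z)) 0‖ ^ 2 ≤ C * pullback ω φ 0) :
    ∫ x, lap (fun z => u (Φ x z)) 0 / pullback ω (Φ x) 0 ∂μ = 0 := by
  obtain ⟨B, hB⟩ := hb
  obtain ⟨K, hKc, hKd, hK0⟩ := hK
  obtain ⟨C, hC⟩ := hC
  have hz0 : (0 : ℂ) ∈ ball (0 : ℂ) 1 := mem_ball_self one_pos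
  have h := global_test ω hhyp (fun x₀ hx₀ => flowbox_test ω hc hhyp hx₀) u K (max B C) hu hKc
    hKd hK0 (fun x => (hB x).trans (le_max_left _ _)) (fun φ hφ => by
      obtain ⟨h1, h2, h3⟩ := hC φ hφ
      have hp : 0 < pullback ω φ 0 := pullback_pos ω (hφ.immersion 0 hz0)
      refine ⟨h1, h2.trans ?_, h3.trans ?_⟩ <;>
        exact mul_le_mul_of_nonneg_right (le_max_right _ _) hp.le)
  rw [← h.2]
  refine integral_congr_ae ?_
  filter_upwards [hhyp] with x hx
  obtain ⟨h1, h2⟩ := hΦ x hx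
  have h3 := leafLap_eq ω h1 (w := u) (((hC _ h1).1).contDiffAt (isOpen_ball.mem_nhds hz0))
  rw [h2] at h3
  exact h3.symm

end Pool.Agent.Helper684.Ergo
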