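import Pool.Agent.Helper684.Ergo.Fin2
import Pool.Agent.Helper684.Ergo.Test
import Pool.Agent.Helper529.Cov.C19

/-!
The geometric ergodic theorem.
-/

set_option autoImplicit false

open scoped Manifold ENNReal ComplexConjugate
open Metric MeasureTheory ProbabilityTheory Set Filter Topology
open Pool.Agent.Helper240.Nev

namespace Pool.Agent.Helper684.Ergo

theorem nev_gen {g k : ℂ → ℝ} (hg : ContinuousOn g (ball 0 1))
    (hk : ∀ ξ ∈ ball (0 : ℂ) 1, k ξ = g ξ * (1 - ‖ξ‖ ^ 2) ^ 2) {r : ℝ} (hr : 0 < r)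
    (hr1 : r < 1) :
    Integrable (fun ξ => gK (r ^ 2) (hh 0 ξ) * k ξ) hypVol ∧
    ∫ t in (0 : ℝ)..r, (∫ ξ in ball (0 : ℂ) t, g ξ) / t =
      1 / 2 * ∫ ξ, gK (r ^ 2) (hh 0 ξ) * k ξ ∂hypVol := by
  obtain ⟨h1, h2⟩ := nev_fubini hg hr hr1
  have h3 : (fun ξ => gK (r ^ 2) (hh 0 ξ) * (g ξ * (1 - ‖ξ‖ ^ 2) ^ 2)) =ᵐ[hypVol]
      fun ξ => gK (r ^ 2) (hh 0 ξ) * k ξ := by
    filter_upwards [cc5] with ξ hξ
    rw [hk ξ hξ]
  exact ⟨h1.congr h3, by rw [h2, integral_congr_ae h3]⟩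

variable {E M : Type*} [NormedAddCommGroup E] [NormedSpace ℂ E] [TopologicalSpace M]
  [ChartedSpace E M] [IsManifold 𝓘(ℂ, E) 1 M] [MeasurableSpace M]

/-- the limit of the Green integrals of an integrable function with locally bounded
restrictions to the leaves -/
theorem lim_real {F : Foliation E M} {Φ : M → ℂ → M}
    (hΦ : Measurable fun p : M × ℂ => Φ p.1 p.2)
    (hcov : ∀ x, (∃ φ : ℂ → M, F.IsUniversalCovering φ ∧ φ 0 = x) →
      F.IsUniversalCovering (Φ x) ∧ Φ x 0 = x)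
    (m : Measure M) [IsFiniteMeasure m] (hm0 : m univ ≠ 0)
    (hhyp : ∀ᵐ x ∂m, ∃ φ : ℂ → M, F.IsUniversalCovering φ ∧ φ 0 = x)
    (hinv : m.bind (avg Φ hΦ) = m)
    (herg : ∀ A : Set M, MeasurableSet A →
      (∀ᵐ x ∂m, avg Φ hΦ x A = A.indicator (fun _ => (1 : ℝ≥0∞)) x) → m A = 0 ∨ m Aᶜ = 0)
    {k : M → ℝ} (hk : Measurable k) (hki : Integrable k m)
    {G : (ℂ → M) → ℂ → ℝ}
    (hG : ∀ φ : ℂ → M, F.IsUniversalCovering φ → ContinuousOn (G φ) (ball 0 1) ∧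
      ∀ ξ ∈ ball (0 : ℂ) 1, k (φ ξ) = G φ ξ * (1 - ‖ξ‖ ^ 2) ^ 2) :
    ∀ᵐ a ∂m, ∀ φ : ℂ → M, F.IsUniversalCovering φ → φ 0 = a →
      Tendsto (fun r : ℝ => (∫ ξ, gK (r ^ 2) (hh 0 ξ) * k (φ ξ) ∂hypVol) /
        (- Real.log (1 - r ^ 2))) (𝓝[<] 1)
        (𝓝 (Real.pi * (∫ x, k x ∂m) / (m univ).toReal)) := by
  have hkc : ∀ φ : ℂ → M, F.IsUniversalCovering φ →
      ContinuousOn (fun ξ => k (φ ξ)) (ball 0 1) := by
    intro φ hφ
    obtain ⟨h1, h2⟩ := hG φ hφ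
    have h3 : ContinuousOn (fun ξ : ℂ => G φ ξ * (1 - ‖ξ‖ ^ 2) ^ 2) (ball 0 1) :=
      h1.mul (by fun_prop)
    exact h3.congr fun ξ hξ => h2 ξ hξ
  have hl1 : ∀ᵐ x ∂m, ∫⁻ w, ENNReal.ofReal (lK (hh 0 w)) * ENNReal.ofReal (k (Φ x w)) ∂hypVol
      < ⊤ := by
    filter_upwards [hhyp] with x hx
    exact lintegral_lK_lt_top (hkc _ (hcov x hx).1)
  have hl2 : ∀ᵐ x ∂m, ∫⁻ w, ENNReal.ofReal (lK (hh 0 w)) * ENNReal.ofReal (- k (Φ x w)) ∂hypVol
      < ⊤ := by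
    filter_upwards [hhyp] with x hx
    exact lintegral_lK_lt_top (hkc _ (hcov x hx).1).neg
  have hf1 : ∫⁻ x, ENNReal.ofReal (k x) ∂m < ⊤ := hki.lintegral_lt_top
  have hf2 : ∫⁻ x, ENNReal.ofReal (- k x) ∂m < ⊤ := hki.neg.lintegral_lt_top
  filter_upwards [hhyp,
    green_radial hΦ hcov m hm0 hhyp hinv herg (fun x => ENNReal.ofReal (k x)) hk.ennreal_ofReal
      hf1 hl1,
    green_radial hΦ hcov m hm0 hhyp hinv herg (fun x => ENNReal.ofReal (- k x))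
      hk.neg.ennreal_ofReal hf2 hl2] with a ha h1 h2
  intro φ hφ hφ0
  obtain ⟨hU, hU0⟩ := hcov a ha
  obtain ⟨c, hc, hcz⟩ := universalCovering_unique hU hφ (hU0.trans hφ0.symm)
  have hint : ∫ x, k x ∂m = (∫⁻ x, ENNReal.ofReal (k x) ∂m).toReal -
      (∫⁻ x, ENNReal.ofReal (- k x) ∂m).toReal :=
    integral_eq_lintegral_pos_part_sub_lintegral_neg_part hki
  have hlim := h1.sub h2
  have e1 : Real.pi * (∫ x, k x ∂m) / (m univ).toReal =
      Real.pi * (∫⁻ x, ENNReal.ofReal (k x) ∂m).toReal / (m univ).toReal -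
      Real.pi * (∫⁻ x, ENNReal.ofReal (- k x) ∂m).toReal / (m univ).toReal := by
    rw [hint]; ring
  rw [e1]
  refine hlim.congr' ?_
  have hev : ∀ᶠ r : ℝ in 𝓝[<] 1, 0 < r ∧ r < 1 := by
    filter_upwards [Ioo_mem_nhdsLT (show (0 : ℝ) < 1 by norm_num)] with r hr
    exact ⟨hr.1, hr.2⟩
  filter_upwards [hev] with r hr
  have hi := (nev_gen (k := fun ξ => k (φ ξ)) (hG φ hφ).1 (hG φ hφ).2 hr.1 hr.2).1
  rw [integral_gK_eq hi, ← sub_div]
  have hΦa : Measurable (Φ a) := hΦ.comp measurable_prodMk_left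
  have e2 := lintegral_gK_rot hc hcz (r ^ 2) (fun x => ENNReal.ofReal (k x)) hk.ennreal_ofReal hΦa
  have e3 := lintegral_gK_rot hc hcz (r ^ 2) (fun x => ENNReal.ofReal (- k x))
    hk.neg.ennreal_ofReal hΦa
  rw [e2, e3]

/-- **Geometric ergodic theorem.** -/
theorem geometric_ergodic [FiniteDimensional ℂ E] [T2Space M] [CompactSpace M] [BorelSpace M]
    (ω : PosForm E M) (F : SingularFoliation E M) (μ : Measure M) [IsProbabilityMeasure μ]
    (hT : IsDirectedHarmonic ω F.toFoliation μ) (hext : IsExtremal ω F.toFoliation μ)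
    (hhyp : ∀ᵐ a ∂μ, IsHyperbolic F.toFoliation a) :
    ∀ᵐ a ∂μ, ∀ φ : ℂ → M, F.toFoliation.IsUniversalCovering φ → φ 0 = a →
      ∀ θ : Form11 E M, Tendsto (nevanlinna ω θ φ) (𝓝[<] 1)
        (𝓝 (pairing ω F.toFoliation μ θ)) := by
  have hcs : CompleteSpace E := FiniteDimensional.complete ℂ E
  have hz0 : (0 : ℂ) ∈ ball (0 : ℂ) 1 := mem_ball_self one_pos
  obtain ⟨Φ, hΦm, hΦc, hΦcov⟩ :=
    Pool.Agent.Helper529.Cov.exists_measurable_coverings (E := E) F.toFoliation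
  have hFam : Pool.Agent.Helper529.Har.Fam F.toFoliation Φ := ⟨hΦm, hΦc, hΦcov⟩
  obtain ⟨den, hdm, hden⟩ := Pool.Agent.Helper529.Har.exists_den ω hFam
  have htest := global_test ω hhyp (fun x₀ hx₀ => flowbox_test ω hT.closed hhyp hx₀)
  obtain ⟨hfin, hinv, herg'⟩ :=
    Pool.Agent.Helper529.Har.poincare_measure F ω hFam hhyp htest hdm hden
  have herg := herg' hT hext
  clear herg' htest
  set m : Measure M := Pool.Agent.Helper529.Har.poin μ den with hm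
  have hmdef : m = μ.withDensity (fun x => ENNReal.ofReal (1 / den x)) := rfl
  have hdm1 : Measurable fun x => ENNReal.ofReal (1 / den x) :=
    (measurable_const.div hdm).ennreal_ofReal
  -- positivity of the density
  have hdpos : ∀ x, IsHyperbolic F.toFoliation x → 0 < den x := by
    rintro x ⟨φ, hφ, rfl⟩
    rw [hden φ hφ]
    exact pullback_pos ω (hφ.immersion 0 hz0)
  have hhm : ∀ᵐ x ∂m, IsHyperbolic F.toFoliation x :=
    (withDensity_absolutelyContinuous μ _).ae_le hhyp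
  -- `μ` is absolutely continuous with respect to `m`
  have haem : ∀ {P : M → Prop}, (∀ᵐ x ∂m, P x) → ∀ᵐ x ∂μ, P x := by
    intro P hP
    rw [hmdef, ae_withDensity_iff hdm1] at hP
    filter_upwards [hP, hhyp] with x hx hx2
    refine hx ?_
    have := hdpos x hx2
    exact (ENNReal.ofReal_pos.2 (by positivity)).ne'
  -- integrals with respect to `m`
  have hintm : ∀ g : M → ℝ, ∫ x, g x ∂m = ∫ x, (1 / den x) * g x ∂μ := by
    intro g
    rw [hmdef, integral_withDensity_eq_integral_toReal_smul hdm1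
      (ae_of_all _ fun x => ENNReal.ofReal_lt_top)]
    refine integral_congr_ae ?_
    filter_upwards [hhyp] with x hx
    have := hdpos x hx
    rw [ENNReal.toReal_ofReal (by positivity), smul_eq_mul]
  have hdl : ∫⁻ x, ENNReal.ofReal (den x) ∂m = 1 := by
    rw [hmdef, lintegral_withDensity_eq_lintegral_mul _ hdm1 hdm.ennreal_ofReal]
    have : ∫⁻ x, 1 ∂μ = (1 : ℝ≥0∞) := by rw [lintegral_one, measure_univ]
    rw [← this]
    refine lintegral_congr_ae ?_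
    filter_upwards [hhyp] with x hx
    have := hdpos x hx
    rw [Pi.mul_apply, ← ENNReal.ofReal_mul (by positivity), one_div_mul_cancel this.ne',
      ENNReal.ofReal_one]
  have hdi : Integrable den m := by
    refine ⟨hdm.aestronglyMeasurable, ?_⟩
    rw [hasFiniteIntegral_iff_norm]
    have : ∫⁻ x, ENNReal.ofReal ‖den x‖ ∂m = ∫⁻ x, ENNReal.ofReal (den x) ∂m := by
      refine lintegral_congr_ae ?_
      filter_upwards [hhm] with x hx
      rw [Real.norm_eq_abs, abs_of_pos (hdpos x hx)]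
    rw [this, hdl]
    exact ENNReal.one_lt_top
  have hd1 : ∫ x, den x ∂m = 1 := by
    rw [integral_eq_lintegral_of_nonneg_ae _ hdm.aestronglyMeasurable, hdl, ENNReal.toReal_one]
    filter_upwards [hhm] with x hx
    exact (hdpos x hx).le
  have hm0 : m univ ≠ 0 := by
    intro h0
    rw [Measure.measure_univ_eq_zero] at h0
    rw [h0] at hdl
    simp at hdl
  have hmu : 0 < (m univ).toReal := ENNReal.toReal_pos hm0 (measure_ne_top m univ)
  -- the densities of the forms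
  choose h hhmeas hhφ using fun θ : Form11 E M => exists_hfun ω hFam θ
  have hcont : ∀ (θ : Form11 E M) (φ : ℂ → M), F.toFoliation.IsUniversalCovering φ →
      ContinuousOn (pull11 θ φ) (ball 0 1) := fun θ φ hφ =>
    continuousOn_pull11 ω θ (fun z hz => hφ.tangent.mdiffAt hz)
  have hcontω : ∀ (φ : ℂ → M), F.toFoliation.IsUniversalCovering φ →
      ContinuousOn (pullback ω φ) (ball 0 1) := fun φ hφ =>
    continuousOn_pullback ω (fun z hz => hφ.tangent.mdiffAt hz)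
  -- comparison of the forms
  have hcomp : ∀ (θ θ' : Form11 E M) (ε : ℝ), (∀ (x : M) (v : TangentSpace 𝓘(ℂ, E) x),
      |θ.form x v (J x v) - θ'.form x v (J x v)| ≤ ε * ω.form x v (J x v)) →
      ∀ φ : ℂ → M, F.toFoliation.IsUniversalCovering φ → ∀ ξ ∈ ball (0 : ℂ) 1,
        |h θ (φ ξ) - h θ' (φ ξ)| ≤ ε * den (φ ξ) := by
    intro θ θ' ε hε φ hφ ξ hξ
    rw [hhφ θ φ hφ ξ hξ, hhφ θ' φ hφ ξ hξ, den_cov ω hden hφ hξ, ← sub_mul, abs_mul,
      abs_of_nonneg (a := (1 - ‖ξ‖ ^ 2) ^ 2) (sq_nonneg (1 - ‖ξ‖ ^ 2)), ← mul_assoc, pull11_eq, pull11_eq, pullback_eq]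
    exact mul_le_mul_of_nonneg_right (hε _ _) (sq_nonneg _)
  have hbd : ∀ θ : Form11 E M, ∃ C : ℝ, ∀ x, IsHyperbolic F.toFoliation x →
      |h θ x| ≤ C * den x := by
    intro θ
    obtain ⟨C, -, hC⟩ := form_bdd ω θ
    refine ⟨C, ?_⟩
    rintro x ⟨φ, hφ, rfl⟩
    rw [hhφ θ φ hφ 0 hz0, den_cov ω hden hφ hz0, abs_mul,
      abs_of_nonneg (a := (1 - ‖(0 : ℂ)‖ ^ 2) ^ 2) (sq_nonneg (1 - ‖(0 : ℂ)‖ ^ 2)), ← mul_assoc, pull11_eq, pullback_eq]
    exact mul_le_mul_of_nonneg_right (hC _ _) (sq_nonneg _)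
  have hhi : ∀ θ : Form11 E M, Integrable (h θ) m := by
    intro θ
    obtain ⟨C, hC⟩ := hbd θ
    refine (hdi.const_mul C).mono' (hhmeas θ).aestronglyMeasurable ?_
    filter_upwards [hhm] with x hx
    rw [Real.norm_eq_abs]
    exact hC x hx
  -- the pairing
  have hpair : ∀ θ : Form11 E M, pairing ω F.toFoliation μ θ = ∫ x, h θ x ∂m := by
    intro θ
    rw [hintm]
    unfold pairing
    refine integral_congr_ae ?_
    filter_upwards [hhyp] with x hx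
    have hp := hdpos x hx
    obtain ⟨φ, hφ, rfl⟩ := hx
    rw [hhφ θ φ hφ 0 hz0, pull11_eq_leafQuot ω θ hφ.tangent hz0 (hφ.immersion 0 hz0),
      ← hden φ hφ]
    have : (1 - ‖(0 : ℂ)‖ ^ 2) ^ 2 = 1 := by simp
    rw [this, mul_one]
    field_simp
  -- the limits
  obtain ⟨D, hDc, hD⟩ := exists_countable_forms ω
  have hlimD : ∀ᵐ a ∂m, ∀ θ ∈ D, ∀ φ : ℂ → M, F.toFoliation.IsUniversalCovering φ → φ 0 = a →
      Tendsto (fun r : ℝ => (∫ ξ, gK (r ^ 2) (hh 0 ξ) * h θ (φ ξ) ∂hypVol) /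
        (- Real.log (1 - r ^ 2))) (𝓝[<] 1)
        (𝓝 (Real.pi * (∫ x, h θ x ∂m) / (m univ).toReal)) := by
    rw [ae_ball_iff hDc]
    intro θ _
    exact lim_real (G := fun φ => pull11 θ φ) hΦm hΦcov m hm0 hhm hinv herg (hhmeas θ) (hhi θ)
      (fun φ hφ => ⟨hcont θ φ hφ, hhφ θ φ hφ⟩)
  have hlimω : ∀ᵐ a ∂m, ∀ φ : ℂ → M, F.toFoliation.IsUniversalCovering φ → φ 0 = a →
      Tendsto (fun r : ℝ => (∫ ξ, gK (r ^ 2) (hh 0 ξ) * den (φ ξ) ∂hypVol) /
        (- Real.log (1 - r ^ 2))) (𝓝[<] 1)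
        (𝓝 (Real.pi * (∫ x, den x ∂m) / (m univ).toReal)) :=
    lim_real (G := fun φ => pullback ω φ) hΦm hΦcov m hm0 hhm hinv herg hdm hdi
      (fun φ hφ => ⟨hcontω φ hφ, fun ξ hξ => den_cov ω hden hφ hξ⟩)
  refine haem ?_
  filter_upwards [hlimD, hlimω] with a ha haω
  intro φ hφ hφ0 θ
  -- formulas for the Nevanlinna currents
  have hev : ∀ᶠ r : ℝ in 𝓝[<] 1, 0 < r ∧ r < 1 := by
    filter_upwards [Ioo_mem_nhdsLT (show (0 : ℝ) < 1 by norm_num)] with r hr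
    exact ⟨hr.1, hr.2⟩
  have hev2 : ∀ᶠ r : ℝ in 𝓝[<] 1, 0 < r ∧ r < 1 := hev
  have hI : ∀ (θ : Form11 E M) (r : ℝ), 0 < r → r < 1 →
      Integrable (fun ξ => gK (r ^ 2) (hh 0 ξ) * h θ (φ ξ)) hypVol := fun θ r hr hr1 =>
    (nev_gen (k := fun ξ => h θ (φ ξ)) (hcont θ φ hφ) (hhφ θ φ hφ) hr hr1).1
  have hIω : ∀ (r : ℝ), 0 < r → r < 1 →
      Integrable (fun ξ => gK (r ^ 2) (hh 0 ξ) * den (φ ξ)) hypVol := fun r hr hr1 =>
    (nev_gen (k := fun ξ => den (φ ξ)) (hcontω φ hφ)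
      (fun ξ hξ => den_cov ω hden hφ hξ) hr hr1).1
  have hnev : ∀ (θ : Form11 E M) (r : ℝ), 0 < r → r < 1 → nevanlinna ω θ φ r =
      (∫ ξ, gK (r ^ 2) (hh 0 ξ) * h θ (φ ξ) ∂hypVol) /
        (∫ ξ, gK (r ^ 2) (hh 0 ξ) * den (φ ξ) ∂hypVol) := by
    intro θ r hr hr1
    unfold nevanlinna charT
    rw [(nev_gen (k := fun ξ => h θ (φ ξ)) (hcont θ φ hφ) (hhφ θ φ hφ) hr hr1).2,
      (nev_gen (k := fun ξ => den (φ ξ)) (hcontω φ hφ)
      (fun ξ hξ => den_cov ω hden hφ hξ) hr hr1).2]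
    rw [mul_div_mul_left _ _ (by norm_num : (1 / 2 : ℝ) ≠ 0)]
  -- the limit for the forms of the countable family
  have hlim : ∀ θ ∈ D, Tendsto (nevanlinna ω θ φ) (𝓝[<] 1)
      (𝓝 (pairing ω F.toFoliation μ θ)) := by
    intro θ hθ
    have h1 := ha θ hθ φ hφ hφ0
    have h2 := haω φ hφ hφ0
    rw [hd1] at h2
    have hne : Real.pi * 1 / (m univ).toReal ≠ 0 := by
      have := Real.pi_pos
      positivity
    have h3 := h1.div h2 hne
    have e1 : Real.pi * (∫ x, h θ x ∂m) / (m univ).toReal / (Real.pi * 1 / (m univ).toReal) =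
        pairing ω F.toFoliation μ θ := by
      rw [hpair]
      have := Real.pi_pos
      field_simp
    rw [e1] at h3
    refine h3.congr' ?_
    filter_upwards [hev] with r hr
    rw [hnev θ r hr.1 hr.2]
    have hl : - Real.log (1 - r ^ 2) ≠ 0 := by
      have : Real.log (1 - r ^ 2) < 0 := Real.log_neg (by nlinarith [hr.1, hr.2]) (by
        nlinarith [hr.1, hr.2])
      exact (neg_pos.2 this).ne'
    exact div_div_div_cancel_right₀ hl _ _
  -- approximation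
  rw [Metric.tendsto_nhds]
  intro ε hε
  obtain ⟨θ', hθ', hθθ'⟩ := hD θ (ε / 4) (by positivity)
  have h1 := (Metric.tendsto_nhds.1 (hlim θ' hθ')) (ε / 4) (by positivity)
  have hp : |pairing ω F.toFoliation μ θ - pairing ω F.toFoliation μ θ'| ≤ ε / 4 := by
    rw [hpair, hpair, ← integral_sub (hhi θ) (hhi θ')]
    have h2 : ‖∫ x, (h θ x - h θ' x) ∂m‖ ≤ ∫ x, ε / 4 * den x ∂m := by
      refine norm_integral_le_of_norm_le (hdi.const_mul _) ?_
      filter_upwards [hhm] with x hx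
      obtain ⟨ψ, hψ, rfl⟩ := hx
      exact hcomp θ θ' (ε / 4) hθθ' ψ hψ 0 hz0
    rw [integral_const_mul, hd1, mul_one, Real.norm_eq_abs] at h2
    exact h2
  filter_upwards [h1, hev2] with r hr hr2
  have hn : |nevanlinna ω θ φ r - nevanlinna ω θ' φ r| ≤ ε / 4 := by
    rw [hnev θ r hr2.1 hr2.2, hnev θ' r hr2.1 hr2.2, ← sub_div,
      ← integral_sub (hI θ r hr2.1 hr2.2) (hI θ' r hr2.1 hr2.2)]
    have h2 : ‖∫ ξ, (gK (r ^ 2) (hh 0 ξ) * h θ (φ ξ) - gK (r ^ 2) (hh 0 ξ) * h θ' (φ ξ)) ∂hypVol‖ ≤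
        ∫ ξ, ε / 4 * (gK (r ^ 2) (hh 0 ξ) * den (φ ξ)) ∂hypVol := by
      refine norm_integral_le_of_norm_le ((hIω r hr2.1 hr2.2).const_mul _) ?_
      filter_upwards [cc5] with ξ hξ
      rw [← mul_sub, norm_mul, Real.norm_eq_abs, Real.norm_eq_abs, abs_of_nonneg (gK_nonneg _ _)]
      calc gK (r ^ 2) (hh 0 ξ) * |h θ (φ ξ) - h θ' (φ ξ)|
          ≤ gK (r ^ 2) (hh 0 ξ) * (ε / 4 * den (φ ξ)) :=
            mul_le_mul_of_nonneg_left (hcomp θ θ' (ε / 4) hθθ' φ hφ ξ hξ) (gK_nonneg _ _)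
        _ = ε / 4 * (gK (r ^ 2) (hh 0 ξ) * den (φ ξ)) := by ring
    rw [integral_const_mul, Real.norm_eq_abs] at h2
    set I := ∫ ξ, gK (r ^ 2) (hh 0 ξ) * den (φ ξ) ∂hypVol with hIdef
    have hI0 : 0 ≤ I := by
      refine integral_nonneg_of_ae ?_
      filter_upwards [cc5] with ξ hξ
      have h3 : 0 < den (φ ξ) := hdpos _ ⟨_, universalCovering_mob hφ hξ, by simp [mob]⟩
      exact mul_nonneg (gK_nonneg _ _) h3.le
    rw [abs_div, abs_of_nonneg hI0]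
    rcases hI0.eq_or_lt with h0 | h0
    · rw [← h0, div_zero]
      positivity
    · rw [div_le_iff₀ h0]
      exact h2
  rw [Real.dist_eq] at hr ⊢
  have h5 := abs_le.1 hn
  have h6 := abs_le.1 hp
  have h7 := abs_lt.1 hr
  rw [abs_lt]
  constructor <;> linarith [h5.1, h5.2, h6.1, h6.2, h7.1, h7.2]

end Pool.Agent.Helper684.Ergo
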