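import Pool.Agent.Helper684.Ergo.BoxHarm
import Pool.Agent.Helper684.Ergo.Plaque
import Pool.Agent.Helper684.Ergo.LeafTest
import Pool.Agent.Helper684.Ergo.M3
import Pool.Agent.Helper684.Ergo.Calc1
import Pool.Agent.Helper684.Ergo.Calc2

set_option autoImplicit false


open scoped Manifold
open Metric MeasureTheory Set Filter Topology
open Pool.Agent.Helper240.Nev

namespace Pool.Agent.Helper684.Ergo

variable {E M : Type*} [NormedAddCommGroup E] [NormedSpace ℂ E] [TopologicalSpace M]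
  [ChartedSpace E M] [IsManifold 𝓘(ℂ, E) 1 M]





theorem flowbox_aux_cont {F : Type*} [NormedAddCommGroup F] [NormedSpace ℝ F]
    {f : ℂ × F → ℝ} (hf : ContDiff ℝ ((⊤ : ℕ∞) : WithTop ℕ∞) f) :
    Continuous fun p : ℂ × F => lap (fun z => f (z, p.2)) p.1 := by
  have key : ∀ a : ℂ, Continuous fun p : ℂ × F =>
      fderiv ℝ (fun z => fderiv ℝ (fun z' => f (z', p.2)) z a) p.1 a := by
    intro a
    have h1 : ContDiff ℝ 1 (fun q : (ℂ × F) × ℂ => fderiv ℝ (fun z' => f (z', q.1.2)) q.2 a) := by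
      have h2 : ContDiff ℝ 1 (fun q : (ℂ × F) × ℂ => fderiv ℝ (fun z' => f (z', q.1.2)) q.2) := by
        refine ContDiff.fderiv (m := 2) (f := fun (q : (ℂ × F) × ℂ) z' => f (z', q.1.2)) ?_
          contDiff_snd (by norm_num)
        have h0 : ((2 : ℕ∞) : WithTop ℕ∞) ≤ ((⊤ : ℕ∞) : WithTop ℕ∞) := WithTop.coe_le_coe.2 le_top
        exact (hf.of_le h0).comp
          (contDiff_snd.prodMk (contDiff_snd.comp (contDiff_fst.comp contDiff_fst)))
      exact h2.clm_apply contDiff_const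
    have h3 : ContDiff ℝ 0 (fun p : ℂ × F =>
        fderiv ℝ (fun z => fderiv ℝ (fun z' => f (z', p.2)) z a) p.1) :=
      ContDiff.fderiv (m := 1)
        (f := fun (p : ℂ × F) z => fderiv ℝ (fun z' => f (z', p.2)) z a) h1
        contDiff_fst (by norm_num)
    exact (h3.clm_apply contDiff_const).continuous
  exact (key 1).add (key Complex.I)

theorem lap_zero' (z : ℂ) : lap (fun _ => (0 : ℝ)) z = 0 := by
  simp [lap]

theorem leafLap_of_not (ω : PosForm E M) {F : Foliation E M} {w : M → ℝ} {x : M}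
    (h : ¬ ∃ φ : ℂ → M, F.IsUniversalCovering φ ∧ φ 0 = x) : leafLap ω F w x = 0 := by
  unfold leafLap
  rw [dif_neg h]

/-- Localised test lemma: a `dd^c`-closed directed current annihilates the leafwise Laplacians of
the Borel functions supported in a compact subset of a flow box, of class `C²` along the
leaves. -/
theorem flowbox_test [FiniteDimensional ℂ E] [T2Space M] [MeasurableSpace M] [BorelSpace M]
    (ω : PosForm E M) {F : Foliation E M} {μ : Measure M} [IsFiniteMeasure μ]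
    (hc : IsDdcClosed ω F μ)
    (hhyp : ∀ᵐ x ∂μ, ∃ φ : ℂ → M, F.IsUniversalCovering φ ∧ φ 0 = x)
    {x₀ : M} (hx₀ : x₀ ∉ F.sing) :
    ∃ U : Set M, IsOpen U ∧ x₀ ∈ U ∧ ∀ (w : M → ℝ) (K : Set M) (B : ℝ), Measurable w →
      IsCompact K → K ⊆ U → (∀ x ∉ K, w x = 0) → (∀ x, |w x| ≤ B) →
      (∀ φ : ℂ → M, F.IsUniversalCovering φ → ContDiffOn ℝ 2 (fun z => w (φ z)) (ball 0 1) ∧
        |lap (fun z => w (φ z)) 0| ≤ B * pullback ω φ 0) →
      Integrable (leafLap ω F w) μ ∧ ∫ x, leafLap ω F w x ∂μ = 0 := by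
  classical
  obtain ⟨b, hxb⟩ := exists_box hx₀
  refine ⟨b.U, b.isOpen_U, hxb, ?_⟩
  intro w K B hw hK hKU hwK hB hcov
  letI : MeasurableSpace b.T := borel b.T
  haveI : BorelSpace b.T := ⟨rfl⟩
  obtain ⟨a, A, ha, hQ⟩ := b.Q_bounds ω
  have hUm : MeasurableSet b.U := b.isOpen_U.measurableSet
  have hUsrc : b.U ⊆ b.e.source := inter_subset_left
  have hUO : ∀ x ∈ b.U, b.coord x ∈ b.O := fun x hx => hx.2
  have hOo : IsOpen b.O := isOpen_ball.prod isOpen_ball
  have hOm : MeasurableSet b.O := hOo.measurableSet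
  have hptc : ∀ x ∈ b.U, b.pt (b.coord x) = x := fun x hx => b.pt_coord hx.1
  -- measurable versions
  obtain ⟨c, hcdef⟩ : ∃ c : M → ℂ × b.T, c = b.U.piecewise b.coord (fun _ => 0) := ⟨_, rfl⟩
  have hcm : Measurable c := by
    rw [hcdef]
    exact ContinuousOn.measurable_piecewise (b.continuousOn_coord.mono hUsrc)
      continuousOn_const hUm
  have hcU : ∀ x ∈ b.U, c x = b.coord x := fun x hx => by
    rw [hcdef]; exact piecewise_eq_of_mem _ _ _ hx
  obtain ⟨q, hqdef⟩ : ∃ q : M → ℝ, q = b.U.piecewise (fun x => b.Q ω (b.coord x)) (fun _ => 1) :=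
    ⟨_, rfl⟩
  have hqm : Measurable q := by
    rw [hqdef]
    refine ContinuousOn.measurable_piecewise ?_ continuousOn_const hUm
    exact (b.continuousOn_Q ω).comp (b.continuousOn_coord.mono hUsrc)
      fun x hx => b.O_subset (hUO x hx)
  have hqU : ∀ x ∈ b.U, q x = b.Q ω (b.coord x) := fun x hx => by
    rw [hqdef]; exact piecewise_eq_of_mem _ _ _ hx
  have hqa : ∀ x ∈ b.U, a ≤ q x := fun x hx => by
    rw [hqU x hx]; exact (hQ _ (b.O_subset (hUO x hx))).1
  obtain ⟨d, hddef⟩ : ∃ d : M → ENNReal, d = fun x => ENNReal.ofReal (1 / q x) := ⟨_, rfl⟩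
  have hdm : Measurable d := by
    rw [hddef]
    exact (measurable_const.div hqm).ennreal_ofReal
  have hdlt : ∀ᵐ x ∂(μ.restrict b.U), d x < ⊤ := by
    refine Filter.Eventually.of_forall fun x => ?_
    rw [hddef]
    exact ENNReal.ofReal_lt_top
  obtain ⟨lam, hlam⟩ : ∃ lam : Measure M, lam = (μ.restrict b.U).withDensity d := ⟨_, rfl⟩
  have hlamU : lam b.Uᶜ = 0 := by
    rw [hlam]
    refine withDensity_absolutelyContinuous _ _ ?_
    rw [Measure.restrict_apply hUm.compl, compl_inter_self, measure_empty]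
  have hlamac : ∀ s : Set M, μ s = 0 → lam s = 0 := by
    intro s hs
    rw [hlam]
    exact withDensity_absolutelyContinuous _ _ (Measure.absolutelyContinuous_restrict hs)
  haveI : IsFiniteMeasure lam := by
    rw [hlam]
    refine isFiniteMeasure_withDensity (ne_of_lt ?_)
    calc ∫⁻ x in b.U, d x ∂μ ≤ ∫⁻ _ in b.U, ENNReal.ofReal (1 / a) ∂μ := by
          refine setLIntegral_mono' hUm fun x hx => ?_
          rw [hddef]
          exact ENNReal.ofReal_le_ofReal (one_div_le_one_div_of_le ha (hqa x hx))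
      _ < ⊤ := by
          rw [setLIntegral_const]
          exact ENNReal.mul_lt_top ENNReal.ofReal_lt_top (measure_lt_top _ _)
  obtain ⟨ν, hνdef⟩ : ∃ ν : Measure (ℂ × b.T), ν = lam.map c := ⟨_, rfl⟩
  haveI : IsFiniteMeasure ν := by rw [hνdef]; infer_instance
  -- transport of integrals
  have htr : ∀ g : ℂ × b.T → ℝ, AEStronglyMeasurable g ν →
      ∫ p, g p ∂ν = ∫ x in b.U, g (b.coord x) / b.Q ω (b.coord x) ∂μ := by
    intro g hg
    rw [hνdef] at hg ⊢
    rw [integral_map hcm.aemeasurable hg, hlam,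
      integral_withDensity_eq_integral_toReal_smul hdm hdlt]
    refine setIntegral_congr_fun hUm fun x hx => ?_
    have hq0 : 0 < q x := lt_of_lt_of_le ha (hqa x hx)
    show (d x).toReal • g (c x) = _
    rw [hddef, ENNReal.toReal_ofReal (by positivity), hcU x hx, hqU x hx, smul_eq_mul]
    ring
  have hOc : ν b.Oᶜ = 0 := by
    rw [hνdef, Measure.map_apply hcm hOm.compl]
    refine measure_mono_null ?_ hlamU
    intro x hx hxU
    exact hx (by rw [hcU x hxU]; exact hUO x hxU)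
  have hBnn : 0 ≤ B := (abs_nonneg _).trans (hB x₀)
  have hA : 0 < A := lt_of_lt_of_le ha (by
    have := hQ (b.coord x₀) (b.O_subset (hUO x₀ hxb))
    exact this.1.trans this.2)
  -- the function in the box
  obtain ⟨wt, hwt⟩ : ∃ wt : ℂ × b.T → ℝ, wt = b.O.indicator (fun p => w (b.pt p)) := ⟨_, rfl⟩
  have hwtO : ∀ p ∈ b.O, wt p = w (b.pt p) := fun p hp => by
    rw [hwt]; exact indicator_of_mem hp _
  have hptm : Measurable (b.O.piecewise b.pt (fun _ => x₀)) :=
    ContinuousOn.measurable_piecewise (b.continuousOn_pt.mono b.O_subset)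
      continuousOn_const hOm
  have hwtm : Measurable wt := by
    have h1 : wt = b.O.indicator (fun p => w (b.O.piecewise b.pt (fun _ => x₀) p)) := by
      rw [hwt]
      refine indicator_congr fun p hp => ?_
      rw [piecewise_eq_of_mem _ _ _ hp]
    rw [h1]
    exact (hw.comp hptm).indicator hOm
  have hKc : IsCompact (b.coord '' K) := hK.image_of_continuousOn
    (b.continuousOn_coord.mono (hKU.trans hUsrc))
  have hKO : b.coord '' K ⊆ b.O := by
    rintro _ ⟨x, hx, rfl⟩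
    exact hUO x (hKU hx)
  have hwtK : ∀ p ∉ b.coord '' K, wt p = 0 := by
    intro p hp
    by_cases hpO : p ∈ b.O
    · rw [hwtO p hpO]
      refine hwK _ fun hk => hp ⟨_, hk, b.coord_pt (b.O_subset hpO)⟩
    · rw [hwt]; exact indicator_of_notMem hpO _
  have hloc0 : ∀ p : ℂ × b.T, p ∉ b.O →
      (fun z => wt (z, p.2)) =ᶠ[𝓝 p.1] fun _ => 0 := by
    intro p hp
    have h1 : (b.coord '' K)ᶜ ∈ 𝓝 p := hKc.isClosed.isOpen_compl.mem_nhds fun h => hp (hKO h)
    have h2 : Tendsto (fun z : ℂ => (z, p.2)) (𝓝 p.1) (𝓝 p) :=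
      (Continuous.prodMk_left p.2).tendsto p.1
    filter_upwards [h2 h1] with z hz
    exact hwtK _ hz
  have hlocO : ∀ p ∈ b.O, (fun z => wt (z, p.2)) =ᶠ[𝓝 p.1] fun z => w (b.pt (z, p.2)) := by
    intro p hp
    have h2 : Tendsto (fun z : ℂ => (z, p.2)) (𝓝 p.1) (𝓝 p) :=
      (Continuous.prodMk_left p.2).tendsto p.1
    filter_upwards [h2 (hOo.mem_nhds hp)] with z hz
    exact hwtO _ hz
  have hleafB : ∀ x : M, |leafLap ω F w x| ≤ B := by
    intro x
    by_cases hx : ∃ φ : ℂ → M, F.IsUniversalCovering φ ∧ φ 0 = x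
    · obtain ⟨φ, hφ, rfl⟩ := hx
      have hz0 : (0 : ℂ) ∈ ball (0 : ℂ) 1 := mem_ball_self one_pos
      have hp := pullback_pos ω (hφ.immersion 0 hz0)
      rw [leafLap_eq ω hφ ((hcov φ hφ).1.contDiffAt (isOpen_ball.mem_nhds hz0)), abs_div,
        abs_of_pos hp, div_le_iff₀ hp]
      exact (hcov φ hφ).2
    · rw [leafLap_of_not ω hx, abs_zero]
      exact hBnn
  have hsmw : ∀ φ : ℂ → M, F.IsUniversalCovering φ →
      ContDiffOn ℝ 2 (fun z => w (φ z)) (ball 0 1) := fun φ hφ => (hcov φ hφ).1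
  let T : Set b.T := {t | t ∈ ball (0 : b.T) b.R ∧ ∃ z₁ ∈ ball (0 : ℂ) b.R,
    ∃ φ : ℂ → M, F.IsUniversalCovering φ ∧ φ 0 = b.pt (z₁, t)}
  have hTae : ∀ᵐ p ∂ν, p.2 ∈ T := by
    obtain ⟨N, hN⟩ : ∃ N : Set M, N = toMeasurable μ
      {x | ¬ ∃ φ : ℂ → M, F.IsUniversalCovering φ ∧ φ 0 = x} := ⟨_, rfl⟩
    have hNm : MeasurableSet N := by rw [hN]; exact measurableSet_toMeasurable _ _
    have hN0 : μ N = 0 := by
      rw [hN, measure_toMeasurable]
      exact hhyp
    have hGm : MeasurableSet (b.O ∩ (b.O.piecewise b.pt (fun _ => x₀)) ⁻¹' Nᶜ) :=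
      hOm.inter (hptm hNm.compl)
    have hG : ν (b.O ∩ (b.O.piecewise b.pt (fun _ => x₀)) ⁻¹' Nᶜ)ᶜ = 0 := by
      rw [hνdef, Measure.map_apply hcm hGm.compl]
      refine measure_mono_null (t := N ∪ b.Uᶜ) ?_ (measure_union_null (hlamac N hN0) hlamU)
      intro x hx
      by_cases hxU : x ∈ b.U
      · left
        by_contra hxN
        apply hx
        rw [hcU x hxU]
        refine ⟨hUO x hxU, ?_⟩
        show b.O.piecewise b.pt (fun _ => x₀) (b.coord x) ∈ Nᶜ
        rw [piecewise_eq_of_mem _ _ _ (hUO x hxU), hptc x hxU]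
        exact hxN
      · exact Or.inr hxU
    filter_upwards [compl_mem_ae_iff.2 hG] with p hp
    rw [compl_compl] at hp
    obtain ⟨hp1, hp2⟩ := hp
    have hp3 : b.pt p ∉ N := by
      have h1 : b.O.piecewise b.pt (fun _ => x₀) p ∈ Nᶜ := hp2
      rwa [piecewise_eq_of_mem _ _ _ hp1] at h1
    have hp4 : ∃ φ : ℂ → M, F.IsUniversalCovering φ ∧ φ 0 = b.pt p := by
      by_contra hcon
      exact hp3 (hN ▸ subset_toMeasurable μ _ hcon)
    exact ⟨hp1.2, p.1, hp1.1, hp4⟩
  have htest := leaf_test (F := b.T) ν b.R_pos hOc (by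
      intro f hf hfc hfO
      have h1 := flowbox_aux_cont hf
      rw [htr _ h1.measurable.aestronglyMeasurable]
      exact box_harmonic ω hc b hf hfc hfO)
    wt hwtm hKc hKO hwtK (B := max B (B * A)) (by
      intro p
      refine le_trans ?_ (le_max_left _ _)
      by_cases hp : p ∈ b.O
      · rw [hwtO p hp]; exact hB _
      · rw [hwt, indicator_of_notMem hp, abs_zero]; exact hBnn) T hTae (by
      rintro t ⟨ht, z₁, hz₁, hh⟩
      have h1 := (plaque_smooth ω b hsmw ht hz₁ hh).1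
      rw [contDiff_iff_contDiffAt]
      intro z
      by_cases hz : z ∈ ball (0 : ℂ) b.R
      · exact (h1.contDiffAt (isOpen_ball.mem_nhds hz)).congr_of_eventuallyEq
          (hlocO (z, t) ⟨hz, ht⟩)
      · exact contDiffAt_const.congr_of_eventuallyEq (hloc0 (z, t) fun h => hz h.1)) (by
      rintro t ⟨ht, z₁, hz₁, hh⟩ z
      have h1 := (plaque_smooth ω b hsmw ht hz₁ hh).2
      by_cases hz : z ∈ ball (0 : ℂ) b.R
      · refine le_trans ?_ (le_max_right _ _)
        rw [lap_congr (hlocO (z, t) ⟨hz, ht⟩), (h1 z hz).2, abs_mul]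
        have h2 := hQ (z, t) (b.O_subset ⟨hz, ht⟩)
        rw [abs_of_pos (lt_of_lt_of_le ha h2.1)]
        exact mul_le_mul (hleafB _) h2.2 (ha.le.trans h2.1) hBnn
      · refine le_trans ?_ (le_max_left _ _)
        rw [lap_congr (hloc0 (z, t) fun h => hz h.1), lap_zero', abs_zero]
        exact hBnn)
  obtain ⟨hint, hzero⟩ := htest
  -- comparison
  have hcmp : ∀ᵐ x ∂(μ.restrict b.U), (d x).toReal • (fun p : ℂ × b.T =>
      lap (fun z => wt (z, p.2)) p.1) (c x) = leafLap ω F w x := by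
    filter_upwards [ae_restrict_mem hUm, ae_restrict_of_ae hhyp] with x hx hxh
    have hq0 : 0 < q x := lt_of_lt_of_le ha (hqa x hx)
    have hO1 := hUO x hx
    have h1 := (plaque_smooth ω b hsmw hO1.2 hO1.1 (by
      obtain ⟨φ, hφ, hφx⟩ := hxh
      refine ⟨φ, hφ, ?_⟩
      rw [hφx]
      exact (hptc x hx).symm)).2 (b.coord x).1 hO1.1
    show (d x).toReal • lap (fun z => wt (z, (c x).2)) (c x).1 = leafLap ω F w x
    rw [hddef, ENNReal.toReal_ofReal (by positivity), hcU x hx, lap_congr (hlocO _ hO1), h1.2,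
      smul_eq_mul, hqU x hx]
    have h2 : b.pt ((b.coord x).1, (b.coord x).2) = x := hptc x hx
    have h3 : b.Q ω ((b.coord x).1, (b.coord x).2) = b.Q ω (b.coord x) := rfl
    rw [h2, h3]
    rw [hqU x hx] at hq0
    field_simp
  have hsupp : Function.support (leafLap ω F w) ⊆ b.U := by
    intro x hx
    by_contra hxU
    apply hx
    by_cases hxh : ∃ φ : ℂ → M, F.IsUniversalCovering φ ∧ φ 0 = x
    · obtain ⟨φ, hφ, rfl⟩ := hxh
      have hz0 : (0 : ℂ) ∈ ball (0 : ℂ) 1 := mem_ball_self one_pos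
      rw [leafLap_eq ω hφ ((hcov φ hφ).1.contDiffAt (isOpen_ball.mem_nhds hz0))]
      have h1 : (fun z => w (φ z)) =ᶠ[𝓝 0] fun _ => 0 := by
        have h2 : Kᶜ ∈ 𝓝 (φ 0) := hK.isClosed.isOpen_compl.mem_nhds fun h => hxU (hKU h)
        filter_upwards [(hφ.tangent.contAt hz0) h2] with z hz
        exact hwK _ hz
      rw [lap_congr h1, lap_zero', zero_div]
    · exact leafLap_of_not ω hxh
  have hint2 : IntegrableOn (leafLap ω F w) b.U μ := by
    have h1 : Integrable ((fun p : ℂ × b.T => lap (fun z => wt (z, p.2)) p.1) ∘ c) lam := by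
      rw [hνdef] at hint
      exact (integrable_map_measure hint.aestronglyMeasurable hcm.aemeasurable).1 hint
    rw [hlam] at h1
    have h2 := (integrable_withDensity_iff_integrable_smul' hdm hdlt).1 h1
    exact h2.congr hcmp
  refine ⟨(integrableOn_iff_integrable_of_support_subset hsupp).1 hint2, ?_⟩
  have h1 : ∫ x, leafLap ω F w x ∂μ = ∫ x in b.U, leafLap ω F w x ∂μ := by
    refine (setIntegral_eq_integral_of_forall_compl_eq_zero fun x hx => ?_).symm
    by_contra h
    exact hx (hsupp h)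
  rw [h1, ← integral_congr_ae hcmp]
  have h2 : ∫ p, lap (fun z => wt (z, p.2)) p.1 ∂ν =
      ∫ x in b.U, (d x).toReal • (fun p : ℂ × b.T =>
        lap (fun z => wt (z, p.2)) p.1) (c x) ∂μ := by
    rw [hνdef] at hint ⊢
    rw [integral_map hcm.aemeasurable hint.aestronglyMeasurable, hlam,
      integral_withDensity_eq_integral_toReal_smul hdm hdlt]
  rw [← h2, hzero]

end Pool.Agent.Helper684.Ergo
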