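import Pool.Agent.Helper684.Ergo.Hyp
set_option autoImplicit false

open MeasureTheory Metric Set Filter Topology
open scoped ComplexConjugate ENNReal

namespace Pool.Agent.Helper684.Ergo











lemma ang17 {r : ℝ} (hr : 0 < r) (hr1 : r < 1) {w : ℂ} (hw : ‖w‖ < 1) :
    ∫ θ in (0:ℝ)..(2 * Real.pi), (‖1 - conj (circleMap 0 r θ) * w‖ ^ 4)⁻¹ =
      2 * Real.pi * ((1 + r ^ 2 * ‖w‖ ^ 2) / (1 - r ^ 2 * ‖w‖ ^ 2) ^ 3) := by
  set a : ℂ := conj w with ha
  have han : ‖a‖ = ‖w‖ := by simp [ha]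
  have hne : ∀ u ∈ ball (0:ℂ) 1, 1 - u * a ≠ 0 := by
    intro u hu h0
    have h1 : u * a = 1 := (sub_eq_zero.1 h0).symm
    have h2 : ‖u * a‖ < 1 := by
      rw [norm_mul, han]
      have : ‖u‖ < 1 := by simpa using hu
      nlinarith [norm_nonneg u, norm_nonneg w]
    rw [h1] at h2
    simp at h2
  set f : ℂ → ℂ := fun u => u / (1 - u * a) ^ 2 with hf
  have hder : ∀ u ∈ ball (0:ℂ) 1, HasDerivAt f ((1 + u * a) / (1 - u * a) ^ 3) u := by
    intro u hu
    have h0 := hne u hu
    have h1 : HasDerivAt (fun u : ℂ => (1 - u * a) ^ 2) (2 * (1 - u * a) * (-a)) u := by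
      have := (((hasDerivAt_id' u).mul_const a).const_sub 1).pow 2
      refine this.congr_deriv ?_
      simp
    have h2 := (hasDerivAt_id' u).div h1 (pow_ne_zero 2 h0)
    refine h2.congr_deriv ?_
    field_simp
    ring
  have hsub : closedBall (0:ℂ) r ⊆ ball 0 1 := closedBall_subset_ball hr1
  have hw0 : (r:ℂ)^2 * w ∈ ball (0:ℂ) r := by
    rw [mem_ball_zero_iff, norm_mul, norm_pow, Complex.norm_real, Real.norm_of_nonneg hr.le]
    have h3 : r * ‖w‖ < 1 := by nlinarith [norm_nonneg w]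
    nlinarith [norm_nonneg w]
  have key := Complex.two_pi_I_inv_smul_circleIntegral_sub_sq_inv_smul_of_differentiable (isOpen_ball)
    hsub (fun u hu => (hder u hu).differentiableAt.differentiableWithinAt) hw0
  rw [(hder _ (hsub (ball_subset_closedBall hw0))).deriv] at key
  have e1 : ∮ z in C((0:ℂ), r), ((z - (r:ℂ)^2 * w) ^ 2)⁻¹ • f z =
      Complex.I * ((∫ θ in (0:ℝ)..(2 * Real.pi), (‖1 - conj (circleMap 0 r θ) * w‖ ^ 4)⁻¹ : ℝ) : ℂ) := by
    rw [circleIntegral, ← intervalIntegral.integral_ofReal, ← intervalIntegral.integral_const_mul]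
    refine intervalIntegral.integral_congr fun θ _ => ?_
    rw [deriv_circleMap]
    set u : ℂ := circleMap 0 r θ with hu
    have hun : ‖u‖ = r := by rw [hu, norm_circleMap_zero, abs_of_pos hr]
    have hu0 : u ≠ 0 := by
      intro h; rw [h, norm_zero] at hun; exact hr.ne hun
    have huu : conj u * u = (r:ℂ)^2 := by
      rw [Complex.conj_mul', hun]
    have hub : u ∈ ball (0:ℂ) 1 := by simpa [hun] using hr1
    have hn1 : 1 - u * a ≠ 0 := hne u hub
    have hc : conj (1 - conj u * w) = 1 - u * a := by simp [ha]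
    have hn2 : 1 - conj u * w ≠ 0 := by
      intro h; rw [h, map_zero] at hc; exact hn1 hc.symm
    have hn4 : (((‖1 - conj u * w‖ ^ 4)⁻¹ : ℝ) : ℂ) = (((1 - conj u * w) * (1 - u * a)) ^ 2)⁻¹ := by
      rw [← hc, Complex.mul_conj']
      push_cast
      ring
    rw [hn4, ← huu, show u - conj u * u * w = u * (1 - conj u * w) by ring, hf]
    simp only [smul_eq_mul]
    field_simp
  rw [e1] at key
  have hπ : (2 * (Real.pi:ℂ) * Complex.I) ≠ 0 := by
    simp [Real.pi_ne_zero]
  have e2 : (r:ℂ)^2 * w * a = ((r ^ 2 * ‖w‖ ^ 2 : ℝ) : ℂ) := by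
    rw [mul_assoc, ha, Complex.mul_conj']
    push_cast
    ring
  rw [e2, smul_eq_mul] at key
  have e3 : (((∫ θ in (0:ℝ)..(2 * Real.pi), (‖1 - conj (circleMap 0 r θ) * w‖ ^ 4)⁻¹ : ℝ) : ℂ)) =
      ((2 * Real.pi * ((1 + r ^ 2 * ‖w‖ ^ 2) / (1 - r ^ 2 * ‖w‖ ^ 2) ^ 3) : ℝ) : ℂ) := by
    have hI : Complex.I ≠ 0 := Complex.I_ne_zero
    have hπ' : (Real.pi : ℂ) ≠ 0 := by exact_mod_cast Real.pi_ne_zero
    rw [inv_mul_eq_iff_eq_mul₀ hπ] at key
    have h5 : Complex.I * ((∫ θ in (0:ℝ)..(2 * Real.pi), (‖1 - conj (circleMap 0 r θ) * w‖ ^ 4)⁻¹ : ℝ) : ℂ)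
        = Complex.I * ((2 * Real.pi * ((1 + r ^ 2 * ‖w‖ ^ 2) / (1 - r ^ 2 * ‖w‖ ^ 2) ^ 3) : ℝ) : ℂ) := by
      rw [key]
      push_cast
      ring
    exact mul_left_cancel₀ hI h5
  exact_mod_cast e3

lemma rad17 {x t : ℝ} (hx : 0 < x) (hx1 : x < 1) (ht : 0 ≤ t) (ht1 : t < 1) :
    IntegrableOn (fun r : ℝ => (Real.log x - Real.log (r^2)) * (2 * r * (1 + r^2*t) / (1 - r^2*t)^3)) (Ioc 0 (√x)) ∧ 
    ∫ r in (0:ℝ)..√x, (Real.log x - Real.log (r ^ 2)) * (2 * r * (1 + r^2*t) / (1 - r^2*t)^3) = x / (1 - x * t) := by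
  have hsx : 0 < √x := Real.sqrt_pos.2 hx
  have hsq : √x ^ 2 = x := Real.sq_sqrt hx.le
  have hpos : ∀ r ∈ Icc 0 √x, 0 < 1 - r^2 * t := by
    intro r hr
    have : r^2 ≤ x := by rw [← hsq]; exact pow_le_pow_left₀ hr.1 hr.2 2
    nlinarith [sq_nonneg r]
  set P : ℝ → ℝ := fun r => Real.log x * (r^2 / (1 - r^2*t)^2) - 2 * (r * Real.log r) * (r / (1 - r^2*t)^2) + r^2 / (1 - r^2 * t) with hP
  have hPc : ContinuousOn P (Icc 0 √x) := by
    have c1 : ContinuousOn (fun r : ℝ => 1 - r^2*t) (Icc 0 √x) := by fun_prop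
    have c2 : ∀ r ∈ Icc 0 √x, (1 - r^2*t)^2 ≠ 0 := fun r hr => (pow_pos (hpos r hr) 2).ne'
    refine ContinuousOn.add (ContinuousOn.sub ?_ ?_) ?_
    · exact continuousOn_const.mul ((continuousOn_id.pow 2).div (c1.pow 2) c2)
    · exact (continuousOn_const.mul (Real.continuous_mul_log.continuousOn)).mul (continuousOn_id.div (c1.pow 2) c2)
    · exact (continuousOn_id.pow 2).div c1 fun r hr => (hpos r hr).ne'
  have hPd : ∀ r ∈ Ioo 0 √x, HasDerivAt P ((Real.log x - Real.log (r^2)) * (2 * r * (1 + r^2*t) / (1 - r^2*t)^3)) r := by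
    intro r hr
    have h0 := (hpos r ⟨hr.1.le, hr.2.le⟩).ne'
    have hr0 := hr.1.ne'
    have d0 : HasDerivAt (fun r : ℝ => 1 - r^2*t) (-(2 * r * t)) r := by
      have := (((hasDerivAt_id' r).pow 2).mul_const t).const_sub 1
      refine this.congr_deriv ?_
      simp
    have d1 : HasDerivAt (fun r : ℝ => (1 - r^2*t)^2) (2 * (1 - r^2*t) * (-(2 * r * t))) r := by
      have := d0.pow 2
      refine this.congr_deriv ?_
      simp
    have d2 : HasDerivAt (fun r : ℝ => r^2) (2 * r) r := by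
      have := (hasDerivAt_id' r).pow 2
      refine this.congr_deriv ?_
      simp
    have d3 := ((d2.div d1 (pow_ne_zero 2 h0)).const_mul (Real.log x))
    have d4 : HasDerivAt (fun r : ℝ => 2 * (r * Real.log r)) (2 * (Real.log r + 1)) r := by
      have := ((hasDerivAt_id' r).mul (Real.hasDerivAt_log hr0)).const_mul 2
      refine this.congr_deriv ?_
      field_simp
    have d5 := d4.mul ((hasDerivAt_id' r).div d1 (pow_ne_zero 2 h0))
    have d6 := d2.div d0 h0
    have := (d3.sub d5).add d6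
    refine this.congr_deriv ?_
    rw [Real.log_pow]
    simp only [Pi.div_apply]
    push_cast
    field_simp
    ring
  have hnn : ∀ r ∈ Ioo 0 √x, 0 ≤ (Real.log x - Real.log (r^2)) * (2 * r * (1 + r^2*t) / (1 - r^2*t)^3) := by
    intro r hr
    have h0 := (hpos r ⟨hr.1.le, hr.2.le⟩)
    have h1 : r^2 ≤ x := by rw [← hsq]; exact pow_le_pow_left₀ hr.1.le hr.2.le 2
    have h2 : Real.log (r^2) ≤ Real.log x := Real.log_le_log (pow_pos hr.1 2) h1
    refine mul_nonneg (sub_nonneg.2 h2) (div_nonneg ?_ (pow_pos h0 3).le)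
    have := hr.1
    positivity
  have hI := intervalIntegral.integrableOn_deriv_of_nonneg hPc hPd hnn
  refine ⟨hI, ?_⟩
  rw [intervalIntegral.integral_eq_sub_of_hasDerivAt_of_le hsx.le hPc hPd
    ((intervalIntegrable_iff_integrableOn_Ioc_of_le hsx.le).2 hI)]
  have e0 : P 0 = 0 := by simp [hP]
  have e1 : P √x = x / (1 - x * t) := by
    have h0 := (hpos √x ⟨hsx.le, le_rfl⟩).ne'
    rw [hsq] at h0
    simp only [hP]
    rw [hsq, Real.log_sqrt hx.le]
    rw [show 2 * (√x * (Real.log x / 2)) * (√x / (1 - x * t)^2) = Real.log x * (√x^2 / (1 - x * t)^2) by ring, hsq]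
    ring
  rw [e0, e1, sub_zero]



/-- the mean over the disc (with the kernel `h²/π`) of the Green kernel with pole `0` of the disc
of radius `√x` -/
theorem conv_gK {x : ℝ} (hx : 0 < x) (hx1 : x < 1) {w : ℂ} (hw : w ∈ ball (0 : ℂ) 1) :
    ∫⁻ z, ENNReal.ofReal (gK x (hh 0 z)) * ENNReal.ofReal (hh z w ^ 2 / Real.pi) ∂hypVol =
      ENNReal.ofReal (gT x (hh 0 w)) := by
  have hw1 : ‖w‖ < 1 := by simpa using hw
  set t : ℝ := ‖w‖ ^ 2 with ht
  have ht0 : 0 ≤ t := sq_nonneg _
  have ht1 : t < 1 := by rw [ht]; nlinarith [norm_nonneg w]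
  have hh0 : ∀ z : ℂ, hh 0 z = 1 - ‖z‖ ^ 2 := by
    intro z
    simp [hh]
  have hπ := Real.pi_pos
  set K : ℂ → ℝ := fun z => max 0 (Real.log x - Real.log (‖z‖^2)) * ((1 - t)^2 / Real.pi * (‖1 - conj z * w‖ ^ 4)⁻¹) with hK
  have hmh : Measurable (fun z : ℂ => hh z w) := by
    unfold hh
    fun_prop
  have hmK : Measurable K := by
    rw [hK]
    fun_prop
  have stepA : ∫⁻ z, ENNReal.ofReal (gK x (hh 0 z)) * ENNReal.ofReal (hh z w ^ 2 / Real.pi) ∂hypVol =
      ∫⁻ z, ENNReal.ofReal (K z) := by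
    unfold hypVol
    rw [lintegral_withDensity_eq_lintegral_mul _ (by fun_prop) (by
      unfold gK
      simp only [hh0]
      fun_prop)]
    rw [← lintegral_indicator isOpen_ball.measurableSet]
    refine lintegral_congr fun z => ?_
    by_cases hz : z ∈ ball (0:ℂ) 1
    · rw [indicator_of_mem hz, Pi.mul_apply]
      have hz1 : ‖z‖ < 1 := by simpa using hz
      have hz2 : 0 < 1 - ‖z‖^2 := by nlinarith [norm_nonneg z]
      rw [hh0, ← ENNReal.ofReal_mul (by unfold gK; exact le_max_left _ _), ← ENNReal.ofReal_mul (by positivity)]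
      congr 1
      rw [hK]
      unfold gK hh
      simp only
      rw [show 1 - (1 - ‖z‖^2) = ‖z‖^2 by ring]
      field_simp
      rw [ht]
    · rw [indicator_of_notMem hz]
      have hz1 : 1 ≤ ‖z‖ := by simpa using hz
      have : K z = 0 := by
        rw [hK]
        simp only
        rw [max_eq_left, zero_mul]
        have h1 : 0 ≤ Real.log (‖z‖^2) := Real.log_nonneg (one_le_pow₀ hz1)
        have h2 : Real.log x < 0 := Real.log_neg hx hx1
        linarith
      rw [this, ENNReal.ofReal_zero]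
  rw [stepA, ← Complex.lintegral_comp_polarCoord_symm, polarCoord_target, Measure.volume_eq_prod,
    ← Measure.prod_restrict, lintegral_prod _ (by
      refine Measurable.aemeasurable ?_
      have : Measurable (fun p : ℝ × ℝ => Complex.polarCoord.symm p) := by
        simp only [Complex.polarCoord_symm_apply]
        fun_prop
      exact (measurable_fst.ennreal_ofReal).mul ((hmK.comp this).ennreal_ofReal))]
  have hsx : 0 < √x := Real.sqrt_pos.2 hx
  have hsq : √x ^ 2 = x := Real.sq_sqrt hx.le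
  have hsx1 : √x < 1 := by
    rw [Real.sqrt_lt' one_pos]; simpa using hx1
  obtain ⟨hI, hrad⟩ := rad17 hx hx1 ht0 ht1
  have stepB : ∀ r ∈ Ioi (0:ℝ), (∫⁻ θ in Ioo (-Real.pi) Real.pi, ENNReal.ofReal (r, θ).1 • ENNReal.ofReal (K (Complex.polarCoord.symm (r, θ)))) =
      (Ioc (0:ℝ) √x).indicator (fun r => ENNReal.ofReal ((1 - t)^2 * ((Real.log x - Real.log (r^2)) * (2 * r * (1 + r^2*t) / (1 - r^2*t)^3)))) r := by
    intro r hr
    have hr0 : 0 < r := hr
    have hsymm : ∀ θ : ℝ, Complex.polarCoord.symm (r, θ) = circleMap 0 r θ := by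
      intro θ
      rw [Complex.polarCoord_symm_apply, circleMap, zero_add, Complex.exp_mul_I, Complex.ofReal_cos, Complex.ofReal_sin]
    have hKr : ∀ θ : ℝ, K (Complex.polarCoord.symm (r, θ)) = max 0 (Real.log x - Real.log (r^2)) * ((1 - t)^2 / Real.pi * (‖1 - conj (circleMap 0 r θ) * w‖ ^ 4)⁻¹) := by
      intro θ
      rw [hsymm, hK]
      simp only
      rw [norm_circleMap_zero, abs_of_pos hr0]
    by_cases hrx : r ≤ √x
    · have hr1 : r < 1 := hrx.trans_lt hsx1
      rw [indicator_of_mem (show r ∈ Ioc (0:ℝ) √x from ⟨hr0, hrx⟩)]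
      have h1 : r^2 ≤ x := by rw [← hsq]; exact pow_le_pow_left₀ hr0.le hrx 2
      have h2 : 0 ≤ Real.log x - Real.log (r^2) := sub_nonneg.2 (Real.log_le_log (pow_pos hr0 2) h1)
      have hcm : Continuous fun θ : ℝ => (‖1 - conj (circleMap 0 r θ) * w‖ ^ 4)⁻¹ := by
        refine Continuous.inv₀ ?_ ?_
        · have := continuous_circleMap 0 r
          fun_prop
        · intro θ h0
          have h3 : ‖conj (circleMap 0 r θ) * w‖ < 1 := by
            rw [norm_mul, Complex.norm_conj, norm_circleMap_zero, abs_of_pos hr0]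
            nlinarith [norm_nonneg w]
          have h4 : 1 - conj (circleMap 0 r θ) * w = 0 := by
            simpa using h0
          have h5 : conj (circleMap 0 r θ) * w = 1 := (sub_eq_zero.1 h4).symm
          rw [h5] at h3
          simp at h3
      have e1 : ∀ θ : ℝ, ENNReal.ofReal (r, θ).1 • ENNReal.ofReal (K (Complex.polarCoord.symm (r, θ))) =
          ENNReal.ofReal ((r * (Real.log x - Real.log (r^2)) * ((1 - t)^2 / Real.pi)) * (‖1 - conj (circleMap 0 r θ) * w‖ ^ 4)⁻¹) := by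
        intro θ
        rw [hKr, max_eq_right h2, smul_eq_mul, ← ENNReal.ofReal_mul hr0.le]
        congr 1
        ring
      simp_rw [e1]
      rw [← ofReal_integral_eq_lintegral_ofReal]
      · congr 1
        rw [integral_const_mul, ← integral_Ioc_eq_integral_Ioo, ← intervalIntegral.integral_of_le (by linarith)]
        have hper : Function.Periodic (fun θ : ℝ => (‖1 - conj (circleMap 0 r θ) * w‖ ^ 4)⁻¹) (2 * Real.pi) := by
          intro θ
          simp only
          rw [periodic_circleMap 0 r θ]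
        have h6 := hper.intervalIntegral_add_eq (-Real.pi) 0
        rw [zero_add, show -Real.pi + 2 * Real.pi = Real.pi by ring] at h6
        rw [h6, ang17 hr0 hr1 hw1, ← ht]
        field_simp
      · exact (hcm.const_mul _).continuousOn.integrableOn_Icc.mono_set Ioo_subset_Icc_self |>.integrable
      · refine ae_of_all _ fun θ => ?_
        simp only [Pi.zero_apply]
        positivity
    · rw [indicator_of_notMem (fun h => hrx h.2)]
      rw [not_le] at hrx
      have h1 : x ≤ r^2 := by rw [← hsq]; exact pow_le_pow_left₀ hsx.le hrx.le 2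
      have h2 : Real.log x - Real.log (r^2) ≤ 0 := sub_nonpos.2 (Real.log_le_log hx h1)
      have e1 : ∀ θ : ℝ, ENNReal.ofReal (r, θ).1 • ENNReal.ofReal (K (Complex.polarCoord.symm (r, θ))) = 0 := by
        intro θ
        rw [hKr, max_eq_left h2]
        simp
      simp_rw [e1]
      simp
  rw [setLIntegral_congr_fun measurableSet_Ioi stepB, lintegral_indicator measurableSet_Ioc,
    Measure.restrict_restrict measurableSet_Ioc, inter_eq_left.2 Ioc_subset_Ioi_self,
    ← ofReal_integral_eq_lintegral_ofReal]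
  · rw [integral_const_mul, ← intervalIntegral.integral_of_le hsx.le, hrad, hh0, ← ht]
    unfold gT
    congr 1
    rw [show 1 - (1 - t) = t by ring]
    ring
  · exact hI.integrable.const_mul _
  · refine (ae_restrict_iff' measurableSet_Ioc).2 (ae_of_all _ fun r hr => ?_)
    have h1 : r^2 ≤ x := by rw [← hsq]; exact pow_le_pow_left₀ hr.1.le hr.2 2
    have h2 : 0 ≤ Real.log x - Real.log (r^2) := sub_nonneg.2 (Real.log_le_log (pow_pos hr.1 2) h1)
    have h3 : 0 < 1 - r^2*t := by nlinarith [sq_nonneg r]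
    have h4 := hr.1
    simp only [Pi.zero_apply]
    positivity

end Pool.Agent.Helper684.Ergo

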