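import Pool.Agent.Helper684.Ergo.Hyp
set_option autoImplicit false

open MeasureTheory Metric Set Filter Topology
open scoped ComplexConjugate ENNReal

namespace Pool.Agent.Helper684.Ergo









theorem li_aux {η : ℝ} (hη : 0 < η) {a : ℝ} (ha : 0 < a) (c0 c1 c2 : ℝ)
    (hp : ∀ v ∈ Ioo (0 : ℝ) a, 0 ≤ c0 + c1 * v + c2 * v ^ 2) :
    ∫⁻ v in Ioo (0 : ℝ) a, ENNReal.ofReal (c0 + c1 * v + c2 * v ^ 2) *
        ENNReal.ofReal (η * v ^ (η - 1)) =
      ENNReal.ofReal (c0 * a ^ η + c1 * (η / (η + 1)) * a ^ (η + 1) +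
        c2 * (η / (η + 2)) * a ^ (η + 2)) := by
  have i0 : IntegrableOn (fun v : ℝ => v ^ (η - 1)) (Ioc 0 a) volume :=
    (intervalIntegrable_iff_integrableOn_Ioc_of_le ha.le).mp
      (intervalIntegral.intervalIntegrable_rpow' (by linarith))
  have i1 : IntegrableOn (fun v : ℝ => v ^ η) (Ioc 0 a) volume :=
    (intervalIntegrable_iff_integrableOn_Ioc_of_le ha.le).mp
      (intervalIntegral.intervalIntegrable_rpow' (by linarith))
  have i2 : IntegrableOn (fun v : ℝ => v ^ (η + 1)) (Ioc 0 a) volume :=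
    (intervalIntegrable_iff_integrableOn_Ioc_of_le ha.le).mp
      (intervalIntegral.intervalIntegrable_rpow' (by linarith))
  have e0 : ∫ v in Ioc 0 a, v ^ (η - 1) = a ^ η / η := by
    rw [← intervalIntegral.integral_of_le ha.le, integral_rpow (Or.inl (by linarith))]
    rw [sub_add_cancel, Real.zero_rpow hη.ne', sub_zero]
  have e1 : ∫ v in Ioc 0 a, v ^ η = a ^ (η + 1) / (η + 1) := by
    rw [← intervalIntegral.integral_of_le ha.le, integral_rpow (Or.inl (by linarith))]
    rw [Real.zero_rpow (by linarith), sub_zero]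
  have e2 : ∫ v in Ioc 0 a, v ^ (η + 1) = a ^ (η + 2) / (η + 2) := by
    rw [← intervalIntegral.integral_of_le ha.le, integral_rpow (Or.inl (by linarith))]
    rw [Real.zero_rpow (by linarith), sub_zero, show η + 1 + 1 = η + 2 by ring]
  have hI : IntegrableOn (fun v : ℝ => c0 * η * v ^ (η - 1) + c1 * η * v ^ η +
      c2 * η * v ^ (η + 1)) (Ioc 0 a) volume :=
    ((i0.const_mul _).add (i1.const_mul _)).add (i2.const_mul _)
  have hcongr : ∀ v ∈ Ioo (0 : ℝ) a, ENNReal.ofReal (c0 + c1 * v + c2 * v ^ 2) *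
        ENNReal.ofReal (η * v ^ (η - 1)) =
        ENNReal.ofReal (c0 * η * v ^ (η - 1) + c1 * η * v ^ η + c2 * η * v ^ (η + 1)) := by
    intro v hv
    rw [← ENNReal.ofReal_mul (hp v hv)]
    congr 1
    have h1 : v ^ η = v ^ (η - 1) * v := by
      rw [← Real.rpow_add_one hv.1.ne']; congr 1; ring
    have h2 : v ^ (η + 1) = v ^ (η - 1) * v * v := by
      rw [Real.rpow_add_one hv.1.ne', h1]
    rw [h2, h1]; ring
  rw [setLIntegral_congr_fun measurableSet_Ioo hcongr]
  rw [← ofReal_integral_eq_lintegral_ofReal (hI.mono_set Ioo_subset_Ioc_self)]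
  · rw [← integral_Ioc_eq_integral_Ioo]
    have j0 : IntegrableOn (fun v : ℝ => c0 * η * v ^ (η - 1)) (Ioc 0 a) volume := i0.const_mul _
    have j1 : IntegrableOn (fun v : ℝ => c1 * η * v ^ η) (Ioc 0 a) volume := i1.const_mul _
    have j2 : IntegrableOn (fun v : ℝ => c2 * η * v ^ (η + 1)) (Ioc 0 a) volume := i2.const_mul _
    have j01 : IntegrableOn (fun v : ℝ => c0 * η * v ^ (η - 1) + c1 * η * v ^ η) (Ioc 0 a)
      volume := j0.add j1
    have k1 : ∫ v in Ioc 0 a, (c0 * η * v ^ (η - 1) + c1 * η * v ^ η + c2 * η * v ^ (η + 1)) =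
        (∫ v in Ioc 0 a, (c0 * η * v ^ (η - 1) + c1 * η * v ^ η)) +
          ∫ v in Ioc 0 a, c2 * η * v ^ (η + 1) := integral_add j01 j2
    have k2 : ∫ v in Ioc 0 a, (c0 * η * v ^ (η - 1) + c1 * η * v ^ η) =
        (∫ v in Ioc 0 a, c0 * η * v ^ (η - 1)) + ∫ v in Ioc 0 a, c1 * η * v ^ η :=
      integral_add j0 j1
    rw [k1, k2]
    rw [integral_const_mul, integral_const_mul, integral_const_mul, e0, e1, e2]
    congr 1
    field_simp
  · rw [Filter.EventuallyLE, ae_restrict_iff' measurableSet_Ioo]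
    refine Filter.Eventually.of_forall ?_
    intro v hv
    have h1 : v ^ η = v ^ (η - 1) * v := by
      rw [← Real.rpow_add_one hv.1.ne']; congr 1; ring
    have h2 : v ^ (η + 1) = v ^ (η - 1) * v * v := by
      rw [Real.rpow_add_one hv.1.ne', h1]
    have : c0 * η * v ^ (η - 1) + c1 * η * v ^ η + c2 * η * v ^ (η + 1) =
        (c0 + c1 * v + c2 * v ^ 2) * (η * v ^ (η - 1)) := by
      rw [h2, h1]; ring
    show (0 : ℝ) ≤ c0 * η * v ^ (η - 1) + c1 * η * v ^ η + c2 * η * v ^ (η + 1)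
    rw [this]
    exact mul_nonneg (hp v hv) (mul_nonneg hη.le (Real.rpow_nonneg hv.1.le _))

theorem gT_eq (v u : ℝ) : gT (1 - v) u = (1 - v) * u ^ 2 / (u + v - u * v) := by
  unfold gT
  congr 1
  ring

theorem gK_le_lin {x u : ℝ} (hx : 0 < x) (hu1 : u < 1) (hxu : 1 - u ≤ x) :
    gK x u ≤ (x - (1 - u)) / (1 - u) := by
  unfold gK
  have h1u : 0 < 1 - u := by linarith
  refine max_le (div_nonneg (by linarith) h1u.le) ?_
  rw [← Real.log_div hx.ne' h1u.ne']
  have := Real.log_le_sub_one_of_pos (div_pos hx h1u)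
  refine this.trans (le_of_eq ?_)
  field_simp

theorem gK_eq_zero {x u : ℝ} (hx : 0 < x) (hxu : x ≤ 1 - u) : gK x u = 0 := by
  unfold gK
  refine max_eq_left ?_
  have := Real.log_le_log hx hxu
  linarith

theorem thK_le_small {η u : ℝ} (hη : 0 < η) (hu : 0 < u) (hu1 : u ≤ 1 / 2) :
    thK η u ≤ ENNReal.ofReal ((1 + 2 * u) * (u ^ (1 + η) / (1 + η))) := by
  have hsub : Ioo (0 : ℝ) u ⊆ Ioo 0 1 := Ioo_subset_Ioo le_rfl (by linarith)
  have hstep : thK η u ≤ ∫⁻ v in Ioo (0 : ℝ) u, ENNReal.ofReal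
      (((1 + 2 * u) * u) + (-(1 + 2 * u)) * v + 0 * v ^ 2) *
        ENNReal.ofReal (η * v ^ (η - 1)) := by
    unfold thK
    rw [← lintegral_indicator measurableSet_Ioo, ← lintegral_indicator measurableSet_Ioo]
    refine lintegral_mono ?_
    intro v
    by_cases hv1 : v ∈ Ioo (0 : ℝ) u
    · simp only [Set.indicator_of_mem hv1, Set.indicator_of_mem (hsub hv1)]
      refine mul_le_mul_left ?_ _
      refine ENNReal.ofReal_le_ofReal ?_
      have h := gK_le_lin (x := 1 - v) (u := u) (by linarith [hv1.2]) (by linarith)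
        (by linarith [hv1.2])
      refine h.trans ?_
      rw [div_le_iff₀ (by linarith)]
      nlinarith [mul_nonneg (mul_nonneg (sub_nonneg.mpr hv1.2.le) hu.le)
        (by linarith : (0 : ℝ) ≤ 1 - 2 * u)]
    · by_cases hv2 : v ∈ Ioo (0 : ℝ) 1
      · simp only [Set.indicator_of_mem hv2, Set.indicator_of_notMem hv1]
        have : u ≤ v := by
          by_contra hc
          exact hv1 ⟨hv2.1, not_le.mp hc⟩
        rw [gK_eq_zero (by linarith [hv2.2]) (by linarith)]
        simp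
      · simp only [Set.indicator_of_notMem hv2]
        exact zero_le
  refine hstep.trans (le_of_eq ?_)
  rw [li_aux hη hu]
  · congr 1
    rw [show (1 : ℝ) + η = η + 1 by ring, Real.rpow_add_one hu.ne']
    field_simp
    ring
  · intro v hv
    nlinarith [mul_nonneg (sub_nonneg.mpr hv.2.le) (by linarith : (0 : ℝ) ≤ 1 + 2 * u)]

theorem thT_ge_small {η u : ℝ} (hη : 0 < η) (hu : 0 < u) (hu1 : u ≤ 1) :
    ENNReal.ofReal ((1 + η / 4) * (u ^ (1 + η) / (1 + η))) ≤
      thT η u + ENNReal.ofReal (u ^ 2) := by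
  have hν : ∫⁻ v in Ioo (0 : ℝ) 1, ENNReal.ofReal (u ^ 2) * ENNReal.ofReal (η * v ^ (η - 1)) =
      ENNReal.ofReal (u ^ 2) := by
    have := li_aux hη one_pos (u ^ 2) 0 0 (by intro v _; nlinarith [sq_nonneg u])
    simp only [zero_mul, add_zero, Real.one_rpow, mul_one] at this
    exact this
  have hsub : Ioo (0 : ℝ) u ⊆ Ioo 0 1 := Ioo_subset_Ioo le_rfl hu1
  have hmeas : Measurable (fun v : ℝ => ENNReal.ofReal (u ^ 2) *
      ENNReal.ofReal (η * v ^ (η - 1))) := by
    fun_prop
  have hsum : thT η u + ENNReal.ofReal (u ^ 2) =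
      ∫⁻ v in Ioo (0 : ℝ) 1, (ENNReal.ofReal (gT (1 - v) u) * ENNReal.ofReal (η * v ^ (η - 1)) +
        ENNReal.ofReal (u ^ 2) * ENNReal.ofReal (η * v ^ (η - 1))) := by
    rw [lintegral_add_right _ hmeas, hν]
    rfl
  have hstep : ∫⁻ v in Ioo (0 : ℝ) u, ENNReal.ofReal
      (u + (-1) * v + (1 / (2 * u)) * v ^ 2) * ENNReal.ofReal (η * v ^ (η - 1)) ≤
      ∫⁻ v in Ioo (0 : ℝ) 1, (ENNReal.ofReal (gT (1 - v) u) * ENNReal.ofReal (η * v ^ (η - 1)) +
        ENNReal.ofReal (u ^ 2) * ENNReal.ofReal (η * v ^ (η - 1))) := by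
    rw [← lintegral_indicator measurableSet_Ioo, ← lintegral_indicator measurableSet_Ioo]
    refine lintegral_mono ?_
    intro v
    by_cases hv1 : v ∈ Ioo (0 : ℝ) u
    · simp only [Set.indicator_of_mem hv1, Set.indicator_of_mem (hsub hv1)]
      rw [← add_mul]
      refine mul_le_mul_left ?_ _
      have hv0 := hv1.1
      have hvu := hv1.2
      have hv1' : v < 1 := by linarith
      have hden : 0 < u + v - u * v := by nlinarith [mul_pos hu (sub_pos.mpr hv1')]
      have hgT : 0 ≤ gT (1 - v) u := by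
        rw [gT_eq]
        exact div_nonneg (mul_nonneg (by linarith) (sq_nonneg _)) hden.le
      rw [← ENNReal.ofReal_add hgT (sq_nonneg _)]
      refine ENNReal.ofReal_le_ofReal ?_
      have h1 : u ^ 2 / (u + v) ≤ gT (1 - v) u + u ^ 2 := by
        have huv : 0 < u + v := by linarith
        have hA : (1 - v) * u ^ 2 / (u + v) ≤ gT (1 - v) u := by
          rw [gT_eq]
          refine div_le_div_of_nonneg_left (mul_nonneg (by linarith) (sq_nonneg _)) hden ?_
          nlinarith [mul_pos hu hv0]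
        have hB : u ^ 2 / (u + v) ≤ (1 - v) * u ^ 2 / (u + v) + u ^ 2 := by
          rw [div_add' _ _ _ huv.ne']
          refine div_le_div_of_nonneg_right ?_ huv.le
          nlinarith [mul_pos (pow_pos hu 2) hu]
        linarith
      refine le_trans ?_ h1
      rw [le_div_iff₀ (by linarith)]
      have : (u + -1 * v + 1 / (2 * u) * v ^ 2) * (u + v) =
          u ^ 2 - (v ^ 2 / 2) * (1 - v / u) := by
        field_simp
        ring
      rw [this]
      have : 0 ≤ (v ^ 2 / 2) * (1 - v / u) := by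
        refine mul_nonneg (by positivity) ?_
        rw [sub_nonneg, div_le_one hu]
        exact hvu.le
      linarith
    · simp only [Set.indicator_of_notMem hv1]
      exact zero_le
  rw [hsum]
  refine le_trans ?_ hstep
  rw [li_aux hη hu]
  · refine ENNReal.ofReal_le_ofReal ?_
    have e1 : u ^ (1 + η) = u ^ η * u := by rw [add_comm, Real.rpow_add_one hu.ne']
    have e2 : u ^ (η + 1) = u ^ η * u := by rw [Real.rpow_add_one hu.ne']
    have e3 : u ^ (η + 2) = u ^ η * u * u := by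
      rw [show η + 2 = η + 1 + 1 by ring, Real.rpow_add_one hu.ne', Real.rpow_add_one hu.ne']
    rw [e1, e2, e3]
    have hpos : 0 < u ^ η * u := mul_pos (Real.rpow_pos_of_pos hu _) hu
    have e4 : u * u ^ η + -1 * (η / (η + 1)) * (u ^ η * u) +
        1 / (2 * u) * (η / (η + 2)) * (u ^ η * u * u) =
        (u ^ η * u) * (1 / (1 + η) + η / (2 * (η + 2))) := by
      field_simp
      ring
    rw [e4]
    have e5 : (1 + η / 4) * (u ^ η * u / (1 + η)) = (u ^ η * u) * ((1 + η / 4) / (1 + η)) := by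
      ring
    rw [e5]
    refine mul_le_mul_of_nonneg_left ?_ hpos.le
    rw [div_add_div _ _ (by positivity) (by positivity), div_le_div_iff₀ (by positivity)
      (by positivity)]
    nlinarith [mul_pos hη hη, mul_pos (mul_pos hη hη) hη]
  · intro v hv
    have h0 : 0 ≤ 1 / (2 * u) * v ^ 2 := by positivity
    linarith [hv.2]

theorem thK_le {η u : ℝ} (hη : 0 < η) (hη1 : η ≤ 1) (hu : 0 < u) (hu1 : u ≤ 1) :
    thK η u ≤ ENNReal.ofReal ((1 + η / 4)⁻¹) * thT η u + ENNReal.ofReal (3 * u ^ 2) +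
      ENNReal.ofReal (lK u) := by
  rcases le_or_gt u (1 / 2) with h | h
  · refine le_trans ?_ le_self_add
    have hpos : 0 < u ^ (1 + η) := Real.rpow_pos_of_pos hu _
    have h1 := thK_le_small hη hu h
    have h2 := thT_ge_small hη hu hu1
    have h3 : (1 + 2 * u) * (u ^ (1 + η) / (1 + η)) ≤ u ^ (1 + η) / (1 + η) + 2 * u ^ 2 := by
      have : u ^ (1 + η) / (1 + η) ≤ u := by
        rw [div_le_iff₀ (by linarith)]
        have : u ^ (1 + η) ≤ u ^ (1 : ℝ) :=
          Real.rpow_le_rpow_of_exponent_ge hu hu1 (by linarith)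
        rw [Real.rpow_one] at this
        nlinarith
      nlinarith
    have h4 : ENNReal.ofReal (u ^ (1 + η) / (1 + η)) =
        ENNReal.ofReal ((1 + η / 4)⁻¹) * ENNReal.ofReal ((1 + η / 4) * (u ^ (1 + η) / (1 + η))) := by
      rw [← ENNReal.ofReal_mul (by positivity)]
      congr 1
      rw [← mul_assoc, inv_mul_cancel₀ (by positivity), one_mul]
    have h5 : ENNReal.ofReal ((1 + η / 4)⁻¹) ≤ 1 := by
      rw [ENNReal.ofReal_le_one]
      exact inv_le_one_of_one_le₀ (by linarith)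
    calc thK η u ≤ ENNReal.ofReal ((1 + 2 * u) * (u ^ (1 + η) / (1 + η))) := h1
      _ ≤ ENNReal.ofReal (u ^ (1 + η) / (1 + η) + 2 * u ^ 2) := ENNReal.ofReal_le_ofReal h3
      _ = ENNReal.ofReal (u ^ (1 + η) / (1 + η)) + ENNReal.ofReal (2 * u ^ 2) :=
        ENNReal.ofReal_add (by positivity) (by positivity)
      _ ≤ (ENNReal.ofReal ((1 + η / 4)⁻¹) * (thT η u + ENNReal.ofReal (u ^ 2))) +
          ENNReal.ofReal (2 * u ^ 2) := by
        rw [h4]; gcongr
      _ = ENNReal.ofReal ((1 + η / 4)⁻¹) * thT η u +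
          (ENNReal.ofReal ((1 + η / 4)⁻¹) * ENNReal.ofReal (u ^ 2) +
          ENNReal.ofReal (2 * u ^ 2)) := by ring
      _ ≤ ENNReal.ofReal ((1 + η / 4)⁻¹) * thT η u +
          (1 * ENNReal.ofReal (u ^ 2) + ENNReal.ofReal (2 * u ^ 2)) := by gcongr
      _ = ENNReal.ofReal ((1 + η / 4)⁻¹) * thT η u + ENNReal.ofReal (3 * u ^ 2) := by
        rw [one_mul, ← ENNReal.ofReal_add (by positivity) (by positivity)]
        congr 2; ring
  · refine le_trans ?_ le_add_self
    have hν : ∫⁻ v in Ioo (0 : ℝ) 1, ENNReal.ofReal (lK u) *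
        ENNReal.ofReal (η * v ^ (η - 1)) = ENNReal.ofReal (lK u) := by
      have hl : 0 ≤ lK u := by
        unfold lK
        rw [if_pos h]
        rcases hu1.eq_or_lt with h1 | h1
        · rw [h1]; simp
        · have := Real.log_nonpos (x := 1 - u) (by linarith) (by linarith)
          linarith
      have := li_aux hη one_pos (lK u) 0 0 (by intro v _; simpa using hl)
      simp only [zero_mul, add_zero, Real.one_rpow, mul_one] at this
      exact this
    rw [← hν]
    unfold thK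
    refine setLIntegral_mono' measurableSet_Ioo ?_
    intro v hv
    refine mul_le_mul_left ?_ _
    refine ENNReal.ofReal_le_ofReal ?_
    unfold gK lK
    rw [if_pos h]
    have hlv : Real.log (1 - v) ≤ 0 := Real.log_nonpos (by linarith [hv.2]) (by linarith [hv.1])
    refine max_le ?_ (by linarith)
    rcases hu1.eq_or_lt with h1 | h1
    · rw [h1]; simp
    · have := Real.log_nonpos (x := 1 - u) (by linarith) (by linarith)
      linarith

theorem gT_le_thT (n : ℕ) (hn : 1 ≤ n) {u : ℝ} (hu : 0 < u) (hu1 : u ≤ 1) :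
    ENNReal.ofReal (gT (1 - Real.exp (-n)) u) ≤
      ENNReal.ofReal (Real.exp 1) * thT (1 / n) u := by
  have hn0 : (0 : ℝ) < n := by exact_mod_cast hn
  have hη : (0 : ℝ) < 1 / n := by positivity
  set a := Real.exp (-(n : ℝ)) with ha
  have ha0 : 0 < a := Real.exp_pos _
  have ha1 : a < 1 := by
    rw [ha, Real.exp_lt_one_iff]; linarith
  have hsub : Ioo (0 : ℝ) a ⊆ Ioo 0 1 := Ioo_subset_Ioo le_rfl ha1.le
  have hg0 : 0 ≤ gT (1 - a) u := by
    rw [gT_eq]
    refine div_nonneg (mul_nonneg (by linarith) (sq_nonneg _)) ?_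
    nlinarith [mul_pos ha0 hu]
  have key : ENNReal.ofReal (gT (1 - a) u) * ENNReal.ofReal (a ^ (1 / (n : ℝ))) ≤
      thT (1 / n) u := by
    have h1 := li_aux hη ha0 (gT (1 - a) u) 0 0 (by intro v _; simpa using hg0)
    simp only [zero_mul, add_zero] at h1
    rw [ENNReal.ofReal_mul hg0] at h1
    rw [← h1]
    unfold thT
    refine le_trans ?_ (lintegral_mono_set hsub)
    refine setLIntegral_mono' measurableSet_Ioo ?_
    intro v hv
    refine mul_le_mul_left ?_ _
    refine ENNReal.ofReal_le_ofReal ?_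
    rw [gT_eq, gT_eq]
    have hv0 := hv.1
    have hva := hv.2
    have hd1 : 0 < u + a - u * a := by nlinarith [mul_pos hu (sub_pos.mpr ha1)]
    have hd2 : 0 < u + v - u * v := by nlinarith [mul_pos hu (sub_pos.mpr (hva.trans ha1))]
    rw [div_le_div_iff₀ hd1 hd2]
    have hcalc : (1 - v) * u ^ 2 * (u + a - u * a) - (1 - a) * u ^ 2 * (u + v - u * v) =
        u ^ 2 * (a - v) := by ring
    nlinarith [mul_pos (pow_pos hu 2) (sub_pos.mpr hva)]
  have hexp : a ^ (1 / (n : ℝ)) = Real.exp (-1) := by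
    rw [ha, ← Real.exp_mul]
    congr 1
    field_simp
  rw [hexp] at key
  calc ENNReal.ofReal (gT (1 - a) u) =
      ENNReal.ofReal (Real.exp 1) * (ENNReal.ofReal (gT (1 - a) u) *
        ENNReal.ofReal (Real.exp (-1))) := by
        rw [mul_comm (ENNReal.ofReal (gT (1 - a) u)), ← mul_assoc,
          ← ENNReal.ofReal_mul (Real.exp_pos _).le, ← Real.exp_add]
        simp
    _ ≤ _ := by gcongr

theorem gK_le_gT {x u : ℝ} (hx : 0 < x) (hx1 : x < 1) (hu : 0 < u) (hu1 : u ≤ 1 / 2) :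
    gK x u ≤ 8 * gT x u := by
  have hden : 0 < 1 - x * (1 - u) := by nlinarith
  rcases le_total x (1 - u) with h | h
  · rw [gK_eq_zero hx h]
    unfold gT
    positivity
  · refine (gK_le_lin hx (by linarith) h).trans ?_
    unfold gT
    have h1u : 0 < 1 - u := by linarith
    rw [← mul_div_assoc, div_le_div_iff₀ h1u hden]
    have hA : x - (1 - u) ≤ u := by linarith
    have hB : 1 - x * (1 - u) ≤ 2 * u := by nlinarith
    have h1 : (x - (1 - u)) * (1 - x * (1 - u)) ≤ u * (2 * u) :=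
      mul_le_mul hA hB hden.le hu.le
    have h2 : 8 * (x * u ^ 2) * (1 - u) ≥ 2 * u ^ 2 := by
      have : x * (1 - u) ≥ 1 / 2 * (1 / 2) := by nlinarith
      nlinarith [mul_nonneg (sq_nonneg u) (by linarith : (0 : ℝ) ≤ x * (1 - u) - 1 / 2 * (1 / 2))]
    nlinarith

end Pool.Agent.Helper684.Ergo
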