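import Pool.Agent.Helper684.Ergo.Hyp
set_option autoImplicit false

open MeasureTheory Metric Set Filter Topology
open scoped ComplexConjugate ENNReal

namespace Pool.Agent.Helper684.Ergo









section

/- The following facts are proved elsewhere; they are given here as hypotheses. -/
variable (hmp : ∀ a ∈ ball (0 : ℂ) 1, MeasurePreserving (mob a) hypVol hypVol)
  (hmob : ∀ a ∈ ball (0 : ℂ) 1, ∀ z ∈ ball (0 : ℂ) 1, ∀ w ∈ ball (0 : ℂ) 1,
    hh (mob a z) (mob a w) = hh z w)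
  (hl : ∫⁻ w, ENNReal.ofReal (lK (hh 0 w)) ∂hypVol < ⊤)

include hmp hmob hl

omit hmp hmob hl in
theorem conv_aux0 (z : ℂ) : hh 0 z = 1 - ‖z‖ ^ 2 := by
  simp [hh]

omit hmp hmob hl in
theorem conv_aux0' (z : ℂ) : hh z 0 = 1 - ‖z‖ ^ 2 := by
  simp [hh]

omit hmp hmob hl in
theorem conv_lKpos (u : ℝ) (h : ¬ (1 / 2 < u)) : lK u = 0 := by
  simp only [lK, if_neg h]

omit hmp hmob hl in
theorem conv_aux1 (z w : ℂ) (hz : z ∈ ball (0 : ℂ) 1) (hw : w ∈ ball (0 : ℂ) 1)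
    (h : 1 / 2 < hh z w) : 1 - ‖z‖ ^ 2 ≤ 8 * (1 - ‖w‖ ^ 2) := by
  rw [mem_ball_zero_iff] at hz hw
  have hz0 := norm_nonneg z
  have hw0 := norm_nonneg w
  have h1 : 1 - ‖z‖ ≤ ‖1 - conj z * w‖ := by
    have h2 : ‖conj z * w‖ ≤ ‖z‖ := by
      rw [norm_mul, RCLike.norm_conj]
      nlinarith
    have h3 := norm_sub_norm_le (1 : ℂ) (conj z * w)
    rw [norm_one] at h3
    linarith
  have hpos : 0 < ‖1 - conj z * w‖ := by linarith
  unfold hh at h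
  rw [lt_div_iff₀ (by positivity)] at h
  have h4 : (1 - ‖z‖) ^ 2 ≤ ‖1 - conj z * w‖ ^ 2 := by
    apply pow_le_pow_left₀ (by linarith) h1
  have h5 : (1 - ‖z‖ ^ 2) = (1 - ‖z‖) * (1 + ‖z‖) := by ring
  have h6 : 0 < 1 - ‖z‖ ^ 2 := by nlinarith
  have h7 : 0 < 1 - ‖w‖ ^ 2 := by nlinarith
  -- (1-|z|)^2 ≥ ((1-|z|²)/2)²
  have h8 : (1 - ‖z‖ ^ 2) ^ 2 / 4 ≤ (1 - ‖z‖) ^ 2 := by
    rw [h5]
    have : (1 + ‖z‖) ^ 2 ≤ 4 := by nlinarith
    have h9 : 0 ≤ (1 - ‖z‖) ^ 2 := by positivity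
    nlinarith
  have h10 : (1 - ‖z‖ ^ 2) ^ 2 / 8 < (1 - ‖z‖ ^ 2) * (1 - ‖w‖ ^ 2) := by nlinarith
  have h11 : (1 - ‖z‖ ^ 2) * (1 - ‖z‖ ^ 2) < (1 - ‖z‖ ^ 2) * (8 * (1 - ‖w‖ ^ 2)) := by nlinarith
  exact (lt_of_mul_lt_mul_left h11 h6.le).le

omit hmp hmob hl in
theorem conv_meas (w : ℂ) : Measurable (fun z => ENNReal.ofReal (lK (hh z w))) := by
  have h1 : Measurable (fun z => hh z w) := by
    unfold hh
    fun_prop
  have h2 : Measurable lK := by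
    unfold lK
    apply Measurable.ite
    · exact measurableSet_lt measurable_const measurable_id
    · exact (Real.measurable_log.comp (measurable_const.sub measurable_id)).neg
    · exact measurable_const
  exact (h2.comp h1).ennreal_ofReal

omit hmp hmob hl in
theorem conv_ae : ∀ᵐ z ∂hypVol, z ∈ ball (0 : ℂ) 1 := by
  have h1 : hypVol ≪ volume.restrict (ball (0 : ℂ) 1) := withDensity_absolutelyContinuous _ _
  exact h1.ae_le (ae_restrict_mem measurableSet_ball)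

theorem conv_lK_aux : ∃ C : ℝ, 0 ≤ C ∧ ∀ w ∈ ball (0 : ℂ) 1,
    ∫⁻ z, ENNReal.ofReal (hh 0 z ^ 2) * ENNReal.ofReal (lK (hh z w)) ∂hypVol ≤
      ENNReal.ofReal (C * hh 0 w ^ 2) := by
  set I := ∫⁻ w, ENNReal.ofReal (lK (hh 0 w)) ∂hypVol with hI
  refine ⟨64 * I.toReal, by positivity, fun w hw => ?_⟩
  have key : ∫⁻ z, ENNReal.ofReal (lK (hh z w)) ∂hypVol = I := by
    rw [← (hmp w hw).lintegral_comp (conv_meas w), hI]
    apply lintegral_congr_ae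
    filter_upwards [conv_ae] with z hz
    have h0 : mob w 0 = w := by simp [mob]
    have h1 := hmob w hw z hz 0 (by simp)
    rw [h0] at h1
    rw [h1, conv_aux0, conv_aux0']
  have step : ∫⁻ z, ENNReal.ofReal (hh 0 z ^ 2) * ENNReal.ofReal (lK (hh z w)) ∂hypVol ≤
      ∫⁻ z, ENNReal.ofReal (64 * hh 0 w ^ 2) * ENNReal.ofReal (lK (hh z w)) ∂hypVol := by
    apply lintegral_mono_ae
    filter_upwards [conv_ae] with z hz
    by_cases h : 1 / 2 < hh z w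
    · gcongr
      have h1 := conv_aux1 z w hz hw h
      rw [conv_aux0, conv_aux0]
      rw [mem_ball_zero_iff] at hz hw
      have h6 : 0 ≤ 1 - ‖z‖ ^ 2 := by nlinarith [norm_nonneg z]
      calc (1 - ‖z‖ ^ 2) ^ 2 ≤ (8 * (1 - ‖w‖ ^ 2)) ^ 2 := by gcongr
        _ = 64 * (1 - ‖w‖ ^ 2) ^ 2 := by ring
    · rw [conv_lKpos _ h]; simp
  refine step.trans ?_
  rw [lintegral_const_mul _ (conv_meas w), key]
  rw [show 64 * I.toReal * hh 0 w ^ 2 = (64 * hh 0 w ^ 2) * I.toReal by ring,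
    ENNReal.ofReal_mul (p := 64 * hh 0 w ^ 2) (q := I.toReal) (by positivity),
    ENNReal.ofReal_toReal hl.ne]

end

end Pool.Agent.Helper684.Ergo
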