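import Pool.Agent.Helper684.Ergo.Hyp
set_option autoImplicit false

open MeasureTheory Metric Set Filter Topology
open scoped ComplexConjugate ENNReal

namespace Pool.Agent.Helper684.Ergo









theorem a6_log_int : IntegrableOn (fun u : ℝ => Real.log (1 - u)) (Ioo (0 : ℝ) 1) := by
  have h1 : IntervalIntegrable Real.log volume 0 1 := intervalIntegral.intervalIntegrable_log'
  have h2 := h1.comp_sub_left 1
  simp only [sub_zero, sub_self] at h2
  have h3 : IntervalIntegrable (fun u : ℝ => Real.log (1 - u)) volume 0 1 := h2.symm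
  exact (intervalIntegrable_iff_integrableOn_Ioo_of_le zero_le_one).1 h3

theorem a6_K_lt_top : ∫⁻ u in Ioo (0 : ℝ) 1, ENNReal.ofReal (6 - 4 * Real.log (1 - u)) < ⊤ := by
  have h : IntegrableOn (fun u : ℝ => 6 - 4 * Real.log (1 - u)) (Ioo (0 : ℝ) 1) :=
    (integrableOn_const (by simp)).sub (a6_log_int.const_mul 4)
  exact h.lintegral_lt_top

theorem a6_gK_meas (x : ℝ) : Measurable (gK x) := by
  unfold gK
  fun_prop

theorem a6_gT_meas (x : ℝ) : Measurable (gT x) := by
  unfold gT
  fun_prop

theorem a6_lK_meas : Measurable lK := by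
  unfold lK
  apply Measurable.ite measurableSet_Ioi (by fun_prop) measurable_const

/-- the pointwise bound -/
theorem a6_point {x u : ℝ} (hx : 0 < x) (hx1 : x < 1) (hu : 0 < u) (hu1 : u < 1) :
    |gK x u - gT x u| * (1 / u ^ 2) ≤
      (if u ≤ 1 - x then 1 / (1 - x) else 0) + (if 1 - x < u then (1 - x) ^ 2 / u ^ 3 else 0) +
        (6 - 4 * Real.log (1 - u)) := by
  set v := 1 - x with hv
  have hv0 : 0 < v := by linarith
  have hv1 : v < 1 := by linarith
  have hxv : x = 1 - v := by linarith
  have hlog : Real.log (1 - u) ≤ 0 := Real.log_nonpos (by linarith) (by linarith)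
  have hD : 0 < u + v - u * v := by nlinarith
  have hDu : u ≤ u + v - u * v := by nlinarith
  have hDv : v ≤ u + v - u * v := by nlinarith
  have hD' : u + v - u * v ≠ 0 := hD.ne'
  have h1u : 1 - u ≠ 0 := by
    have : 0 < 1 - u := by linarith
    exact this.ne'
  have h1v : 1 - v ≠ 0 := by
    have : 0 < 1 - v := by linarith
    exact this.ne'
  have hgT : gT x u = (1 - v) * u ^ 2 / (u + v - u * v) := by
    unfold gT
    rw [hxv]
    congr 1
    ring
  have hgT0 : 0 ≤ gT x u := by
    rw [hgT]
    have : 0 ≤ 1 - v := by linarith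
    positivity
  rcases le_or_gt u v with huv | huv
  · rw [if_pos huv, if_neg (not_lt.2 huv)]
    have hK : gK x u = 0 := by
      unfold gK
      apply max_eq_left
      have : Real.log x ≤ Real.log (1 - u) := Real.log_le_log hx (by linarith)
      linarith
    rw [hK, zero_sub, abs_neg, abs_of_nonneg hgT0, hgT]
    have h1 : (1 - v) * u ^ 2 / (u + v - u * v) * (1 / u ^ 2) = (1 - v) / (u + v - u * v) := by
      field_simp
    rw [h1]
    have h2 : (1 - v) / (u + v - u * v) ≤ 1 / v :=
      div_le_div₀ (by norm_num) (by linarith) hv0 hDv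
    linarith
  · rw [if_neg (not_le.2 huv), if_pos huv]
    have hK : gK x u = Real.log ((1 - v) / (1 - u)) := by
      unfold gK
      rw [Real.log_div (by linarith) (by linarith), ← hxv]
      apply max_eq_right
      have : Real.log (1 - u) ≤ Real.log x := Real.log_le_log (by linarith) (by linarith)
      linarith
    have hpos : 0 < (1 - v) / (1 - u) := div_pos (by linarith) (by linarith)
    have hKup : gK x u ≤ (u - v) / (1 - u) := by
      rw [hK]
      have := Real.log_le_sub_one_of_pos hpos
      have h3 : (1 - v) / (1 - u) - 1 = (u - v) / (1 - u) := by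
        field_simp
        ring
      linarith
    have hKlow : u - v ≤ gK x u := by
      rw [hK]
      have h4 := Real.one_sub_inv_le_log_of_pos hpos
      have h5 : 1 - ((1 - v) / (1 - u))⁻¹ = (u - v) / (1 - v) := by
        rw [inv_div]
        field_simp
        ring
      have h6 : u - v ≤ (u - v) / (1 - v) := by
        rw [le_div_iff₀ (by linarith)]
        nlinarith
      linarith
    have hid : gT x u = (u - v) + v ^ 2 * (1 - u) / (u + v - u * v) := by
      rw [hgT, div_eq_iff hD', add_mul, div_mul_cancel₀ _ hD']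
      ring
    have hrem0 : 0 ≤ v ^ 2 * (1 - u) / (u + v - u * v) := by
      have : 0 ≤ 1 - u := by linarith
      positivity
    have hrem1 : v ^ 2 * (1 - u) / (u + v - u * v) ≤ v ^ 2 / u := by
      apply div_le_div₀ (by positivity) _ hu hDu
      nlinarith [sq_nonneg v]
    have hu2 : 0 < 1 / u ^ 2 := by positivity
    have hv3 : v ^ 2 / u ^ 3 = v ^ 2 / u * (1 / u ^ 2) := by
      field_simp
    rcases le_or_gt u (1 / 2) with hh | hh
    · have habs : |gK x u - gT x u| ≤ v ^ 2 / u + 2 * u ^ 2 := by
        rw [abs_le]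
        constructor
        · have : 0 ≤ 2 * u ^ 2 := by positivity
          linarith
        · have h7 : (u - v) / (1 - u) - (u - v) ≤ 2 * u ^ 2 := by
            have h8 : (u - v) / (1 - u) - (u - v) = (u - v) * u / (1 - u) := by
              field_simp
              ring
            rw [h8, div_le_iff₀ (by linarith)]
            nlinarith [mul_pos hu hu, mul_pos hv0 hu]
          have : 0 ≤ v ^ 2 / u := by positivity
          linarith
      calc |gK x u - gT x u| * (1 / u ^ 2) ≤ (v ^ 2 / u + 2 * u ^ 2) * (1 / u ^ 2) :=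
            mul_le_mul_of_nonneg_right habs hu2.le
        _ = v ^ 2 / u ^ 3 + 2 := by
            field_simp
        _ ≤ _ := by linarith
    · have hTle : gT x u ≤ 1 := by
        rw [hgT, div_le_one hD]
        nlinarith [mul_pos hv0 hu]
      have hKle : gK x u ≤ - Real.log (1 - u) := by
        rw [hK, Real.log_div (by linarith) (by linarith)]
        have : Real.log (1 - v) ≤ 0 := Real.log_nonpos (by linarith) (by linarith)
        linarith
      have hK0 : 0 ≤ gK x u := by linarith
      have habs : |gK x u - gT x u| ≤ 1 - Real.log (1 - u) := by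
        rw [abs_le]
        constructor <;> linarith
      have hu4 : 1 / u ^ 2 ≤ 4 := by
        rw [div_le_iff₀ (by positivity)]
        nlinarith
      have : 0 ≤ v ^ 2 / u ^ 3 := by positivity
      calc |gK x u - gT x u| * (1 / u ^ 2) ≤ (1 - Real.log (1 - u)) * 4 :=
            mul_le_mul habs hu4 hu2.le (by linarith)
        _ ≤ _ := by linarith

theorem a6_tail {v : ℝ} (hv : 0 < v) :
    ∫⁻ u in Ioi v, ENNReal.ofReal (v ^ 2 / u ^ 3) = ENNReal.ofReal (1 / 2) := by
  have h1 : ∀ t ∈ Ioi v, v ^ 2 / t ^ 3 = v ^ 2 * t ^ (-3 : ℝ) := by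
    intro t ht
    have : 0 < t := lt_trans hv ht
    rw [Real.rpow_neg this.le, show (3 : ℝ) = ((3 : ℕ) : ℝ) by norm_num, Real.rpow_natCast]
    rfl
  rw [setLIntegral_congr_fun (g := fun t => ENNReal.ofReal (v ^ 2 * t ^ (-3 : ℝ))) measurableSet_Ioi
    (fun t ht => by simp only [h1 t ht])]
  rw [← ofReal_integral_eq_lintegral_ofReal, integral_const_mul,
    integral_Ioi_rpow_of_lt (by norm_num) hv]
  · congr 1
    have h : (-3 : ℝ) + 1 = -((2 : ℕ) : ℝ) := by norm_num
    rw [h, Real.rpow_neg hv.le, Real.rpow_natCast]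
    field_simp
    norm_num
  · exact (integrableOn_Ioi_rpow_of_lt (by norm_num) hv).const_mul _
  · filter_upwards [ae_restrict_mem measurableSet_Ioi] with t ht
    have : 0 < t := lt_trans hv ht
    simp only [Pi.zero_apply]
    positivity

section

/- The formula `hrad` (polar coordinates) is proved elsewhere; it is given here as a hypothesis. -/
variable (hrad : ∀ f : ℝ → ℝ≥0∞, Measurable f → ∫⁻ w, f (hh 0 w) ∂hypVol =
      ENNReal.ofReal Real.pi * ∫⁻ u in Ioo (0 : ℝ) 1, f u * ENNReal.ofReal (1 / u ^ 2))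

include hrad

theorem mass_gT_aux {x : ℝ} (hx : 0 < x) (hx1 : x < 1) :
    ∫⁻ w, ENNReal.ofReal (gT x (hh 0 w)) ∂hypVol =
      ENNReal.ofReal (Real.pi * (- Real.log (1 - x))) := by
  rw [hrad (fun u => ENNReal.ofReal (gT x u)) (a6_gT_meas x).ennreal_ofReal]
  have hcongr : ∫⁻ u in Ioo (0 : ℝ) 1, ENNReal.ofReal (gT x u) * ENNReal.ofReal (1 / u ^ 2) =
      ∫⁻ u in Ioo (0 : ℝ) 1, ENNReal.ofReal (x / (1 - x * (1 - u))) := by
    apply setLIntegral_congr_fun measurableSet_Ioo
    intro u hu
    have hu0 : 0 < u := hu.1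
    have hu1 : u < 1 := hu.2
    have hD : 0 < 1 - x * (1 - u) := by nlinarith
    have h0 : 0 ≤ gT x u := by
      unfold gT
      positivity
    show ENNReal.ofReal (gT x u) * ENNReal.ofReal (1 / u ^ 2) = _
    rw [← ENNReal.ofReal_mul h0]
    congr 1
    unfold gT
    field_simp
  rw [hcongr]
  have hDpos : ∀ u ∈ Icc (0 : ℝ) 1, 0 < 1 - x * (1 - u) := by
    intro u hu
    nlinarith [hu.1, hu.2]
  have hcont : ContinuousOn (fun u : ℝ => x / (1 - x * (1 - u))) (Icc 0 1) := by
    apply ContinuousOn.div continuousOn_const (by fun_prop)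
    intro u hu
    exact (hDpos u hu).ne'
  have hint : IntegrableOn (fun u : ℝ => x / (1 - x * (1 - u))) (Ioo 0 1) :=
    (hcont.integrableOn_Icc).mono_set Ioo_subset_Icc_self
  rw [← ofReal_integral_eq_lintegral_ofReal hint, ← ENNReal.ofReal_mul Real.pi_pos.le]
  · congr 2
    rw [← integral_Ioc_eq_integral_Ioo, ← intervalIntegral.integral_of_le zero_le_one]
    have hftc := intervalIntegral.integral_eq_sub_of_hasDerivAt (a := (0 : ℝ)) (b := 1)
      (f := fun u : ℝ => Real.log (1 - x * (1 - u))) (f' := fun u : ℝ => x / (1 - x * (1 - u)))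
      (by
        intro u hu
        rw [uIcc_of_le zero_le_one] at hu
        have h1 : HasDerivAt (fun u : ℝ => 1 - x * (1 - u)) x u := by
          have h2 : HasDerivAt (fun u : ℝ => 1 - x * (1 - u)) (-(x * (-1))) u :=
            (((hasDerivAt_id u).const_sub 1).const_mul x).const_sub 1
          convert h2 using 1
          ring
        exact h1.log (hDpos u hu).ne')
      (by
        apply ContinuousOn.intervalIntegrable
        rw [uIcc_of_le zero_le_one]
        exact hcont)
    rw [hftc]
    simp
  · filter_upwards [ae_restrict_mem measurableSet_Ioo] with u hu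
    have := hDpos u (Ioo_subset_Icc_self hu)
    simp only [Pi.zero_apply]
    positivity

theorem mass_gK_sub_gT_aux : ∃ C : ℝ, ∀ x : ℝ, 0 < x → x < 1 →
    ∫⁻ w, ENNReal.ofReal |gK x (hh 0 w) - gT x (hh 0 w)| ∂hypVol ≤ ENNReal.ofReal C := by
  set L := ∫⁻ u in Ioo (0 : ℝ) 1, ENNReal.ofReal (6 - 4 * Real.log (1 - u)) with hL
  have hLtop : L < ⊤ := a6_K_lt_top
  refine ⟨(ENNReal.ofReal Real.pi * (1 + ENNReal.ofReal (1 / 2) + L)).toReal, ?_⟩
  intro x hx hx1
  rw [ENNReal.ofReal_toReal (by
    apply ENNReal.mul_ne_top ENNReal.ofReal_ne_top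
    rw [ENNReal.add_ne_top, ENNReal.add_ne_top]
    exact ⟨⟨ENNReal.one_ne_top, ENNReal.ofReal_ne_top⟩, hLtop.ne⟩)]
  rw [hrad (fun u => ENNReal.ofReal |gK x u - gT x u|)
    ((a6_gK_meas x).sub (a6_gT_meas x)).abs.ennreal_ofReal]
  apply mul_le_mul_right
  have hv0 : 0 < 1 - x := by linarith
  calc ∫⁻ u in Ioo (0 : ℝ) 1, ENNReal.ofReal |gK x u - gT x u| * ENNReal.ofReal (1 / u ^ 2)
      ≤ ∫⁻ u in Ioo (0 : ℝ) 1, ((ENNReal.ofReal (if u ≤ 1 - x then 1 / (1 - x) else 0) +
          ENNReal.ofReal (if 1 - x < u then (1 - x) ^ 2 / u ^ 3 else 0)) +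
          ENNReal.ofReal (6 - 4 * Real.log (1 - u))) := by
        apply setLIntegral_mono' measurableSet_Ioo
        intro u hu
        have hu0 : 0 < u := hu.1
        have hlog : Real.log (1 - u) ≤ 0 := Real.log_nonpos (by linarith [hu.2]) (by linarith)
        have e1 : 0 ≤ (if u ≤ 1 - x then 1 / (1 - x) else 0) := by
          split_ifs
          · positivity
          · exact le_rfl
        have e2 : 0 ≤ (if 1 - x < u then (1 - x) ^ 2 / u ^ 3 else 0) := by
          split_ifs
          · positivity
          · exact le_rfl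
        rw [← ENNReal.ofReal_mul (abs_nonneg _), ← ENNReal.ofReal_add e1 e2,
          ← ENNReal.ofReal_add (add_nonneg e1 e2) (by linarith)]
        exact ENNReal.ofReal_le_ofReal (a6_point hx hx1 hu.1 hu.2)
    _ = (∫⁻ u in Ioo (0 : ℝ) 1, ENNReal.ofReal (if u ≤ 1 - x then 1 / (1 - x) else 0)) +
          (∫⁻ u in Ioo (0 : ℝ) 1, ENNReal.ofReal (if 1 - x < u then (1 - x) ^ 2 / u ^ 3 else 0)) +
          L := by
        have m1 : Measurable (fun u : ℝ => ENNReal.ofReal (if u ≤ 1 - x then 1 / (1 - x) else 0)) :=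
          (Measurable.ite measurableSet_Iic measurable_const measurable_const).ennreal_ofReal
        have m2 : Measurable (fun u : ℝ => ENNReal.ofReal (if 1 - x < u then (1 - x) ^ 2 / u ^ 3 else 0)) :=
          (Measurable.ite measurableSet_Ioi (by fun_prop) measurable_const).ennreal_ofReal
        have m3 : Measurable (fun u : ℝ => ENNReal.ofReal (6 - 4 * Real.log (1 - u))) := by
          fun_prop
        rw [lintegral_add_right _ m3, lintegral_add_left m1]
    _ ≤ 1 + ENNReal.ofReal (1 / 2) + L := by
        gcongr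
        · calc ∫⁻ u in Ioo (0 : ℝ) 1, ENNReal.ofReal (if u ≤ 1 - x then 1 / (1 - x) else 0)
              = ∫⁻ u in Ioo (0 : ℝ) 1, (Iic (1 - x)).indicator (fun _ => ENNReal.ofReal (1 / (1 - x))) u := by
                apply lintegral_congr
                intro u
                by_cases h : u ≤ 1 - x
                · rw [if_pos h, indicator_of_mem (show u ∈ Iic (1 - x) from h)]
                · rw [if_neg h, indicator_of_notMem (show u ∉ Iic (1 - x) from h), ENNReal.ofReal_zero]
            _ = ENNReal.ofReal (1 / (1 - x)) * volume (Ioo (0 : ℝ) 1 ∩ Iic (1 - x)) := by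
                rw [lintegral_indicator measurableSet_Iic, Measure.restrict_restrict measurableSet_Iic,
                  setLIntegral_const, inter_comm]
            _ ≤ ENNReal.ofReal (1 / (1 - x)) * volume (Ioc (0 : ℝ) (1 - x)) := by
                gcongr
                intro u hu
                exact ⟨hu.1.1, hu.2⟩
            _ = 1 := by
                rw [Real.volume_Ioc, sub_zero, ← ENNReal.ofReal_mul (by positivity)]
                rw [one_div, inv_mul_cancel₀ hv0.ne', ENNReal.ofReal_one]
        · calc ∫⁻ u in Ioo (0 : ℝ) 1, ENNReal.ofReal (if 1 - x < u then (1 - x) ^ 2 / u ^ 3 else 0)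
              ≤ ∫⁻ u, ENNReal.ofReal (if 1 - x < u then (1 - x) ^ 2 / u ^ 3 else 0) :=
                setLIntegral_le_lintegral _ _
            _ = ∫⁻ u, (Ioi (1 - x)).indicator (fun u => ENNReal.ofReal ((1 - x) ^ 2 / u ^ 3)) u := by
                apply lintegral_congr
                intro u
                by_cases h : 1 - x < u
                · rw [if_pos h, indicator_of_mem (show u ∈ Ioi (1 - x) from h)]
                · rw [if_neg h, indicator_of_notMem (show u ∉ Ioi (1 - x) from h), ENNReal.ofReal_zero]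
            _ = ENNReal.ofReal (1 / 2) := by
                rw [lintegral_indicator measurableSet_Ioi, a6_tail hv0]

theorem mass_lK_aux : ∫⁻ w, ENNReal.ofReal (lK (hh 0 w)) ∂hypVol < ⊤ := by
  rw [hrad (fun u => ENNReal.ofReal (lK u)) a6_lK_meas.ennreal_ofReal]
  apply ENNReal.mul_lt_top ENNReal.ofReal_lt_top
  refine lt_of_le_of_lt ?_ a6_K_lt_top
  apply setLIntegral_mono' measurableSet_Ioo
  intro u hu
  have hu0 : 0 < u := hu.1
  have hlog : Real.log (1 - u) ≤ 0 := Real.log_nonpos (by linarith [hu.2]) (by linarith)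
  unfold lK
  split_ifs with h
  · rw [← ENNReal.ofReal_mul (by linarith)]
    apply ENNReal.ofReal_le_ofReal
    have hu4 : 1 / u ^ 2 ≤ 4 := by
      rw [div_le_iff₀ (by positivity)]
      nlinarith
    have hu2 : 0 < 1 / u ^ 2 := by positivity
    calc - Real.log (1 - u) * (1 / u ^ 2) ≤ - Real.log (1 - u) * 4 :=
          mul_le_mul_of_nonneg_left hu4 (by linarith)
      _ ≤ _ := by linarith
  · simp

end

end Pool.Agent.Helper684.Ergo
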