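import Pool.Agent.Helper684.Ergo.Hyp
set_option autoImplicit false

open MeasureTheory Metric Set Filter Topology
open scoped ComplexConjugate ENNReal

namespace Pool.Agent.Helper684.Ergo




theorem hh_zero_left (w : ℂ) : hh 0 w = 1 - ‖w‖ ^ 2 := by simp [hh]

theorem hh_comm (z w : ℂ) : hh z w = hh w z := by
  unfold hh
  have : ‖1 - conj z * w‖ = ‖1 - conj w * z‖ := by
    rw [← Complex.norm_conj]
    simp [mul_comm]
  rw [this, mul_comm (1 - ‖z‖ ^ 2)]

theorem sq_lt_one_of_mem {z : ℂ} (hz : z ∈ ball (0 : ℂ) 1) : 0 < 1 - ‖z‖ ^ 2 := by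
  rw [mem_ball_zero_iff] at hz
  nlinarith [norm_nonneg z]

theorem one_sub_ne {z w : ℂ} (hz : z ∈ ball (0 : ℂ) 1) (hw : w ∈ ball (0 : ℂ) 1) :
    1 - conj z * w ≠ 0 := by
  rw [mem_ball_zero_iff] at hz hw
  intro h
  have h1 : conj z * w = 1 := (sub_eq_zero.mp h).symm
  have h2 : ‖conj z * w‖ = 1 := by rw [h1]; simp
  rw [norm_mul, Complex.norm_conj] at h2
  nlinarith [norm_nonneg z, norm_nonneg w]

theorem one_add_ne {z w : ℂ} (hz : z ∈ ball (0 : ℂ) 1) (hw : w ∈ ball (0 : ℂ) 1) :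
    1 + conj z * w ≠ 0 := by
  have := one_sub_ne (z := z) (w := -w) hz (by simpa using hw)
  simpa using this

theorem norm_key (z w : ℂ) :
    ‖1 - conj z * w‖ ^ 2 = (1 - ‖z‖ ^ 2) * (1 - ‖w‖ ^ 2) + ‖z - w‖ ^ 2 := by
  simp only [Complex.sq_norm, Complex.normSq_apply]
  simp
  ring

theorem norm_key' (a z : ℂ) :
    ‖1 + conj a * z‖ ^ 2 = (1 - ‖a‖ ^ 2) * (1 - ‖z‖ ^ 2) + ‖z + a‖ ^ 2 := by
  simp only [Complex.sq_norm, Complex.normSq_apply]
  simp
  ring

theorem hh_pos {z w : ℂ} (hz : z ∈ ball (0 : ℂ) 1) (hw : w ∈ ball (0 : ℂ) 1) : 0 < hh z w := by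
  unfold hh
  have h1 := sq_lt_one_of_mem hz
  have h2 := sq_lt_one_of_mem hw
  have h3 : 0 < ‖1 - conj z * w‖ := norm_pos_iff.mpr (one_sub_ne hz hw)
  positivity

theorem hh_le_one {z w : ℂ} (hz : z ∈ ball (0 : ℂ) 1) (hw : w ∈ ball (0 : ℂ) 1) :
    hh z w ≤ 1 := by
  unfold hh
  have h3 : 0 < ‖1 - conj z * w‖ := norm_pos_iff.mpr (one_sub_ne hz hw)
  rw [div_le_one (by positivity), norm_key]
  nlinarith [sq_nonneg ‖z - w‖]

theorem measurable_hh : Measurable fun p : ℂ × ℂ => hh p.1 p.2 := by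
  unfold hh
  have : Measurable (fun p : ℂ × ℂ => conj p.1) := Complex.continuous_conj.measurable.comp measurable_fst
  fun_prop

theorem measurable_mob : Measurable fun p : ℂ × ℂ => mob p.1 p.2 := by
  unfold mob
  have : Measurable (fun p : ℂ × ℂ => conj p.1) := Complex.continuous_conj.measurable.comp measurable_fst
  fun_prop

theorem one_sub_norm_mob {a z : ℂ} (ha : a ∈ ball (0 : ℂ) 1) (hz : z ∈ ball (0 : ℂ) 1) :
    1 - ‖mob a z‖ ^ 2 = (1 - ‖a‖ ^ 2) * (1 - ‖z‖ ^ 2) / ‖1 + conj a * z‖ ^ 2 := by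
  have h3 : 0 < ‖1 + conj a * z‖ := norm_pos_iff.mpr (one_add_ne ha hz)
  unfold mob
  rw [norm_div, div_pow, eq_div_iff (by positivity), sub_mul, one_mul,
    div_mul_cancel₀ _ (by positivity), norm_key']
  ring

theorem mob_mem {a z : ℂ} (ha : a ∈ ball (0 : ℂ) 1) (hz : z ∈ ball (0 : ℂ) 1) :
    mob a z ∈ ball (0 : ℂ) 1 := by
  have h := one_sub_norm_mob ha hz
  have h1 := sq_lt_one_of_mem ha
  have h2 := sq_lt_one_of_mem hz
  have h3 : 0 < ‖1 + conj a * z‖ := norm_pos_iff.mpr (one_add_ne ha hz)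
  have h4 : 0 < 1 - ‖mob a z‖ ^ 2 := by rw [h]; positivity
  rw [mem_ball_zero_iff]
  nlinarith [norm_nonneg (mob a z)]

theorem conj_mul_self_ne {a : ℂ} (ha : a ∈ ball (0 : ℂ) 1) : 1 - conj a * a ≠ 0 :=
  one_sub_ne ha ha

theorem neg_mem_ball {a : ℂ} (ha : a ∈ ball (0 : ℂ) 1) : -a ∈ ball (0 : ℂ) 1 := by
  simpa using ha

theorem mob_neg_mob {a z : ℂ} (ha : a ∈ ball (0 : ℂ) 1) (hz : z ∈ ball (0 : ℂ) 1) :
    mob (-a) (mob a z) = z := by
  have h1 := one_add_ne ha hz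
  have h2 := conj_mul_self_ne ha
  have h3 := one_add_ne (neg_mem_ball ha) (mob_mem ha hz)
  have hq : mob a z * (1 + conj a * z) = z + a := by
    unfold mob
    rw [div_mul_cancel₀ _ h1]
  generalize mob a z = q at hq h3
  unfold mob
  rw [div_eq_iff h3, map_neg]
  linear_combination hq

theorem hasDerivAt_mob {a z : ℂ} (ha : a ∈ ball (0 : ℂ) 1) (hz : z ∈ ball (0 : ℂ) 1) :
    HasDerivAt (mob a) ((1 - conj a * a) / (1 + conj a * z) ^ 2) z := by
  have h1 := one_add_ne ha hz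
  have h2 : HasDerivAt (fun z : ℂ => z + a) 1 z := (hasDerivAt_id z).add_const a
  have h3 : HasDerivAt (fun z : ℂ => 1 + conj a * z) (conj a) z := by
    simpa using ((hasDerivAt_id z).const_mul (conj a)).const_add 1
  have h4 := h2.div h3 h1
  refine HasDerivAt.congr_deriv h4 ?_
  congr 1
  ring

theorem differentiableOn_mob {a : ℂ} (ha : a ∈ ball (0 : ℂ) 1) :
    DifferentiableOn ℂ (mob a) (ball 0 1) := fun _ hz =>
  (hasDerivAt_mob ha hz).differentiableAt.differentiableWithinAt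

theorem hh_mob {a z w : ℂ} (ha : a ∈ ball (0 : ℂ) 1) (hz : z ∈ ball (0 : ℂ) 1)
    (hw : w ∈ ball (0 : ℂ) 1) : hh (mob a z) (mob a w) = hh z w := by
  have h1 := one_add_ne ha hz
  have h2 := one_add_ne ha hw
  have h4 : ‖1 - conj (mob a z) * mob a w‖ =
      (1 - ‖a‖ ^ 2) * ‖1 - conj z * w‖ / (‖1 + conj a * z‖ * ‖1 + conj a * w‖) := by
    have e1 : 1 - conj (mob a z) * mob a w =
        (1 - conj a * a) * (1 - conj z * w) / (conj (1 + conj a * z) * (1 + conj a * w)) := by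
      have h1' : conj (1 + conj a * z) ≠ 0 := by
        rw [Ne, map_eq_zero]; exact h1
      unfold mob
      rw [map_div₀, div_mul_div_comm, eq_div_iff (mul_ne_zero h1' h2), sub_mul,
        div_mul_cancel₀ _ (mul_ne_zero h1' h2)]
      simp only [map_add, map_mul, map_one, Complex.conj_conj]
      ring
    have e2 : ‖1 - conj a * a‖ = 1 - ‖a‖ ^ 2 := by
      rw [← Complex.normSq_eq_conj_mul_self, Complex.normSq_eq_norm_sq, ← Complex.ofReal_one,
        ← Complex.ofReal_sub, Complex.norm_real, Real.norm_eq_abs, abs_of_pos (sq_lt_one_of_mem ha)]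
    rw [e1, norm_div, norm_mul, norm_mul, Complex.norm_conj, e2]
  have k0 := sq_lt_one_of_mem ha
  have k1 : 0 < ‖1 + conj a * z‖ := norm_pos_iff.mpr h1
  have k2 : 0 < ‖1 + conj a * w‖ := norm_pos_iff.mpr h2
  have k3 : 0 < ‖1 - conj z * w‖ := norm_pos_iff.mpr (one_sub_ne hz hw)
  unfold hh
  rw [h4, one_sub_norm_mob ha hz, one_sub_norm_mob ha hw]
  field_simp

theorem det_restrict' (c : ℂ) :
    |((ContinuousLinearMap.toSpanSingleton ℂ c).restrictScalars ℝ).det| = ‖c‖ ^ 2 := by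
  simp [ContinuousLinearMap.det, LinearMap.det_restrictScalars, Algebra.norm_complex_eq,
    Complex.normSq_eq_norm_sq]

theorem mp_general {T T' : ℂ → ℂ} (hT : Measurable T)
    (hd : ∀ z ∈ ball (0 : ℂ) 1, HasDerivAt T (T' z) z) (hinj : InjOn T (ball (0 : ℂ) 1))
    (himg : T '' ball (0 : ℂ) 1 = ball (0 : ℂ) 1)
    (hJ : ∀ z ∈ ball (0 : ℂ) 1, ‖T' z‖ ^ 2 * (1 / (1 - ‖T z‖ ^ 2) ^ 2) = 1 / (1 - ‖z‖ ^ 2) ^ 2) :
    MeasurePreserving T hypVol hypVol := by
  refine ⟨hT, Measure.ext fun A hA => ?_⟩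
  rw [Measure.map_apply hT hA]
  unfold hypVol
  rw [withDensity_apply _ hA, withDensity_apply _ (hT hA), ← lintegral_indicator hA,
    ← lintegral_indicator (hT hA)]
  conv_rhs => rw [← himg]
  rw [lintegral_image_eq_lintegral_abs_det_fderiv_mul volume measurableSet_ball
    (f' := fun x => (ContinuousLinearMap.toSpanSingleton ℂ (T' x)).restrictScalars ℝ)
    (fun x hx => ((hd x hx).hasFDerivAt.restrictScalars ℝ).hasFDerivWithinAt) hinj]
  refine setLIntegral_congr_fun measurableSet_ball (fun x hx => ?_)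
  simp only [det_restrict']
  by_cases hxA : T x ∈ A
  · rw [indicator_of_mem (show x ∈ T ⁻¹' A from hxA), indicator_of_mem hxA,
      ← ENNReal.ofReal_mul (by positivity), hJ x hx]
  · rw [indicator_of_notMem (show x ∉ T ⁻¹' A from hxA), indicator_of_notMem hxA, mul_zero]

theorem measurePreserving_mob {a : ℂ} (ha : a ∈ ball (0 : ℂ) 1) :
    MeasurePreserving (mob a) hypVol hypVol := by
  have hm : Measurable (mob a) := measurable_mob.comp (measurable_const.prodMk measurable_id)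
  refine mp_general hm (T' := fun z => (1 - conj a * a) / (1 + conj a * z) ^ 2)
    (fun z hz => hasDerivAt_mob ha hz) ?_ ?_ ?_
  · intro z hz w hw h
    rw [← mob_neg_mob ha hz, h, mob_neg_mob ha hw]
  · apply Subset.antisymm
    · rintro _ ⟨z, hz, rfl⟩
      exact mob_mem ha hz
    · intro z hz
      refine ⟨mob (-a) z, mob_mem (neg_mem_ball ha) hz, ?_⟩
      have := mob_neg_mob (neg_mem_ball ha) hz
      rwa [neg_neg] at this
  · intro z hz
    have k0 := sq_lt_one_of_mem ha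
    have kz := sq_lt_one_of_mem hz
    have k1 : 0 < ‖1 + conj a * z‖ := norm_pos_iff.mpr (one_add_ne ha hz)
    have e2 : ‖1 - conj a * a‖ = 1 - ‖a‖ ^ 2 := by
      rw [← Complex.normSq_eq_conj_mul_self, Complex.normSq_eq_norm_sq, ← Complex.ofReal_one,
        ← Complex.ofReal_sub, Complex.norm_real, Real.norm_eq_abs, abs_of_pos (sq_lt_one_of_mem ha)]
    simp only [norm_div, norm_pow]
    rw [e2, one_sub_norm_mob ha hz]
    field_simp

theorem measurePreserving_rot {c : ℂ} (hc : ‖c‖ = 1) :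
    MeasurePreserving (fun z : ℂ => c * z) hypVol hypVol := by
  have hc0 : c ≠ 0 := by
    rintro rfl
    simp at hc
  refine mp_general (by fun_prop) (T' := fun _ => c)
    (fun z hz => by simpa using (hasDerivAt_id z).const_mul c) ?_ ?_ ?_
  · intro z _ w _ h
    exact mul_left_cancel₀ hc0 h
  · apply Subset.antisymm
    · rintro _ ⟨z, hz, rfl⟩
      rw [mem_ball_zero_iff] at hz ⊢
      simpa [hc] using hz
    · intro z hz
      rw [mem_ball_zero_iff] at hz
      refine ⟨c⁻¹ * z, ?_, ?_⟩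
      · rw [mem_ball_zero_iff]
        simpa [hc] using hz
      · show c * (c⁻¹ * z) = z
        rw [mul_inv_cancel_left₀ hc0]
  · intro z hz
    simp [hc]


theorem cc1 : Measurable (fun z => hh 0 z) := by
  have : (fun z => hh 0 z) = fun z => 1 - ‖z‖ ^ 2 := by
    funext z; exact hh_zero_left z
  rw [this]
  fun_prop

theorem cc2 (w : ℂ) : Measurable (fun z => hh z w) := by
  have : (fun z => hh z w) = (fun p : ℂ × ℂ => hh p.1 p.2) ∘ (fun z => (z, w)) := rfl
  rw [this]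
  exact measurable_hh.comp (by fun_prop)

theorem cc3 {w : ℂ} (hw : w ∈ ball (0 : ℂ) 1) :
    MeasurePreserving (fun z : ℂ => mob w (-1 * z)) hypVol hypVol := by
  have h1 := measurePreserving_mob hw
  have h2 := measurePreserving_rot (c := -1) (by simp)
  exact h1.comp h2

theorem cc4 {w z : ℂ} (hw : w ∈ ball (0 : ℂ) 1) (hz : z ∈ ball (0 : ℂ) 1) :
    hh 0 (mob w (-1 * z)) = hh z w ∧ hh (mob w (-1 * z)) w = hh 0 z := by
  have h0 : (0 : ℂ) ∈ ball (0 : ℂ) 1 := by simp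
  have e1 : mob w (-1 * z) = mob w (-z) := by rw [neg_one_mul]
  have a1 : mob w (-w) = 0 := by unfold mob; simp
  have a2 : mob w 0 = w := by unfold mob; simp
  have hneg : ∀ x y : ℂ, hh (-x) (-y) = hh x y := by
    intro x y; simp [hh]
  have b1 : hh 0 (mob w (-z)) = hh z w := by
    have := hh_mob hw (neg_mem_ball hw) (neg_mem_ball hz)
    rw [a1, hneg] at this
    rw [this, hh_comm]
  have b2 : hh (mob w (-z)) w = hh 0 z := by
    have : hh (mob w (-z)) (mob w 0) = hh (-z) 0 := hh_mob hw (neg_mem_ball hz) h0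
    rw [a2] at this
    rw [this, hh_comm 0 z, ← hneg z 0, neg_zero]
  rw [e1]
  exact ⟨b1, b2⟩

theorem cc5 : ∀ᵐ z ∂hypVol, z ∈ ball (0 : ℂ) 1 := by
  have h := ae_restrict_mem (μ := (volume : Measure ℂ)) (measurableSet_ball (x := (0 : ℂ)) (ε := 1))
  exact (withDensity_absolutelyContinuous _ _).ae_le h

/-- convolutions of radial kernels commute -/
theorem conv_comm (k₁ k₂ : ℝ → ℝ≥0∞) (h₁ : Measurable k₁) (h₂ : Measurable k₂) {w : ℂ}
    (hw : w ∈ ball (0 : ℂ) 1) :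
    ∫⁻ z, k₁ (hh 0 z) * k₂ (hh z w) ∂hypVol = ∫⁻ z, k₂ (hh 0 z) * k₁ (hh z w) ∂hypVol := by
  have hT := cc3 hw
  have hm : Measurable (fun z => k₁ (hh 0 z) * k₂ (hh z w)) := by
    apply Measurable.mul
    · exact h₁.comp cc1
    · exact h₂.comp (cc2 w)
  rw [← hT.lintegral_comp hm]
  refine lintegral_congr_ae ?_
  filter_upwards [cc5] with z hz
  rw [(cc4 hw hz).1, (cc4 hw hz).2, mul_comm]

end Pool.Agent.Helper684.Ergo
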