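import Pool.Agent.Helper684.Ergo.HypRad
import Pool.Agent.Helper684.Ergo.HypMob
import Pool.Agent.Helper684.Ergo.HypApprox
import Pool.Agent.Helper684.Ergo.HypConv
import Pool.Agent.Helper684.Ergo.HypKer
import Pool.Agent.Helper684.Ergo.HypMass
import Pool.Agent.Helper684.Ergo.HypPot
import Pool.Agent.Helper684.Ergo.HypLoc

set_option autoImplicit false

open MeasureTheory Metric Set Filter Topology
open scoped ComplexConjugate ENNReal

namespace Pool.Agent.Helper684.Ergo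

theorem mass_gT {x : ℝ} (hx : 0 < x) (hx1 : x < 1) :
    ∫⁻ w, ENNReal.ofReal (gT x (hh 0 w)) ∂hypVol =
      ENNReal.ofReal (Real.pi * (- Real.log (1 - x))) :=
  mass_gT_aux lintegral_radial hx hx1

theorem mass_gK_sub_gT : ∃ C : ℝ, ∀ x : ℝ, 0 < x → x < 1 →
    ∫⁻ w, ENNReal.ofReal |gK x (hh 0 w) - gT x (hh 0 w)| ∂hypVol ≤ ENNReal.ofReal C :=
  mass_gK_sub_gT_aux lintegral_radial

theorem mass_lK : ∫⁻ w, ENNReal.ofReal (lK (hh 0 w)) ∂hypVol < ⊤ :=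
  mass_lK_aux lintegral_radial

theorem conv_lK : ∃ C : ℝ, 0 ≤ C ∧ ∀ w ∈ ball (0 : ℂ) 1,
    ∫⁻ z, ENNReal.ofReal (hh 0 z ^ 2) * ENNReal.ofReal (lK (hh z w)) ∂hypVol ≤
      ENNReal.ofReal (C * hh 0 w ^ 2) :=
  conv_lK_aux (fun _ ha => measurePreserving_mob ha)
    (fun _ ha _ hz _ hw => hh_mob ha hz hw) mass_lK

end Pool.Agent.Helper684.Ergo
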