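import Pool.Agent.Helper684.Ergo.Hyp
set_option autoImplicit false

open MeasureTheory Metric Set Filter Topology
open scoped ComplexConjugate ENNReal

namespace Pool.Agent.Helper684.Ergo




/-- polar coordinates for radial functions and the hyperbolic area -/
theorem lintegral_radial (f : ℝ → ℝ≥0∞) (hf : Measurable f) :
    ∫⁻ w, f (hh 0 w) ∂hypVol =
      ENNReal.ofReal Real.pi * ∫⁻ u in Ioo (0 : ℝ) 1, f u * ENNReal.ofReal (1 / u ^ 2) := by
  have hh0 : ∀ w : ℂ, hh 0 w = 1 - ‖w‖ ^ 2 := by intro w; simp [hh]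
  obtain ⟨G, hG⟩ : ∃ G : ℝ → ℝ≥0∞, G = (Iio 1).indicator
    (fun r => ENNReal.ofReal (1 / (1 - r ^ 2) ^ 2) * f (1 - r ^ 2)) := ⟨_, rfl⟩
  have hGm : Measurable G := by
    rw [hG]
    apply Measurable.indicator _ measurableSet_Iio
    exact (by fun_prop : Measurable fun r : ℝ => ENNReal.ofReal (1 / (1 - r ^ 2) ^ 2)).mul
      (hf.comp (by fun_prop))
  have h1 : ∫⁻ w, f (hh 0 w) ∂hypVol = ∫⁻ w : ℂ, G ‖w‖ := by
    unfold hypVol
    rw [lintegral_withDensity_eq_lintegral_mul _ (by fun_prop)
      (by simp only [hh0]; exact hf.comp (by fun_prop))]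
    rw [← lintegral_indicator measurableSet_ball]
    apply lintegral_congr
    intro w
    by_cases hw : ‖w‖ < 1
    · rw [indicator_of_mem (by simpa using hw), hG, indicator_of_mem (by simpa using hw)]
      simp [hh0]
    · rw [indicator_of_notMem (by simpa using hw), hG, indicator_of_notMem (by simpa using hw)]
  have h2 : ∫⁻ w : ℂ, G ‖w‖ = ∫⁻ p in polarCoord.target, ENNReal.ofReal p.1 * G p.1 := by
    rw [← Complex.lintegral_comp_polarCoord_symm]
    apply setLIntegral_congr_fun polarCoord.open_target.measurableSet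
    intro p hp
    rw [polarCoord_target] at hp
    have hp1 : 0 < p.1 := hp.1
    simp only [smul_eq_mul]
    rw [Complex.norm_polarCoord_symm, abs_of_pos hp1]
  have h3 : ∫⁻ p in polarCoord.target, ENNReal.ofReal p.1 * G p.1 =
      ENNReal.ofReal (2 * Real.pi) * ∫⁻ r in Ioi (0 : ℝ), ENNReal.ofReal r * G r := by
    rw [polarCoord_target, Measure.volume_eq_prod, ← Measure.prod_restrict,
      lintegral_prod _ (by fun_prop)]
    simp only [lintegral_const, Measure.restrict_apply, univ_inter, Real.volume_Ioo,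
      MeasurableSet.univ]
    rw [lintegral_mul_const _ (by fun_prop), mul_comm]
    congr 2
    ring
  have h4 : ∫⁻ r in Ioi (0 : ℝ), ENNReal.ofReal r * G r =
      ∫⁻ r in Ioo (0 : ℝ) 1, ENNReal.ofReal r *
        (ENNReal.ofReal (1 / (1 - r ^ 2) ^ 2) * f (1 - r ^ 2)) := by
    rw [← lintegral_indicator measurableSet_Ioi, ← lintegral_indicator measurableSet_Ioo]
    apply lintegral_congr
    intro r
    by_cases h0 : 0 < r
    · by_cases h1 : r < 1
      · rw [indicator_of_mem (by simpa using h0), indicator_of_mem (by simp [h0, h1]), hG,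
          indicator_of_mem (by simpa using h1)]
      · rw [indicator_of_mem (by simpa using h0), indicator_of_notMem (by simp [h1]), hG,
          indicator_of_notMem (by simpa using h1), mul_zero]
    · rw [indicator_of_notMem (by simpa using h0), indicator_of_notMem (by simp [h0])]
  have himg : (fun r : ℝ => 1 - r ^ 2) '' Ioo (0 : ℝ) 1 = Ioo 0 1 := by
    ext u
    simp only [mem_image, mem_Ioo]
    constructor
    · rintro ⟨r, ⟨hr0, hr1⟩, rfl⟩
      constructor <;> nlinarith
    · rintro ⟨hu0, hu1⟩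
      refine ⟨Real.sqrt (1 - u), ⟨Real.sqrt_pos.mpr (by linarith), ?_⟩, ?_⟩
      · rw [Real.sqrt_lt' (by norm_num)]; linarith
      · rw [Real.sq_sqrt (by linarith)]; ring
  have h5 := lintegral_image_eq_lintegral_abs_deriv_mul (s := Ioo (0 : ℝ) 1)
    (f := fun r : ℝ => 1 - r ^ 2) (f' := fun r => -(2 * r)) measurableSet_Ioo
    (fun x _ => by
      have := (hasDerivAt_pow 2 x).const_sub 1
      simpa using this.hasDerivWithinAt)
    (fun a ha b hb hab => by
      simp only [mem_Ioo] at ha hb
      simp only at hab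
      nlinarith)
    (fun u => f u * ENNReal.ofReal (1 / u ^ 2))
  rw [himg] at h5
  rw [h1, h2, h3, h4, h5, ENNReal.ofReal_mul (by norm_num), mul_comm (ENNReal.ofReal 2), mul_assoc]
  congr 1
  rw [← lintegral_const_mul]
  · apply setLIntegral_congr_fun measurableSet_Ioo
    intro r hr
    simp only
    rw [abs_neg, abs_of_pos (by linarith [hr.1]), ENNReal.ofReal_mul (by norm_num)]
    ring
  · exact ENNReal.measurable_ofReal.mul ((by fun_prop : Measurable fun r : ℝ =>
      ENNReal.ofReal (1 / (1 - r ^ 2) ^ 2)).mul (hf.comp (by fun_prop)))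

end Pool.Agent.Helper684.Ergo
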